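import Pool.Agent.NUC62.Circle

/-!
Folded (symplectic) version of `NUC62.Circle`: a window `S ⊆ (0, Λ/2]` of the half line inside the
half circle, in `lintegral` form.  The sharp bound on the circle is the hypothesis `hRU`.
-/

open MeasureTheory Finset Filter
open scoped Topology Real ENNReal

namespace Pool.Agent.FSz

open Pool.Agent.Szego62 (mu Wser)

noncomputable section

/-- even real potential -/
def Cser (c : ℕ → ℝ) (x : ℝ) : ℝ := ∑' k : ℕ, 2 * c k * Real.cos (((k : ℝ) + 1) * x)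

theorem Cser_cont {c : ℕ → ℝ} (hc : Summable fun k => |c k|) : Continuous (Cser c) := by
  unfold Cser
  refine continuous_tsum (fun k => by fun_prop) (hc.mul_left 2) fun k x => ?_
  rw [Real.norm_eq_abs, abs_mul, abs_mul, abs_two]
  exact mul_le_of_le_one_right (by positivity) (Real.abs_cos_le_one _)

theorem Cser_neg (c : ℕ → ℝ) (x : ℝ) : Cser c (-x) = Cser c x := by
  unfold Cser
  congr 1
  funext k
  rw [mul_neg, Real.cos_neg]

theorem Cser_per (c : ℕ → ℝ) (x : ℝ) : Cser c (2 * π - x) = Cser c x := by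
  unfold Cser
  congr 1
  funext k
  have : ((k : ℝ) + 1) * (2 * π - x) = ((k + 1 : ℕ) : ℝ) * (2 * π) - ((k : ℝ) + 1) * x := by
    push_cast; ring
  rw [this, Real.cos_nat_mul_two_pi_sub]

theorem Wser_neg (w : ℕ → ℝ) (x : ℝ) : Wser w (-x) = Wser w x := by
  unfold Wser
  congr 1
  funext k
  rw [mul_neg, Real.cos_neg]

theorem Wser_per (w : ℕ → ℝ) (x : ℝ) : Wser w (x + 2 * π) = Wser w x := by
  unfold Wser
  congr 1
  funext k
  have : ((k : ℝ) + 1) * (x + 2 * π) = ((k : ℝ) + 1) * x + ((k + 1 : ℕ) : ℝ) * (2 * π) := by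
    push_cast; ring
  rw [this, Real.cos_add_nat_mul_two_pi]

/-- the pair potential of two points and their images -/
def pW (w : ℕ → ℝ) (a b : ℝ) : ℝ := Wser w (a - b) + Wser w (a + b)

theorem pW_comm (w : ℕ → ℝ) (a b : ℝ) : pW w a b = pW w b a := by
  unfold pW
  rw [← Wser_neg w (a - b), neg_sub, add_comm a b]

theorem pW_fold (w : ℕ → ℝ) (a b : ℝ) : pW w (2 * π - a) b = pW w a b := by
  unfold pW
  have e1 : Wser w (2 * π - a - b) = Wser w (a + b) := by
    rw [show 2 * π - a - b = -(a + b) + 2 * π by ring, Wser_per, Wser_neg]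
  have e2 : Wser w (2 * π - a + b) = Wser w (a - b) := by
    rw [show 2 * π - a + b = -(a - b) + 2 * π by ring, Wser_per, Wser_neg]
  rw [e1, e2, add_comm]

/-- fold -/
def fld (θ : ℝ) : ℝ := min θ (2 * π - θ)

theorem fld_cases (θ : ℝ) : fld θ = θ ∨ fld θ = 2 * π - θ := min_choice _ _

theorem pW_fld (w : ℕ → ℝ) (a b : ℝ) : pW w (fld a) (fld b) = pW w a b := by
  have h : ∀ a b, pW w (fld a) b = pW w a b := by
    intro a b
    rcases fld_cases a with h | h <;> rw [h]
    exact pW_fold w a b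
  rw [h, pW_comm, h, pW_comm]

theorem cos_fld (θ : ℝ) : Real.cos (fld θ) = Real.cos θ := by
  rcases fld_cases θ with h | h <;> rw [h]
  exact Real.cos_two_pi_sub θ

theorem sin_fld (θ : ℝ) : Real.sin (fld θ) ^ 2 = Real.sin θ ^ 2 := by
  rcases fld_cases θ with h | h <;> rw [h]
  rw [Real.sin_two_pi_sub, neg_sq]

theorem Cser_fld (c : ℕ → ℝ) (θ : ℝ) : Cser c (fld θ) = Cser c θ := by
  rcases fld_cases θ with h | h <;> rw [h]
  exact Cser_per c θ

theorem W2_fld (w : ℕ → ℝ) (θ : ℝ) : Wser w (2 * fld θ) = Wser w (2 * θ) := by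
  rcases fld_cases θ with h | h <;> rw [h]
  rw [show 2 * (2 * π - θ) = -(2 * θ) + 2 * π + 2 * π by ring, Wser_per, Wser_per, Wser_neg]

/-- the folded circular integrand -/
def intC (n : ℕ) (w c : ℕ → ℝ) (a0 : ℝ) (θ : Fin n → ℝ) : ℝ :=
  (∏ i, ∏ j ∈ Ioi i, ((2 * Real.cos (θ i) - 2 * Real.cos (θ j)) ^ 2 *
    Real.exp (pW w (θ i) (θ j)))) *
  ∏ i, (2 * Real.sin (θ i) ^ 2 * Real.exp (a0 + Cser c (θ i) + Wser w (2 * θ i) / 2))

theorem intC_cont {n : ℕ} {w c : ℕ → ℝ} (hws : Summable fun k => |w k|)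
    (hc : Summable fun k => |c k|) (a0 : ℝ) : Continuous (intC n w c a0) := by
  have h1 := NUC62.Wser_cont hws
  have h2 := Cser_cont hc
  unfold intC pW
  fun_prop

theorem intC_nonneg (n : ℕ) (w c : ℕ → ℝ) (a0 : ℝ) (θ : Fin n → ℝ) : 0 ≤ intC n w c a0 θ := by
  unfold intC
  refine mul_nonneg (prod_nonneg fun i _ => prod_nonneg fun j _ => ?_)
    (prod_nonneg fun i _ => ?_) <;> positivity

/-- angle to position -/
def ev2 (Λ θ : ℝ) : ℝ := Λ / (2 * π) * fld θ

theorem meas_ev2 (Λ : ℝ) : Measurable (ev2 Λ) := by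
  unfold ev2 fld
  fun_prop

theorem vol_ev2 {Λ : ℝ} (hΛ : 0 < Λ) (s : Set ℝ) (hs : MeasurableSet s) :
    volume.restrict (Set.Ioc 0 (Λ / 2)) s = ENNReal.ofReal (Λ / 2) * mu (ev2 Λ ⁻¹' s) := by
  have hpi := Real.pi_pos
  have hc : 0 < Λ / (2 * π) := by positivity
  have hm := meas_ev2 Λ
  set A : Set ℝ := (fun x => Λ / (2 * π) * x) ⁻¹' (s ∩ Set.Ioc 0 (Λ / 2)) with hA
  set B : Set ℝ := (fun x => Λ / (2 * π) * x) ⁻¹' (s ∩ Set.Ico 0 (Λ / 2)) with hB
  have hAm : MeasurableSet A := by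
    rw [hA]
    exact (by fun_prop : Measurable fun x : ℝ => Λ / (2 * π) * x) (hs.inter measurableSet_Ioc)
  have hBm : MeasurableSet B := by
    rw [hB]
    exact (by fun_prop : Measurable fun x : ℝ => Λ / (2 * π) * x) (hs.inter measurableSet_Ico)
  have eπ : Λ / (2 * π) * π = Λ / 2 := by field_simp
  have h1 : ev2 Λ ⁻¹' s ∩ Set.Ioc 0 (2 * π) = A ∪ (fun x => 2 * π - x) ⁻¹' B := by
    ext θ
    simp only [Set.mem_inter_iff, Set.mem_preimage, Set.mem_Ioc, Set.mem_union, hA, hB,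
      Set.mem_Ico]
    unfold ev2
    rcases le_or_gt θ π with h | h
    · have e : fld θ = θ := min_eq_left (by linarith)
      rw [e]
      constructor
      · rintro ⟨h1, h2, h3⟩
        left
        refine ⟨h1, by positivity, ?_⟩
        rw [← eπ]
        exact mul_le_mul_of_nonneg_left h hc.le
      · rintro (⟨h1, h2, h3⟩ | ⟨h1, h2, h3⟩)
        · refine ⟨h1, ?_, by linarith⟩
          exact (mul_pos_iff_of_pos_left hc).1 h2
        · exfalso
          rw [← eπ] at h3
          have := lt_of_mul_lt_mul_left h3 hc.le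
          linarith
    · have e : fld θ = 2 * π - θ := min_eq_right (by linarith)
      rw [e]
      constructor
      · rintro ⟨h1, h2, h3⟩
        right
        refine ⟨h1, mul_nonneg hc.le (by linarith), ?_⟩
        rw [← eπ]
        exact mul_lt_mul_of_pos_left (by linarith) hc
      · rintro (⟨h1, h2, h3⟩ | ⟨h1, h2, h3⟩)
        · exfalso
          rw [← eπ] at h3
          have := le_of_mul_le_mul_left h3 hc
          linarith
        · refine ⟨h1, by linarith, ?_⟩
          have : 0 ≤ 2 * π - θ := nonneg_of_mul_nonneg_right h2 hc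
          linarith
  have hdis : Disjoint A ((fun x => 2 * π - x) ⁻¹' B) := by
    rw [Set.disjoint_left]
    intro θ h1 h2
    simp only [hA, hB, Set.mem_preimage, Set.mem_inter_iff, Set.mem_Ioc, Set.mem_Ico] at h1 h2
    have a1 : θ ≤ π := by
      have := h1.2.2
      rw [← eπ] at this
      exact le_of_mul_le_mul_left this hc
    have a2 : 2 * π - θ < π := by
      have := h2.2.2
      rw [← eπ] at this
      exact lt_of_mul_lt_mul_left this hc.le
    linarith
  have hB2 : volume ((fun x => 2 * π - x) ⁻¹' B) = volume B :=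
    (Measure.measurePreserving_sub_left volume (2 * π)).measure_preimage hBm.nullMeasurableSet
  have hAB : volume A = volume B := by
    rw [hA, hB, Real.volume_preimage_mul_left hc.ne', Real.volume_preimage_mul_left hc.ne']
    congr 1
    refine measure_congr ?_
    exact (ae_eq_refl s).inter (Ioc_ae_eq_Icc.trans Ico_ae_eq_Icc.symm)
  have hA1 : volume A = ENNReal.ofReal (2 * π / Λ) * volume (s ∩ Set.Ioc 0 (Λ / 2)) := by
    rw [hA, Real.volume_preimage_mul_left hc.ne', abs_of_pos (by positivity)]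
    congr 2
    field_simp
  rw [mu, Measure.smul_apply, Measure.restrict_apply (hm hs), h1,
    measure_union hdis ((by fun_prop : Measurable fun x : ℝ => 2 * π - x) hBm), hB2, ← hAB, hA1,
    Measure.restrict_apply hs, smul_eq_mul, ← two_mul]
  rw [← mul_assoc, ← mul_assoc, ← mul_assoc]
  have h3 : ENNReal.ofReal (Λ / 2) * (ENNReal.ofReal (2 * π))⁻¹ * 2 * ENNReal.ofReal (2 * π / Λ) =
      1 := by
    have e2 : (2 : ℝ≥0∞) = ENNReal.ofReal 2 := by simp
    rw [e2, ← ENNReal.ofReal_inv_of_pos (by positivity), ← ENNReal.ofReal_mul (by positivity),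
      ← ENNReal.ofReal_mul (by positivity), ← ENNReal.ofReal_mul (by positivity)]
    rw [ENNReal.ofReal_eq_one]
    field_simp
  rw [h3, one_mul]

theorem pi_ev2 {Λ : ℝ} (hΛ : 0 < Λ) (n : ℕ) :
    (Measure.pi fun _ : Fin n => volume.restrict (Set.Ioc 0 (Λ / 2))) =
    (ENNReal.ofReal (Λ / 2)) ^ n • Measure.map (fun (θ : Fin n → ℝ) i => ev2 Λ (θ i))
      (Measure.pi fun _ => mu) := by
  have hm := meas_ev2 Λ
  have hM : Measurable fun (θ : Fin n → ℝ) i => ev2 Λ (θ i) :=
    measurable_pi_lambda _ fun i => hm.comp (measurable_pi_apply i)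
  apply Measure.pi_eq
  intro s hs
  rw [Measure.smul_apply, Measure.map_apply hM (MeasurableSet.univ_pi hs)]
  have h1 : (fun (θ : Fin n → ℝ) i => ev2 Λ (θ i)) ⁻¹' (Set.univ.pi s) =
      Set.univ.pi fun i => ev2 Λ ⁻¹' (s i) := by
    ext θ
    simp
  rw [h1, Measure.pi_pi, smul_eq_mul]
  simp_rw [vol_ev2 hΛ _ (hs _)]
  rw [prod_mul_distrib]
  simp

/-- number of pairs -/
theorem pair_count (n : ℕ) (u : ℝ) : ∏ i : Fin n, ∏ j ∈ Ioi i, Real.exp (-(2 * u)) =
    Real.exp (-((n : ℝ) * (n - 1) * u)) := by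
  simp only [← Real.exp_sum]
  congr 1
  simp only [sum_const, smul_neg, nsmul_eq_mul, sum_neg_distrib, neg_inj]
  rw [← sum_mul]
  have h2 : ∑ i : Fin n, ((#(Ioi i) : ℕ) : ℝ) = ∑ i : Fin n, ((n : ℝ) - 1 - (i : ℕ)) := by
    refine sum_congr rfl fun i _ => ?_
    rw [Fin.card_Ioi, Nat.sub_sub, Nat.cast_sub (by have := i.2; omega)]
    push_cast
    ring
  rw [h2, Fin.sum_univ_eq_sum_range (fun i => (n : ℝ) - 1 - (i : ℝ)) n, sum_sub_distrib]
  simp only [sum_const, card_range, nsmul_eq_mul]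
  have h3 := Finset.sum_range_id_mul_two n
  have h4 : (∑ i ∈ range n, (i : ℝ)) * 2 = n * (n - 1) := by
    rcases Nat.eq_zero_or_pos n with h0 | h0
    · subst h0; simp
    · have := congrArg (Nat.cast (R := ℝ)) h3
      push_cast [Nat.cast_sub h0] at this
      simpa using this
  linear_combination (-u) * h4

/-- **Window of the half line inside a half circle.** -/
theorem circC {Λ : ℝ} (hΛ : 0 < Λ) (n : ℕ) (w : ℕ → ℝ)
    (hws : Summable fun k => |w k|) (c : ℕ → ℝ) (hc : Summable fun k => |c k|) (a0 Z : ℝ)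
    (hRU : ∫⁻ θ : Fin n → ℝ, ENNReal.ofReal (intC n w c a0 θ) ∂(Measure.pi fun _ => mu) ≤
      ENNReal.ofReal Z)
    (u0 : ℝ) (S : Set ℝ) (hSm : MeasurableSet S)
    (hS : S ⊆ Set.Ioc 0 (Λ / 2))
    (ω g : ℝ → ℝ) (hω0 : ∀ x, 0 ≤ ω x) (hg0 : ∀ x, 0 ≤ g x)
    (hω : ∀ x ∈ S, ∀ y ∈ S, ω (x - y) * ω (x + y) ≤ Real.exp (-(2 * u0)) *
      ((2 * Real.cos (2 * π * x / Λ) - 2 * Real.cos (2 * π * y / Λ)) ^ 2 *
      Real.exp (pW w (2 * π * x / Λ) (2 * π * y / Λ))))
    (hg : ∀ x ∈ S, g x ≤ 2 * Real.sin (2 * π * x / Λ) ^ 2 *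
      Real.exp (a0 + Cser c (2 * π * x / Λ) + Wser w (2 * (2 * π * x / Λ)) / 2)) :
    ∫⁻ t : Fin n → ℝ in Set.univ.pi fun _ => S,
      ENNReal.ofReal ((∏ i, ∏ j ∈ Ioi i, (ω (t i - t j) * ω (t i + t j))) * ∏ i, g (t i)) ≤
    ENNReal.ofReal ((Λ / 2) ^ n * Real.exp (-((n : ℝ) * (n - 1) * u0)) * Z) := by
  have hpi := Real.pi_pos
  -- the continuous majorant
  set H : (Fin n → ℝ) → ℝ := fun t => intC n w c a0 (fun i => 2 * π * t i / Λ) with hH
  have hHc : Continuous H := by
    rw [hH]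
    exact (intC_cont hws hc a0).comp (by fun_prop)
  have hsub : (Set.univ.pi fun _ : Fin n => S) ⊆
      Set.univ.pi fun _ : Fin n => Set.Ioc 0 (Λ / 2) :=
    Set.pi_mono fun _ _ => hS
  calc ∫⁻ t : Fin n → ℝ in Set.univ.pi fun _ => S,
      ENNReal.ofReal ((∏ i, ∏ j ∈ Ioi i, (ω (t i - t j) * ω (t i + t j))) * ∏ i, g (t i)) ≤
      ∫⁻ t : Fin n → ℝ in Set.univ.pi fun _ => S,
        ENNReal.ofReal (Real.exp (-((n : ℝ) * (n - 1) * u0)) * H t) := by
        refine lintegral_mono_ae ((ae_restrict_iff' (MeasurableSet.univ_pi fun _ => hSm)).2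
          (ae_of_all _ fun t ht => ENNReal.ofReal_le_ofReal ?_))
        rw [Set.mem_univ_pi] at ht
        rw [hH, ← pair_count n u0]
        simp only
        unfold intC
        rw [← mul_assoc]
        refine mul_le_mul ?_ (prod_le_prod (fun i _ => hg0 _) fun i _ => hg _ (ht i))
          (prod_nonneg fun i _ => hg0 _) (mul_nonneg
          (prod_nonneg fun i _ => prod_nonneg fun j _ => (Real.exp_pos _).le)
          (prod_nonneg fun i _ => prod_nonneg fun j _ => by positivity))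
        rw [← prod_mul_distrib]
        refine prod_le_prod (fun i _ => prod_nonneg fun j _ => mul_nonneg (hω0 _) (hω0 _))
          fun i _ => ?_
        rw [← prod_mul_distrib]
        exact prod_le_prod (fun j _ => mul_nonneg (hω0 _) (hω0 _)) fun j _ =>
          hω _ (ht i) _ (ht j)
    _ ≤ ∫⁻ t : Fin n → ℝ in Set.univ.pi fun _ => Set.Ioc 0 (Λ / 2),
        ENNReal.ofReal (Real.exp (-((n : ℝ) * (n - 1) * u0)) * H t) :=
        lintegral_mono' (Measure.restrict_mono hsub le_rfl) le_rfl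
    _ = ENNReal.ofReal (Real.exp (-((n : ℝ) * (n - 1) * u0))) *
        ∫⁻ t : Fin n → ℝ in Set.univ.pi fun _ => Set.Ioc 0 (Λ / 2),
        ENNReal.ofReal (H t) := by
        rw [← lintegral_const_mul _ (by fun_prop)]
        simp_rw [ENNReal.ofReal_mul (Real.exp_nonneg _)]
    _ = ENNReal.ofReal (Real.exp (-((n : ℝ) * (n - 1) * u0))) *
        ((ENNReal.ofReal (Λ / 2)) ^ n * ∫⁻ θ : Fin n → ℝ, ENNReal.ofReal (intC n w c a0 θ)
          ∂(Measure.pi fun _ => mu)) := by
        congr 1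
        have hM : Measurable fun (θ : Fin n → ℝ) i => ev2 Λ (θ i) :=
          measurable_pi_lambda _ fun i => (meas_ev2 Λ).comp (measurable_pi_apply i)
        rw [volume_pi, Measure.restrict_pi_pi, pi_ev2 hΛ n, lintegral_smul_measure,
          lintegral_map (by fun_prop) hM, smul_eq_mul]
        congr 1
        refine lintegral_congr fun θ => ?_
        congr 1
        rw [hH]
        simp only
        have e2 : ∀ x : ℝ, 2 * π * ev2 Λ x / Λ = fld x := by
          intro x
          unfold ev2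
          field_simp
        simp_rw [e2]
        unfold intC
        simp_rw [pW_fld, cos_fld, sin_fld, Cser_fld, W2_fld]
    _ ≤ ENNReal.ofReal (Real.exp (-((n : ℝ) * (n - 1) * u0))) *
        ((ENNReal.ofReal (Λ / 2)) ^ n * ENNReal.ofReal Z) := by
        gcongr
    _ = _ := by
        rw [← ENNReal.ofReal_pow (by positivity), ← ENNReal.ofReal_mul (by positivity),
          ← ENNReal.ofReal_mul (by positivity)]
        congr 1
        ring

end

end Pool.Agent.FSz
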