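import Pool.Agent.NUC62.Bound
import Pool.Agent.FSz.Circ

/-!
# The folded one component circle bound

Folded version of `NUC62.circ_bound`: window `(0, T]` of the half line, pair function
`ω (x - y) ω (x + y)` with `ω = omG G`, one body factor at most
`√(ω (2 x)) sin (2 π x / Λ) exp (a0 + Cser c)`.  The circular bound (`RU` for the symplectic
group) is the hypothesis `hRU`, with an extra constant `τ`.
-/

open MeasureTheory Set Filter Topology
open scoped Real ENNReal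

namespace Pool.Agent.FSz

open NUMF NUC62 NUWC
open Pool.Agent.Szego62 (mu Wser)

noncomputable section

/-- `1` for the even modes `p + 1` -/
def el (p : ℕ) : ℝ := if p % 2 = 1 then 1 else 0

theorem el_nonneg (p : ℕ) : 0 ≤ el p := by unfold el; split_ifs <;> norm_num

theorem el_le_one (p : ℕ) : el p ≤ 1 := by unfold el; split_ifs <;> norm_num

theorem el_sq (p : ℕ) : el p ^ 2 = el p := by unfold el; split_ifs <;> norm_num

/-- the exponent of one mode -/
def lexp (w c : ℕ → ℝ) (p : ℕ) : ℝ :=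
  ((p : ℝ) + 1) * (c p - el p / (p + 1)) ^ 2 / (2 * (1 - ((p : ℝ) + 1) * w p / 2)) -
    el p / (2 * ((p : ℝ) + 1))

/-- the factor of one mode -/
def lf (w c : ℕ → ℝ) (p : ℕ) : ℝ :=
  (√(1 - ((p : ℝ) + 1) * w p / 2))⁻¹ * Real.exp (lexp w c p)

/-- the sharp circular bound for the folded gas, as a hypothesis, with an extra constant -/
def HRU (n : ℕ) (w c : ℕ → ℝ) (a0 τ : ℝ) : Prop :=
  ∀ E : ℝ, (∀ᶠ K in atTop, ∏ p ∈ Finset.range K, lf w c p ≤ Real.exp E) →
    ∫⁻ θ : Fin n → ℝ, ENNReal.ofReal (intC n w c a0 θ) ∂(Measure.pi fun _ => mu) ≤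
      ENNReal.ofReal ((n.factorial : ℝ) *
        Real.exp (n * a0 - (n : ℝ) / 2 * ∑' p, w p + E) * τ)

theorem two_cos_sub (a b : ℝ) : (2 * Real.cos a - 2 * Real.cos b) ^ 2 =
    ‖1 - Complex.exp ((a - b : ℝ) * Complex.I)‖ ^ 2 *
    ‖1 - Complex.exp ((a + b : ℝ) * Complex.I)‖ ^ 2 := by
  have h : ∀ x : ℝ, ‖1 - Complex.exp ((x : ℝ) * Complex.I)‖ ^ 2 = 4 * Real.sin (x / 2) ^ 2 := by
    intro x
    have e := Complex.norm_exp_I_mul_ofReal_sub_one x
    rw [norm_sub_rev, mul_comm _ Complex.I, e, Real.norm_eq_abs, sq_abs]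
    ring
  rw [h, h, ← mul_sub, Real.cos_sub_cos]
  ring

theorem norm_two (a : ℝ) : ‖1 - Complex.exp ((2 * a : ℝ) * Complex.I)‖ ^ 2 =
    (2 * Real.sin a) ^ 2 := by
  have e := Complex.norm_exp_I_mul_ofReal_sub_one (2 * a)
  rw [norm_sub_rev, mul_comm _ Complex.I, e, Real.norm_eq_abs, sq_abs]
  rw [show 2 * a / 2 = a by ring]

theorem omG_nonneg (G x : ℝ) : 0 ≤ omG G x := by
  have hr := r_lt_one
  have hr0 := r_pos
  unfold omG w g
  have a2 : 0 < Real.cosh (2 * x) - r := by have := Real.one_le_cosh (2 * x); linarith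
  have a3 : 0 < Real.cosh (2 * x) + r := by have := Real.one_le_cosh (2 * x); linarith
  have a5 := Real.cosh_pos (2 * x)
  positivity

/-- **The folded one component circle bound.** -/
theorem circ_boundC {G Λ T : ℝ} (hG : 9 ≤ G) (hT : 0 < T) (hΛ : 2 * T + G ≤ Λ) (n : ℕ)
    (c : ℕ → ℝ) (hc : Summable fun k => |c k|) (a0 Q τ : ℝ) (hτ : 0 ≤ τ)
    (hRU : ∀ b0, HRU n (wK G Λ (n ^ 2 + 1)) c b0 τ)
    (hQ : ∀ᶠ K in atTop, ∑ p ∈ Finset.range K, (Λ * (c p - el p / (p + 1)) ^ 2 /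
      (2 * uh G (kp Λ p)) - el p / (2 * ((p : ℝ) + 1))) ≤ Q)
    (f : ℝ → ℝ) (hf0 : ∀ x, 0 ≤ f x)
    (hf : ∀ x, 0 < x → x ≤ T → f x ≤ √(omG G (2 * x)) * Real.sin (2 * π * x / Λ) *
      Real.exp (a0 + Cser c (2 * π * x / Λ))) :
    ∫⁻ t : Fin n → ℝ in Set.univ.pi fun _ => Ioc 0 T,
      ENNReal.ofReal ((∏ i, ∏ j ∈ Finset.Ioi i, (omG G (t i - t j) * omG G (t i + t j))) *
        ∏ i, f (t i)) ≤
    ENNReal.ofReal ((n.factorial : ℝ) * (π / √cω) ^ n *
      Real.exp (n * a0 - (n : ℝ) ^ 2 * uG G Λ - (n : ℝ) / 2 * RG G 0 + Q + 7 / 24 * Λ +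
        err G Λ n / 2) * τ) := by
  have hpi := Real.pi_pos
  have hG1 : 1 ≤ G := by linarith
  have hΛ0 : 0 < Λ := by linarith
  have hr := r_lt_one
  have hr0 := r_pos
  have hcω : 0 < cω := by
    unfold cω
    have : 0 < 1 - r := by linarith
    positivity
  set K : ℕ := n ^ 2 + 1 with hK
  have hKpos : 0 < K := by omega
  have hKr : (K : ℝ) = (n : ℝ) ^ 2 + 1 := by rw [hK]; push_cast; ring
  set u0 : ℝ := uG G Λ - tl G Λ K with hu0
  set E : ℝ := Q + (7 / 12 * Λ + eG G * Λ / π * (1 + Real.log K)) / 2 with hE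
  have hhalf : ∀ p : ℕ, 0 < 1 - ((p : ℝ) + 1) * wK G Λ K p / 2 := by
    intro p
    have h2 := wK_half hG1 hΛ0 K p
    have h3 := uh_pos hG (kp_pos hΛ0 p)
    have h4 := kp_pos hΛ0 p
    have : 0 < kp Λ p / (2 * π) * uh G (kp Λ p) := by positivity
    linarith
  -- the loop product
  have hloop : ∀ᶠ K' in atTop, ∏ p ∈ Finset.range K', lf (wK G Λ K) c p ≤ Real.exp E := by
    filter_upwards [hQ] with K' hQK
    unfold lf
    rw [Finset.prod_mul_distrib, hE, Real.exp_add, mul_comm (Real.exp Q)]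
    refine mul_le_mul ?_ ?_ (Finset.prod_nonneg fun p _ => (Real.exp_pos _).le) (Real.exp_pos _).le
    · have h1 := loop_bound hG hΛ0 K K'
      have e1 : ∀ K' : ℕ, ∏ p ∈ Finset.range K', (√(1 - ((p : ℝ) + 1) * wK G Λ K p / 2))⁻¹ =
          √(∏ p ∈ Finset.range K', (1 - ((p : ℝ) + 1) * wK G Λ K p / 2)⁻¹) := by
        intro K'
        induction K' with
        | zero => simp
        | succ k ih =>
          rw [Finset.prod_range_succ, Finset.prod_range_succ,
            Real.sqrt_mul (Finset.prod_nonneg fun p _ => (inv_pos.2 (hhalf p)).le), ih,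
              Real.sqrt_inv]
      rw [e1 K', Real.exp_half]
      exact Real.sqrt_le_sqrt h1
    · rw [← Real.exp_sum]
      apply Real.exp_le_exp.2
      refine le_trans (Finset.sum_le_sum fun p _ => ?_) hQK
      unfold lexp
      have h2 := wK_half hG1 hΛ0 K p
      have h3 := uh_pos hG (kp_pos hΛ0 p)
      have h4 := kp_pos hΛ0 p
      have h5 : 0 < kp Λ p / (2 * π) * uh G (kp Λ p) := by positivity
      have hp : (0:ℝ) < (p : ℝ) + 1 := by positivity
      have h6 : ((p : ℝ) + 1) * (c p - el p / (p + 1)) ^ 2 /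
          (2 * (1 - ((p : ℝ) + 1) * wK G Λ K p / 2)) ≤
          ((p : ℝ) + 1) * (c p - el p / (p + 1)) ^ 2 /
          (2 * (kp Λ p / (2 * π) * uh G (kp Λ p))) := by gcongr
      have h7 : ((p : ℝ) + 1) * (c p - el p / (p + 1)) ^ 2 /
          (2 * (kp Λ p / (2 * π) * uh G (kp Λ p))) =
          Λ * (c p - el p / (p + 1)) ^ 2 / (2 * uh G (kp Λ p)) := by
        unfold kp
        unfold kp at h3
        field_simp
      linarith
  -- the pair function
  have hω : ∀ x ∈ Ioc 0 T, ∀ y ∈ Ioc 0 T, omG G (x - y) * omG G (x + y) ≤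
      Real.exp (-(2 * u0)) *
      ((2 * Real.cos (2 * π * x / Λ) - 2 * Real.cos (2 * π * y / Λ)) ^ 2 *
      Real.exp (pW (wK G Λ K) (2 * π * x / Λ) (2 * π * y / Λ))) := by
    intro x hx y hy
    have h1 := omG_le hG1 K (x := x - y) (by
      rw [abs_le]
      constructor
      · linarith [hx.1, hy.2]
      · linarith [hx.2, hy.1]) (by linarith : G < Λ)
    have h2 := omG_le hG1 K (x := x + y) (by
      rw [abs_le]
      constructor
      · linarith [hx.1, hy.1]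
      · linarith [hx.2, hy.2]) (by linarith : G < Λ)
    have h3 := mul_le_mul h1 h2 (omG_nonneg _ _) (by positivity)
    refine h3.trans_eq ?_
    rw [two_cos_sub]
    unfold pW
    rw [Real.exp_add, show -(2 * u0) = -u0 + -u0 by ring, Real.exp_add]
    rw [show 2 * π * (x - y) / Λ = 2 * π * x / Λ - 2 * π * y / Λ by ring,
      show 2 * π * (x + y) / Λ = 2 * π * x / Λ + 2 * π * y / Λ by ring]
    ring
  -- the one body function
  have hg : ∀ x ∈ Ioc 0 T, f x ≤ 2 * Real.sin (2 * π * x / Λ) ^ 2 *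
      Real.exp ((a0 - u0 / 2) + Cser c (2 * π * x / Λ) +
        Wser (wK G Λ K) (2 * (2 * π * x / Λ)) / 2) := by
    intro x hx
    have hs : 0 ≤ Real.sin (2 * π * x / Λ) := by
      apply Real.sin_nonneg_of_nonneg_of_le_pi
      · have := hx.1.le
        positivity
      · rw [div_le_iff₀ hΛ0]
        have := hx.2
        nlinarith
    have h1 := omG_le hG1 K (x := 2 * x) (by
      rw [abs_le]
      constructor
      · linarith [hx.1]
      · linarith [hx.2]) (by linarith : G < Λ)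
    have e0 : 2 * π * (2 * x) / Λ = 2 * (2 * π * x / Λ) := by ring
    rw [e0, norm_two] at h1
    have h2 : √(omG G (2 * x)) ≤ Real.exp (-u0 / 2) * (2 * Real.sin (2 * π * x / Λ)) *
        Real.exp (Wser (wK G Λ K) (2 * (2 * π * x / Λ)) / 2) := by
      apply Real.sqrt_le_iff.2
      refine ⟨by positivity, h1.trans_eq ?_⟩
      have e1 : Real.exp (-u0 / 2) ^ 2 = Real.exp (-(uG G Λ - tl G Λ K)) := by
        rw [pow_two, ← Real.exp_add]
        congr 1
        rw [hu0]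
        ring
      have e2 : Real.exp (Wser (wK G Λ K) (2 * (2 * π * x / Λ)) / 2) ^ 2 =
          Real.exp (Wser (wK G Λ K) (2 * (2 * π * x / Λ))) := by
        rw [pow_two, ← Real.exp_add]
        congr 1
        ring
      rw [show (Real.exp (-u0 / 2) * (2 * Real.sin (2 * π * x / Λ)) *
        Real.exp (Wser (wK G Λ K) (2 * (2 * π * x / Λ)) / 2)) ^ 2 = Real.exp (-u0 / 2) ^ 2 *
        (2 * Real.sin (2 * π * x / Λ)) ^ 2 *
        Real.exp (Wser (wK G Λ K) (2 * (2 * π * x / Λ)) / 2) ^ 2 by ring, e1, e2]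
    refine (hf x hx.1 hx.2).trans ?_
    calc √(omG G (2 * x)) * Real.sin (2 * π * x / Λ) * Real.exp (a0 + Cser c (2 * π * x / Λ)) ≤
        (Real.exp (-u0 / 2) * (2 * Real.sin (2 * π * x / Λ)) *
        Real.exp (Wser (wK G Λ K) (2 * (2 * π * x / Λ)) / 2)) * Real.sin (2 * π * x / Λ) *
        Real.exp (a0 + Cser c (2 * π * x / Λ)) := by gcongr
      _ = _ := by
        rw [show a0 - u0 / 2 + Cser c (2 * π * x / Λ) +
          Wser (wK G Λ K) (2 * (2 * π * x / Λ)) / 2 = -u0 / 2 +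
          Wser (wK G Λ K) (2 * (2 * π * x / Λ)) / 2 + (a0 + Cser c (2 * π * x / Λ)) by ring,
          Real.exp_add (-u0 / 2 + Wser (wK G Λ K) (2 * (2 * π * x / Λ)) / 2)
            (a0 + Cser c (2 * π * x / Λ)), Real.exp_add (-u0 / 2)]
        ring
  have h1 := circC hΛ0 n (wK G Λ K) ((summable_wK hG1 hΛ0 K).abs) c hc (a0 - u0 / 2)
    _ (hRU (a0 - u0 / 2) E hloop) u0 (Ioc 0 T) measurableSet_Ioc (fun x hx => by
      constructor
      · exact hx.1
      · have := hx.2; linarith) (omG G) f (omG_nonneg G) hf0 hω hg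
  refine h1.trans (ENNReal.ofReal_le_ofReal ?_)
  -- compare the exponents
  have hv := value_zero hG1 (by linarith : G < Λ)
  have hw : ∑' p, wK G Λ K p = ∑' p, wG G Λ p - tl G Λ K := by
    rw [tl, (summable_wG hG1 hΛ0).tsum_sub (summable_wK hG1 hΛ0 K)]
    ring
  have hpw : (π / √cω) ^ n = (Λ / 2) ^ n *
      Real.exp ((n : ℝ) / 2 * Real.log ((2 * π / Λ) ^ 2 / cω)) := by
    have e1 : Real.exp ((n : ℝ) / 2 * Real.log ((2 * π / Λ) ^ 2 / cω)) = (2 * π / Λ / √cω) ^ n := by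
      have e2 : (2 * π / Λ) ^ 2 / cω = (2 * π / Λ / √cω) ^ 2 := by
        rw [div_pow (2 * π / Λ), Real.sq_sqrt hcω.le]
      have e3 : 0 < 2 * π / Λ / √cω := by positivity
      rw [e2, Real.log_pow]
      rw [show (n : ℝ) / 2 * (((2 : ℕ) : ℝ) * Real.log (2 * π / Λ / √cω)) =
        n * Real.log (2 * π / Λ / √cω) by push_cast; ring, Real.exp_nat_mul, Real.exp_log e3]
    rw [e1, ← mul_pow]
    congr 1
    field_simp
  rw [hpw]
  have htl := tl_le hG1 hΛ0 hKpos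
  have htl0 : 0 ≤ tl G Λ K := tsum_nonneg fun p => sub_nonneg.2 (wK_le hG1 hΛ0 K p)
  have htl2 : (n : ℝ) ^ 2 * tl G Λ K ≤ eG G * Λ / (8 * π ^ 2) := by
    have h5 : (n : ℝ) ^ 2 * tl G Λ K ≤
        (n : ℝ) ^ 2 * (288 * Real.exp (-G) * Λ / π ^ 2 / K) := by gcongr
    refine h5.trans ?_
    have h6 : (n : ℝ) ^ 2 / K ≤ 1 := by
      rw [div_le_one (by exact_mod_cast hKpos), hKr]
      linarith
    calc (n : ℝ) ^ 2 * (288 * Real.exp (-G) * Λ / π ^ 2 / K) =
        288 * Real.exp (-G) * Λ / π ^ 2 * ((n : ℝ) ^ 2 / K) := by ring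
      _ ≤ 288 * Real.exp (-G) * Λ / π ^ 2 * 1 := by gcongr
      _ = _ := by
        unfold eG
        ring
  have he0 : 0 ≤ eG G * Λ := by unfold eG; positivity
  have hlog : 0 ≤ Real.log K := Real.log_natCast_nonneg K
  have herr : eG G * Λ / π * (1 + Real.log K) / 2 + eG G * Λ / (8 * π ^ 2) ≤ err G Λ n / 2 := by
    unfold err
    rw [← hKr]
    have hp3 := Real.pi_gt_three
    have a1 : eG G * Λ / π ≤ eG G * Λ / 3 := by gcongr
    have a2 : eG G * Λ / (8 * π ^ 2) ≤ eG G * Λ / 16 := by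
      gcongr
      nlinarith
    have a3 : eG G * Λ / π * (1 + Real.log K) ≤ eG G * Λ / 3 * (1 + Real.log K) := by gcongr
    nlinarith
  have hexp : Real.exp (-((n : ℝ) * (n - 1) * u0)) *
      Real.exp (n * (a0 - u0 / 2) - (n : ℝ) / 2 * ∑' p, wK G Λ K p + E) =
      Real.exp ((n : ℝ) / 2 * Real.log ((2 * π / Λ) ^ 2 / cω)) *
      Real.exp (n * a0 - (n : ℝ) ^ 2 * uG G Λ - (n : ℝ) / 2 * RG G 0 + Q + 7 / 24 * Λ +
        (eG G * Λ / π * (1 + Real.log K) / 2 + (n : ℝ) ^ 2 * tl G Λ K)) := by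
    rw [← Real.exp_add, ← Real.exp_add]
    congr 1
    have e : Real.log ((2 * π / Λ) ^ 2 / cω) = uG G Λ - ∑' p, wG G Λ p + RG G 0 := by linarith
    rw [e, hw, hE, hu0]
    ring
  calc (Λ / 2) ^ n * Real.exp (-((n : ℝ) * (n - 1) * u0)) * ((n.factorial : ℝ) *
        Real.exp (n * (a0 - u0 / 2) - (n : ℝ) / 2 * ∑' p, wK G Λ K p + E) * τ) =
      (n.factorial : ℝ) * (Λ / 2) ^ n * (Real.exp (-((n : ℝ) * (n - 1) * u0)) *
        Real.exp (n * (a0 - u0 / 2) - (n : ℝ) / 2 * ∑' p, wK G Λ K p + E)) * τ := by ring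
    _ = (n.factorial : ℝ) * (Λ / 2) ^ n *
      (Real.exp ((n : ℝ) / 2 * Real.log ((2 * π / Λ) ^ 2 / cω)) *
      Real.exp (n * a0 - (n : ℝ) ^ 2 * uG G Λ - (n : ℝ) / 2 * RG G 0 + Q + 7 / 24 * Λ +
        (eG G * Λ / π * (1 + Real.log K) / 2 + (n : ℝ) ^ 2 * tl G Λ K))) * τ := by rw [hexp]
    _ ≤ (n.factorial : ℝ) * (Λ / 2) ^ n *
      (Real.exp ((n : ℝ) / 2 * Real.log ((2 * π / Λ) ^ 2 / cω)) *
      Real.exp (n * a0 - (n : ℝ) ^ 2 * uG G Λ - (n : ℝ) / 2 * RG G 0 + Q + 7 / 24 * Λ +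
        err G Λ n / 2)) * τ := by
        gcongr
        linarith
    _ = _ := by ring

end

end Pool.Agent.FSz
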