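import Pool.Agent.Szego62.Heine

/-! Folded (symplectic) Gram matrices: definitions and convergence. -/

open Matrix Finset Metric MeasureTheory Real Filter Topology
open scoped ComplexConjugate

namespace Pool.Agent.FSz

open Pool.Agent.Szego62 (mu integral_mu)

/-- the point `e^{ix}` of the circle -/
noncomputable def E (x : ℝ) : ℂ := Complex.exp (x * Complex.I)

/-- the folded Gram matrix of the functions `√2 sin ((k+1) x)` with the weight `g` -/
noncomputable def sg (n : ℕ) (g : ℝ → ℂ) : Matrix (Fin n) (Fin n) ℂ :=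
  Matrix.of fun k l => ∫ x, ((2 * (Real.sin (((k : ℕ) + 1) * x) *
    Real.sin (((l : ℕ) + 1) * x)) : ℝ) : ℂ) * g x ∂mu

/-- Fourier coefficients of `D / conj D` -/
noncomputable def bD (D : ℂ → ℂ) (m : ℕ) : ℝ :=
  (∫ x, D (E x) / conj (D (E x)) * E x ^ m ∂mu).re

theorem E_ne (x : ℝ) : E x ≠ 0 := Complex.exp_ne_zero _

theorem norm_E (x : ℝ) : ‖E x‖ = 1 := Complex.norm_exp_ofReal_mul_I x

theorem E_neg (x : ℝ) : E (-x) = (E x)⁻¹ := by
  unfold E
  rw [← Complex.exp_neg]
  congr 1
  push_cast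
  ring

theorem conj_E (x : ℝ) : conj (E x) = E (-x) := by
  rw [E_neg]
  have h : E x * conj (E x) = 1 := by
    rw [Complex.mul_conj, Complex.normSq_eq_norm_sq, norm_E]
    norm_num
  exact eq_inv_of_mul_eq_one_right h

theorem E_pow (x : ℝ) (m : ℕ) : E x ^ m = E (m * x) := by
  unfold E
  rw [← Complex.exp_nat_mul]
  congr 1
  push_cast
  ring

@[fun_prop]
theorem continuous_E : Continuous E := by
  unfold E
  fun_prop

theorem E_periodic : Function.Periodic E (2 * π) := by
  intro x
  unfold E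
  push_cast
  rw [add_mul]
  exact Complex.exp_periodic _

theorem sin_eq (x : ℝ) : ((Real.sin x : ℝ) : ℂ) = (E x - E (-x)) / (2 * Complex.I) := by
  unfold E
  rw [Complex.ofReal_sin, Complex.sin]
  push_cast
  have h : (Complex.I : ℂ) ≠ 0 := Complex.I_ne_zero
  have h2 : Complex.I * Complex.I = -1 := Complex.I_mul_I
  field_simp
  have h3 : Complex.I ^ 2 = -1 := Complex.I_sq
  rw [h3]
  ring_nf

theorem two_sin_sin (k l : ℕ) (x : ℝ) : ((2 * (Real.sin ((k + 1) * x) *
    Real.sin ((l + 1) * x)) : ℝ) : ℂ) =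
      -(1 / 2) * ((E x ^ (k + 1) - (E x)⁻¹ ^ (k + 1)) * (E x ^ (l + 1) - (E x)⁻¹ ^ (l + 1))) := by
  have h1 : ∀ k : ℕ, ((Real.sin ((k + 1) * x) : ℝ) : ℂ) =
      (E x ^ (k + 1) - (E x)⁻¹ ^ (k + 1)) / (2 * Complex.I) := by
    intro k
    rw [sin_eq, ← E_neg, E_pow, E_pow]
    push_cast
    congr 3
    ring
  rw [Complex.ofReal_mul, Complex.ofReal_mul, h1, h1]
  have h2 : Complex.I * Complex.I = -1 := Complex.I_mul_I
  have h : (Complex.I : ℂ) ≠ 0 := Complex.I_ne_zero
  push_cast
  field_simp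
  rw [Complex.I_sq]
  ring

theorem integrable_mu {f : ℝ → ℂ} (hf : Continuous f) : Integrable f mu := by
  have hi : IntegrableOn f (Set.Ioc 0 (2 * π)) :=
    (hf.continuousOn.integrableOn_Icc).mono_set Set.Ioc_subset_Icc_self
  exact hi.smul_measure (by simp [Real.pi_pos])

theorem mu_neg {f : ℝ → ℂ} (hf : Function.Periodic f (2 * π)) :
    ∫ x, f (-x) ∂mu = ∫ x, f x ∂mu := by
  rw [integral_mu, integral_mu, intervalIntegral.integral_comp_neg]
  have h := hf.intervalIntegral_add_eq (-(2 * π)) 0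
  rw [neg_add_cancel, zero_add] at h
  rw [neg_zero, h]

/-- dominated convergence for folded Gram determinants -/
theorem tendsto_sg {ι : Type*} {F : Filter ι} [F.IsCountablyGenerated] {g : ι → ℝ → ℂ}
    {G : ℝ → ℂ} (C : ℝ) (hc : ∀ᶠ i in F, Continuous (g i))
    (hb : ∀ᶠ i in F, ∀ x, ‖g i x‖ ≤ C) (hl : ∀ x, Tendsto (fun i => g i x) F (𝓝 (G x)))
    (n : ℕ) : Tendsto (fun i => (sg n (g i)).det) F (𝓝 (sg n G).det) := by
  have h1 : Tendsto (fun i => sg n (g i)) F (𝓝 (sg n G)) := by
    refine tendsto_pi_nhds.mpr fun k => tendsto_pi_nhds.mpr fun l => ?_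
    simp only [sg, of_apply]
    refine tendsto_integral_filter_of_dominated_convergence (fun _ => 2 * C) ?_ ?_ ?_ ?_
    · filter_upwards [hc] with i hi
      have : Continuous (fun x => ((2 * (Real.sin (((k : ℕ) + 1) * x) *
        Real.sin (((l : ℕ) + 1) * x)) : ℝ) : ℂ) * g i x) := by fun_prop
      exact this.aestronglyMeasurable
    · filter_upwards [hb] with i hi
      refine Eventually.of_forall fun x => ?_
      rw [norm_mul]
      refine mul_le_mul ?_ (hi x) (norm_nonneg _) (by norm_num)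
      rw [Complex.norm_real, norm_mul, norm_mul, Real.norm_eq_abs, Real.norm_eq_abs,
        Real.norm_eq_abs, abs_two]
      have e1 := Real.abs_sin_le_one (((k : ℕ) + 1) * x)
      have e2 := Real.abs_sin_le_one (((l : ℕ) + 1) * x)
      have e3 := abs_nonneg (Real.sin (((k : ℕ) + 1) * x))
      have e4 := abs_nonneg (Real.sin (((l : ℕ) + 1) * x))
      nlinarith
    · exact integrable_const _
    · exact Eventually.of_forall fun x => (hl x).const_mul _
  exact ((Continuous.matrix_det continuous_id).tendsto _).comp h1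

/-- entries of `sg` for even weights -/
theorem sg_entry {g : ℝ → ℂ} (hg : Continuous g) (hp : Function.Periodic g (2 * π))
    (he : ∀ x, g (-x) = g x) (k l : ℕ) :
    ∫ x, ((2 * (Real.sin ((k + 1) * x) * Real.sin ((l + 1) * x)) : ℝ) : ℂ) * g x ∂mu =
      ∫ x, E x ^ (k + 1) * ((E x)⁻¹ ^ (l + 1) - E x ^ (l + 1)) * g x ∂mu := by
  set P : ℝ → ℂ := fun x => E x ^ (k + 1) * ((E x)⁻¹ ^ (l + 1) - E x ^ (l + 1)) * g x with hP
  have hPc : Continuous P := by
    have h : Continuous fun x => (E x)⁻¹ := continuous_E.inv₀ E_ne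
    fun_prop
  have hPp : Function.Periodic P (2 * π) := by
    intro x
    simp only [hP]
    rw [E_periodic x, hp x]
  have h1 : ∀ x, ((2 * (Real.sin ((k + 1) * x) * Real.sin ((l + 1) * x)) : ℝ) : ℂ) * g x =
      (1 / 2) * (P x + P (-x)) := by
    intro x
    rw [two_sin_sin]
    simp only [hP, E_neg, he, inv_inv]
    ring
  simp_rw [h1]
  have hPn : Integrable (fun x => P (-x)) mu := integrable_mu (hPc.comp continuous_neg)
  rw [integral_const_mul, integral_add (integrable_mu hPc) hPn, mu_neg hPp]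
  ring

/-- the folded Gram matrix of a real weight -/
noncomputable def sgR (n : ℕ) (g : ℝ → ℝ) : Matrix (Fin n) (Fin n) ℝ :=
  Matrix.of fun k l => ∫ x, (2 * (Real.sin (((k : ℕ) + 1) * x) *
    Real.sin (((l : ℕ) + 1) * x))) * g x ∂mu

theorem sg_ofReal (n : ℕ) (g : ℝ → ℝ) :
    (sg n (fun x => ((g x : ℝ) : ℂ))).det = (((sgR n g).det : ℝ) : ℂ) := by
  have h : sg n (fun x => ((g x : ℝ) : ℂ)) = (sgR n g).map (fun y : ℝ => (y : ℂ)) := by
    ext k l
    simp only [sg, sgR, of_apply, map_apply]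
    rw [← integral_complex_ofReal]
    refine integral_congr_ae (Eventually.of_forall fun x => ?_)
    push_cast
    ring
  have h2 := (RingHom.map_det Complex.ofRealHom (sgR n g)).symm
  simp only [Complex.ofRealHom_eq_coe, RingHom.mapMatrix_apply] at h2
  rw [h]
  exact h2

theorem integrable_muR {f : ℝ → ℝ} (hf : Continuous f) : Integrable f mu := by
  have hi : IntegrableOn f (Set.Ioc 0 (2 * π)) :=
    (hf.continuousOn.integrableOn_Icc).mono_set Set.Ioc_subset_Icc_self
  exact hi.smul_measure (by simp [Real.pi_pos])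

theorem sgR_posSemidef (n : ℕ) {g : ℝ → ℝ} (hg : Continuous g) (h0 : ∀ x, 0 ≤ g x) :
    (sgR n g).PosSemidef := by
  refine Matrix.PosSemidef.of_dotProduct_mulVec_nonneg ?_ ?_
  · ext k l
    simp only [sgR, conjTranspose_apply, of_apply, star_trivial]
    refine integral_congr_ae (Eventually.of_forall fun x => ?_)
    simp only
    ring
  · intro v
    have h1 : star v ⬝ᵥ (sgR n g).mulVec v =
        ∫ x, 2 * (∑ k, v k * Real.sin (((k : ℕ) + 1) * x)) ^ 2 * g x ∂mu := by
      simp only [dotProduct, mulVec, sgR, of_apply, Pi.star_apply, star_trivial]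
      have h2 : ∀ k l : Fin n, (∫ x, (2 * (Real.sin (((k : ℕ) + 1) * x) *
          Real.sin (((l : ℕ) + 1) * x))) * g x ∂mu) * v l =
          ∫ x, (2 * (Real.sin (((k : ℕ) + 1) * x) *
          Real.sin (((l : ℕ) + 1) * x))) * g x * v l ∂mu := fun k l =>
        (integral_mul_const _ _).symm
      simp_rw [h2]
      have h3 : ∀ k : Fin n, v k * ∑ l : Fin n, ∫ x, (2 * (Real.sin (((k : ℕ) + 1) * x) *
          Real.sin (((l : ℕ) + 1) * x))) * g x * v l ∂mu =
          ∫ x, v k * ∑ l : Fin n, (2 * (Real.sin (((k : ℕ) + 1) * x) *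
          Real.sin (((l : ℕ) + 1) * x))) * g x * v l ∂mu := by
        intro k
        rw [integral_const_mul, integral_finsetSum]
        exact fun l _ => integrable_muR (by fun_prop)
      simp_rw [h3]
      rw [← integral_finsetSum]
      · refine integral_congr_ae (Eventually.of_forall fun x => ?_)
        simp only
        rw [pow_two, sum_mul_sum, mul_sum, sum_mul]
        refine sum_congr rfl fun k _ => ?_
        rw [mul_sum, mul_sum, sum_mul]
        refine sum_congr rfl fun l _ => ?_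
        ring
      · exact fun k _ => integrable_muR (by fun_prop)
    rw [h1]
    exact integral_nonneg fun x => mul_nonneg (by positivity) (h0 x)

theorem sgR_det_nonneg (n : ℕ) {g : ℝ → ℝ} (hg : Continuous g) (h0 : ∀ x, 0 ≤ g x) :
    0 ≤ (sgR n g).det := (sgR_posSemidef n hg h0).det_nonneg

end Pool.Agent.FSz
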