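import Mathlib

/-! The C type Weyl denominator `det (a_j^(N-1-l) - a_j^(N+1+l))` and a product over pairs. -/

open Matrix Finset Polynomial

namespace Pool.Agent.FSz

variable {F : Type*} [Field F]

/-- the monic polynomials with `S_l (a + 1/a) = (a^(l+1) - a^(-l-1)) / (a - 1/a)` -/
noncomputable def Sp (F : Type*) [Field F] : ℕ → F[X]
  | 0 => 1
  | 1 => X
  | (n + 2) => X * Sp F (n + 1) - Sp F n

theorem Sp_deg_monic (n : ℕ) : (Sp F n).natDegree = n ∧ (Sp F n).Monic := by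
  induction n using Nat.twoStepInduction with
  | zero => exact ⟨by simp [Sp], by simp [Sp]⟩
  | one => exact ⟨by simp [Sp], by simp [Sp, monic_X]⟩
  | more n h0 h1 =>
    have hm : (X * Sp F (n + 1)).Monic := monic_X.mul h1.2
    have hd : (X * Sp F (n + 1)).natDegree = n + 2 := by
      rw [monic_X.natDegree_mul h1.2, natDegree_X, h1.1]
      ring
    have hlt : (Sp F n).degree < (X * Sp F (n + 1)).degree := by
      rw [degree_eq_natDegree hm.ne_zero, degree_eq_natDegree h0.2.ne_zero, hd, h0.1]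
      exact_mod_cast (by omega : n < n + 2)
    constructor
    · rw [Sp, natDegree_sub_eq_left_of_natDegree_lt, hd]
      rw [hd, h0.1]
      omega
    · exact hm.sub_of_left hlt

theorem Sp_eval {a : F} (ha : a ≠ 0) (n : ℕ) : (1 - a ^ 2) * a ^ n * (Sp F n).eval (a + a⁻¹) =
    1 - a ^ (2 * n + 2) := by
  induction n using Nat.twoStepInduction with
  | zero => simp [Sp]
  | one =>
    simp only [Sp, eval_X, pow_one]
    field_simp
    ring
  | more n h0 h1 =>
    simp only [Sp, eval_sub, eval_mul, eval_X]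
    have e1 : (1 - a ^ 2) * a ^ (n + 2) * ((a + a⁻¹) * eval (a + a⁻¹) (Sp F (n + 1)) -
        eval (a + a⁻¹) (Sp F n)) = (a ^ 2 + 1) * ((1 - a ^ 2) * a ^ (n + 1) *
          eval (a + a⁻¹) (Sp F (n + 1))) - a ^ 2 * ((1 - a ^ 2) * a ^ n *
            eval (a + a⁻¹) (Sp F n)) := by
      have : a * a⁻¹ = 1 := mul_inv_cancel₀ ha
      linear_combination ((1 - a ^ 2) * a ^ (n + 1) * eval (a + a⁻¹) (Sp F (n + 1))) * this
    rw [e1, h0, h1]
    ring

theorem prod_pow_pairs {N : ℕ} (a : Fin N → F) :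
    ∏ i, ∏ j ∈ Ioi i, (a i * a j) = ∏ i, a i ^ (N - 1) := by
  induction N with
  | zero => simp
  | succ N ih =>
    rw [Fin.prod_univ_succ]
    have h1 : ∀ i : Fin N, ∏ j ∈ Ioi i.succ, (a i.succ * a j) =
        ∏ j ∈ Ioi i, (a i.succ * a j.succ) := by
      intro i
      rw [Fin.prod_Ioi_succ]
    simp only [h1]
    rw [ih (fun i => a i.succ), Fin.prod_Ioi_zero, prod_mul_distrib, Fin.prod_univ_succ]
    simp only [prod_const, card_univ, Fintype.card_fin, Nat.add_sub_cancel]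
    rw [mul_assoc, ← prod_mul_distrib]
    congr 1
    refine prod_congr rfl fun i _ => ?_
    have := i.2
    obtain ⟨M, rfl⟩ : ∃ M, N = M + 1 := ⟨N - 1, by omega⟩
    rw [Nat.add_sub_cancel, pow_succ]
    ring

/-- **C type Weyl denominator** -/
theorem weylC {N : ℕ} (a : Fin N → F) (ha : ∀ i, a i ≠ 0) :
    (Matrix.of fun (j l : Fin N) => a j ^ (N - 1 - (l : ℕ)) - a j ^ (N + 1 + (l : ℕ))).det =
      (∏ i, (1 - a i ^ 2)) * ∏ i, ∏ j ∈ Ioi i, ((a j - a i) * (a i * a j - 1)) := by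
  have h1 : (Matrix.of fun (j l : Fin N) => a j ^ (N - 1 - (l : ℕ)) - a j ^ (N + 1 + (l : ℕ))) =
      Matrix.of fun (j l : Fin N) => (a j ^ (N - 1) * (1 - a j ^ 2)) *
        (Matrix.of (fun (j l : Fin N) => (Sp F l).eval (a j + (a j)⁻¹))) j l := by
    ext j l
    simp only [of_apply]
    have hl := l.2
    have e1 : N - 1 = (N - 1 - (l : ℕ)) + l := by omega
    have e2 : N + 1 + (l : ℕ) = (N - 1 - (l : ℕ)) + (2 * (l : ℕ) + 2) := by omega
    rw [e2]
    conv_rhs => rw [e1]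
    rw [pow_add, pow_add]
    have h := Sp_eval (ha j) (l : ℕ)
    linear_combination (-(a j ^ (N - 1 - (l : ℕ)))) * h
  rw [h1, det_mul_column, ← det_eval_matrixOfPolynomials_eq_det_vandermonde _ _
    (fun i => (Sp_deg_monic i).1) (fun i => (Sp_deg_monic i).2), det_vandermonde,
    prod_mul_distrib]
  have h2 : ∏ i, ∏ j ∈ Ioi i, ((a j - a i) * (a i * a j - 1)) =
      (∏ i, a i ^ (N - 1)) * ∏ i, ∏ j ∈ Ioi i, (a j + (a j)⁻¹ - (a i + (a i)⁻¹)) := by
    rw [← prod_pow_pairs, ← prod_mul_distrib]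
    refine prod_congr rfl fun i _ => ?_
    rw [← prod_mul_distrib]
    refine prod_congr rfl fun j _ => ?_
    have e1 := ha i
    have e2 := ha j
    field_simp
    ring
  rw [h2]
  ring

end Pool.Agent.FSz
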