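import Pool.Agent.FSz.Defs
import Pool.Agent.FSz.Weyl

/-! Exact folded Gram determinant for the weight `∏ |1 - a_i z|⁻²` (size = number of factors). -/

open Matrix Finset Metric MeasureTheory Real Filter Topology
open scoped ComplexConjugate

namespace Pool.Agent.FSz

open Pool.Agent.Szego62 (mu integral_mu fa one_sub_ne fa_diff dcc_of_diff prod_split)

/-- the weight -/
noncomputable def wa {r : ℕ} (a : Fin r → ℂ) (x : ℝ) : ℂ :=
  ∏ i, ((1 - a i * E x) * (1 - a i * E (-x)))⁻¹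

theorem wa_eq {r : ℕ} (a : Fin r → ℂ) (x : ℝ) : wa a x = fa a (E x) * fa a (E x)⁻¹ := by
  unfold wa fa
  rw [← prod_mul_distrib]
  refine prod_congr rfl fun i _ => ?_
  rw [E_neg, mul_inv]

theorem continuous_wa {r : ℕ} (a : Fin r → ℂ) (ha : ∀ i, ‖a i‖ < 1) : Continuous (wa a) := by
  unfold wa
  refine continuous_finsetProd _ fun i _ => Continuous.inv₀ (by fun_prop) fun x => ?_
  exact mul_ne_zero (one_sub_ne (ha i) (norm_E x).le) (one_sub_ne (ha i) (norm_E (-x)).le)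

theorem wa_periodic {r : ℕ} (a : Fin r → ℂ) : Function.Periodic (wa a) (2 * π) := by
  intro x
  rw [wa_eq, wa_eq, E_periodic x]

theorem wa_even {r : ℕ} (a : Fin r → ℂ) (x : ℝ) : wa a (-x) = wa a x := by
  rw [wa_eq, wa_eq, E_neg, inv_inv, mul_comm]

/-- integrals over `mu` are circle averages -/
theorem integral_eq_avg (f : ℂ → ℂ) : ∫ x, f (E x) ∂mu = circleAverage f 0 1 := by
  rw [integral_mu]
  simp [Real.circleAverage, circleMap, E]

/-- entries of the Gram matrix, distinct roots -/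
theorem sg_wa {N : ℕ} (a : Fin N → ℂ) (ha : ∀ i, ‖a i‖ < 1) (hinj : Function.Injective a)
    (hN : 0 < N) (k l : Fin N) :
    sg N (wa a) k l = ∑ j, a j ^ (k : ℕ) * (Lagrange.nodalWeight univ a j * fa a (a j)) *
      (a j ^ (N - 1 - (l : ℕ)) - a j ^ (N + 1 + (l : ℕ))) := by
  simp only [sg, of_apply]
  rw [sg_entry (continuous_wa a ha) (wa_periodic a) (wa_even a)]
  set G : ℂ → ℂ := fun z => z ^ (k : ℕ) * (z ^ (N - 1 - (l : ℕ)) - z ^ (N + 1 + (l : ℕ))) * fa a z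
    with hG
  have hGd : DiffContOnCl ℂ G (ball 0 1) := by
    refine dcc_of_diff fun z hz => ?_
    refine DifferentiableAt.mul (by fun_prop) (fa_diff ha hz)
  have hne : (univ : Finset (Fin N)).Nonempty := ⟨⟨0, hN⟩, mem_univ _⟩
  have hzne : ∀ z : ℂ, ‖z‖ = 1 → ∀ i, z - a i ≠ 0 := by
    intro z hz i h
    have h1 := ha i
    rw [← sub_eq_zero.mp h, hz] at h1
    exact lt_irrefl _ h1
  have h1 : ∀ x : ℝ, E x ^ ((k : ℕ) + 1) * ((E x)⁻¹ ^ ((l : ℕ) + 1) - E x ^ ((l : ℕ) + 1)) *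
      wa a x = ∑ j, Lagrange.nodalWeight univ a j * ((E x / (E x - a j)) * G (E x)) := by
    intro x
    have hz := norm_E x
    have hz0 := E_ne x
    set z := E x with hzdef
    have h2 : (1 : ℂ) = (∏ i, (z - a i)) *
        ∑ i, Lagrange.nodalWeight univ a i * (z - a i)⁻¹ := by
      have h3 := Lagrange.eval_interpolate_not_at_node (s := univ) (v := a) (x := z)
        (r := (1 : Fin N → ℂ)) (fun i _ => sub_ne_zero.mp (hzne z hz i))
      rw [Lagrange.interpolate_one (hinj.injOn) hne, Lagrange.eval_nodal] at h3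
      simpa using h3
    have h4 : fa a z⁻¹ = z ^ N * (∏ i, (z - a i))⁻¹ := by
      unfold fa
      have : ∀ i, (1 - a i * z⁻¹)⁻¹ = z * (z - a i)⁻¹ := by
        intro i
        have e1 : 1 - a i * z⁻¹ = (z - a i) * z⁻¹ := by
          field_simp
        rw [e1, mul_inv, inv_inv, mul_comm]
      simp_rw [this]
      rw [prod_mul_distrib, prod_const, card_univ, Fintype.card_fin, prod_inv_distrib]
    have h5 : (∏ i, (z - a i)) ≠ 0 := prod_ne_zero_iff.mpr fun i _ => hzne z hz i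
    have h6 : (∏ i, (z - a i))⁻¹ = ∑ i, Lagrange.nodalWeight univ a i * (z - a i)⁻¹ := by
      rw [inv_eq_iff_eq_inv, ← mul_eq_one_iff_eq_inv₀ (by
        intro h0
        rw [h0, mul_zero] at h2
        exact one_ne_zero h2)]
      exact h2.symm
    rw [wa_eq, ← hzdef, h4, h6]
    have h7 : z ^ ((k : ℕ) + 1) * (z⁻¹ ^ ((l : ℕ) + 1) - z ^ ((l : ℕ) + 1)) * (fa a z * (z ^ N *
        ∑ i, Lagrange.nodalWeight univ a i * (z - a i)⁻¹)) = (z * G z) *
          ∑ i, Lagrange.nodalWeight univ a i * (z - a i)⁻¹ := by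
      have hl := l.2
      have e1 : z⁻¹ ^ ((l : ℕ) + 1) * z ^ N = z ^ (N - 1 - (l : ℕ)) := by
        rw [inv_pow, inv_mul_eq_iff_eq_mul₀ (pow_ne_zero _ hz0), ← pow_add]
        congr 1
        omega
      simp only [hG]
      have e2 : z ^ ((k : ℕ) + 1) * (z⁻¹ ^ ((l : ℕ) + 1) - z ^ ((l : ℕ) + 1)) * z ^ N =
          z * (z ^ (k : ℕ) * (z ^ (N - 1 - (l : ℕ)) - z ^ (N + 1 + (l : ℕ)))) := by
        rw [← e1]
        ring
      linear_combination (fa a z * ∑ i, Lagrange.nodalWeight univ a i * (z - a i)⁻¹) * e2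
    rw [h7, mul_sum]
    refine sum_congr rfl fun j _ => ?_
    rw [div_eq_mul_inv]
    ring
  simp_rw [h1]
  rw [integral_finsetSum]
  · refine sum_congr rfl fun j _ => ?_
    rw [integral_const_mul]
    have h8 : ∫ x, (E x / (E x - a j)) * G (E x) ∂mu = G (a j) := by
      rw [integral_eq_avg (fun z => (z / (z - a j)) * G z)]
      have hw : a j ∈ ball (0 : ℂ) |1| := by simpa using ha j
      have havg := DiffContOnCl.circleAverage_smul_div (f := G) (c := 0) (R := 1)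
        (by simpa using hGd) hw
      rw [← havg]
      simp
    rw [h8]
    simp only [hG]
    ring
  · intro j _
    refine integrable_mu ?_
    have hcE : Continuous fun x => E x / (E x - a j) :=
      continuous_E.div (by fun_prop) fun x => hzne _ (norm_E x) j
    have hGc : Continuous fun x => G (E x) := by
      have h9 : ContinuousOn G (closure (ball 0 1)) := hGd.continuousOn
      refine h9.comp_continuous continuous_E fun x => ?_
      rw [closure_ball _ (by norm_num)]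
      simp [norm_E]
    exact continuous_const.mul (hcE.mul hGc)

theorem prod_nodalWeight {N : ℕ} (a : Fin N → ℂ) :
    ∏ j, Lagrange.nodalWeight univ a j =
      ∏ i, ∏ j ∈ Ioi i, ((a i - a j)⁻¹ * (a j - a i)⁻¹) := by
  rw [Finset.prod_prod_Ioi_mul_eq_prod_prod_off_diag (fun j i => (a i - a j)⁻¹)]
  refine prod_congr rfl fun i _ => ?_
  unfold Lagrange.nodalWeight
  refine prod_congr ?_ fun _ _ => rfl
  ext j
  simp

theorem prod_fa {N : ℕ} (a : Fin N → ℂ) :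
    ∏ j, fa a (a j) = (∏ i, (1 - a i ^ 2)⁻¹) *
      ∏ i, ∏ j ∈ Ioi i, ((1 - a i * a j)⁻¹ * (1 - a i * a j)⁻¹) := by
  have h := Finset.prod_prod_Ioi_mul_eq_prod_prod_off_diag
    (fun j i : Fin N => (1 - a i * a j)⁻¹)
  have h2 : ∏ i, ∏ j ∈ Ioi i, ((1 - a i * a j)⁻¹ * (1 - a j * a i)⁻¹) =
      ∏ i, ∏ j ∈ Ioi i, ((1 - a i * a j)⁻¹ * (1 - a i * a j)⁻¹) := by
    refine prod_congr rfl fun i _ => prod_congr rfl fun j _ => by rw [mul_comm (a j)]
  rw [← h2, h, ← prod_mul_distrib]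
  refine prod_congr rfl fun j _ => ?_
  unfold fa
  have h3 : (univ : Finset (Fin N)) = insert j ({j}ᶜ) := by
    ext i
    simp
  rw [h3, prod_insert (by simp)]
  congr 1
  · ring
  · exact prod_congr rfl fun i _ => by ring

theorem det_sg_wa_inj {N : ℕ} (a : Fin N → ℂ) (ha : ∀ i, ‖a i‖ < 1)
    (hinj : Function.Injective a) (h0 : ∀ i, a i ≠ 0) :
    (sg N (wa a)).det * ∏ i, ∏ j ∈ Ioi i, (1 - a i * a j) = 1 := by
  rcases Nat.eq_zero_or_pos N with hN | hN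
  · subst hN
    simp
  have h1 : sg N (wa a) = (vandermonde a)ᵀ *
      (diagonal (fun j => Lagrange.nodalWeight univ a j * fa a (a j)) *
        (Matrix.of fun (j l : Fin N) => a j ^ (N - 1 - (l : ℕ)) - a j ^ (N + 1 + (l : ℕ)))) := by
    ext k l
    rw [sg_wa a ha hinj hN, mul_apply]
    refine sum_congr rfl fun j _ => ?_
    rw [diagonal_mul]
    simp only [transpose_apply, vandermonde_apply, of_apply]
    ring
  rw [h1, det_mul, det_mul, det_transpose, det_vandermonde, det_diagonal, prod_mul_distrib,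
    prod_nodalWeight, prod_fa, weylC a h0]
  have hne : (∏ i, (1 - a i ^ 2)) ≠ 0 := by
    refine prod_ne_zero_iff.mpr fun i _ => ?_
    rw [pow_two]
    exact one_sub_ne (ha i) (ha i).le
  have h2 : (∏ i, (1 - a i ^ 2)⁻¹) * ∏ i, (1 - a i ^ 2) = 1 := by
    rw [prod_inv_distrib, inv_mul_cancel₀ hne]
  have h3 : (∏ i, ∏ j ∈ Ioi i, (a j - a i)) *
      (∏ i, ∏ j ∈ Ioi i, ((a i - a j)⁻¹ * (a j - a i)⁻¹)) *
      (∏ i, ∏ j ∈ Ioi i, ((1 - a i * a j)⁻¹ * (1 - a i * a j)⁻¹)) *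
      (∏ i, ∏ j ∈ Ioi i, ((a j - a i) * (a i * a j - 1))) *
      ∏ i, ∏ j ∈ Ioi i, (1 - a i * a j) = 1 := by
    simp only [← prod_mul_distrib]
    refine prod_eq_one fun i _ => prod_eq_one fun j hj => ?_
    have hij : i < j := mem_Ioi.mp hj
    have e1 : a j - a i ≠ 0 := sub_ne_zero.mpr fun h => hij.ne' (hinj h)
    have e2 : a i - a j ≠ 0 := sub_ne_zero.mpr fun h => hij.ne (hinj h)
    have e3 : 1 - a i * a j ≠ 0 := one_sub_ne (ha i) (ha j).le
    have e4 : a i - a j = -(a j - a i) := by ring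
    have e5 : a i * a j - 1 = -(1 - a i * a j) := by ring
    rw [e4, e5]
    generalize a j - a i = x at e1
    generalize 1 - a i * a j = y at e3
    field_simp
  calc _ = ((∏ i, (1 - a i ^ 2)⁻¹) * ∏ i, (1 - a i ^ 2)) *
      ((∏ i, ∏ j ∈ Ioi i, (a j - a i)) *
      (∏ i, ∏ j ∈ Ioi i, ((a i - a j)⁻¹ * (a j - a i)⁻¹)) *
      (∏ i, ∏ j ∈ Ioi i, ((1 - a i * a j)⁻¹ * (1 - a i * a j)⁻¹)) *
      (∏ i, ∏ j ∈ Ioi i, ((a j - a i) * (a i * a j - 1))) *
      ∏ i, ∏ j ∈ Ioi i, (1 - a i * a j)) := by ring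
    _ = 1 := by rw [h2, h3, one_mul]

/-- perturbation to distinct nonzero roots -/
theorem eventually_good {N : ℕ} (a : Fin N → ℂ) (ha : ∀ i, ‖a i‖ < 1) :
    ∃ ρ < 1, ∀ᶠ t : ℂ in 𝓝[≠] 0, (Function.Injective fun i => a i + t * ((i : ℕ) + 1)) ∧
      (∀ i, a i + t * ((i : ℕ) + 1) ≠ 0) ∧ ∀ i, ‖a i + t * ((i : ℕ) + 1)‖ ≤ ρ := by
  obtain ⟨ρ, hρ, hρ1⟩ : ∃ ρ < (1 : ℝ), ∀ i, ‖a i‖ < ρ := by
    rcases Nat.eq_zero_or_pos N with hN | hN
    · subst hN
      exact ⟨0, by norm_num, fun i => i.elim0⟩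
    have hne : (univ : Finset (Fin N)).Nonempty := ⟨⟨0, hN⟩, mem_univ _⟩
    obtain ⟨i0, _, hi0⟩ := exists_max_image univ (fun i => ‖a i‖) hne
    refine ⟨(‖a i0‖ + 1) / 2, by linarith [ha i0], fun i => ?_⟩
    have := hi0 i (mem_univ _)
    linarith [ha i0]
  refine ⟨ρ, hρ, ?_⟩
  have hc : ∀ b c : ℂ, c ≠ 0 → ∀ᶠ t : ℂ in 𝓝[≠] 0, b + t * c ≠ 0 := by
    intro b c hc
    by_cases hb : b = 0
    · filter_upwards [self_mem_nhdsWithin] with t ht
      rw [hb, zero_add]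
      exact mul_ne_zero ht hc
    · have h1 : Tendsto (fun t : ℂ => b + t * c) (𝓝[≠] 0) (𝓝 b) := by
        have h2 : Tendsto (fun t : ℂ => b + t * c) (𝓝 0) (𝓝 (b + 0 * c)) :=
          (by fun_prop : Continuous fun t : ℂ => b + t * c).tendsto 0
        rw [zero_mul, add_zero] at h2
        exact h2.mono_left nhdsWithin_le_nhds
      exact h1.eventually_ne hb
  have h1 : ∀ᶠ t : ℂ in 𝓝[≠] 0, ∀ i j : Fin N, i ≠ j →
      (a i - a j) + t * (((i : ℕ) : ℂ) - (j : ℕ)) ≠ 0 := by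
    rw [Filter.eventually_all]
    intro i
    rw [Filter.eventually_all]
    intro j
    by_cases hij : i = j
    · exact Eventually.of_forall fun t h => absurd hij h
    · have hij' : (((i : ℕ) : ℂ) - (j : ℕ)) ≠ 0 := by
        rw [sub_ne_zero]
        intro h
        exact hij (Fin.ext (by exact_mod_cast h))
      filter_upwards [hc _ _ hij'] with t ht _
      exact ht
  have h2 : ∀ᶠ t : ℂ in 𝓝[≠] 0, ∀ i : Fin N, a i + t * ((i : ℕ) + 1) ≠ 0 := by
    rw [Filter.eventually_all]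
    intro i
    exact hc _ _ (by exact_mod_cast Nat.succ_ne_zero (i : ℕ))
  have h3 : ∀ᶠ t : ℂ in 𝓝[≠] 0, ∀ i : Fin N, ‖a i + t * ((i : ℕ) + 1)‖ ≤ ρ := by
    rw [Filter.eventually_all]
    intro i
    have h4 : Tendsto (fun t : ℂ => ‖a i + t * ((i : ℕ) + 1)‖) (𝓝[≠] 0) (𝓝 ‖a i‖) := by
      have h5 : Tendsto (fun t : ℂ => ‖a i + t * ((i : ℕ) + 1)‖) (𝓝 0)
          (𝓝 ‖a i + 0 * ((i : ℕ) + 1)‖) :=
        (by fun_prop : Continuous fun t : ℂ => ‖a i + t * ((i : ℕ) + 1)‖).tendsto 0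
      rw [zero_mul, add_zero] at h5
      exact h5.mono_left nhdsWithin_le_nhds
    exact h4.eventually_le_const (hρ1 i)
  filter_upwards [h1, h2, h3] with t e1 e2 e3
  refine ⟨fun i j hij => ?_, e2, e3⟩
  by_contra hne
  apply e1 i j hne
  simp only at hij
  linear_combination hij

theorem wa_bound {N : ℕ} (a : Fin N → ℂ) {ρ : ℝ} (hρ : ρ < 1) (ha : ∀ i, ‖a i‖ ≤ ρ) (x : ℝ) :
    ‖wa a x‖ ≤ ((1 - ρ)⁻¹ * (1 - ρ)⁻¹) ^ N := by
  unfold wa
  rw [norm_prod]
  have h1 : ∀ i, ‖((1 - a i * E x) * (1 - a i * E (-x)))⁻¹‖ ≤ (1 - ρ)⁻¹ * (1 - ρ)⁻¹ := by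
    intro i
    have h2 : ∀ y, 1 - ρ ≤ ‖1 - a i * E y‖ := by
      intro y
      have h3 := norm_sub_norm_le (1 : ℂ) (a i * E y)
      rw [norm_mul, norm_E, norm_one, mul_one] at h3
      linarith [ha i]
    have h4 : 0 < 1 - ρ := by linarith
    rw [norm_inv, norm_mul, mul_inv]
    have h5 : ∀ y, ‖1 - a i * E y‖⁻¹ ≤ (1 - ρ)⁻¹ := fun y => inv_anti₀ h4 (h2 y)
    have h6 : ∀ y, 0 ≤ ‖1 - a i * E y‖⁻¹ := fun y => inv_nonneg.mpr (norm_nonneg _)
    exact mul_le_mul (h5 x) (h5 (-x)) (h6 _) (inv_nonneg.mpr h4.le)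
  calc _ ≤ ∏ _i : Fin N, (1 - ρ)⁻¹ * (1 - ρ)⁻¹ :=
        prod_le_prod (fun i _ => norm_nonneg _) fun i _ => h1 i
    _ = _ := by rw [prod_const, card_univ, Fintype.card_fin]

/-- **Exact value of the folded Gram determinant.** -/
theorem det_sg_wa {N : ℕ} (a : Fin N → ℂ) (ha : ∀ i, ‖a i‖ < 1) :
    (sg N (wa a)).det * ∏ i, ∏ j ∈ Ioi i, (1 - a i * a j) = 1 := by
  obtain ⟨ρ, hρ, hev⟩ := eventually_good a ha
  set A : ℂ → Fin N → ℂ := fun t i => a i + t * ((i : ℕ) + 1) with hA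
  have hlt : ∀ i, Tendsto (fun t => A t i) (𝓝[≠] 0) (𝓝 (a i)) := by
    intro i
    have h5 : Tendsto (fun t : ℂ => A t i) (𝓝 0) (𝓝 (a i + 0 * ((i : ℕ) + 1))) :=
      (by simp only [hA]; fun_prop : Continuous fun t : ℂ => A t i).tendsto 0
    rw [zero_mul, add_zero] at h5
    exact h5.mono_left nhdsWithin_le_nhds
  have h1 : Tendsto (fun t => (sg N (wa (A t))).det) (𝓝[≠] 0) (𝓝 (sg N (wa a)).det) := by
    refine tendsto_sg (((1 - ρ)⁻¹ * (1 - ρ)⁻¹) ^ N) ?_ ?_ ?_ N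
    · filter_upwards [hev] with t ht
      exact continuous_wa _ fun i => (ht.2.2 i).trans_lt hρ
    · filter_upwards [hev] with t ht x
      exact wa_bound _ hρ ht.2.2 x
    · intro x
      unfold wa
      refine tendsto_finsetProd _ fun i _ => ?_
      refine Tendsto.inv₀ ?_ (mul_ne_zero (one_sub_ne (ha i) (norm_E x).le)
        (one_sub_ne (ha i) (norm_E (-x)).le))
      exact (((hlt i).mul_const _).const_sub _).mul (((hlt i).mul_const _).const_sub _)
  have h2 : Tendsto (fun t => ∏ i, ∏ j ∈ Ioi i, (1 - A t i * A t j)) (𝓝[≠] 0)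
      (𝓝 (∏ i, ∏ j ∈ Ioi i, (1 - a i * a j))) :=
    tendsto_finsetProd _ fun i _ => tendsto_finsetProd _ fun j _ =>
      ((hlt i).mul (hlt j)).const_sub _
  have h3 : Tendsto (fun _ : ℂ => (1 : ℂ)) (𝓝[≠] 0)
      (𝓝 ((sg N (wa a)).det * ∏ i, ∏ j ∈ Ioi i, (1 - a i * a j))) := by
    refine (h1.mul h2).congr' ?_
    filter_upwards [hev] with t ht
    exact det_sg_wa_inj (A t) (fun i => (ht.2.2 i).trans_lt hρ) ht.1 ht.2.1
  exact (tendsto_nhds_unique h3 tendsto_const_nhds)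

end Pool.Agent.FSz
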