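import Pool.Agent.FSz.Defs

/-! The step of the folded Gram determinants: `D_n ≤ (1 - b_{2n+2}) D_{n+1}`. -/

open Matrix Finset Metric MeasureTheory Real Filter Topology
open scoped ComplexConjugate

namespace Pool.Agent.FSz

open Pool.Agent.Szego62 (mu integral_mu ip ip_eq ip_one_right dcc_of_diff)

theorem int_E {f : ℂ → ℂ} (hf : ∀ z, ‖z‖ ≤ 1 → DifferentiableAt ℂ f z) :
    ∫ x, f (E x) ∂mu = f 0 := by
  have h := ip_one_right (dcc_of_diff hf)
  rw [ip_eq] at h
  simpa [E] using h

theorem int_E_pow {D : ℂ → ℂ} (hD : ∀ z, ‖z‖ ≤ 1 → DifferentiableAt ℂ D z) (h0 : D 0 = 1)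
    (m : ℕ) : ∫ x, E x ^ m * D (E x) ∂mu = if m = 0 then 1 else 0 := by
  have h := int_E (f := fun z => z ^ m * D z) fun z hz =>
    (differentiableAt_pow m).mul (hD z hz)
  rw [h, h0, mul_one]
  by_cases hm : m = 0
  · simp [hm]
  · simp [hm]

theorem cont_DE {D : ℂ → ℂ} (hD : ∀ z, ‖z‖ ≤ 1 → DifferentiableAt ℂ D z) :
    Continuous fun x => D (E x) := by
  rw [continuous_iff_continuousAt]
  intro x
  exact ContinuousAt.comp (f := E) (hD (E x) (norm_E x).le).continuousAt
    continuous_E.continuousAt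

/-- the test function -/
theorem int_test {D : ℂ → ℂ} (hD : ∀ z, ‖z‖ ≤ 1 → DifferentiableAt ℂ D z) (h0 : D 0 = 1)
    {k n : ℕ} (hk : k ≤ n) :
    ∫ x, 2 * Real.sin (((k : ℕ) + 1) * x) * (E x ^ (n + 1) * D (E x)).im ∂mu =
      if k = n then 1 else 0 := by
  have hc := cont_DE hD
  have h1 : ∀ x : ℝ, 2 * Real.sin (((k : ℕ) + 1) * x) * (E x ^ (n + 1) * D (E x)).im =
      (E x ^ (n - k) * D (E x) - E x ^ (n + k + 2) * D (E x)).re := by
    intro x
    have e1 : E x ^ (n - k) = conj (E x ^ (k + 1)) * E x ^ (n + 1) := by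
      rw [map_pow, conj_E, E_neg, inv_pow]
      rw [eq_comm, inv_mul_eq_iff_eq_mul₀ (pow_ne_zero _ (E_ne x)), ← pow_add]
      congr 1
      omega
    have e2 : E x ^ (n + k + 2) = E x ^ (k + 1) * E x ^ (n + 1) := by
      rw [← pow_add]
      congr 1
      omega
    have e3 : (E x ^ (k + 1)).im = Real.sin (((k : ℕ) + 1) * x) := by
      rw [E_pow, E, Complex.exp_ofReal_mul_I_im]
      congr 1
      push_cast
      ring
    rw [e1, e2, ← e3, mul_assoc (conj (E x ^ (k + 1))), mul_assoc (E x ^ (k + 1))]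
    generalize E x ^ (k + 1) = A
    generalize E x ^ (n + 1) * D (E x) = X
    simp only [Complex.sub_re, Complex.mul_re, Complex.conj_re, Complex.conj_im]
    ring
  simp_rw [h1]
  have hi : ∀ m : ℕ, Integrable (fun x => E x ^ m * D (E x)) mu := fun m =>
    integrable_mu ((continuous_E.pow m).mul hc)
  have h2 : ∫ x, (E x ^ (n - k) * D (E x) - E x ^ (n + k + 2) * D (E x)).re ∂mu =
      (∫ x, (E x ^ (n - k) * D (E x) - E x ^ (n + k + 2) * D (E x)) ∂mu).re :=
    integral_re ((hi _).sub (hi _))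
  rw [h2, integral_sub (hi _) (hi _), int_E_pow hD h0, int_E_pow hD h0]
  by_cases hkn : k = n
  · subst hkn
    simp
  · have : n - k ≠ 0 := by omega
    simp [hkn, this]

/-- the quadratic form of the folded Gram matrix -/
theorem sgR_quad (n : ℕ) {g : ℝ → ℝ} (hg : Continuous g) (v : Fin n → ℝ) :
    v ⬝ᵥ (sgR n g).mulVec v =
      ∫ x, 2 * (∑ k, v k * Real.sin (((k : ℕ) + 1) * x)) ^ 2 * g x ∂mu := by
  simp only [dotProduct, mulVec, sgR, of_apply]
  have h2 : ∀ k l : Fin n, (∫ x, (2 * (Real.sin (((k : ℕ) + 1) * x) *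
      Real.sin (((l : ℕ) + 1) * x))) * g x ∂mu) * v l =
      ∫ x, (2 * (Real.sin (((k : ℕ) + 1) * x) *
      Real.sin (((l : ℕ) + 1) * x))) * g x * v l ∂mu := fun k l =>
    (integral_mul_const _ _).symm
  simp_rw [h2]
  have h3 : ∀ k : Fin n, v k * ∑ l : Fin n, ∫ x, (2 * (Real.sin (((k : ℕ) + 1) * x) *
      Real.sin (((l : ℕ) + 1) * x))) * g x * v l ∂mu =
      ∫ x, v k * ∑ l : Fin n, (2 * (Real.sin (((k : ℕ) + 1) * x) *
      Real.sin (((l : ℕ) + 1) * x))) * g x * v l ∂mu := by
    intro k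
    rw [integral_const_mul, integral_finsetSum]
    exact fun l _ => integrable_muR (by fun_prop)
  simp_rw [h3]
  rw [← integral_finsetSum]
  · refine integral_congr_ae (Eventually.of_forall fun x => ?_)
    simp only
    rw [pow_two, sum_mul_sum, mul_sum, sum_mul]
    refine sum_congr rfl fun k _ => ?_
    rw [mul_sum, mul_sum, sum_mul]
    refine sum_congr rfl fun l _ => ?_
    ring
  · exact fun k _ => integrable_muR (by fun_prop)

/-- submatrix of the folded Gram matrix -/
theorem sgR_castSucc (n : ℕ) (g : ℝ → ℝ) :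
    (sgR (n + 1) g).submatrix Fin.castSucc Fin.castSucc = sgR n g := by
  ext k l
  simp [sgR]

/-- abstract form of the step -/
theorem det_step {n : ℕ} (M : Matrix (Fin (n + 1)) (Fin (n + 1)) ℝ) (hM : M.IsHermitian) {b : ℝ}
    (hb : 0 < b) (hq : ∀ v : Fin (n + 1) → ℝ, v (Fin.last n) ^ 2 ≤ b * (v ⬝ᵥ M.mulVec v)) :
    (M.submatrix Fin.castSucc Fin.castSucc).det ≤ b * M.det := by
  set u : Fin (n + 1) → ℝ := Pi.single (Fin.last n) 1 with hu
  set A : Matrix (Fin (n + 1)) (Fin (n + 1)) ℝ := (b • M).updateRow (Fin.last n)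
    ((b • M) (Fin.last n) - u) with hA
  have hAe : ∀ i j, A i j = b * M i j - u i * u j := by
    intro i j
    by_cases hi : i = Fin.last n
    · subst hi
      rw [hA, updateRow_self]
      simp [hu]
    · rw [hA, updateRow_ne hi]
      simp [hu, Pi.single_eq_of_ne hi]
  have hps : A.PosSemidef := by
    refine Matrix.PosSemidef.of_dotProduct_mulVec_nonneg ?_ ?_
    · ext i j
      simp only [conjTranspose_apply, star_trivial, hAe]
      have := hM.apply j i
      simp only [star_trivial] at this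
      rw [this]
      ring
    · intro v
      have h1 : star v ⬝ᵥ A.mulVec v = b * (v ⬝ᵥ M.mulVec v) - v (Fin.last n) ^ 2 := by
        have e1 : v (Fin.last n) = ∑ i, v i * u i := by
          simp [hu, Pi.single_apply]
        rw [e1, pow_two, sum_mul_sum]
        simp only [dotProduct, mulVec, star_trivial, hAe, mul_sum]
        rw [← sum_sub_distrib]
        refine sum_congr rfl fun i _ => ?_
        rw [← sum_sub_distrib]
        refine sum_congr rfl fun j _ => ?_
        ring
      rw [h1]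
      exact sub_nonneg.2 (hq v)
  have hdet : A.det = b ^ n * (b * M.det - (M.submatrix Fin.castSucc Fin.castSucc).det) := by
    have h1 : A.det = (b • M).det - ((b • M).updateRow (Fin.last n) u).det := by
      have h2 := det_updateRow_add (b • M) (Fin.last n) ((b • M) (Fin.last n) - u) u
      rw [sub_add_cancel, updateRow_eq_self] at h2
      rw [hA]
      linarith
    have h3 : ((b • M).updateRow (Fin.last n) u).det =
        b ^ n * (M.submatrix Fin.castSucc Fin.castSucc).det := by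
      rw [det_succ_row _ (Fin.last n), Finset.sum_eq_single (Fin.last n)]
      · have e1 : ((b • M).updateRow (Fin.last n) u).submatrix (Fin.last n).succAbove
            (Fin.last n).succAbove = b • (M.submatrix Fin.castSucc Fin.castSucc) := by
          ext i j
          simp only [submatrix_apply, Fin.succAbove_last]
          rw [updateRow_ne (Fin.castSucc_lt_last i).ne]
          simp
        rw [e1, det_smul, updateRow_self]
        simp [hu, Even.neg_one_pow (⟨n, rfl⟩ : Even (n + n))]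
      · intro j _ hj
        rw [updateRow_self]
        simp [hu, Pi.single_eq_of_ne hj]
      · intro h
        exact absurd (mem_univ _) h
    rw [h1, h3, det_smul]
    simp only [Fintype.card_fin]
    ring
  have h4 := hps.det_nonneg
  rw [hdet] at h4
  have h5 : 0 < b ^ n := pow_pos hb n
  have h6 := nonneg_of_mul_nonneg_right h4 h5
  linarith

/-- the tail coefficient as an integral of a square -/
theorem one_sub_bD {D : ℂ → ℂ} (hD : ∀ z, ‖z‖ ≤ 1 → DifferentiableAt ℂ D z)
    (hne : ∀ z, ‖z‖ ≤ 1 → D z ≠ 0) (n : ℕ) :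
    ∫ x, 2 * (E x ^ (n + 1) * D (E x)).im ^ 2 / ‖D (E x)‖ ^ 2 ∂mu = 1 - bD D (2 * n + 2) := by
  have hc := cont_DE hD
  have hcc : Continuous fun x => conj (D (E x)) := Complex.continuous_conj.comp hc
  have hne' : ∀ x, D (E x) ≠ 0 := fun x => hne _ (norm_E x).le
  have h1 : ∀ x : ℝ, 2 * (E x ^ (n + 1) * D (E x)).im ^ 2 / ‖D (E x)‖ ^ 2 =
      (1 - D (E x) / conj (D (E x)) * E x ^ (2 * n + 2)).re := by
    intro x
    have hX0 := hne' x
    have e1 : D (E x) / conj (D (E x)) * E x ^ (2 * n + 2) =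
        (E x ^ (n + 1) * D (E x)) ^ 2 / ((‖D (E x)‖ ^ 2 : ℝ) : ℂ) := by
      have e2 : ((‖D (E x)‖ ^ 2 : ℝ) : ℂ) = D (E x) * conj (D (E x)) := by
        rw [Complex.mul_conj, Complex.normSq_eq_norm_sq]
      have e3 : conj (D (E x)) ≠ 0 := by simpa using hX0
      rw [e2]
      field_simp
      ring
    have e4 : ‖E x ^ (n + 1) * D (E x)‖ = ‖D (E x)‖ := by
      rw [norm_mul, norm_pow, norm_E, one_pow, one_mul]
    rw [e1, Complex.sub_re, Complex.one_re, Complex.div_ofReal_re, ← e4]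
    have hX : ‖E x ^ (n + 1) * D (E x)‖ ≠ 0 := by
      rw [e4]
      exact norm_ne_zero_iff.2 hX0
    generalize hXd : E x ^ (n + 1) * D (E x) = X at *
    have e5 : ‖X‖ ^ 2 = X.re ^ 2 + X.im ^ 2 := by
      rw [← Complex.normSq_eq_norm_sq, Complex.normSq_apply]
      ring
    have e6 : (X ^ 2).re = X.re ^ 2 - X.im ^ 2 := by
      rw [pow_two, Complex.mul_re]
      ring
    have e7 : ‖X‖ ^ 2 ≠ 0 := pow_ne_zero 2 hX
    rw [e6, div_eq_iff e7, sub_mul, div_mul_cancel₀ _ e7, one_mul, e5]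
    ring
  simp_rw [h1]
  have hi : Integrable (fun x => D (E x) / conj (D (E x)) * E x ^ (2 * n + 2)) mu := by
    refine integrable_mu ((hc.div hcc fun x => ?_).mul (continuous_E.pow _))
    simpa using hne' x
  have h1i : Integrable (fun _ : ℝ => (1 : ℂ)) mu := integrable_const _
  have h2 : ∫ x, (1 - D (E x) / conj (D (E x)) * E x ^ (2 * n + 2)).re ∂mu =
      (∫ x, (1 - D (E x) / conj (D (E x)) * E x ^ (2 * n + 2)) ∂mu).re :=
    integral_re (h1i.sub hi)
  rw [h2, integral_sub h1i hi, Complex.sub_re, bD]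
  simp

/-- **One step.** -/
theorem gram_step {D : ℂ → ℂ} (hD : ∀ z, ‖z‖ ≤ 1 → DifferentiableAt ℂ D z) (h0 : D 0 = 1)
    (hne : ∀ z, ‖z‖ ≤ 1 → D z ≠ 0) (n : ℕ) :
    0 < 1 - bD D (2 * n + 2) ∧
    (sgR n (fun x => ‖D (E x)‖ ^ 2)).det ≤
      (1 - bD D (2 * n + 2)) * (sgR (n + 1) (fun x => ‖D (E x)‖ ^ 2)).det := by
  have hc := cont_DE hD
  have hne' : ∀ x, D (E x) ≠ 0 := fun x => hne _ (norm_E x).le
  set g : ℝ → ℝ := fun x => ‖D (E x)‖ ^ 2 with hg
  have hgc : Continuous g := hc.norm.pow 2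
  have hg0 : ∀ x, 0 < g x := fun x => by
    have := norm_pos_iff.2 (hne' x)
    positivity
  set G : ℝ → ℝ := fun x => (E x ^ (n + 1) * D (E x)).im with hG
  have hGc : Continuous G := Complex.continuous_im.comp ((continuous_E.pow _).mul hc)
  set b : ℝ := 1 - bD D (2 * n + 2) with hb
  have hbe : ∫ x, 2 * G x ^ 2 / g x ∂mu = b := one_sub_bD hD hne n
  have hq : ∀ v : Fin (n + 1) → ℝ, v (Fin.last n) ^ 2 ≤
      b * (v ⬝ᵥ (sgR (n + 1) g).mulVec v) := by
    intro v
    set P : ℝ → ℝ := fun x => ∑ k, v k * Real.sin (((k : ℕ) + 1) * x) with hP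
    have hPc : Continuous P := by
      rw [hP]
      fun_prop
    have e1 : ∫ x, 2 * P x * G x ∂mu = v (Fin.last n) := by
      have : ∀ x, 2 * P x * G x = ∑ k, v k * (2 * Real.sin (((k : ℕ) + 1) * x) * G x) := by
        intro x
        rw [hP]
        simp only
        rw [mul_sum, sum_mul]
        exact sum_congr rfl fun k _ => by ring
      simp_rw [this]
      rw [integral_finsetSum]
      · simp_rw [integral_const_mul]
        have e2 : ∀ k : Fin (n + 1), ∫ x, 2 * Real.sin (((k : ℕ) + 1) * x) * G x ∂mu =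
            if k = Fin.last n then 1 else 0 := by
          intro k
          have := int_test hD h0 (k := k) (n := n) (by omega)
          rw [hG]
          simp only
          rw [this]
          simp [Fin.ext_iff]
        simp_rw [e2]
        simp
      · exact fun k _ => integrable_muR (by fun_prop)
    have e3 := sgR_quad (n + 1) hgc v
    have hi1 : Integrable (fun x => 2 * P x ^ 2 * g x) mu := integrable_muR (by fun_prop)
    have hi2 : Integrable (fun x => 2 * P x * G x) mu := integrable_muR (by fun_prop)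
    have hi3 : Integrable (fun x => 2 * G x ^ 2 / g x) mu :=
      integrable_muR ((by fun_prop : Continuous fun x => 2 * G x ^ 2).div hgc fun x => (hg0 x).ne')
    have e4 : ∀ t : ℝ, 0 ≤ (v ⬝ᵥ (sgR (n + 1) g).mulVec v) * (t * t) +
        (-2 * v (Fin.last n)) * t + b := by
      intro t
      have e5 : (v ⬝ᵥ (sgR (n + 1) g).mulVec v) * (t * t) + (-2 * v (Fin.last n)) * t + b =
          ∫ x, 2 * (t * P x * g x - G x) ^ 2 / g x ∂mu := by
        rw [e3, ← e1, ← hbe]
        have e6 : ∀ x, 2 * (t * P x * g x - G x) ^ 2 / g x =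
            (2 * P x ^ 2 * g x) * (t * t) + (2 * P x * G x) * (-2 * t) + 2 * G x ^ 2 / g x := by
          intro x
          have := (hg0 x).ne'
          field_simp
          ring
        simp_rw [e6]
        have e8 : ∫ x, ((2 * P x ^ 2 * g x) * (t * t) + (2 * P x * G x) * (-2 * t) +
            2 * G x ^ 2 / g x) ∂mu = ∫ x, ((2 * P x ^ 2 * g x) * (t * t) +
            (2 * P x * G x) * (-2 * t)) ∂mu + ∫ x, 2 * G x ^ 2 / g x ∂mu :=
          integral_add ((hi1.mul_const _).add (hi2.mul_const _)) hi3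
        have e9 : ∫ x, ((2 * P x ^ 2 * g x) * (t * t) + (2 * P x * G x) * (-2 * t)) ∂mu =
            ∫ x, (2 * P x ^ 2 * g x) * (t * t) ∂mu + ∫ x, (2 * P x * G x) * (-2 * t) ∂mu :=
          integral_add (hi1.mul_const _) (hi2.mul_const _)
        rw [e8, e9, integral_mul_const, integral_mul_const]
        ring
      rw [e5]
      exact integral_nonneg fun x => div_nonneg (by positivity) (hg0 x).le
    have e7 := discrim_le_zero (a := v ⬝ᵥ (sgR (n + 1) g).mulVec v)
      (b := -2 * v (Fin.last n)) (c := b) (by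
        intro t
        have := e4 t
        linarith)
    unfold discrim at e7
    nlinarith
  have hb0 : 0 < b := by
    have h1 := hq (Pi.single (Fin.last n) 1)
    rw [Pi.single_eq_same, one_pow] at h1
    have h2 : 0 ≤ b := by
      rw [← hbe]
      exact integral_nonneg fun x => div_nonneg (by positivity) (hg0 x).le
    rcases h2.lt_or_eq with h | h
    · exact h
    · rw [← h, zero_mul] at h1
      linarith
  refine ⟨hb0, ?_⟩
  have h3 := det_step (sgR (n + 1) g) (sgR_posSemidef (n + 1) hgc fun x => (hg0 x).le).1 hb0 hq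
  rwa [sgR_castSucc] at h3

/-- **The tail with its sign.** -/
theorem gram_tail {D : ℂ → ℂ} (hD : ∀ z, ‖z‖ ≤ 1 → DifferentiableAt ℂ D z) (h0 : D 0 = 1)
    (hne : ∀ z, ‖z‖ ≤ 1 → D z ≠ 0) {n N : ℕ} (h : n ≤ N) :
    (sgR n (fun x => ‖D (E x)‖ ^ 2)).det ≤
      (sgR N (fun x => ‖D (E x)‖ ^ 2)).det *
        Real.exp (-∑ j ∈ Ico n N, bD D (2 * j + 2)) := by
  have hc := cont_DE hD
  induction N, h using Nat.le_induction with
  | base => simp
  | succ N hN ih =>
    refine ih.trans ?_
    obtain ⟨h1, h2⟩ := gram_step hD h0 hne N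
    have h3 : 0 ≤ (sgR (N + 1) (fun x => ‖D (E x)‖ ^ 2)).det :=
      sgR_det_nonneg _ (hc.norm.pow 2) fun x => by positivity
    have h4 : 1 - bD D (2 * N + 2) ≤ Real.exp (-bD D (2 * N + 2)) := by
      have := Real.add_one_le_exp (-bD D (2 * N + 2))
      linarith
    rw [Finset.sum_Ico_succ_top hN, neg_add, Real.exp_add]
    have h5 : (sgR N (fun x => ‖D (E x)‖ ^ 2)).det ≤
        (sgR (N + 1) (fun x => ‖D (E x)‖ ^ 2)).det * Real.exp (-bD D (2 * N + 2)) := by
      refine h2.trans ?_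
      rw [mul_comm]
      exact mul_le_mul_of_nonneg_left h4 h3
    calc (sgR N (fun x => ‖D (E x)‖ ^ 2)).det * Real.exp (-∑ j ∈ Ico n N, bD D (2 * j + 2)) ≤
        (sgR (N + 1) (fun x => ‖D (E x)‖ ^ 2)).det * Real.exp (-bD D (2 * N + 2)) *
          Real.exp (-∑ j ∈ Ico n N, bD D (2 * j + 2)) := by gcongr
      _ = _ := by ring

/-- `helper68`'s form (complex weights, real part of the determinant) -/
theorem gram_tail_c {D : ℂ → ℂ} (hD : ∀ z, ‖z‖ ≤ 1 → DifferentiableAt ℂ D z) (h0 : D 0 = 1)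
    (hne : ∀ z, ‖z‖ ≤ 1 → D z ≠ 0) {n N : ℕ} (h : n ≤ N) :
    ((sg n (fun x => ((‖D (E x)‖ ^ 2 : ℝ) : ℂ))).det).re ≤
      ((sg N (fun x => ((‖D (E x)‖ ^ 2 : ℝ) : ℂ))).det).re *
        Real.exp (-∑ j ∈ Ico n N, bD D (2 * j + 2)) := by
  have h1 := gram_tail hD h0 hne h
  rw [sg_ofReal n (fun x => ‖D (E x)‖ ^ 2), sg_ofReal N (fun x => ‖D (E x)‖ ^ 2),
    Complex.ofReal_re, Complex.ofReal_re]
  exact h1

end Pool.Agent.FSz
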