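import Pool.Agent.FSz.Defs
import Pool.Agent.FSz.Weyl
import Pool.Agent.Szego62.Andreief

/-! Heine's identity for the folded (symplectic) gas. -/

open Matrix Finset Metric MeasureTheory Real Filter Topology Polynomial
open scoped ComplexConjugate

namespace Pool.Agent.FSz

open Pool.Agent.Szego62 (mu integral_mu andreief)

/-- folded squared Vandermonde: `∏_{i<j} (2 cos θ_i - 2 cos θ_j)² ∏_i 2 sin² θ_i` -/
noncomputable def VC (n : ℕ) (θ : Fin n → ℝ) : ℝ :=
  (∏ i : Fin n, ∏ j ∈ Ioi i, (2 * Real.cos (θ i) - 2 * Real.cos (θ j)) ^ 2) *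
    ∏ i, (2 * Real.sin (θ i) ^ 2)

theorem VC_nonneg (n : ℕ) (θ : Fin n → ℝ) : 0 ≤ VC n θ := by
  unfold VC
  positivity

theorem continuous_VC (n : ℕ) : Continuous (VC n) := by
  unfold VC
  fun_prop

theorem VC_meas (n : ℕ) : Measurable (VC n) := (continuous_VC n).measurable

theorem VC_le (n : ℕ) (θ : Fin n → ℝ) :
    VC n θ ≤ (∏ i : Fin n, ∏ j ∈ Ioi i, (16 : ℝ)) * ∏ _i : Fin n, 2 := by
  unfold VC
  refine mul_le_mul ?_ ?_ (prod_nonneg fun i _ => by positivity)
    (prod_nonneg fun i _ => prod_nonneg fun j _ => by norm_num)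
  · refine prod_le_prod (fun i _ => prod_nonneg fun j _ => by positivity) fun i _ => ?_
    refine prod_le_prod (fun j _ => by positivity) fun j _ => ?_
    have h1 := Real.cos_le_one (θ i)
    have h2 := Real.cos_le_one (θ j)
    have h3 := Real.neg_one_le_cos (θ i)
    have h4 := Real.neg_one_le_cos (θ j)
    have h5 : |2 * Real.cos (θ i) - 2 * Real.cos (θ j)| ≤ 4 := by
      rw [abs_le]
      constructor <;> linarith
    calc (2 * Real.cos (θ i) - 2 * Real.cos (θ j)) ^ 2 =
        |2 * Real.cos (θ i) - 2 * Real.cos (θ j)| ^ 2 := (sq_abs _).symm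
      _ ≤ 4 ^ 2 := by gcongr
      _ = 16 := by norm_num
  · refine prod_le_prod (fun i _ => by positivity) fun i _ => ?_
    have := Real.sin_sq_le_one (θ i)
    linarith

theorem sin_Sp (n : ℕ) (x : ℝ) :
    Real.sin (((n : ℝ) + 1) * x) = Real.sin x * (Sp ℝ n).eval (2 * Real.cos x) := by
  induction n using Nat.twoStepInduction with
  | zero => simp [Sp]
  | one =>
    simp only [Sp, eval_X, Nat.cast_one]
    rw [show ((1 : ℝ) + 1) * x = 2 * x by ring, Real.sin_two_mul]
    ring
  | more n h0 h1 =>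
    simp only [Sp, eval_sub, eval_mul, eval_X]
    have e1 : Real.sin (((n + 2 : ℕ) + 1 : ℝ) * x) = 2 * Real.cos x *
        Real.sin (((n + 1 : ℕ) + 1 : ℝ) * x) - Real.sin (((n : ℝ) + 1) * x) := by
      have a1 : ((n + 2 : ℕ) + 1 : ℝ) * x = ((n + 1 : ℕ) + 1 : ℝ) * x + x := by push_cast; ring
      have a2 : ((n : ℝ) + 1) * x = ((n + 1 : ℕ) + 1 : ℝ) * x - x := by push_cast; ring
      rw [a1, a2, Real.sin_add, Real.sin_sub]
      ring
    rw [e1, h0, h1]
    ring

theorem det_sin {n : ℕ} (θ : Fin n → ℝ) :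
    (Matrix.of fun (i j : Fin n) => Real.sin (((i : ℕ) + 1) * θ j)).det =
      (∏ j, Real.sin (θ j)) * ∏ i : Fin n, ∏ j ∈ Ioi i, (2 * Real.cos (θ j) - 2 * Real.cos (θ i)) := by
  have h := det_mul_row (fun j => Real.sin (θ j))
    ((Matrix.of fun (j i : Fin n) => (Sp ℝ i).eval (2 * Real.cos (θ j)))ᵀ)
  have h2 := det_eval_matrixOfPolynomials_eq_det_vandermonde (fun j => 2 * Real.cos (θ j))
    (fun i : Fin n => Sp ℝ i) (fun i => (Sp_deg_monic _).1) (fun i => (Sp_deg_monic _).2)
  rw [det_transpose, ← h2, det_vandermonde] at h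
  rw [← h]
  congr 1
  ext i j
  simp only [of_apply, transpose_apply]
  exact sin_Sp i (θ j)

/-- **Heine's identity**, folded -/
theorem heineC (n : ℕ) {g : ℝ → ℝ} (hg : Continuous g) :
    ∫ θ : Fin n → ℝ, VC n θ * ∏ i, g (θ i) ∂(Measure.pi fun _ => mu) =
      (n.factorial : ℝ) * (sgR n g).det := by
  have key : ((∫ θ : Fin n → ℝ, VC n θ * ∏ i, g (θ i) ∂(Measure.pi fun _ => mu) : ℝ) : ℂ) =
      (((n.factorial : ℝ) * (sgR n g).det : ℝ) : ℂ) := by
    rw [← integral_complex_ofReal]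
    have h1 := andreief mu (n := n)
      (fun i (x : ℝ) => ((2 * Real.sin (((i : ℕ) + 1) * x) * g x : ℝ) : ℂ))
      (fun j (x : ℝ) => ((Real.sin (((j : ℕ) + 1) * x) : ℝ) : ℂ)) (fun i j =>
        integrable_mu (by fun_prop))
    have h2 : ∀ θ : Fin n → ℝ, ((VC n θ * ∏ i, g (θ i) : ℝ) : ℂ) =
        (Matrix.of fun (i j : Fin n) =>
          ((2 * Real.sin (((i : ℕ) + 1) * θ j) * g (θ j) : ℝ) : ℂ)).det *
        (Matrix.of fun (i j : Fin n) => ((Real.sin (((i : ℕ) + 1) * θ j) : ℝ) : ℂ)).det := by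
      intro θ
      have e1 : (Matrix.of fun (i j : Fin n) =>
          ((2 * Real.sin (((i : ℕ) + 1) * θ j) * g (θ j) : ℝ) : ℂ)).det =
          (((Matrix.of fun (i j : Fin n) =>
            2 * Real.sin (((i : ℕ) + 1) * θ j) * g (θ j)).det : ℝ) : ℂ) := by
        have := (RingHom.map_det Complex.ofRealHom (Matrix.of fun (i j : Fin n) =>
          2 * Real.sin (((i : ℕ) + 1) * θ j) * g (θ j))).symm
        exact this
      have e2 : (Matrix.of fun (i j : Fin n) =>
          ((Real.sin (((i : ℕ) + 1) * θ j) : ℝ) : ℂ)).det =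
          (((Matrix.of fun (i j : Fin n) => Real.sin (((i : ℕ) + 1) * θ j)).det : ℝ) : ℂ) := by
        have := (RingHom.map_det Complex.ofRealHom (Matrix.of fun (i j : Fin n) =>
          Real.sin (((i : ℕ) + 1) * θ j))).symm
        exact this
      have e3 : (Matrix.of fun (i j : Fin n) =>
          2 * Real.sin (((i : ℕ) + 1) * θ j) * g (θ j)).det = (∏ j, (2 * g (θ j))) *
          (Matrix.of fun (i j : Fin n) => Real.sin (((i : ℕ) + 1) * θ j)).det := by
        have := det_mul_row (fun j => 2 * g (θ j))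
          (Matrix.of fun (i j : Fin n) => Real.sin (((i : ℕ) + 1) * θ j))
        rw [← this]
        congr 1
        ext i j
        simp only [of_apply]
        ring
      rw [e1, e2, ← Complex.ofReal_mul, e3, det_sin]
      congr 1
      unfold VC
      have e4 : (∏ i : Fin n, ∏ j ∈ Ioi i, (2 * Real.cos (θ i) - 2 * Real.cos (θ j)) ^ 2) =
          (∏ i : Fin n, ∏ j ∈ Ioi i, (2 * Real.cos (θ j) - 2 * Real.cos (θ i))) ^ 2 := by
        rw [← prod_pow]
        refine prod_congr rfl fun i _ => ?_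
        rw [← prod_pow]
        exact prod_congr rfl fun j _ => by ring
      rw [e4]
      simp only [prod_mul_distrib, prod_pow]
      ring
    rw [integral_congr_ae (ae_of_all _ fun θ => h2 θ), h1, Complex.ofReal_mul,
      Complex.ofReal_natCast]
    congr 1
    have e5 : (Matrix.of fun (i j : Fin n) =>
        ∫ x, ((2 * Real.sin (((i : ℕ) + 1) * x) * g x : ℝ) : ℂ) *
          ((Real.sin (((j : ℕ) + 1) * x) : ℝ) : ℂ) ∂mu) =
        sg n (fun x => ((g x : ℝ) : ℂ)) := by
      ext i j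
      simp only [sg, of_apply]
      refine integral_congr_ae (ae_of_all _ fun x => ?_)
      simp only
      push_cast
      ring
    rw [e5, sg_ofReal]
  exact_mod_cast key

/-- folded Heine identity with the weight `exp F`, `F` an even trigonometric polynomial -/
theorem heineC_exp (n : ℕ) {K : ℕ} (c : Fin K → ℝ) :
    ∫ θ : Fin n → ℝ, VC n θ * Real.exp (∑ i, ∑ k : Fin K, 2 * c k *
      Real.cos (((k : ℕ) + 1) * θ i)) ∂(Measure.pi fun _ => mu) =
      (n.factorial : ℝ) * (sgR n (fun x => Real.exp (∑ k : Fin K, 2 * c k *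
        Real.cos (((k : ℕ) + 1) * x)))).det := by
  rw [← heineC n (g := fun x => Real.exp (∑ k : Fin K, 2 * c k *
        Real.cos (((k : ℕ) + 1) * x))) (by fun_prop)]
  simp_rw [Real.exp_sum]

end Pool.Agent.FSz
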