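import Pool.Agent.FSz.Exact

/-! Limits for the folded Szegő bound: products of the zeros, the exact determinants, tails. -/

open Matrix Finset Metric MeasureTheory Real Filter Topology Polynomial
open scoped ComplexConjugate

namespace Pool.Agent.FSz

open Pool.Agent.Szego62 (mu integral_mu fa one_sub_ne fa_diff dcc_of_diff prod_split Idx az w fN
  az_lt w_lt_one prod_idx prod_roots w_pow card_idx fN_eq tendsto_fN tendsto_prod_az ev diff_inv
  CS cs_of_diffContOnCl)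

section general

/-- squares of the exact determinants -/
theorem det_sg_sq {ι : Type*} [Fintype ι] (a : ι → ℂ) (ha : ∀ i, ‖a i‖ < 1) :
    (sg (Fintype.card ι) (fun x => ∏ i, ((1 - a i * E x) * (1 - a i * E (-x)))⁻¹)).det ^ 2 *
      ∏ j, ∏ i, (1 - a i * a j) = ∏ i, (1 - a i ^ 2) := by
  set e := (Fintype.equivFin ι).symm with he
  have h0 : (fun x => ∏ i, ((1 - a i * E x) * (1 - a i * E (-x)))⁻¹) = wa (a ∘ e) := by
    funext x
    unfold wa
    rw [← Equiv.prod_comp e]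
    rfl
  have h1 : ∏ j, ∏ i, (1 - a i * a j) = ∏ j, ∏ i, (1 - (a ∘ e) i * (a ∘ e) j) := by
    rw [← Equiv.prod_comp e]
    refine prod_congr rfl fun j _ => ?_
    rw [← Equiv.prod_comp e]
    rfl
  have h2 : ∏ i, (1 - a i ^ 2) = ∏ i, (1 - (a ∘ e) i ^ 2) := by
    rw [← Equiv.prod_comp e]
    rfl
  have hb : ∀ i, ‖(a ∘ e) i‖ < 1 := fun i => ha _
  rw [h0, h1, h2]
  generalize a ∘ e = b at hb
  have h3 := det_sg_wa b hb
  have h4 := prod_fa b
  have h5 : ∏ j, fa b (b j) = (∏ j, ∏ i, (1 - b i * b j))⁻¹ := by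
    rw [← prod_inv_distrib]
    refine prod_congr rfl fun j _ => ?_
    unfold fa
    rw [prod_inv_distrib]
  have h6 : ∏ i, ∏ j ∈ Ioi i, ((1 - b i * b j)⁻¹ * (1 - b i * b j)⁻¹) =
      ((∏ i, ∏ j ∈ Ioi i, (1 - b i * b j)) ^ 2)⁻¹ := by
    rw [← prod_pow, ← prod_inv_distrib]
    refine prod_congr rfl fun i _ => ?_
    rw [← prod_pow, ← prod_inv_distrib]
    refine prod_congr rfl fun j _ => ?_
    rw [pow_two, mul_inv]
  rw [h5, h6, prod_inv_distrib, ← mul_inv, _root_.inv_inj] at h4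
  rw [h4]
  set X := ∏ i, ∏ j ∈ Ioi i, (1 - b i * b j)
  calc (sg (Fintype.card ι) (wa b)).det ^ 2 * ((∏ i, (1 - b i ^ 2)) * X ^ 2) =
      ((sg (Fintype.card ι) (wa b)).det * X) ^ 2 * ∏ i, (1 - b i ^ 2) := by ring
    _ = _ := by rw [h3, one_pow, one_mul]

end general

section main

variable {K : ℕ} (c : Fin K → ℝ)

/-- the complex coefficients -/
noncomputable def cc (k : Fin K) : ℂ := (c k : ℂ)

/-- the polynomial `1 / fN` -/
noncomputable def PN (N : ℕ) (z : ℂ) : ℂ := ∏ j, (1 - (cc c j / N) * z ^ ((j : ℕ) + 1)) ^ N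

theorem fN_inv (N : ℕ) (z : ℂ) : fN (cc c) N z = (PN c N z)⁻¹ := by
  unfold fN PN
  rw [← prod_inv_distrib]
  exact prod_congr rfl fun j _ => inv_pow _ _

theorem prod_lin (N : ℕ) (z : ℂ) : ∏ p : Idx K N, (1 - az (cc c) N p * z) = PN c N z := by
  have h := congrFun (fN_eq (cc c) N) z
  rw [fN_inv] at h
  simp only [prod_inv_distrib, _root_.inv_inj] at h
  exact h.symm

theorem conj_PN (N : ℕ) (z : ℂ) : conj (PN c N z) = PN c N (conj z) := by
  unfold PN cc
  simp only [map_prod, map_pow, map_sub, map_one, map_mul, map_div₀, Complex.conj_ofReal,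
    map_natCast]

theorem conj_fN (N : ℕ) (z : ℂ) : conj (fN (cc c) N z) = fN (cc c) N (conj z) := by
  rw [fN_inv, fN_inv, map_inv₀, conj_PN]

theorem prod_az_real (N : ℕ) : ∏ p : Idx K N, ∏ q : Idx K N,
    (1 - az (cc c) N q * az (cc c) N p) = ∏ p : Idx K N, ∏ q : Idx K N,
    (1 - conj (az (cc c) N q) * az (cc c) N p) := by
  refine prod_congr rfl fun p _ => ?_
  rw [prod_lin]
  have h := congrArg conj (prod_lin c N (conj (az (cc c) N p)))
  rw [conj_PN, Complex.conj_conj] at h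
  rw [← h, map_prod]
  refine prod_congr rfl fun q _ => ?_
  simp only [map_sub, map_one, map_mul, Complex.conj_conj]

theorem prod_az_sq (N : ℕ) : ∏ p : Idx K N, (1 - az (cc c) N p ^ 2) =
    PN c N 1 * PN c N (-1) := by
  rw [← prod_lin, ← prod_lin, ← prod_mul_distrib]
  exact prod_congr rfl fun p _ => by ring

theorem tendsto_PN (z : ℂ) : Tendsto (fun N => PN c N z) atTop (𝓝 ((ev (cc c) z)⁻¹)) := by
  have h := (tendsto_fN (cc c) z).inv₀ (Complex.exp_ne_zero _)
  refine h.congr fun N => ?_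
  rw [fN_inv, inv_inv]

/-- the exact determinants -/
noncomputable def gN (N : ℕ) (x : ℝ) : ℝ := ‖fN (cc c) N (E x)‖ ^ 2

theorem gN_eq (N : ℕ) (x : ℝ) : ((gN c N x : ℝ) : ℂ) =
    ∏ p : Idx K N, ((1 - az (cc c) N p * E x) * (1 - az (cc c) N p * E (-x)))⁻¹ := by
  rw [prod_inv_distrib, prod_mul_distrib, prod_lin, prod_lin, mul_inv, ← fN_inv, ← fN_inv,
    ← conj_E, ← conj_fN, Complex.mul_conj, Complex.normSq_eq_norm_sq]
  rfl

/-- the real limit value -/
noncomputable def LL : ℝ := Real.exp ((∑ j : Fin K, ((j : ℕ) + 1 : ℝ) * c j ^ 2) / 2 -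
  ∑ j : Fin K, if Odd (j : ℕ) then c j else 0)

theorem det_gN_sq {N : ℕ} (h : ∀ j, ‖w (cc c) j N‖ < 1) :
    (((sgR (Fintype.card (Idx K N)) (gN c N)).det ^ 2 : ℝ) : ℂ) =
      (PN c N 1 * PN c N (-1)) * (∏ p : Idx K N, ∏ q : Idx K N,
    (1 - conj (az (cc c) N q) * az (cc c) N p))⁻¹ := by
  have h1 := det_sg_sq (az (cc c) N) (az_lt (cc c) h)
  have h2 : (fun x => ∏ p : Idx K N, ((1 - az (cc c) N p * E x) *
      (1 - az (cc c) N p * E (-x)))⁻¹) = fun x => ((gN c N x : ℝ) : ℂ) := by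
    funext x
    rw [gN_eq]
  rw [h2, sg_ofReal, prod_az_real, prod_az_sq] at h1
  rw [← h1]
  have h3 : ∏ p : Idx K N, ∏ q : Idx K N, (1 - conj (az (cc c) N q) * az (cc c) N p) ≠ 0 := by
    refine prod_ne_zero_iff.mpr fun p _ => prod_ne_zero_iff.mpr fun q _ => ?_
    exact one_sub_ne (by simpa using az_lt (cc c) h q) (az_lt (cc c) h p).le
  rw [mul_assoc, mul_inv_cancel₀ h3, mul_one, Complex.ofReal_pow]

theorem continuous_gN {N : ℕ} (h : ∀ j, ‖w (cc c) j N‖ < 1) : Continuous (gN c N) := by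
  have h1 : Continuous fun x => ((gN c N x : ℝ) : ℂ) := by
    simp_rw [gN_eq]
    refine continuous_finsetProd _ fun i _ => Continuous.inv₀ (by fun_prop) fun x => ?_
    exact mul_ne_zero (one_sub_ne (az_lt (cc c) h i) (norm_E x).le)
      (one_sub_ne (az_lt (cc c) h i) (norm_E (-x)).le)
  have h2 := Complex.continuous_re.comp h1
  refine h2.congr fun x => ?_
  simp

theorem tendsto_det_gN : Tendsto (fun N => (sgR (Fintype.card (Idx K N)) (gN c N)).det) atTop
    (𝓝 (LL c)) := by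
  have h1 : Tendsto (fun N => (((sgR (Fintype.card (Idx K N)) (gN c N)).det ^ 2 : ℝ) : ℂ)) atTop
      (𝓝 ((ev (cc c) 1)⁻¹ * (ev (cc c) (-1))⁻¹ *
        (Complex.exp (-(∑ j : Fin K, ((j : ℕ) + 1 : ℝ) * ‖cc c j‖ ^ 2 : ℝ)))⁻¹)) := by
    refine (((tendsto_PN c 1).mul (tendsto_PN c (-1))).mul ((tendsto_prod_az (cc c)).inv₀
      (Complex.exp_ne_zero _))).congr' ?_
    filter_upwards [w_lt_one (cc c)] with N hN
    exact (det_gN_sq c hN).symm
  have h2 : (ev (cc c) 1)⁻¹ * (ev (cc c) (-1))⁻¹ *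
        (Complex.exp (-(∑ j : Fin K, ((j : ℕ) + 1 : ℝ) * ‖cc c j‖ ^ 2 : ℝ)))⁻¹ =
          ((LL c ^ 2 : ℝ) : ℂ) := by
    unfold ev LL
    rw [← Complex.exp_neg, ← Complex.exp_neg, ← Complex.exp_neg, ← Complex.exp_add,
      ← Complex.exp_add, ← Real.exp_nat_mul, Complex.ofReal_exp]
    congr 1
    rw [← sub_eq_zero]
    push_cast
    rw [mul_sub, mul_div_cancel₀ _ (two_ne_zero)]
    have h3 : ∀ j : Fin K, ‖cc c j‖ ^ 2 = c j ^ 2 := fun j => by
      unfold cc
      rw [Complex.norm_real, Real.norm_eq_abs, sq_abs]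
    have h4 : ∑ j : Fin K, (((j : ℕ) : ℂ) + 1) * ((‖cc c j‖ : ℝ) : ℂ) ^ 2 =
        ∑ j : Fin K, (((j : ℕ) : ℂ) + 1) * ((c j : ℝ) : ℂ) ^ 2 := by
      refine sum_congr rfl fun j _ => ?_
      rw [← Complex.ofReal_pow, ← Complex.ofReal_pow, h3]
    rw [h4, mul_sum]
    have h5 : ∑ j : Fin K, cc c j * 1 ^ ((j : ℕ) + 1) + ∑ j : Fin K, cc c j * (-1) ^ ((j : ℕ) + 1) =
        ∑ j : Fin K, 2 * (((if Odd (j : ℕ) then c j else 0) : ℝ) : ℂ) := by
      rw [← sum_add_distrib]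
      refine sum_congr rfl fun j _ => ?_
      unfold cc
      by_cases hj : Odd (j : ℕ)
      · rw [if_pos hj, Even.neg_one_pow (hj.add_odd odd_one)]
        ring
      · rw [if_neg hj]
        rw [Nat.not_odd_iff_even] at hj
        rw [Odd.neg_one_pow (hj.add_odd odd_one)]
        push_cast
        ring
    linear_combination -h5
  rw [h2] at h1
  have h3 : Tendsto (fun N => (sgR (Fintype.card (Idx K N)) (gN c N)).det ^ 2) atTop
      (𝓝 (LL c ^ 2)) := by
    have h4 := (Complex.continuous_re.tendsto _).comp h1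
    simp only [Function.comp_def, Complex.ofReal_re] at h4
    exact h4
  have h5 := (Real.continuous_sqrt.tendsto _).comp h3
  have hLL : 0 ≤ LL c := (Real.exp_pos _).le
  rw [Real.sqrt_sq hLL] at h5
  refine h5.congr' ?_
  filter_upwards [w_lt_one (cc c)] with N hN
  simp only [Function.comp_apply]
  exact Real.sqrt_sq (sgR_det_nonneg _ (continuous_gN c hN) fun x => by unfold gN; positivity)

end main

end Pool.Agent.FSz
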