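import Pool.Agent.FSz.LimA

/-! The folded Szegő bound for trigonometric polynomials, from the Gram step. -/

open Matrix Finset Metric MeasureTheory Real Filter Topology Polynomial
open scoped ComplexConjugate

namespace Pool.Agent.FSz

open Pool.Agent.Szego62 (mu integral_mu one_sub_ne dcc_of_diff Idx az w fN
  az_lt w_lt_one card_idx fN_eq tendsto_fN ev diff_inv)

variable {K : ℕ} (c : Fin K → ℝ)

/-- the even field -/
noncomputable def Fc (x : ℝ) : ℝ := ∑ j : Fin K, 2 * c j * Real.cos (((j : ℕ) + 1) * x)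

/-- the conjugate field -/
noncomputable def Sc (x : ℝ) : ℝ := ∑ j : Fin K, c j * Real.sin (((j : ℕ) + 1) * x)

/-- Fourier coefficients of `exp (2 i S)` -/
noncomputable def bS (m : ℕ) : ℝ := ∫ x, Real.cos (m * x + 2 * Sc c x) ∂mu

@[fun_prop]
theorem continuous_Fc : Continuous (Fc c) := by
  unfold Fc
  fun_prop

@[fun_prop]
theorem continuous_Sc : Continuous (Sc c) := by
  unfold Sc
  fun_prop

theorem E_eq (x : ℝ) : E x = ⟨Real.cos x, Real.sin x⟩ := by
  unfold E
  apply Complex.ext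
  · rw [Complex.exp_ofReal_mul_I_re]
  · rw [Complex.exp_ofReal_mul_I_im]

theorem E_pow_re (x : ℝ) (m : ℕ) : (E x ^ m).re = Real.cos (m * x) := by
  rw [E_pow, E_eq]

theorem E_pow_im (x : ℝ) (m : ℕ) : (E x ^ m).im = Real.sin (m * x) := by
  rw [E_pow, E_eq]

theorem sum_E (x : ℝ) : ∑ j, cc c j * E x ^ ((j : ℕ) + 1) = ⟨Fc c x / 2, Sc c x⟩ := by
  apply Complex.ext
  · rw [Complex.re_sum]
    unfold Fc cc
    simp only
    rw [Finset.sum_div]
    refine sum_congr rfl fun j _ => ?_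
    rw [Complex.re_ofReal_mul, E_pow_re]
    push_cast
    ring
  · rw [Complex.im_sum]
    unfold Sc cc
    simp only
    refine sum_congr rfl fun j _ => ?_
    rw [Complex.im_ofReal_mul, E_pow_im]
    push_cast
    ring

theorem norm_ev (x : ℝ) : ‖ev (cc c) (E x)‖ ^ 2 = Real.exp (Fc c x) := by
  unfold ev
  rw [sum_E, Complex.norm_exp, ← Real.exp_nat_mul]
  congr 1
  push_cast
  ring

theorem tendsto_gN (x : ℝ) : Tendsto (fun N => gN c N x) atTop (𝓝 (Real.exp (Fc c x))) := by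
  rw [← norm_ev]
  unfold gN
  exact ((tendsto_fN (cc c) (E x)).norm).pow 2

theorem fN_bd : ∃ B : ℝ, 0 ≤ B ∧ ∀ᶠ N in atTop, ∀ z : ℂ, ‖z‖ ≤ 1 → ‖fN (cc c) N z‖ ≤ B := by
  refine ⟨∏ j, Real.exp (2 * ‖cc c j‖), by positivity, ?_⟩
  have h : ∀ᶠ N : ℕ in atTop, ∀ j, 2 * ‖cc c j‖ ≤ N := by
    rw [Filter.eventually_all]
    intro j
    exact (tendsto_natCast_atTop_atTop (R := ℝ)).eventually_ge_atTop _
  filter_upwards [h, eventually_gt_atTop 0] with N hN hN0 z hz
  have hN' : (0 : ℝ) < N := by exact_mod_cast hN0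
  unfold fN
  rw [norm_prod]
  refine prod_le_prod (fun j _ => norm_nonneg _) fun j _ => ?_
  rw [norm_pow, norm_inv]
  set y := ‖cc c j‖ / N with hy
  have hy0 : 0 ≤ y := by positivity
  have hy1 : y ≤ 1 / 2 := by
    rw [hy, div_le_iff₀ hN']
    linarith [hN j]
  have h1 : 1 - y ≤ ‖1 - (cc c j / N) * z ^ ((j : ℕ) + 1)‖ := by
    have h2 : ‖(cc c j / N) * z ^ ((j : ℕ) + 1)‖ ≤ y := by
      rw [norm_mul, norm_pow, norm_div, RCLike.norm_natCast, ← hy]
      exact mul_le_of_le_one_right hy0 (pow_le_one₀ (norm_nonneg _) hz)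
    have h3 := norm_sub_norm_le (1 : ℂ) ((cc c j / N) * z ^ ((j : ℕ) + 1))
    rw [norm_one] at h3
    linarith
  have h4 : ‖1 - (cc c j / N) * z ^ ((j : ℕ) + 1)‖⁻¹ ≤ Real.exp (2 * y) := by
    have h5 : 0 < 1 - y := by linarith
    calc ‖1 - (cc c j / N) * z ^ ((j : ℕ) + 1)‖⁻¹ ≤ (1 - y)⁻¹ := by gcongr
      _ ≤ 1 + 2 * y := by
        rw [inv_le_comm₀ h5 (by linarith), inv_le_iff_one_le_mul₀ (by linarith)]
        nlinarith
      _ ≤ Real.exp (2 * y) := by
        have := Real.add_one_le_exp (2 * y)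
        linarith
  calc (‖1 - (cc c j / N) * z ^ ((j : ℕ) + 1)‖⁻¹) ^ N ≤ (Real.exp (2 * y)) ^ N := by gcongr
    _ = Real.exp (2 * ‖cc c j‖) := by
      rw [← Real.exp_nat_mul]
      congr 1
      rw [hy]
      field_simp

theorem PN_bd : ∃ B : ℝ, 0 ≤ B ∧ ∀ N : ℕ, 0 < N → ∀ z : ℂ, ‖z‖ ≤ 2 → ‖PN c N z‖ ≤ B := by
  refine ⟨∏ j, Real.exp (‖cc c j‖ * 2 ^ ((j : ℕ) + 1)), by positivity, fun N hN z hz => ?_⟩
  have hN' : (0 : ℝ) < N := by exact_mod_cast hN
  unfold PN
  rw [norm_prod]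
  refine prod_le_prod (fun j _ => norm_nonneg _) fun j _ => ?_
  rw [norm_pow]
  have h1 : ‖1 - (cc c j / N) * z ^ ((j : ℕ) + 1)‖ ≤
      Real.exp (‖cc c j‖ * 2 ^ ((j : ℕ) + 1) / N) := by
    have h2 : ‖(cc c j / N) * z ^ ((j : ℕ) + 1)‖ ≤ ‖cc c j‖ * 2 ^ ((j : ℕ) + 1) / N := by
      rw [norm_mul, norm_pow, norm_div, RCLike.norm_natCast, div_mul_eq_mul_div]
      gcongr
    have h3 := norm_sub_le (1 : ℂ) ((cc c j / N) * z ^ ((j : ℕ) + 1))
    rw [norm_one] at h3
    have h4 := Real.add_one_le_exp (‖cc c j‖ * 2 ^ ((j : ℕ) + 1) / N)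
    linarith
  calc ‖1 - (cc c j / N) * z ^ ((j : ℕ) + 1)‖ ^ N ≤
      (Real.exp (‖cc c j‖ * 2 ^ ((j : ℕ) + 1) / N)) ^ N := by gcongr
    _ = _ := by
      rw [← Real.exp_nat_mul]
      congr 1
      field_simp

theorem fN_diff {N : ℕ} (h : ∀ j, ‖w (cc c) j N‖ < 1) {z : ℂ} (hz : ‖z‖ ≤ 1) :
    DifferentiableAt ℂ (fN (cc c) N) z := by
  rw [fN_eq]
  exact DifferentiableAt.fun_finsetProd fun p _ => diff_inv (az_lt (cc c) h p) hz

theorem fN_ne {N : ℕ} (h : ∀ j, ‖w (cc c) j N‖ < 1) {z : ℂ} (hz : ‖z‖ ≤ 1) :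
    fN (cc c) N z ≠ 0 := by
  rw [fN_eq]
  exact prod_ne_zero_iff.mpr fun p _ => inv_ne_zero (one_sub_ne (az_lt (cc c) h p) hz)

theorem fN_zero (N : ℕ) : fN (cc c) N 0 = 1 := by
  unfold fN
  simp

@[fun_prop]
theorem differentiable_PN (N : ℕ) : Differentiable ℂ (PN c N) := by
  unfold PN
  fun_prop

theorem bD_fN (N m : ℕ) : bD (fN (cc c) N) m =
    (circleAverage (fun z => fN (cc c) N z * PN c N z⁻¹ * z ^ m) 0 1).re := by
  rw [← integral_eq_avg]
  unfold bD
  congr 1
  refine integral_congr_ae (Eventually.of_forall fun x => ?_)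
  simp only
  rw [div_eq_mul_inv, conj_fN, conj_E, fN_inv c N (E (-x)), inv_inv, E_neg]

theorem norm_avg_le {f : ℂ → ℂ} {R B : ℝ} (hR : 0 ≤ R) (h : ∀ z, ‖z‖ = R → ‖f z‖ ≤ B) :
    ‖circleAverage f 0 R‖ ≤ B := by
  rw [circleAverage_def, norm_smul]
  have h1 : ‖∫ θ in (0 : ℝ)..2 * π, f (circleMap 0 R θ)‖ ≤ B * |2 * π - 0| := by
    apply intervalIntegral.norm_integral_le_of_norm_le_const
    intro θ _
    apply h
    simp [abs_of_nonneg hR]
  have h2 : (0 : ℝ) < 2 * π := by positivity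
  rw [sub_zero, abs_of_pos h2] at h1
  rw [norm_inv, Real.norm_of_nonneg h2.le]
  calc (2 * π)⁻¹ * ‖∫ θ in (0 : ℝ)..2 * π, f (circleMap 0 R θ)‖ ≤ (2 * π)⁻¹ * (B * (2 * π)) := by
        gcongr
    _ = B := by field_simp

/-- uniform exponential decay of the coefficients -/
theorem bD_bound : ∃ B : ℝ, 0 ≤ B ∧
    ∀ᶠ N in atTop, ∀ m, |bD (fN (cc c) N) m| ≤ B * (1 / 2) ^ m := by
  obtain ⟨B1, hB1, h1⟩ := fN_bd c
  obtain ⟨B2, hB2, h2⟩ := PN_bd c
  refine ⟨B1 * B2, by positivity, ?_⟩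
  filter_upwards [h1, w_lt_one (cc c), eventually_gt_atTop 0] with N hN1 hw hN m
  rw [bD_fN]
  set F : ℂ → ℂ := fun z => fN (cc c) N z * PN c N z⁻¹ * z ^ m with hF
  have hd : ∀ z : ℂ, ‖z‖ ≤ 1 → z ≠ 0 → DifferentiableAt ℂ F z := by
    intro z hz hz0
    have e1 := fN_diff c hw hz
    have e2 : DifferentiableAt ℂ (fun z : ℂ => PN c N z⁻¹) z := by
      have : DifferentiableAt ℂ (fun z : ℂ => z⁻¹) z := differentiableAt_id.inv hz0
      exact (differentiable_PN c N _).comp z this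
    exact (e1.mul e2).mul (by fun_prop)
  have hshift : circleAverage F 0 1 = circleAverage F 0 (1 / 2) := by
    rw [circleAverage_eq_circleIntegral one_ne_zero, circleAverage_eq_circleIntegral
      (by norm_num : (1 / 2 : ℝ) ≠ 0)]
    congr 1
    refine Complex.circleIntegral_sub_center_inv_smul_eq_of_differentiable_on_annulus_off_countable
      (s := ∅) (by norm_num) (by norm_num) Set.countable_empty ?_ ?_
    · intro z hz
      have hz1 : ‖z‖ ≤ 1 := by simpa using hz.1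
      have hz2 : (1 / 2 : ℝ) ≤ ‖z‖ := by
        have := hz.2
        simpa using this
      have hz0 : z ≠ 0 := by
        intro h
        rw [h, norm_zero] at hz2
        norm_num at hz2
      exact (hd z hz1 hz0).continuousAt.continuousWithinAt
    · intro z hz
      have hz1 : ‖z‖ < 1 := by
        have := hz.1.1
        simpa using this
      have hz2 : (1 / 2 : ℝ) < ‖z‖ := by
        have := hz.1.2
        simpa using this
      have hz0 : z ≠ 0 := by
        intro h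
        rw [h, norm_zero] at hz2
        norm_num at hz2
      exact hd z hz1.le hz0
  rw [hshift]
  refine (Complex.abs_re_le_norm _).trans (norm_avg_le (by norm_num) fun z hz => ?_)
  simp only [hF]
  rw [norm_mul, norm_mul, norm_pow, hz]
  have e1 := hN1 z (by rw [hz]; norm_num)
  have e2 := h2 N hN z⁻¹ (by rw [norm_inv, hz]; norm_num)
  gcongr

theorem tendsto_bD (m : ℕ) :
    Tendsto (fun N => bD (fN (cc c) N) m) atTop (𝓝 (bS c m)) := by
  obtain ⟨B1, hB1, h1⟩ := fN_bd c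
  obtain ⟨B2, hB2, h2⟩ := PN_bd c
  have h3 : Tendsto (fun N => ∫ x, fN (cc c) N (E x) * PN c N (E (-x)) * E x ^ m ∂mu) atTop
      (𝓝 (∫ x, ev (cc c) (E x) * (ev (cc c) (E (-x)))⁻¹ * E x ^ m ∂mu)) := by
    refine tendsto_integral_filter_of_dominated_convergence (fun _ => B1 * B2) ?_ ?_ ?_ ?_
    · filter_upwards [w_lt_one (cc c)] with N hw
      have e1 : Continuous fun x => fN (cc c) N (E x) := by
        rw [continuous_iff_continuousAt]
        intro x
        exact (fN_diff c hw (norm_E x).le).continuousAt.comp continuous_E.continuousAt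
      have e2 : Continuous (PN c N) := (differentiable_PN c N).continuous
      have : Continuous fun x => fN (cc c) N (E x) * PN c N (E (-x)) * E x ^ m := by fun_prop
      exact this.aestronglyMeasurable
    · filter_upwards [h1, eventually_gt_atTop 0] with N hN1 hN
      refine Eventually.of_forall fun x => ?_
      rw [norm_mul, norm_mul, norm_pow, norm_E, one_pow, mul_one]
      exact mul_le_mul (hN1 _ (norm_E x).le) (h2 N hN _ (by rw [norm_E]; norm_num))
        (norm_nonneg _) hB1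
    · exact integrable_const _
    · exact Eventually.of_forall fun x =>
        ((tendsto_fN (cc c) (E x)).mul (tendsto_PN c (E (-x)))).mul_const _
  have h4 := (Complex.continuous_re.tendsto _).comp h3
  have h5 : ∫ x, ev (cc c) (E x) * (ev (cc c) (E (-x)))⁻¹ * E x ^ m ∂mu =
      ∫ x, Complex.exp (((m * x + 2 * Sc c x : ℝ) : ℂ) * Complex.I) ∂mu := by
    refine integral_congr_ae (Eventually.of_forall fun x => ?_)
    simp only
    unfold ev
    rw [sum_E, sum_E, ← Complex.exp_neg, ← Complex.exp_add, E_pow]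
    have e1 : Fc c (-x) = Fc c x := by
      unfold Fc
      refine sum_congr rfl fun j _ => ?_
      rw [mul_neg, Real.cos_neg]
    have e2 : Sc c (-x) = - Sc c x := by
      unfold Sc
      rw [← sum_neg_distrib]
      refine sum_congr rfl fun j _ => ?_
      rw [mul_neg, Real.sin_neg]
      ring
    rw [e1, e2]
    unfold E
    rw [← Complex.exp_add]
    congr 1
    apply Complex.ext
    · simp
    · simp
      ring
  have h6 : (∫ x, Complex.exp (((m * x + 2 * Sc c x : ℝ) : ℂ) * Complex.I) ∂mu).re = bS c m := by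
    have h7 := integral_re (𝕜 := ℂ) (μ := mu)
      (f := fun x => Complex.exp (((m * x + 2 * Sc c x : ℝ) : ℂ) * Complex.I))
      (integrable_mu (by fun_prop))
    unfold bS
    rw [show (∫ x, Complex.exp (((m * x + 2 * Sc c x : ℝ) : ℂ) * Complex.I) ∂mu).re =
      RCLike.re (∫ x, Complex.exp (((m * x + 2 * Sc c x : ℝ) : ℂ) * Complex.I) ∂mu) from rfl, ← h7]
    refine integral_congr_ae (Eventually.of_forall fun x => ?_)
    simp only
    exact Complex.exp_ofReal_mul_I_re _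
  rw [h5, h6] at h4
  refine h4.congr fun N => ?_
  simp only [Function.comp_apply]
  rw [bD_fN, ← integral_eq_avg]
  congr 1
  refine integral_congr_ae (Eventually.of_forall fun x => ?_)
  simp only
  rw [E_neg]

end Pool.Agent.FSz
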