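import Pool.Agent.FSz.LimB

/-! The folded Szegő bound from the Gram inequality for the approximating weights. -/

open Matrix Finset Metric MeasureTheory Real Filter Topology
open scoped ComplexConjugate

namespace Pool.Agent.FSz

open Pool.Agent.Szego62 (mu w fN w_lt_one card_idx Idx)

variable {K : ℕ} (c : Fin K → ℝ)

theorem bS_bound : ∃ B : ℝ, 0 ≤ B ∧ ∀ m, |bS c m| ≤ B * (1 / 2) ^ m := by
  obtain ⟨B, hB, h⟩ := bD_bound c
  refine ⟨B, hB, fun m => ?_⟩
  refine le_of_tendsto (tendsto_bD c m).abs ?_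
  filter_upwards [h] with N hN using hN m

theorem tendsto_sgR_gN (n : ℕ) : Tendsto (fun N => (sgR n (gN c N)).det) atTop
    (𝓝 (sgR n (fun x => Real.exp (Fc c x))).det) := by
  obtain ⟨B, hB, h⟩ := fN_bd c
  have h1 : Tendsto (fun N => (sg n (fun x => ((gN c N x : ℝ) : ℂ))).det) atTop
      (𝓝 (sg n (fun x => ((Real.exp (Fc c x) : ℝ) : ℂ))).det) := by
    refine tendsto_sg (B ^ 2) ?_ ?_ ?_ n
    · filter_upwards [w_lt_one (cc c)] with N hN
      exact Complex.continuous_ofReal.comp (continuous_gN c hN)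
    · filter_upwards [h] with N hN x
      rw [Complex.norm_real, Real.norm_eq_abs]
      unfold gN
      rw [abs_of_nonneg (by positivity)]
      have := hN (E x) (norm_E x).le
      gcongr
    · intro x
      exact (Complex.continuous_ofReal.tendsto _).comp (tendsto_gN c x)
  simp_rw [sg_ofReal] at h1
  have h2 := (Complex.continuous_re.tendsto _).comp h1
  simp only [Function.comp_def, Complex.ofReal_re] at h2
  exact h2

theorem tendsto_card (hK : 0 < K) : Tendsto (fun N => Fintype.card (Idx K N)) atTop atTop := by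
  refine tendsto_atTop_mono (fun N => ?_) tendsto_id
  rw [card_idx]
  have h5 : (((⟨0, hK⟩ : Fin K) : ℕ) + 1) * N ≤ ∑ j : Fin K, ((j : ℕ) + 1) * N :=
    single_le_sum (f := fun j : Fin K => ((j : ℕ) + 1) * N) (fun _ _ => Nat.zero_le _)
      (mem_univ _)
  simpa using h5

theorem tendsto_tail (hK : 0 < K) (n : ℕ) {τ : ℝ}
    (hτ : Tendsto (fun M => ∑ j ∈ Ico n M, bS c (2 * j + 2)) atTop (𝓝 τ)) :
    Tendsto (fun N => ∑ j ∈ Ico n (Fintype.card (Idx K N)), bD (fN (cc c) N) (2 * j + 2)) atTop
      (𝓝 τ) := by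
  obtain ⟨B, hB, hb⟩ := bD_bound c
  obtain ⟨B', hB', hb'⟩ := bS_bound c
  set f : ℕ → ℝ := fun j => if n ≤ j then bS c (2 * j + 2) else 0 with hf
  have hgeo : Summable fun j : ℕ => (1 / 2 : ℝ) ^ j :=
    summable_geometric_of_lt_one (by norm_num) (by norm_num)
  have hpow : ∀ j : ℕ, (1 / 2 : ℝ) ^ (2 * j + 2) ≤ (1 / 2) ^ j := fun j =>
    pow_le_pow_of_le_one (by norm_num) (by norm_num) (by omega)
  have hsum : Summable f := by
    refine Summable.of_norm_bounded (g := fun j => B' * (1 / 2 : ℝ) ^ j) (hgeo.mul_left B')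
      fun j => ?_
    simp only [hf, Real.norm_eq_abs]
    split_ifs
    · exact (hb' _).trans (mul_le_mul_of_nonneg_left (hpow j) hB')
    · rw [abs_zero]; positivity
  have hτ2 : τ = ∑' j, f j := by
    have h1 := hsum.hasSum.tendsto_sum_nat
    refine tendsto_nhds_unique (hτ.congr' ?_) h1
    filter_upwards [eventually_ge_atTop n] with M hM
    simp only [hf]
    rw [sum_ite, sum_const_zero, add_zero]
    refine sum_congr ?_ fun _ _ => rfl
    ext j
    simp only [mem_Ico, mem_filter, mem_range]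
    omega
  set g : ℕ → ℕ → ℝ := fun N j => if j ∈ Ico n (Fintype.card (Idx K N)) then
    bD (fN (cc c) N) (2 * j + 2) else 0 with hg
  have h2 : Tendsto (fun N => ∑' j, g N j) atTop (𝓝 (∑' j, f j)) := by
    refine tendsto_tsum_of_dominated_convergence (bound := fun j => B * (1 / 2 : ℝ) ^ j)
      (hgeo.mul_left B) ?_ ?_
    · intro j
      simp only [hf]
      by_cases hj : n ≤ j
      · rw [if_pos hj]
        refine (tendsto_bD c (2 * j + 2)).congr' ?_
        filter_upwards [(tendsto_card hK).eventually_gt_atTop j] with N hN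
        simp only [hg]
        rw [if_pos (mem_Ico.mpr ⟨hj, hN⟩)]
      · rw [if_neg hj]
        refine tendsto_const_nhds.congr fun N => ?_
        simp only [hg]
        rw [if_neg fun h => hj (mem_Ico.mp h).1]
    · filter_upwards [hb] with N hN j
      simp only [hg, Real.norm_eq_abs]
      split_ifs
      · exact (hN _).trans (mul_le_mul_of_nonneg_left (hpow j) hB)
      · rw [abs_zero]; positivity
  rw [hτ2]
  refine h2.congr fun N => ?_
  simp only [hg]
  rw [tsum_eq_sum (s := Ico n (Fintype.card (Idx K N))) fun j hj => if_neg hj]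
  exact sum_congr rfl fun j hj => if_pos hj

theorem sp_of_gram (hK : 0 < K) (n : ℕ) {τ : ℝ}
    (hτ : Tendsto (fun M => ∑ j ∈ Ico n M, bS c (2 * j + 2)) atTop (𝓝 τ))
    (hG : ∀ᶠ N in atTop, ∀ M, n ≤ M → (sgR n (gN c N)).det ≤ (sgR M (gN c N)).det *
      Real.exp (-∑ j ∈ Ico n M, bD (fN (cc c) N) (2 * j + 2))) :
    (sgR n (fun x => Real.exp (Fc c x))).det ≤ LL c * Real.exp (-τ) := by
  have h1 := tendsto_sgR_gN c n
  have h2 := (tendsto_det_gN c).mul
    ((Real.continuous_exp.tendsto _).comp (tendsto_tail c hK n hτ).neg)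
  refine le_of_tendsto_of_tendsto h1 h2 ?_
  filter_upwards [hG, (tendsto_card hK).eventually_ge_atTop n] with N hN hn
  exact hN _ hn

end Pool.Agent.FSz
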