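import Pool.Agent.FSz.LimC
import Pool.Agent.FSz.Gram

/-! **The sharp folded (symplectic) Szegő upper bound**, for every size `n`, with the signed
trace of the tail. -/

open Matrix Finset Metric MeasureTheory Real Filter Topology
open scoped ComplexConjugate

namespace Pool.Agent.FSz

open Pool.Agent.Szego62 (mu w fN w_lt_one)

theorem sp_szego_pos {K : ℕ} (c : Fin K → ℝ) (hK : 0 < K) (n : ℕ) {τ : ℝ}
    (hτ : Tendsto (fun M => ∑ j ∈ Ico n M, bS c (2 * j + 2)) atTop (𝓝 τ)) :
    (sgR n (fun x => Real.exp (Fc c x))).det ≤ LL c * Real.exp (-τ) := by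
  refine sp_of_gram c hK n hτ ?_
  filter_upwards [w_lt_one (cc c)] with N hN M hM
  exact gram_tail (D := fN (cc c) N) (fun z hz => fN_diff c hN hz) (fN_zero c N)
    (fun z hz => fN_ne c hN hz) hM

/-- **Sharp folded Szegő upper bound.** -/
theorem sp_szego {K : ℕ} (c : Fin K → ℝ) (n : ℕ) {τ : ℝ}
    (hτ : Tendsto (fun M => ∑ j ∈ Ico n M, bS c (2 * j + 2)) atTop (𝓝 τ)) :
    (sgR n (fun x => Real.exp (Fc c x))).det ≤
      Real.exp ((∑ j : Fin K, ((j : ℕ) + 1 : ℝ) * c j ^ 2) / 2 -
        (∑ j : Fin K, if Odd (j : ℕ) then c j else 0) - τ) := by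
  have hgoal : (sgR n (fun x => Real.exp (Fc c x))).det ≤ LL c * Real.exp (-τ) := by
    rcases Nat.eq_zero_or_pos K with hK | hK
    · subst hK
      have e1 : Fc c = Fc (K := 1) (fun _ => 0) := by
        funext x; simp [Fc]
      have e2 : Sc c = Sc (K := 1) (fun _ => 0) := by
        funext x; simp [Sc]
      have e3 : bS c = bS (K := 1) (fun _ => 0) := by
        funext m; simp only [bS, e2]
      have e4 : LL c = LL (K := 1) (fun _ => 0) := by
        simp [LL]
      rw [e1, e4]
      rw [e3] at hτ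
      exact sp_szego_pos (K := 1) (fun _ => 0) one_pos n hτ
    · exact sp_szego_pos c hK n hτ
  refine hgoal.trans_eq ?_
  unfold LL
  rw [← Real.exp_add]
  congr 1

end Pool.Agent.FSz
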