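import Pool.Agent.FSz.Tau

/-!
# Bounds of the tail trace
-/

open MeasureTheory Set Filter Topology
open scoped Real

namespace Pool.Agent.FSz.Tau

noncomputable section

variable {K : ℕ}

theorem sin_ge {x : ℝ} (h0 : 0 ≤ x) (h1 : x ≤ π / 2) : 2 / π * x ≤ Real.sin x :=
  Real.mul_le_sin h0 h1

theorem inv_sin_le {x : ℝ} (h0 : 0 < x) (h1 : x ≤ π / 2) : (Real.sin x)⁻¹ ≤ π / 2 * x⁻¹ := by
  have hpi := Real.pi_pos
  have h2 := sin_ge h0.le h1
  have h3 : 0 < 2 / π * x := by positivity
  calc (Real.sin x)⁻¹ ≤ (2 / π * x)⁻¹ := inv_anti₀ h3 h2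
    _ = π / 2 * x⁻¹ := by rw [mul_inv, inv_div]

/-- interval comparison -/
theorem int_le {f g : ℝ → ℝ} {a b : ℝ} (hab : a ≤ b) (hf : IntervalIntegrable f volume a b)
    (hg : IntervalIntegrable g volume a b) (h : ∀ x, a < x → x < b → f x ≤ g x) :
    (∫ x in a..b, f x) ≤ ∫ x in a..b, g x := by
  rw [intervalIntegral.integral_of_le hab, intervalIntegral.integral_of_le hab,
    integral_Ioc_eq_integral_Ioo, integral_Ioc_eq_integral_Ioo]
  refine setIntegral_mono_on ?_ ?_ measurableSet_Ioo fun x hx => h x hx.1 hx.2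
  · exact (hf.1).mono_set Ioo_subset_Ioc_self
  · exact (hg.1).mono_set Ioo_subset_Ioc_self

theorem inv_intble {a b : ℝ} (ha : 0 < a) (hab : a ≤ b) :
    IntervalIntegrable (fun x : ℝ => x⁻¹) volume a b := by
  refine intervalIntegrable_inv_iff.2 (Or.inr ?_)
  rw [uIcc_of_le hab]
  exact fun h => absurd h.1 (by linarith)

/-- logarithmic bound away from zero -/
theorem log_part {g : ℝ → ℝ} {q b : ℝ} (hq : 0 < q) (hqb : q ≤ b) (hb : b ≤ π / 2)
    (hg : IntervalIntegrable g volume q b) (h : ∀ x, q < x → x < b → |g x| ≤ (Real.sin x)⁻¹) :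
    (∫ x in q..b, |g x|) ≤ π / 2 * Real.log (b / q) := by
  have h1 : (∫ x in q..b, |g x|) ≤ ∫ x in q..b, π / 2 * x⁻¹ := by
    refine int_le hqb hg.abs ((inv_intble hq hqb).const_mul _) fun x h1 h2 => ?_
    exact (h x h1 h2).trans (inv_sin_le (by linarith) (by linarith))
  refine h1.trans (le_of_eq ?_)
  rw [intervalIntegral.integral_const_mul, integral_inv_of_pos hq (by linarith)]

/-- bound near zero -/
theorem near_zero {f : ℝ → ℝ} {b B : ℝ} (hb0 : 0 < b) (hb : b ≤ π / 2) (hB : 0 < B)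
    (hg : IntervalIntegrable (fun x => f x / Real.sin x) volume 0 b)
    (h1 : ∀ x, 0 < x → x < b → |f x| ≤ 1) (h2 : ∀ x, 0 < x → x < b → |f x| ≤ B * x) :
    (∫ x in (0 : ℝ)..b, |f x / Real.sin x|) ≤ π / 2 + π / 2 * Real.log (1 + b * B) := by
  have hpi := Real.pi_pos
  have hs : ∀ x, 0 < x → x < b → 0 < Real.sin x := fun x h3 h4 =>
    Real.sin_pos_of_pos_of_lt_pi h3 (by linarith)
  have hsm : ∀ x, 0 < x → x < b → |f x / Real.sin x| ≤ π / 2 * B := by
    intro x h3 h4
    rw [abs_div, abs_of_pos (hs x h3 h4), div_le_iff₀ (hs x h3 h4)]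
    have h5 := sin_ge h3.le (by linarith)
    calc |f x| ≤ B * x := h2 x h3 h4
      _ = π / 2 * B * (2 / π * x) := by field_simp
      _ ≤ _ := by gcongr
  rcases le_total b (B⁻¹) with hc | hc
  · have h3 : (∫ x in (0 : ℝ)..b, |f x / Real.sin x|) ≤ ∫ x in (0 : ℝ)..b, π / 2 * B :=
      int_le hb0.le hg.abs (by simp) hsm
    rw [intervalIntegral.integral_const, smul_eq_mul, sub_zero] at h3
    have h4 : b * (π / 2 * B) ≤ π / 2 := by
      calc b * (π / 2 * B) ≤ B⁻¹ * (π / 2 * B) := by gcongr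
        _ = _ := by field_simp
    have h5 : 0 ≤ Real.log (1 + b * B) := Real.log_nonneg (by nlinarith [mul_pos hb0 hB])
    have : 0 ≤ π / 2 * Real.log (1 + b * B) := by positivity
    linarith
  · set q := B⁻¹ with hq
    have hq0 : 0 < q := by positivity
    have hg1 : IntervalIntegrable (fun x => f x / Real.sin x) volume 0 q :=
      hg.mono_set (by rw [uIcc_of_le hq0.le, uIcc_of_le hb0.le]; exact Icc_subset_Icc_right hc)
    have hg2 : IntervalIntegrable (fun x => f x / Real.sin x) volume q b :=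
      hg.mono_set (by rw [uIcc_of_le hc, uIcc_of_le hb0.le]; exact Icc_subset_Icc_left hq0.le)
    rw [← intervalIntegral.integral_add_adjacent_intervals hg1.abs hg2.abs]
    have h3 : (∫ x in (0 : ℝ)..q, |f x / Real.sin x|) ≤ ∫ x in (0 : ℝ)..q, π / 2 * B :=
      int_le hq0.le hg1.abs (by simp) fun x h4 h5 => hsm x h4 (by linarith)
    rw [intervalIntegral.integral_const, smul_eq_mul, sub_zero] at h3
    have h4 : q * (π / 2 * B) = π / 2 := by rw [hq]; field_simp
    have h5 := log_part (g := fun x => f x / Real.sin x) hq0 hc hb hg2 fun x h6 h7 => by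
      rw [abs_div, abs_of_pos (hs x (by linarith) h7), div_eq_mul_inv]
      have := hs x (by linarith) h7
      exact mul_le_of_le_one_left (by positivity) (h1 x (by linarith) h7)
    have h6 : Real.log (b / q) ≤ Real.log (1 + b * B) := by
      apply Real.log_le_log (by positivity)
      rw [hq, div_inv_eq_mul]
      linarith
    have h7 : π / 2 * Real.log (b / q) ≤ π / 2 * Real.log (1 + b * B) := by gcongr
    linarith

/-- monotone phase near zero -/
theorem good_zero {p p1 p2 : ℝ → ℝ} (h1 : ∀ x, HasDerivAt p (p1 x) x)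
    (h2 : ∀ x, HasDerivAt p1 (p2 x) x) (h2c : Continuous p2) (h0 : p 0 = 0) {P A R b : ℝ}
    (hP : 0 < P) (hb0 : 0 < b) (hb : b ≤ π / 2) (hR0 : 0 ≤ R)
    (hl : ∀ x, 0 ≤ x → x ≤ b → P ≤ p1 x) (hu : ∀ x, 0 ≤ x → x ≤ b → p1 x ≤ A * P)
    (hR : ∀ x, 0 ≤ x → x ≤ b → |p2 x| ≤ R)
    (hg : IntervalIntegrable (fun x => Real.sin (p x) / Real.sin x) volume 0 b) :
    (∫ x in (0 : ℝ)..b, Real.sin (p x) / Real.sin x) ≤
      π / 2 * A + π + π ^ 2 / 4 + π * R / (2 * P ^ 2) * Real.log (1 + b * P) := by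
  have hpi := Real.pi_pos
  have hA : 1 ≤ A := by
    have := (hl 0 le_rfl hb0.le).trans (hu 0 le_rfl hb0.le)
    by_contra h
    push Not at h
    nlinarith
  have hs : ∀ x, 0 < x → x ≤ b → 0 < Real.sin x := fun x h3 h4 =>
    Real.sin_pos_of_pos_of_lt_pi h3 (by linarith)
  have hpc : Continuous p := continuous_iff_continuousAt.2 fun x => (h1 x).continuousAt
  have hp1c : Continuous p1 := continuous_iff_continuousAt.2 fun x => (h2 x).continuousAt
  -- growth of the phase
  have hgr : ∀ x, 0 < x → x ≤ b → |p x| ≤ A * P * x := by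
    intro x h3 h4
    have h5 : p x = ∫ y in (0 : ℝ)..x, p1 y := by
      rw [intervalIntegral.integral_eq_sub_of_hasDerivAt (fun y _ => h1 y)
        (hp1c.intervalIntegrable _ _), h0, sub_zero]
    rw [h5, ← Real.norm_eq_abs]
    have h6 := intervalIntegral.norm_integral_le_of_norm_le_const (a := 0) (b := x) (f := p1)
      (C := A * P) fun y hy => by
        rw [uIoc_of_le h3.le] at hy
        rw [Real.norm_eq_abs, abs_of_pos (lt_of_lt_of_le hP (hl y hy.1.le (hy.2.trans h4)))]
        exact hu y hy.1.le (hy.2.trans h4)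
    rwa [sub_zero, abs_of_pos h3] at h6
  have hsm : ∀ x, 0 < x → x ≤ b → Real.sin (p x) / Real.sin x ≤ π / 2 * (A * P) := by
    intro x h3 h4
    rw [div_le_iff₀ (hs x h3 h4)]
    have h5 := sin_ge h3.le (by linarith)
    have h6 : Real.sin (p x) ≤ A * P * x :=
      ((le_abs_self _).trans Real.abs_sin_le_abs).trans (hgr x h3 h4)
    calc Real.sin (p x) ≤ A * P * x := h6
      _ = π / 2 * (A * P) * (2 / π * x) := by field_simp
      _ ≤ _ := by gcongr
  have hlog : 0 ≤ π * R / (2 * P ^ 2) * Real.log (1 + b * P) := by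
    have h5 : 0 ≤ Real.log (1 + b * P) := Real.log_nonneg (by nlinarith [mul_pos hb0 hP])
    positivity
  rcases le_total b (P⁻¹) with hc | hc
  · have h3 : (∫ x in (0 : ℝ)..b, Real.sin (p x) / Real.sin x) ≤
        ∫ x in (0 : ℝ)..b, π / 2 * (A * P) :=
      int_le hb0.le hg (by simp) fun x h4 h5 => hsm x h4 h5.le
    rw [intervalIntegral.integral_const, smul_eq_mul, sub_zero] at h3
    have h4 : b * (π / 2 * (A * P)) ≤ π / 2 * A := by
      calc b * (π / 2 * (A * P)) ≤ P⁻¹ * (π / 2 * (A * P)) := by gcongr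
        _ = _ := by field_simp
    have : 0 ≤ π ^ 2 / 4 := by positivity
    linarith
  · set q := P⁻¹ with hq
    have hq0 : 0 < q := by positivity
    have hg1 : IntervalIntegrable (fun x => Real.sin (p x) / Real.sin x) volume 0 q :=
      hg.mono_set (by rw [uIcc_of_le hq0.le, uIcc_of_le hb0.le]; exact Icc_subset_Icc_right hc)
    have hg2 : IntervalIntegrable (fun x => Real.sin (p x) / Real.sin x) volume q b :=
      hg.mono_set (by rw [uIcc_of_le hc, uIcc_of_le hb0.le]; exact Icc_subset_Icc_left hq0.le)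
    rw [← intervalIntegral.integral_add_adjacent_intervals hg1 hg2]
    have h3 : (∫ x in (0 : ℝ)..q, Real.sin (p x) / Real.sin x) ≤
        ∫ x in (0 : ℝ)..q, π / 2 * (A * P) :=
      int_le hq0.le hg1 (by simp) fun x h4 h5 => hsm x h4 (by linarith)
    rw [intervalIntegral.integral_const, smul_eq_mul, sub_zero] at h3
    have h4 : q * (π / 2 * (A * P)) = π / 2 * A := by rw [hq]; field_simp
    -- integration by parts
    set u : ℝ → ℝ := fun x => (p1 x * Real.sin x)⁻¹ with hu'
    set u' : ℝ → ℝ := fun x => -(p2 x * Real.sin x + p1 x * Real.cos x) / (p1 x * Real.sin x) ^ 2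
      with hu''
    have hpos : ∀ x, q ≤ x → x ≤ b → 0 < p1 x * Real.sin x := fun x h5 h6 =>
      mul_pos (lt_of_lt_of_le hP (hl x (by linarith) h6)) (hs x (by linarith) h6)
    have hIcc : uIcc q b = Icc q b := uIcc_of_le hc
    have hu1 : ∀ x ∈ uIcc q b, HasDerivAt u (u' x) x := by
      intro x hx
      rw [hIcc] at hx
      exact ((h2 x).mul (Real.hasDerivAt_sin x)).inv (hpos x hx.1 hx.2).ne'
    have hv1 : ∀ x ∈ uIcc q b, HasDerivAt (fun x => -Real.cos (p x)) (Real.sin (p x) * p1 x) x := by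
      intro x _
      have h5 := (h1 x).cos.neg
      have h6 : -(-Real.sin (p x) * p1 x) = Real.sin (p x) * p1 x := by ring
      rw [h6] at h5
      exact h5
    have hu'c : ContinuousOn u' (uIcc q b) := by
      rw [hIcc]
      refine ContinuousOn.div (by fun_prop) (by fun_prop) fun x hx => ?_
      exact pow_ne_zero _ (hpos x hx.1 hx.2).ne'
    have hu'i : IntervalIntegrable u' volume q b := hu'c.intervalIntegrable
    have hv'i : IntervalIntegrable (fun x => Real.sin (p x) * p1 x) volume q b :=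
      (by fun_prop : Continuous fun x => Real.sin (p x) * p1 x).intervalIntegrable _ _
    have hparts := intervalIntegral.integral_mul_deriv_eq_deriv_mul hu1 hv1 hu'i hv'i
    have e1 : (∫ x in q..b, Real.sin (p x) / Real.sin x) =
        ∫ x in q..b, u x * (Real.sin (p x) * p1 x) := by
      refine congr_Ioo hc fun x h5 h6 => ?_
      have h7 := hs x (by linarith) h6.le
      have h8 : 0 < p1 x := lt_of_lt_of_le hP (hl x (by linarith) h6.le)
      simp only [hu']
      field_simp
    have hub : ∀ x, q ≤ x → x ≤ b → u x ≤ π / 2 := by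
      intro x h5 h6
      have h7 := sin_ge (x := x) (by linarith) (by linarith)
      have h8 := hl x (by linarith) h6
      have h9 : 2 / π ≤ p1 x * Real.sin x := by
        calc 2 / π = P * (2 / π * q) := by rw [hq]; field_simp
          _ ≤ P * (2 / π * x) := by gcongr
          _ ≤ _ := mul_le_mul h8 h7 (by have : 0 < x := by linarith
                                        positivity) (by linarith)
      calc u x ≤ (2 / π)⁻¹ := inv_anti₀ (by positivity) h9
        _ = _ := by rw [inv_div]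
    have hu0 : ∀ x, q ≤ x → x ≤ b → 0 ≤ u x := fun x h5 h6 => (inv_pos.2 (hpos x h5 h6)).le
    have hbd1 : u b * -Real.cos (p b) ≤ π / 2 := by
      have h5 := Real.neg_one_le_cos (p b)
      have h6 := hub b hc le_rfl
      have h7 := hu0 b hc le_rfl
      nlinarith
    have hbd2 : -(u q * -Real.cos (p q)) ≤ π / 2 := by
      have h5 := Real.cos_le_one (p q)
      have h6 := hub q le_rfl hc
      have h7 := hu0 q le_rfl hc
      nlinarith
    have hrest : -(∫ x in q..b, u' x * -Real.cos (p x)) ≤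
        R / P ^ 2 * (π / 2 * Real.log (b / q)) + π ^ 2 / 4 := by
      rw [← intervalIntegral.integral_neg]
      have h5 : (∫ x in q..b, -(u' x * -Real.cos (p x))) ≤
          ∫ x in q..b, (R / P ^ 2 * (π / 2) * x⁻¹ + π ^ 2 / 4 * P⁻¹ * (x ^ 2)⁻¹) := by
        refine int_le hc ?_ ?_ fun x h5 h6 => ?_
        · exact ((hu'c.mul (by fun_prop)).neg).intervalIntegrable
        · refine ContinuousOn.intervalIntegrable ?_
          rw [hIcc]
          refine ContinuousOn.add (ContinuousOn.mul continuousOn_const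
            (continuousOn_id.inv₀ fun x hx => ?_)) (ContinuousOn.mul continuousOn_const
            ((continuousOn_id.pow 2).inv₀ fun x hx => ?_))
          · have h7 := hx.1
            have h8 : 0 < x := by linarith
            exact h8.ne'
          · have h7 := hx.1
            have h8 : 0 < x := by linarith
            exact (pow_pos h8 2).ne'
        · have hx0 : 0 < x := by linarith
          have h7 := hs x hx0 h6.le
          have h8 := hl x hx0.le h6.le
          have h9 := hR x hx0.le h6.le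
          have h10 := inv_sin_le hx0 (by linarith)
          have hp1 : 0 < p1 x := lt_of_lt_of_le hP h8
          have h11 : |u' x| ≤ R / P ^ 2 * (Real.sin x)⁻¹ + P⁻¹ * ((Real.sin x)⁻¹) ^ 2 := by
            simp only [hu'']
            rw [abs_div, abs_neg, abs_of_pos (by positivity : 0 < (p1 x * Real.sin x) ^ 2)]
            have h12 : |p2 x * Real.sin x + p1 x * Real.cos x| ≤ R * Real.sin x + p1 x := by
              refine (abs_add_le _ _).trans ?_
              rw [abs_mul, abs_mul, abs_of_pos h7, abs_of_pos hp1]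
              have := Real.abs_cos_le_one x
              nlinarith
            calc |p2 x * Real.sin x + p1 x * Real.cos x| / (p1 x * Real.sin x) ^ 2 ≤
                (R * Real.sin x + p1 x) / (p1 x * Real.sin x) ^ 2 := by gcongr
              _ = R / (p1 x) ^ 2 * (Real.sin x)⁻¹ + (p1 x)⁻¹ * ((Real.sin x)⁻¹) ^ 2 := by
                field_simp
              _ ≤ _ := by gcongr
          calc -(u' x * -Real.cos (p x)) ≤ |u' x| * |Real.cos (p x)| := by
                rw [← abs_mul]
                calc -(u' x * -Real.cos (p x)) = u' x * Real.cos (p x) := by ring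
                  _ ≤ _ := le_abs_self _
            _ ≤ |u' x| * 1 := by gcongr; exact Real.abs_cos_le_one _
            _ ≤ R / P ^ 2 * (Real.sin x)⁻¹ + P⁻¹ * ((Real.sin x)⁻¹) ^ 2 := by linarith
            _ ≤ R / P ^ 2 * (π / 2 * x⁻¹) + P⁻¹ * (π / 2 * x⁻¹) ^ 2 := by
              have : 0 ≤ (Real.sin x)⁻¹ := by positivity
              gcongr
            _ = _ := by ring
      refine h5.trans ?_
      have hi1 : IntervalIntegrable (fun x : ℝ => R / P ^ 2 * (π / 2) * x⁻¹) volume q b :=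
        (inv_intble hq0 hc).const_mul _
      have hi2 : IntervalIntegrable (fun x : ℝ => π ^ 2 / 4 * P⁻¹ * (x ^ 2)⁻¹) volume q b := by
        refine ContinuousOn.intervalIntegrable ?_
        rw [hIcc]
        refine ContinuousOn.mul continuousOn_const ((continuousOn_id.pow 2).inv₀ fun x hx => ?_)
        have h7 := hx.1
        have h8 : 0 < x := by linarith
        exact (pow_pos h8 2).ne'
      rw [intervalIntegral.integral_add hi1 hi2, intervalIntegral.integral_const_mul,
        integral_inv_of_pos hq0 (by linarith), intervalIntegral.integral_const_mul]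
      have h6 : (∫ x in q..b, (x ^ 2)⁻¹) = q⁻¹ - b⁻¹ := by
        have h7 : ∀ x ∈ uIcc q b, HasDerivAt (fun x : ℝ => -x⁻¹) ((x ^ 2)⁻¹) x := by
          intro x hx
          rw [hIcc] at hx
          have hx0 : x ≠ 0 := by have := hx.1; intro h; linarith
          have h8 := (hasDerivAt_inv hx0).neg
          rw [neg_neg] at h8
          exact h8
        rw [intervalIntegral.integral_eq_sub_of_hasDerivAt h7]
        · ring
        · refine ContinuousOn.intervalIntegrable ?_
          rw [hIcc]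
          refine ((continuousOn_id.pow 2).inv₀ fun x hx => ?_)
          have h7 := hx.1
          have h8 : 0 < x := by linarith
          exact (pow_pos h8 2).ne'
      rw [h6]
      have h7 : π ^ 2 / 4 * P⁻¹ * (q⁻¹ - b⁻¹) ≤ π ^ 2 / 4 := by
        have h8 : 0 < b⁻¹ := by positivity
        calc π ^ 2 / 4 * P⁻¹ * (q⁻¹ - b⁻¹) ≤ π ^ 2 / 4 * P⁻¹ * q⁻¹ := by
              gcongr
              linarith
          _ = _ := by rw [hq]; field_simp
      linarith
    have h9 : Real.log (b / q) ≤ Real.log (1 + b * P) := by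
      apply Real.log_le_log (by positivity)
      rw [hq, div_inv_eq_mul]
      linarith
    have h10 : R / P ^ 2 * (π / 2 * Real.log (b / q)) ≤
        π * R / (2 * P ^ 2) * Real.log (1 + b * P) := by
      calc R / P ^ 2 * (π / 2 * Real.log (b / q)) ≤ R / P ^ 2 * (π / 2 * Real.log (1 + b * P)) := by
            gcongr
        _ = _ := by field_simp
    rw [e1, hparts]
    linarith

/-! ## The trace -/

/-- derivative of the counting function -/
def Psi1 (n : ℕ) (c : Fin K → ℝ) (x : ℝ) : ℝ :=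
  (2 * n + 1) + 2 * ∑ k : Fin K, ((k : ℕ) + 1 : ℝ) * c k * Real.cos (((k : ℕ) + 1 : ℝ) * x)

/-- second derivative -/
def Psi2 (c : Fin K → ℝ) (x : ℝ) : ℝ :=
  -(2 * ∑ k : Fin K, ((k : ℕ) + 1 : ℝ) ^ 2 * c k * Real.sin (((k : ℕ) + 1 : ℝ) * x))

theorem hasDerivAt_Sf (c : Fin K → ℝ) (x : ℝ) : HasDerivAt (Sf c)
    (∑ k : Fin K, ((k : ℕ) + 1 : ℝ) * c k * Real.cos (((k : ℕ) + 1 : ℝ) * x)) x := by
  unfold Sf
  refine HasDerivAt.fun_sum fun k _ => ?_
  have h : HasDerivAt (fun x : ℝ => c k * Real.sin (((k : ℕ) + 1 : ℝ) * x)) _ x :=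
    ((hasDerivAt_id x).const_mul ((k : ℕ) + 1 : ℝ)).sin.const_mul (c k)
  refine h.congr_deriv ?_
  simp only [id, mul_one]
  ring

theorem hasDerivAt_Psi (n : ℕ) (c : Fin K → ℝ) (x : ℝ) :
    HasDerivAt (Psi n c) (Psi1 n c x) x := by
  have h := ((hasDerivAt_id x).const_mul (2 * (n : ℝ) + 1)).add ((hasDerivAt_Sf c x).const_mul 2)
  simp only [mul_one] at h
  exact h

theorem hasDerivAt_Psi1 (n : ℕ) (c : Fin K → ℝ) (x : ℝ) :
    HasDerivAt (Psi1 n c) (Psi2 c x) x := by
  unfold Psi1 Psi2
  have h : HasDerivAt (fun x : ℝ => ∑ k : Fin K, ((k : ℕ) + 1 : ℝ) * c k *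
      Real.cos (((k : ℕ) + 1 : ℝ) * x))
      (-∑ k : Fin K, ((k : ℕ) + 1 : ℝ) ^ 2 * c k * Real.sin (((k : ℕ) + 1 : ℝ) * x)) x := by
    rw [← Finset.sum_neg_distrib]
    refine HasDerivAt.fun_sum fun k _ => ?_
    have h : HasDerivAt (fun x : ℝ => ((k : ℕ) + 1 : ℝ) * c k *
        Real.cos (((k : ℕ) + 1 : ℝ) * x)) _ x :=
      ((hasDerivAt_id x).const_mul ((k : ℕ) + 1 : ℝ)).cos.const_mul (((k : ℕ) + 1 : ℝ) * c k)
    refine h.congr_deriv ?_
    simp only [id, mul_one]
    ring
  have h2 := (h.const_mul 2).const_add (2 * (n : ℝ) + 1)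
  rwa [mul_neg] at h2

theorem continuous_Psi2 (c : Fin K → ℝ) : Continuous (Psi2 c) := by
  unfold Psi2
  fun_prop

theorem Psi_zero (n : ℕ) (c : Fin K → ℝ) : Psi n c 0 = 0 := by simp [Psi, Sf]

theorem Sf_pi_sub (c : Fin K → ℝ) (x : ℝ) : Sf c (π - x) = -Sf (fun k => (-1) ^ ((k : ℕ) + 1) * c k) x := by
  unfold Sf
  rw [← Finset.sum_neg_distrib]
  refine Finset.sum_congr rfl fun k _ => ?_
  have h : ((k : ℕ) + 1 : ℝ) * (π - x) = ((k : ℕ) + 1 : ℕ) * π - ((k : ℕ) + 1 : ℝ) * x := by
    push_cast; ring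
  rw [h, Real.sin_nat_mul_pi_sub]
  ring

theorem sin_Psi_pi_sub (n : ℕ) (c : Fin K → ℝ) (x : ℝ) :
    Real.sin (Psi n c (π - x)) = Real.sin (Psi n (fun k => (-1) ^ ((k : ℕ) + 1) * c k) x) := by
  have h : Psi n c (π - x) = (2 * n + 1 : ℕ) * π - Psi n (fun k => (-1) ^ ((k : ℕ) + 1) * c k) x := by
    unfold Psi
    rw [Sf_pi_sub]
    push_cast
    ring
  rw [h, Real.sin_nat_mul_pi_sub, Odd.neg_one_pow ⟨n, rfl⟩]
  ring

/-- splitting at the middle -/
theorem JT_split (n : ℕ) (c : Fin K → ℝ) :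
    JT n c = (∫ x in (0 : ℝ)..(π / 2), Real.sin (Psi n c x) / Real.sin x) +
      ∫ x in (0 : ℝ)..(π / 2),
        Real.sin (Psi n (fun k => (-1) ^ ((k : ℕ) + 1) * c k) x) / Real.sin x := by
  unfold JT
  rw [← intervalIntegral.integral_add_adjacent_intervals (Psi_int n c 0 (π / 2))
    (Psi_int n c (π / 2) π)]
  congr 1
  have h := intervalIntegral.integral_comp_sub_left (a := 0) (b := π / 2)
    (fun x => Real.sin (Psi n c x) / Real.sin x) π
  rw [show π - π / 2 = π / 2 by ring, sub_zero] at h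
  rw [← h]
  refine intervalIntegral.integral_congr fun x _ => ?_
  beta_reduce
  rw [sin_Psi_pi_sub, Real.sin_pi_sub]

theorem BT_flip (n : ℕ) (c : Fin K → ℝ) : BT n (fun k => (-1) ^ ((k : ℕ) + 1) * c k) = BT n c := by
  unfold BT
  congr 2
  refine Finset.sum_congr rfl fun k _ => ?_
  rw [abs_mul, abs_pow, abs_neg, abs_one, one_pow, one_mul]

theorem sin_Psi_le (n : ℕ) (c : Fin K → ℝ) {x : ℝ} (hx : 0 ≤ x) :
    |Real.sin (Psi n c x)| ≤ BT n c * x := by
  have h1 := abs_sin_Psi_le n c x
  have h2 : |Real.sin x| ≤ x := by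
    have := Real.abs_sin_le_abs (x := x)
    rwa [abs_of_nonneg hx] at this
  have h3 := BT_ge_one n c
  exact h1.trans (by gcongr)

/-- **universal bound of the trace** -/
theorem TT_univ (n : ℕ) (c : Fin K → ℝ) : TT n c ≤ 1 / 2 * Real.log (1 + π / 2 * BT n c) := by
  have hpi := Real.pi_pos
  have hB := BT_ge_one n c
  have key : ∀ d : Fin K → ℝ, BT n d = BT n c →
      (∫ x in (0 : ℝ)..(π / 2), Real.sin (Psi n d x) / Real.sin x) ≤
      π / 2 + π / 2 * Real.log (1 + π / 2 * BT n c) := by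
    intro d hd
    have h1 := near_zero (f := fun x => Real.sin (Psi n d x)) (b := π / 2) (B := BT n c)
      (by positivity) le_rfl (by linarith) (Psi_int n d 0 (π / 2))
      (fun x _ _ => Real.abs_sin_le_one _) (fun x h2 _ => by rw [← hd]; exact sin_Psi_le n d h2.le)
    refine le_trans ?_ h1
    exact int_le (by positivity) (Psi_int _ _ _ _) (Psi_int _ _ _ _).abs fun x _ _ => le_abs_self _
  have h1 := key c rfl
  have h2 := key _ (BT_flip n c)
  unfold TT
  rw [JT_split]
  have h3 : (2 * π)⁻¹ * ((∫ x in (0 : ℝ)..(π / 2), Real.sin (Psi n c x) / Real.sin x) +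
      ∫ x in (0 : ℝ)..(π / 2),
        Real.sin (Psi n (fun k => (-1) ^ ((k : ℕ) + 1) * c k) x) / Real.sin x) ≤
      (2 * π)⁻¹ * (2 * (π / 2 + π / 2 * Real.log (1 + π / 2 * BT n c))) := by
    gcongr
    linarith
  have h4 : (2 * π)⁻¹ * (2 * (π / 2 + π / 2 * Real.log (1 + π / 2 * BT n c))) =
      1 / 2 + 1 / 2 * Real.log (1 + π / 2 * BT n c) := by
    field_simp
  linarith

/-- size of a perturbation -/
def eT (d : Fin K → ℝ) : ℝ := π⁻¹ * ∫ x in (0 : ℝ)..π, |Sf d x / Real.sin x|

theorem Sf_int (d : Fin K → ℝ) (a b : ℝ) :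
    IntervalIntegrable (fun x => Sf d x / Real.sin x) volume a b :=
  quot_int (continuous_Sf d) (abs_Sf_le d) a b

/-- **perturbation** -/
theorem TT_add (n : ℕ) (c d : Fin K → ℝ) : TT n (fun k => c k + d k) ≤ TT n c + eT d := by
  have hpi := Real.pi_pos
  have h1 : JT n (fun k => c k + d k) ≤ JT n c + 2 * ∫ x in (0 : ℝ)..π, |Sf d x / Real.sin x| := by
    unfold JT
    rw [← intervalIntegral.integral_const_mul, ← intervalIntegral.integral_add (Psi_int _ _ _ _)
      ((Sf_int d 0 π).abs.const_mul _)]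
    refine int_le hpi.le (Psi_int _ _ _ _) ((Psi_int _ _ _ _).add
      ((Sf_int d 0 π).abs.const_mul _)) fun x h1 h2 => ?_
    have hs := Real.sin_pos_of_pos_of_lt_pi h1 h2
    have h3 : Real.sin (Psi n (fun k => c k + d k) x) ≤ Real.sin (Psi n c x) + 2 * |Sf d x| := by
      have h4 : |Real.sin (Psi n (fun k => c k + d k) x) - Real.sin (Psi n c x)| ≤
          |Psi n (fun k => c k + d k) x - Psi n c x| := by
        have := Real.abs_sin_sub_sin_le (Psi n (fun k => c k + d k) x) (Psi n c x)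
        exact this
      have h5 : Psi n (fun k => c k + d k) x - Psi n c x = 2 * Sf d x := by
        unfold Psi
        rw [Sf_add]
        ring
      rw [h5, abs_mul, abs_of_pos (by norm_num : (0:ℝ) < 2)] at h4
      have := (le_abs_self _).trans h4
      linarith
    rw [abs_div, abs_of_pos hs]
    calc Real.sin (Psi n (fun k => c k + d k) x) / Real.sin x ≤
        (Real.sin (Psi n c x) + 2 * |Sf d x|) / Real.sin x := by gcongr
      _ = _ := by ring
  unfold TT eT
  have h2 : (2 * π)⁻¹ * JT n (fun k => c k + d k) ≤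
      (2 * π)⁻¹ * (JT n c + 2 * ∫ x in (0 : ℝ)..π, |Sf d x / Real.sin x|) := by gcongr
  have h3 : (2 * π)⁻¹ * (JT n c + 2 * ∫ x in (0 : ℝ)..π, |Sf d x / Real.sin x|) =
      (2 * π)⁻¹ * JT n c + π⁻¹ * ∫ x in (0 : ℝ)..π, |Sf d x / Real.sin x| := by
    field_simp
  linarith

end

end Pool.Agent.FSz.Tau
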