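import Pool.Agent.FSz.LimC
import Pool.Agent.FSz.Gram
import Pool.Agent.FSz.Heine
import Pool.Agent.FSz.TauB

/-! The folded Szegő upper bound with the explicit tail: integral form. -/

open Matrix Finset Metric MeasureTheory Real Filter Topology Polynomial
open scoped ComplexConjugate

namespace Pool.Agent.FSz

open Pool.Agent.Szego62 (mu integral_mu w fN w_lt_one)

theorem bS_eq {K : ℕ} (c : Fin K → ℝ) (m : ℕ) : bS c m = Tau.bT c m := rfl

theorem tendsto_tau {K : ℕ} (c : Fin K → ℝ) (n : ℕ) :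
    Tendsto (fun M => ∑ j ∈ Ico n M, bS c (2 * j + 2)) atTop (𝓝 (-Tau.TT n c)) := by
  have h := Tau.tendsto_Ico n c
  exact h

theorem spC_pos {K : ℕ} (c : Fin K → ℝ) (hK : 0 < K) (n : ℕ) :
    (sgR n (fun x => Real.exp (Fc c x))).det ≤ LL c * Real.exp (Tau.TT n c) := by
  have h := sp_of_gram c hK n (tendsto_tau c n) (by
    filter_upwards [w_lt_one (cc c)] with N hN M hM
    exact gram_tail (fun z hz => fN_diff c hN hz) (fN_zero c N) (fun z hz => fN_ne c hN hz) hM)
  rwa [neg_neg] at h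

theorem TT_zero_fin (n : ℕ) (c : Fin 0 → ℝ) : Tau.TT n c = Tau.TT n (fun _ : Fin 1 => (0 : ℝ)) := by
  unfold Tau.TT Tau.JT Tau.Psi Tau.Sf
  simp

/-- **Folded Szegő bound**, determinant form, every `n` and every even trigonometric polynomial -/
theorem spC {K : ℕ} (c : Fin K → ℝ) (n : ℕ) :
    (sgR n (fun x => Real.exp (Fc c x))).det ≤ LL c * Real.exp (Tau.TT n c) := by
  rcases Nat.eq_zero_or_pos K with hK | hK
  · subst hK
    have h := spC_pos (fun _ : Fin 1 => (0 : ℝ)) one_pos n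
    rw [TT_zero_fin n c]
    have e1 : (fun x => Real.exp (Fc c x)) =
        fun x => Real.exp (Fc (fun _ : Fin 1 => (0 : ℝ)) x) := by
      funext x
      simp [Fc]
    have e2 : LL c = LL (fun _ : Fin 1 => (0 : ℝ)) := by simp [LL]
    rw [e1, e2]
    exact h
  · exact spC_pos c hK n

/-- **Folded Szegő bound**, integral form (`hH` of `FSz.RUC`) -/
theorem sp_integral (n : ℕ) {K : ℕ} (c : Fin K → ℝ) :
    ∫ θ : Fin n → ℝ, VC n θ * Real.exp (∑ i, ∑ k : Fin K, 2 * c k *
      Real.cos (((k : ℕ) + 1) * θ i)) ∂(Measure.pi fun _ => mu) ≤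
      (n.factorial : ℝ) * Real.exp (1 / 2 * ∑ k : Fin K, (((k : ℕ) : ℝ) + 1) * c k ^ 2 -
        (∑ k : Fin K, if Odd (k : ℕ) then c k else 0) + Tau.TT n c) := by
  rw [heineC_exp]
  have h := spC c n
  have e1 : LL c * Real.exp (Tau.TT n c) = Real.exp (1 / 2 * ∑ k : Fin K,
      (((k : ℕ) : ℝ) + 1) * c k ^ 2 - (∑ k : Fin K, if Odd (k : ℕ) then c k else 0) +
        Tau.TT n c) := by
    rw [LL, ← Real.exp_add]
    congr 1
    ring
  rw [e1] at h
  exact mul_le_mul_of_nonneg_left h (by positivity)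

end Pool.Agent.FSz
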