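import Pool.Agent.FSz.Circ
import Pool.Agent.Szego62.MixR

/-!
# Sharp upper bound for the folded circular gas (generic error functional)

`RU_C`: from the exponential moments of the folded circular gas (folded Szegő inequality with an
error functional `T`) to the gas with a positive definite pair interaction, images and the self term.
-/

open MeasureTheory ProbabilityTheory Finset Filter
open scoped Topology Real ENNReal NNReal

namespace Pool.Agent.FSz

open Pool.Agent.Szego62 (mu Wser)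

noncomputable section

/-- folded Vandermonde weight -/
def VS (n : ℕ) (θ : Fin n → ℝ) : ℝ :=
  (∏ i, ∏ j ∈ Ioi i, (2 * Real.cos (θ i) - 2 * Real.cos (θ j)) ^ 2) *
    ∏ i, (2 * Real.sin (θ i) ^ 2)

theorem VS_nonneg (n : ℕ) (θ : Fin n → ℝ) : 0 ≤ VS n θ := by
  unfold VS
  refine mul_nonneg (prod_nonneg fun i _ => prod_nonneg fun j _ => sq_nonneg _)
    (prod_nonneg fun i _ => by positivity)

theorem VS_cont (n : ℕ) : Continuous (VS n) := by
  unfold VS
  fun_prop

/-- even modes -/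
def ek (k : ℕ) : ℝ := if Even (k + 1) then 1 else 0

theorem ek_sq (k : ℕ) : ek k ^ 2 = ek k := by
  unfold ek
  split_ifs <;> norm_num

def kap (w : ℕ → ℝ) (k : ℕ) : ℝ := ((k : ℝ) + 1) * w k / 2

/-- the mean field after the mixing -/
def cT (w c : ℕ → ℝ) (k : ℕ) : ℝ :=
  ek k / (k + 1) + (c k - ek k / (k + 1)) / (1 - kap w k)

/-- the variance of the field after the mixing -/
def vT (w : ℕ → ℝ) (k : ℕ) : ℝ≥0 := Real.toNNReal (w k / 2 / (1 - kap w k))

/-- the statistics -/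
def Sk (n k : ℕ) (θ : Fin n → ℝ) : ℝ := ∑ i, Real.cos (((k : ℝ) + 1) * θ i)

theorem Sk_cont (n k : ℕ) : Continuous (Sk n k) := by
  unfold Sk
  fun_prop

theorem Sk_abs (n k : ℕ) (θ : Fin n → ℝ) : |Sk n k θ| ≤ n := by
  unfold Sk
  refine (abs_sum_le_sum_abs _ _).trans ?_
  calc ∑ i : Fin n, |Real.cos (((k : ℝ) + 1) * θ i)| ≤ ∑ i : Fin n, (1 : ℝ) :=
        sum_le_sum fun i _ => Real.abs_cos_le_one _
    _ = n := by simp

/-- off-diagonal sums -/
theorem sum_off {n : ℕ} (f : Fin n → Fin n → ℝ) : ∑ i, ∑ j, f i j =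
    ∑ i, f i i + ∑ i, ∑ j ∈ Ioi i, (f i j + f j i) := by
  have h1 : ∀ i : Fin n, ∑ j, f i j = ∑ j ∈ Iio i, f i j + f i i + ∑ j ∈ Ioi i, f i j := by
    intro i
    have hu : (univ : Finset (Fin n)) = Iio i ∪ {i} ∪ Ioi i := by
      ext j
      simp only [mem_univ, mem_union, mem_Iio, mem_singleton, mem_Ioi, true_iff]
      rcases lt_trichotomy j i with h | h | h <;> simp [h]
    rw [hu, sum_union, sum_union, sum_singleton]
    · rw [disjoint_singleton_right]
      simp
    · rw [disjoint_left]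
      intro j hj hj'
      simp only [mem_union, mem_Iio, mem_singleton, mem_Ioi] at hj hj'
      rcases hj with h | h
      · exact absurd h (not_lt.2 hj'.le)
      · rw [h] at hj'
        exact lt_irrefl _ hj'
  have h2 : ∑ i : Fin n, ∑ j ∈ Iio i, f i j = ∑ i : Fin n, ∑ j ∈ Ioi i, f j i := by
    refine sum_comm' fun i j => ?_
    simp
  simp only [h1, sum_add_distrib]
  rw [h2]
  ring

/-- one mode: pairs, images and self term -/
theorem mode_id {n : ℕ} (a : Fin n → ℝ) :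
    ∑ i, ∑ j ∈ Ioi i, (Real.cos (a i - a j) + Real.cos (a i + a j)) +
      ∑ i, Real.cos (2 * a i) / 2 = (∑ i, Real.cos (a i)) ^ 2 - n / 2 := by
  have h1 := sum_off (fun i j : Fin n => Real.cos (a i) * Real.cos (a j))
  have h2 : ∀ x y : ℝ, Real.cos (x - y) + Real.cos (x + y) =
      Real.cos x * Real.cos y + Real.cos y * Real.cos x := by
    intro x y
    rw [Real.cos_sub, Real.cos_add]
    ring
  simp only [h2]
  have h3 : ∑ i, Real.cos (2 * a i) / 2 = ∑ i, Real.cos (a i) * Real.cos (a i) - n / 2 := by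
    have : ∀ i, Real.cos (2 * a i) / 2 = Real.cos (a i) * Real.cos (a i) - 1 / 2 := by
      intro i
      rw [Real.cos_two_mul]
      ring
    simp only [this, sum_sub_distrib, sum_const, card_univ, Fintype.card_fin, nsmul_eq_mul]
    ring
  rw [h3, pow_two, sum_mul_sum, h1]
  ring

theorem swap3 {n K : ℕ} (g : ℕ → Fin n → Fin n → ℝ) :
    ∑ i, ∑ j ∈ Ioi i, ∑ k ∈ range K, g k i j = ∑ k ∈ range K, ∑ i, ∑ j ∈ Ioi i, g k i j := by
  rw [sum_comm]
  exact sum_congr rfl fun i _ => sum_comm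

/-- the truncated exponent -/
theorem trunc_id (n K : ℕ) (w c : ℕ → ℝ) (θ : Fin n → ℝ) :
    ∑ i, ∑ j ∈ Ioi i, (∑ k ∈ range K, w k * Real.cos (((k : ℝ) + 1) * (θ i - θ j)) +
      ∑ k ∈ range K, w k * Real.cos (((k : ℝ) + 1) * (θ i + θ j))) +
    ∑ i, (∑ k ∈ range K, 2 * c k * Real.cos (((k : ℝ) + 1) * θ i) +
      (∑ k ∈ range K, w k * Real.cos (((k : ℝ) + 1) * (2 * θ i))) / 2) =
    ∑ k ∈ range K, (w k * Sk n k θ ^ 2 + 2 * c k * Sk n k θ) -
      (n : ℝ) / 2 * ∑ k ∈ range K, w k := by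
  have e1 : ∑ i, ∑ j ∈ Ioi i, (∑ k ∈ range K, w k * Real.cos (((k : ℝ) + 1) * (θ i - θ j)) +
      ∑ k ∈ range K, w k * Real.cos (((k : ℝ) + 1) * (θ i + θ j))) =
      ∑ k ∈ range K, w k * ∑ i, ∑ j ∈ Ioi i, (Real.cos (((k : ℝ) + 1) * θ i - ((k : ℝ) + 1) * θ j) +
        Real.cos (((k : ℝ) + 1) * θ i + ((k : ℝ) + 1) * θ j)) := by
    have := swap3 (n := n) (K := K) (fun k i j => w k * (Real.cos (((k : ℝ) + 1) * θ i -
      ((k : ℝ) + 1) * θ j) + Real.cos (((k : ℝ) + 1) * θ i + ((k : ℝ) + 1) * θ j)))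
    simp only [mul_sum]
    rw [← this]
    refine sum_congr rfl fun i _ => sum_congr rfl fun j _ => ?_
    rw [← sum_add_distrib]
    refine sum_congr rfl fun k _ => ?_
    rw [mul_add, mul_sub, mul_add]
  have e2 : ∑ i, (∑ k ∈ range K, 2 * c k * Real.cos (((k : ℝ) + 1) * θ i) +
      (∑ k ∈ range K, w k * Real.cos (((k : ℝ) + 1) * (2 * θ i))) / 2) =
      ∑ k ∈ range K, (2 * c k * Sk n k θ + w k * ∑ i, Real.cos (2 * (((k : ℝ) + 1) * θ i)) / 2) := by
    unfold Sk
    simp only [mul_sum, sum_add_distrib, sum_div]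
    rw [sum_comm (s := (univ : Finset (Fin n)))]
    congr 1
    rw [sum_comm (s := (univ : Finset (Fin n)))]
    refine sum_congr rfl fun k _ => sum_congr rfl fun i _ => ?_
    rw [show ((k : ℝ) + 1) * (2 * θ i) = 2 * (((k : ℝ) + 1) * θ i) by ring]
    ring
  rw [e1, e2, ← sum_add_distrib, mul_sum, ← sum_sub_distrib]
  refine sum_congr rfl fun k _ => ?_
  have h := mode_id (fun i : Fin n => ((k : ℝ) + 1) * θ i)
  have h2 : ∑ i, ∑ j ∈ Ioi i, (Real.cos (((k : ℝ) + 1) * θ i - ((k : ℝ) + 1) * θ j) +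
      Real.cos (((k : ℝ) + 1) * θ i + ((k : ℝ) + 1) * θ j)) =
      Sk n k θ ^ 2 - n / 2 - ∑ i, Real.cos (2 * (((k : ℝ) + 1) * θ i)) / 2 := by
    unfold Sk
    linarith
  rw [h2]
  ring

theorem Cser_le {c : ℕ → ℝ} (hc : Summable fun k => |c k|) (K : ℕ) (x : ℝ) :
    Cser c x ≤ ∑ k ∈ range K, 2 * c k * Real.cos (((k : ℝ) + 1) * x) + 2 * ∑' k, |c (k + K)| := by
  have hb : ∀ k : ℕ, |2 * c k * Real.cos (((k : ℝ) + 1) * x)| ≤ 2 * |c k| := by
    intro k
    rw [abs_mul, abs_mul, abs_two]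
    exact mul_le_of_le_one_right (by positivity) (Real.abs_cos_le_one _)
  have hs : Summable fun k : ℕ => 2 * c k * Real.cos (((k : ℝ) + 1) * x) :=
    Summable.of_norm_bounded (hc.mul_left 2) fun k => by rw [Real.norm_eq_abs]; exact hb k
  rw [Cser, ← hs.sum_add_tsum_nat_add K, ← tsum_mul_left]
  refine add_le_add le_rfl ?_
  refine Summable.tsum_le_tsum (fun k => ?_) ((summable_nat_add_iff K).2 hs)
    (((summable_nat_add_iff K).2 hc).mul_left 2)
  exact (le_abs_self _).trans (hb (k + K))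

/-- the tails -/
def dK (n : ℕ) (w c : ℕ → ℝ) (K : ℕ) : ℝ :=
  (2 * (n : ℝ) * n + n) * ∑' k, w (k + K) + n * (2 * ∑' k, |c (k + K)|)

theorem dK_lim (n : ℕ) {w c : ℕ → ℝ} : Tendsto (dK n w c) atTop (𝓝 0) := by
  have h1 := tendsto_sum_nat_add w
  have h2 := tendsto_sum_nat_add fun k => |c k|
  have := (h1.const_mul (2 * (n : ℝ) * n + n)).add ((h2.const_mul 2).const_mul (n : ℝ))
  have e : dK n w c = fun K => (2 * (n : ℝ) * n + n) * ∑' k, w (k + K) +
      n * (2 * ∑' k, |c (k + K)|) := rfl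
  rw [e]
  simpa using this

theorem intC_le (n K : ℕ) {w : ℕ → ℝ} (hw : ∀ k, 0 ≤ w k) (hws : Summable w) {c : ℕ → ℝ}
    (hc : Summable fun k => |c k|) (a0 : ℝ) (θ : Fin n → ℝ) : intC n w c a0 θ ≤
      Real.exp (dK n w c K + n * a0 - (n : ℝ) / 2 * ∑ k ∈ range K, w k) *
        (VS n θ * Real.exp (∑ k ∈ range K, (w k * Sk n k θ ^ 2 + 2 * c k * Sk n k θ))) := by
  set t := ∑' k, w (k + K) with ht
  have ht0 : 0 ≤ t := tsum_nonneg fun k => hw _
  set r := ∑' k, |c (k + K)| with hr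
  have e0 : intC n w c a0 θ = VS n θ * Real.exp (∑ i, ∑ j ∈ Ioi i, pW w (θ i) (θ j) +
      ∑ i, (a0 + Cser c (θ i) + Wser w (2 * θ i) / 2)) := by
    unfold intC VS
    rw [Real.exp_add]
    simp only [Real.exp_sum, prod_mul_distrib]
    ring
  have e1 : ∑ i, ∑ j ∈ Ioi i, pW w (θ i) (θ j) ≤
      ∑ i, ∑ j ∈ Ioi i, (∑ k ∈ range K, w k * Real.cos (((k : ℝ) + 1) * (θ i - θ j)) +
      ∑ k ∈ range K, w k * Real.cos (((k : ℝ) + 1) * (θ i + θ j))) + (n : ℝ) * n * (2 * t) := by
    calc ∑ i, ∑ j ∈ Ioi i, pW w (θ i) (θ j) ≤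
        ∑ i, ∑ j ∈ Ioi i, ((∑ k ∈ range K, w k * Real.cos (((k : ℝ) + 1) * (θ i - θ j)) +
        ∑ k ∈ range K, w k * Real.cos (((k : ℝ) + 1) * (θ i + θ j))) + 2 * t) := by
          refine sum_le_sum fun i _ => sum_le_sum fun j _ => ?_
          have a1 := Pool.Agent.Szego62.Wser_le hw hws K (θ i - θ j)
          have a2 := Pool.Agent.Szego62.Wser_le hw hws K (θ i + θ j)
          unfold pW
          linarith
      _ = ∑ i, ∑ j ∈ Ioi i, (∑ k ∈ range K, w k * Real.cos (((k : ℝ) + 1) * (θ i - θ j)) +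
        ∑ k ∈ range K, w k * Real.cos (((k : ℝ) + 1) * (θ i + θ j))) +
          ∑ i : Fin n, ∑ j ∈ Ioi i, 2 * t := by
            simp only [sum_add_distrib]
      _ ≤ _ := by
          gcongr
          calc ∑ i : Fin n, ∑ j ∈ Ioi i, 2 * t ≤ ∑ i : Fin n, ∑ j : Fin n, 2 * t :=
                sum_le_sum fun i _ => sum_le_sum_of_subset_of_nonneg (subset_univ _)
                  fun _ _ _ => by positivity
            _ = (n : ℝ) * n * (2 * t) := by
              simp only [sum_const, card_univ, Fintype.card_fin, nsmul_eq_mul]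
              ring
  have e2 : ∑ i, (a0 + Cser c (θ i) + Wser w (2 * θ i) / 2) ≤
      ∑ i, (∑ k ∈ range K, 2 * c k * Real.cos (((k : ℝ) + 1) * θ i) +
      (∑ k ∈ range K, w k * Real.cos (((k : ℝ) + 1) * (2 * θ i))) / 2) +
        n * (a0 + 2 * r + t / 2) := by
    calc ∑ i, (a0 + Cser c (θ i) + Wser w (2 * θ i) / 2) ≤
        ∑ i, ((∑ k ∈ range K, 2 * c k * Real.cos (((k : ℝ) + 1) * θ i) +
        (∑ k ∈ range K, w k * Real.cos (((k : ℝ) + 1) * (2 * θ i))) / 2) +
          (a0 + 2 * r + t / 2)) := by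
          refine sum_le_sum fun i _ => ?_
          have a1 := Cser_le hc K (θ i)
          have a2 := Pool.Agent.Szego62.Wser_le hw hws K (2 * θ i)
          linarith
      _ = _ := by
        rw [sum_add_distrib]
        simp only [sum_const, card_univ, Fintype.card_fin, nsmul_eq_mul]
  have e3 := trunc_id n K w c θ
  rw [e0, mul_left_comm, ← Real.exp_add]
  refine mul_le_mul_of_nonneg_left (Real.exp_le_exp.2 ?_) (VS_nonneg n θ)
  have e4 : (n : ℝ) * n * (2 * t) + n * (a0 + 2 * r + t / 2) ≤ dK n w c K + n * a0 := by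
    unfold dK
    rw [← ht, ← hr]
    have : 0 ≤ (n : ℝ) * t := by positivity
    nlinarith
  linarith

theorem VS_le (n : ℕ) (θ : Fin n → ℝ) : VS n θ ≤ (∏ i : Fin n, ∏ j ∈ Ioi i, (16 : ℝ)) *
    ∏ i : Fin n, (2 : ℝ) := by
  have h1 : ∀ x y : ℝ, (2 * Real.cos x - 2 * Real.cos y) ^ 2 ≤ 16 := by
    intro x y
    have a1 := Real.abs_cos_le_one x
    have a2 := Real.abs_cos_le_one y
    rw [abs_le] at a1 a2
    nlinarith
  unfold VS
  refine mul_le_mul (prod_le_prod (fun i _ => prod_nonneg fun j _ => sq_nonneg _) fun i _ =>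
    prod_le_prod (fun j _ => sq_nonneg _) fun j _ => h1 _ _)
    (prod_le_prod (fun i _ => by positivity) fun i _ => ?_)
    (prod_nonneg fun i _ => by positivity) (prod_nonneg fun i _ => prod_nonneg fun j _ => by norm_num)
  have := Real.sin_sq_le_one (θ i)
  linarith

instance : IsProbabilityMeasure mu := by
  constructor
  rw [mu, Measure.smul_apply, Measure.restrict_apply_univ, Real.volume_Ioc, sub_zero, smul_eq_mul]
  exact ENNReal.inv_mul_cancel (by
    have := Real.pi_pos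
    rw [Ne, ENNReal.ofReal_eq_zero, not_le]
    positivity) ENNReal.ofReal_ne_top

/-- affine images of Gaussian variables -/
theorem gauss_aff (m s : ℝ) (v : ℝ≥0) : (gaussianReal m v).map (fun x => s * (x - m)) =
    gaussianReal 0 (.mk (s ^ 2) (sq_nonneg _) * v) := by
  have e : (fun x : ℝ => s * (x - m)) = (s * ·) ∘ (· - m) := rfl
  rw [e, ← Measure.map_map (by fun_prop) (by fun_prop), gaussianReal_map_sub_const, sub_self,
    gaussianReal_map_const_mul, mul_zero]

theorem gauss_pi {K : ℕ} (m s : Fin K → ℝ) (v : Fin K → ℝ≥0) {G : (Fin K → ℝ) → ℝ≥0∞}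
    (hG : Measurable G) : ∫⁻ a, G (fun k => s k * (a k - m k))
      ∂(Measure.pi fun k => gaussianReal (m k) (v k)) =
    ∫⁻ x, G x ∂(Measure.pi fun k => gaussianReal 0 (.mk (s k ^ 2) (sq_nonneg _) * v k)) := by
  have h1 : Measure.pi (fun k => gaussianReal 0 (.mk (s k ^ 2) (sq_nonneg _) * v k)) =
      (Measure.pi fun k => gaussianReal (m k) (v k)).map (fun a k => s k * (a k - m k)) := by
    rw [Measure.pi_map_pi (f := fun k x => s k * (x - m k)) (fun k => by fun_prop)]
    congr 1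
    funext k
    exact (gauss_aff _ _ _).symm
  rw [h1, lintegral_map hG (by fun_prop)]

section main

variable (n : ℕ) (T : ∀ K, (Fin K → ℝ) → ℝ)

/-- the folded Szegő inequality with the error functional `T` -/
def HH : Prop := ∀ (K : ℕ) (c : Fin K → ℝ),
  ∫ θ : Fin n → ℝ, VS n θ * Real.exp (∑ i, ∑ k : Fin K, 2 * c k * Real.cos (((k : ℕ) + 1 : ℝ) * θ i))
    ∂(Measure.pi fun _ => mu) ≤
  (n.factorial : ℝ) * Real.exp ((1 / 2) * ∑ k : Fin K, ((k : ℕ) + 1 : ℝ) * c k ^ 2 -
    ∑ k : Fin K, ek (k : ℕ) * c k + T K c)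

variable {n T}

theorem HH_lint (hH : HH n T) (K : ℕ) (c : Fin K → ℝ) :
    ∫⁻ θ : Fin n → ℝ, ENNReal.ofReal (VS n θ * Real.exp (∑ k : Fin K, 2 * c k * Sk n k θ))
      ∂(Measure.pi fun _ => mu) ≤
    ENNReal.ofReal ((n.factorial : ℝ) * Real.exp ((1 / 2) * ∑ k : Fin K, ((k : ℕ) + 1 : ℝ) * c k ^ 2 -
    ∑ k : Fin K, ek (k : ℕ) * c k + T K c)) := by
  have h1 := hH K c
  have e1 : ∀ θ : Fin n → ℝ, ∑ i, ∑ k : Fin K, 2 * c k * Real.cos (((k : ℕ) + 1 : ℝ) * θ i) =
      ∑ k : Fin K, 2 * c k * Sk n k θ := by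
    intro θ
    rw [sum_comm]
    refine sum_congr rfl fun k _ => ?_
    rw [Sk, mul_sum]
  simp only [e1] at h1
  have hS := fun k => Sk_cont n k
  have hV := VS_cont n
  rw [← ofReal_integral_eq_lintegral_ofReal]
  · exact ENNReal.ofReal_le_ofReal h1
  · have hcont : Continuous fun θ : Fin n → ℝ => VS n θ * Real.exp (∑ k : Fin K, 2 * c k * Sk n k θ) := by
      fun_prop
    refine Integrable.of_bound hcont.aestronglyMeasurable
      (((∏ i : Fin n, ∏ j ∈ Ioi i, (16 : ℝ)) * ∏ i : Fin n, (2 : ℝ)) *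
        Real.exp (∑ k : Fin K, 2 * |c k| * n)) (ae_of_all _ fun θ => ?_)
    rw [Real.norm_eq_abs, abs_of_nonneg (mul_nonneg (VS_nonneg n θ) (Real.exp_pos _).le)]
    refine mul_le_mul (VS_le n θ) (Real.exp_le_exp.2 (sum_le_sum fun k _ => ?_))
      (Real.exp_pos _).le ((VS_nonneg n θ).trans (VS_le n θ))
    refine (le_abs_self _).trans ?_
    rw [abs_mul, abs_mul, abs_two]
    exact mul_le_mul_of_nonneg_left (Sk_abs n k θ) (by positivity)
  · exact ae_of_all _ fun θ => mul_nonneg (VS_nonneg n θ) (Real.exp_pos _).le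

/-- `K` modes -/
theorem RUC_K (hH : HH n T) (hTm : ∀ K, Measurable (T K)) (K : ℕ) {w : ℕ → ℝ}
    (hw : ∀ k, 0 ≤ w k) (hw2 : ∀ k : ℕ, ((k : ℝ) + 1) * w k < 2) (c : ℕ → ℝ) :
    ∫⁻ θ : Fin n → ℝ, ENNReal.ofReal (VS n θ *
      Real.exp (∑ k ∈ range K, (w k * Sk n k θ ^ 2 + 2 * c k * Sk n k θ)))
      ∂(Measure.pi fun _ => mu) ≤
    ENNReal.ofReal ((n.factorial : ℝ) * ∏ k ∈ range K, ((Real.sqrt (1 - kap w k))⁻¹ *
      Real.exp (((k : ℝ) + 1) * (c k - ek k / (k + 1)) ^ 2 / (2 * (1 - kap w k)) -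
        ek k / (2 * (k + 1))))) *
      ∫⁻ x : Fin K → ℝ, ENNReal.ofReal (Real.exp (T K fun k => cT w c k + x k))
        ∂(Measure.pi fun k : Fin K => gaussianReal 0 (vT w k)) := by
  have hκ : ∀ k, kap w k < 1 := fun k => by
    unfold kap
    have := hw2 k
    linarith
  have hS := fun k => Sk_cont n k
  have hV := VS_cont n
  set s : ℕ → ℝ := fun k => Real.sqrt (w k / 2) with hs
  have hs2 : ∀ k, s k ^ 2 = w k / 2 := fun k => Real.sq_sqrt (by have := hw k; linarith)
  set l : ℕ → ℝ := fun k => s k * (((k : ℝ) + 1) * c k - ek k) with hl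
  have hVint := hV
  set R : (Fin K → ℝ) → ℝ≥0∞ := fun a => ENNReal.ofReal (Real.exp (T K fun k => c k + s k * a k))
    with hR
  have hRm : Measurable R := by
    rw [hR]
    exact ENNReal.measurable_ofReal.comp (Real.measurable_exp.comp ((hTm K).comp (by fun_prop)))
  have key := Pool.Agent.Szego62.mix_diagR (ν := Measure.pi fun _ : Fin n => mu)
    (W := fun θ => ENNReal.ofReal (VS n θ * Real.exp (∑ k : Fin K, 2 * c k * Sk n k θ)))
    (by fun_prop) (P := fun (k : Fin K) θ => s k * (2 * Sk n k θ)) (fun k => by fun_prop)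
    (B := ENNReal.ofReal ((n.factorial : ℝ) * Real.exp (∑ k : Fin K,
      ((1 / 2) * (((k : ℕ) + 1 : ℝ) * c k ^ 2) - ek (k : ℕ) * c k))))
    (κ := fun k : Fin K => kap w k) (l := fun k : Fin K => l k) (fun k => hκ k) hRm ?_
  · -- left side
    have e1 : ∀ θ : Fin n → ℝ, ENNReal.ofReal (VS n θ *
        Real.exp (∑ k ∈ range K, (w k * Sk n k θ ^ 2 + 2 * c k * Sk n k θ))) =
        ENNReal.ofReal (VS n θ * Real.exp (∑ k : Fin K, 2 * c k * Sk n k θ)) *
          ENNReal.ofReal (Real.exp (∑ k : Fin K, (s k * (2 * Sk n k θ)) ^ 2 / 2)) := by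
      intro θ
      rw [← ENNReal.ofReal_mul (mul_nonneg (VS_nonneg n θ) (Real.exp_pos _).le), mul_assoc,
        ← Real.exp_add, ← sum_add_distrib, ← Fin.sum_univ_eq_sum_range
        (fun k => w k * Sk n k θ ^ 2 + 2 * c k * Sk n k θ) K]
      congr 3
      refine sum_congr rfl fun k _ => ?_
      have := hs2 k
      rw [mul_pow, this]
      ring
    simp only [e1]
    refine key.trans (le_of_eq ?_)
    -- the constants
    have e2 : ENNReal.ofReal ((n.factorial : ℝ) * Real.exp (∑ k : Fin K,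
        ((1 / 2) * (((k : ℕ) + 1 : ℝ) * c k ^ 2) - ek k * c k))) *
        ENNReal.ofReal (∏ k : Fin K, ((Real.sqrt (1 - kap w k))⁻¹ *
          Real.exp (l k ^ 2 / (1 - kap w k) / 2))) =
        ENNReal.ofReal ((n.factorial : ℝ) * ∏ k ∈ range K, ((Real.sqrt (1 - kap w k))⁻¹ *
        Real.exp (((k : ℝ) + 1) * (c k - ek k / (k + 1)) ^ 2 / (2 * (1 - kap w k)) -
        ek k / (2 * (k + 1))))) := by
      rw [← ENNReal.ofReal_mul (by positivity), mul_assoc, Real.exp_sum, ← prod_mul_distrib,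
        ← Fin.prod_univ_eq_prod_range (fun k => (Real.sqrt (1 - kap w k))⁻¹ *
        Real.exp (((k : ℝ) + 1) * (c k - ek k / (k + 1)) ^ 2 / (2 * (1 - kap w k)) -
        ek k / (2 * (k + 1)))) K]
      congr 2
      refine prod_congr rfl fun k _ => ?_
      rw [mul_left_comm, ← Real.exp_add]
      congr 2
      have h1 := hs2 k
      have h2 := ek_sq k
      have h3 : 1 - kap w k ≠ 0 := by have := hκ k; linarith
      have h4 : ((k : ℕ) + 1 : ℝ) ≠ 0 := by positivity
      have h5 : l k ^ 2 = w k / 2 * (((k : ℕ) + 1 : ℝ) * c k - ek k) ^ 2 := by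
        rw [hl]
        simp only
        rw [mul_pow, h1]
      have h6 : w k / 2 = kap w k / ((k : ℕ) + 1 : ℝ) := by
        unfold kap
        field_simp
      rw [h5, h6]
      generalize kap w k = q at *
      generalize ((k : ℕ) + 1 : ℝ) = r at *
      generalize ek (k : ℕ) = e at *
      generalize c (k : ℕ) = d at *
      field_simp
      linear_combination (q - 1) * h2
    rw [e2]
    congr 1
    -- the measure
    have e3 := gauss_pi (K := K) (fun k => l k / (1 - kap w k)) (fun k => s k)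
      (fun k => (1 / (1 - kap w k)).toNNReal)
      (G := fun x => ENNReal.ofReal (Real.exp (T K fun k => cT w c k + x k)))
      (ENNReal.measurable_ofReal.comp (Real.measurable_exp.comp ((hTm K).comp (by fun_prop))))
    have e4 : (fun k : Fin K => gaussianReal 0 (.mk (s k ^ 2) (sq_nonneg _) *
        (1 / (1 - kap w k)).toNNReal)) = fun k : Fin K => gaussianReal 0 (vT w k) := by
      funext k
      congr 1
      apply NNReal.coe_injective
      have h3 : 0 < 1 - kap w k := by have := hκ k; linarith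
      unfold vT
      rw [NNReal.coe_mul, Real.coe_toNNReal _ (by positivity), Real.coe_toNNReal _ (by
        have := hw k
        positivity)]
      show s k ^ 2 * _ = _
      rw [hs2]
      ring
    rw [e4] at e3
    rw [← e3]
    refine lintegral_congr fun a => ?_
    rw [hR]
    simp only
    congr 3
    funext k
    have h1 := hs2 k
    have h3 : 1 - kap w k ≠ 0 := by have := hκ k; linarith
    have h4 : ((k : ℕ) + 1 : ℝ) ≠ 0 := by positivity
    have h6 : w k / 2 = kap w k / ((k : ℕ) + 1 : ℝ) := by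
      unfold kap
      field_simp
    have h7 : s k * (l k / (1 - kap w k)) =
        kap w k / ((k : ℕ) + 1 : ℝ) * (((k : ℕ) + 1 : ℝ) * c k - ek k) / (1 - kap w k) := by
      rw [hl]
      simp only
      rw [← h6, ← h1]
      ring
    rw [mul_sub, h7, cT]
    field_simp
    ring
  · intro a
    have h1 := HH_lint hH K (fun k => c k + s k * a k)
    have e1 : ∀ θ : Fin n → ℝ, ENNReal.ofReal (VS n θ * Real.exp (∑ k : Fin K, 2 * c k * Sk n k θ)) *
        ENNReal.ofReal (Real.exp (∑ k : Fin K, a k * (s k * (2 * Sk n k θ)))) =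
        ENNReal.ofReal (VS n θ * Real.exp (∑ k : Fin K, 2 * (c k + s k * a k) * Sk n k θ)) := by
      intro θ
      rw [← ENNReal.ofReal_mul (mul_nonneg (VS_nonneg n θ) (Real.exp_pos _).le), mul_assoc,
        ← Real.exp_add, ← sum_add_distrib]
      congr 3
      refine sum_congr rfl fun k _ => ?_
      ring
    simp only [e1]
    refine h1.trans (le_of_eq ?_)
    rw [hR]
    simp only
    rw [← ENNReal.ofReal_mul (by positivity), ← ENNReal.ofReal_mul (by positivity), mul_assoc,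
      mul_assoc, ← Real.exp_add, ← Real.exp_add, ← add_assoc, ← sum_add_distrib]
    congr 3
    rw [mul_sum, ← sum_sub_distrib]
    congr 1
    refine sum_congr rfl fun k _ => ?_
    have h1 := hs2 k
    rw [hl]
    simp only
    unfold kap
    linear_combination (1 / 2 * ((k : ℕ) + 1 : ℝ) * a k ^ 2) * h1

/-- **Sharp upper bound**, infinitely many modes. -/
theorem RU_C (hH : HH n T) (hTm : ∀ K, Measurable (T K)) {w : ℕ → ℝ} (hw : ∀ k, 0 ≤ w k)
    (hw2 : ∀ k : ℕ, ((k : ℝ) + 1) * w k < 2) (hws : Summable w) {c : ℕ → ℝ}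
    (hc : Summable fun k => |c k|) (a0 E τ : ℝ) (K0 : ℕ)
    (hE : ∀ K, K0 ≤ K → ∏ k ∈ range K, ((Real.sqrt (1 - kap w k))⁻¹ *
      Real.exp (((k : ℝ) + 1) * (c k - ek k / (k + 1)) ^ 2 / (2 * (1 - kap w k)) -
        ek k / (2 * (k + 1)))) ≤ Real.exp E)
    (hT : ∀ K, K0 ≤ K → ∫⁻ x : Fin K → ℝ, ENNReal.ofReal (Real.exp (T K fun k => cT w c k + x k))
        ∂(Measure.pi fun k : Fin K => gaussianReal 0 (vT w k)) ≤ ENNReal.ofReal (Real.exp τ)) :
    ∫⁻ θ : Fin n → ℝ, ENNReal.ofReal (intC n w c a0 θ) ∂(Measure.pi fun _ => mu) ≤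
      ENNReal.ofReal ((n.factorial : ℝ) *
        Real.exp (n * a0 - (n : ℝ) / 2 * ∑' k, w k + E + τ)) := by
  have hmain : ∀ K, K0 ≤ K → ∫⁻ θ : Fin n → ℝ, ENNReal.ofReal (intC n w c a0 θ)
      ∂(Measure.pi fun _ => mu) ≤ ENNReal.ofReal ((n.factorial : ℝ) *
        Real.exp (dK n w c K + (n * a0 - (n : ℝ) / 2 * ∑ k ∈ range K, w k + E + τ))) := by
    intro K hK
    have hS := fun k => Sk_cont n k
    have hV := VS_cont n
    calc ∫⁻ θ : Fin n → ℝ, ENNReal.ofReal (intC n w c a0 θ) ∂(Measure.pi fun _ => mu) ≤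
        ∫⁻ θ : Fin n → ℝ, ENNReal.ofReal (Real.exp (dK n w c K + n * a0 - (n : ℝ) / 2 *
          ∑ k ∈ range K, w k)) * ENNReal.ofReal (VS n θ *
          Real.exp (∑ k ∈ range K, (w k * Sk n k θ ^ 2 + 2 * c k * Sk n k θ)))
          ∂(Measure.pi fun _ => mu) := by
          refine lintegral_mono fun θ => ?_
          rw [← ENNReal.ofReal_mul (Real.exp_pos _).le]
          exact ENNReal.ofReal_le_ofReal (intC_le n K hw hws hc a0 θ)
      _ = ENNReal.ofReal (Real.exp (dK n w c K + n * a0 - (n : ℝ) / 2 *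
          ∑ k ∈ range K, w k)) * ∫⁻ θ : Fin n → ℝ, ENNReal.ofReal (VS n θ *
          Real.exp (∑ k ∈ range K, (w k * Sk n k θ ^ 2 + 2 * c k * Sk n k θ)))
          ∂(Measure.pi fun _ => mu) := lintegral_const_mul _ (by fun_prop)
      _ ≤ ENNReal.ofReal (Real.exp (dK n w c K + n * a0 - (n : ℝ) / 2 *
          ∑ k ∈ range K, w k)) * (ENNReal.ofReal ((n.factorial : ℝ) * Real.exp E) *
          ENNReal.ofReal (Real.exp τ)) := by
          gcongr
          refine (RUC_K hH hTm K hw hw2 c).trans (mul_le_mul' (ENNReal.ofReal_le_ofReal ?_)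
            (hT K hK))
          exact mul_le_mul_of_nonneg_left (hE K hK) (by positivity)
      _ = _ := by
          rw [← ENNReal.ofReal_mul (by positivity), ← ENNReal.ofReal_mul (by positivity)]
          congr 1
          rw [mul_assoc, ← Real.exp_add, mul_left_comm, ← Real.exp_add]
          congr 2
          ring
  have hlim : Tendsto (fun K => ENNReal.ofReal ((n.factorial : ℝ) *
      Real.exp (dK n w c K + (n * a0 - (n : ℝ) / 2 * ∑ k ∈ range K, w k + E + τ)))) atTop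
      (𝓝 (ENNReal.ofReal ((n.factorial : ℝ) *
        Real.exp (0 + (n * a0 - (n : ℝ) / 2 * ∑' k, w k + E + τ))))) := by
    apply (ENNReal.continuous_ofReal.tendsto _).comp
    apply Tendsto.const_mul
    apply (Real.continuous_exp.tendsto _).comp
    apply (dK_lim n).add
    apply Tendsto.add_const
    apply Tendsto.add_const
    apply Tendsto.const_sub
    apply Tendsto.const_mul
    exact hws.hasSum.tendsto_sum_nat
  rw [zero_add] at hlim
  exact ge_of_tendsto hlim (eventually_atTop.2 ⟨K0, hmain⟩)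

end main

end

end Pool.Agent.FSz
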