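import Pool.Agent.FSz.RUC
import Pool.Agent.FSz.Main
import Pool.Agent.FSz.Bound

/-! Folded circle bound: the sole remaining input is the Gaussian average of the exact tail
`Tau.TT n` (`hT`). -/

open MeasureTheory ProbabilityTheory Finset Filter
open scoped Topology Real ENNReal NNReal

namespace Pool.Agent.FSz

open Pool.Agent.Szego62 (mu Wser)

/-- `hH` is a theorem -/
theorem HH_TT (n : ℕ) : HH n (fun _ c => Tau.TT n c) := by
  intro K c
  have h := sp_integral n c
  refine h.trans (le_of_eq ?_)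
  congr 3
  congr 1
  refine Finset.sum_congr rfl fun k _ => ?_
  unfold ek
  by_cases hk : Odd (k : ℕ)
  · have : Even ((k : ℕ) + 1) := hk.add_one
    simp [hk, this]
  · have : ¬ Even ((k : ℕ) + 1) := by
      rw [Nat.not_odd_iff_even] at hk
      rw [Nat.not_even_iff_odd]
      exact hk.add_one
    simp [hk, this]

theorem TT_meas (n K : ℕ) : Measurable (fun c : Fin K → ℝ => Tau.TT n c) := by
  unfold Tau.TT Tau.JT
  refine measurable_const.add (Measurable.const_mul ?_ _)
  simp_rw [intervalIntegral.integral_of_le Real.pi_pos.le]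
  have hm : StronglyMeasurable (Function.uncurry fun (c : Fin K → ℝ) (x : ℝ) =>
      Real.sin (Tau.Psi n c x) / Real.sin x) := by
    apply Measurable.stronglyMeasurable
    unfold Tau.Psi Tau.Sf Function.uncurry
    fun_prop
  exact (hm.integral_prod_right (ν := volume.restrict (Set.Ioc 0 π))).measurable

theorem ek_el (k : ℕ) : ek k = el k := by
  unfold ek el
  by_cases h : k % 2 = 1
  · have : Even (k + 1) := by rw [Nat.even_iff]; omega
    simp [h, this]
  · have : ¬ Even (k + 1) := by rw [Nat.even_iff]; omega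
    simp [h, this]

/-- **the circle input of `circ_boundC`** -/
theorem HRU_of {n : ℕ} {w : ℕ → ℝ} (hw : ∀ k, 0 ≤ w k)
    (hw2 : ∀ k : ℕ, ((k : ℝ) + 1) * w k < 2) (hws : Summable w) {c : ℕ → ℝ}
    (hc : Summable fun k => |c k|) (a0 τ : ℝ) (K0 : ℕ)
    (hT : ∀ K, K0 ≤ K → ∫⁻ x : Fin K → ℝ,
      ENNReal.ofReal (Real.exp (Tau.TT n fun k : Fin K => cT w c k + x k))
        ∂(Measure.pi fun k : Fin K => gaussianReal 0 (vT w k)) ≤ ENNReal.ofReal (Real.exp τ)) :
    HRU n w c a0 (Real.exp τ) := by
  intro E hE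
  obtain ⟨K1, hK1⟩ := eventually_atTop.1 hE
  have h := RU_C (HH_TT n) (TT_meas n) hw hw2 hws hc a0 E τ (max K0 K1) (fun K hK => ?_)
    (fun K hK => hT K ((le_max_left _ _).trans hK))
  · refine h.trans (le_of_eq ?_)
    congr 1
    rw [mul_assoc, ← Real.exp_add]
  · refine le_trans (le_of_eq ?_) (hK1 K ((le_max_right _ _).trans hK))
    refine Finset.prod_congr rfl fun k _ => ?_
    unfold lf lexp kap
    rw [ek_el]

end Pool.Agent.FSz
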