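import Pool.Agent.Szego62.Heine

/-!
# The tail trace of the folded Szegő bound

`Sf c` is the odd trigonometric polynomial `∑ c_k sin ((k+1) x)`.  The sum of the coefficients
`bS c (2 (n+j) + 2)`, `j ≥ 0`, is an explicit integral of the counting function
`(2 n + 1) x + 2 Sf c x`.
-/

open MeasureTheory Set Filter Topology
open scoped Real

namespace Pool.Agent.FSz.Tau

open Pool.Agent.Szego62 (mu)

noncomputable section

variable {K : ℕ}

/-- the odd trigonometric polynomial -/
def Sf (c : Fin K → ℝ) (x : ℝ) : ℝ := ∑ k : Fin K, c k * Real.sin (((k : ℕ) + 1 : ℝ) * x)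

/-- coefficients of `exp (2 i S)` -/
def bT (c : Fin K → ℝ) (m : ℕ) : ℝ := ∫ x, Real.cos (m * x + 2 * Sf c x) ∂mu

/-- counting function -/
def Psi (n : ℕ) (c : Fin K → ℝ) (x : ℝ) : ℝ := (2 * n + 1) * x + 2 * Sf c x

/-- the boundary integral -/
def JT (n : ℕ) (c : Fin K → ℝ) : ℝ := ∫ x in (0 : ℝ)..π, Real.sin (Psi n c x) / Real.sin x

/-- bound of the derivative of the counting function -/
def BT (n : ℕ) (c : Fin K → ℝ) : ℝ := 2 * n + 1 + 2 * ∑ k : Fin K, ((k : ℕ) + 1 : ℝ) * |c k|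

theorem continuous_Sf (c : Fin K → ℝ) : Continuous (Sf c) := by
  unfold Sf
  fun_prop

theorem continuous_Psi (n : ℕ) (c : Fin K → ℝ) : Continuous (Psi n c) := by
  have := continuous_Sf c
  unfold Psi
  fun_prop

theorem Sf_add (c d : Fin K → ℝ) (x : ℝ) : Sf (fun k => c k + d k) x = Sf c x + Sf d x := by
  unfold Sf
  rw [← Finset.sum_add_distrib]
  exact Finset.sum_congr rfl fun k _ => by ring

theorem integral_mu_real (f : ℝ → ℝ) :
    ∫ x, f x ∂mu = (2 * π)⁻¹ * ∫ x in (0 : ℝ)..2 * π, f x := by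
  have h : (0 : ℝ) ≤ 2 * π := by positivity
  rw [mu, MeasureTheory.integral_smul_measure, intervalIntegral.integral_of_le h, ENNReal.toReal_inv,
    ENNReal.toReal_ofReal h, smul_eq_mul]

/-- reflection of the circle -/
theorem int_half {f : ℝ → ℝ} (hf : Continuous f) (hs : ∀ x, f (2 * π - x) = f x) :
    (∫ x in (0 : ℝ)..2 * π, f x) = 2 * ∫ x in (0 : ℝ)..π, f x := by
  have h1 : (∫ x in (0 : ℝ)..2 * π, f x) = (∫ x in (0 : ℝ)..π, f x) + ∫ x in π..2 * π, f x :=
    (intervalIntegral.integral_add_adjacent_intervals (hf.intervalIntegrable _ _)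
      (hf.intervalIntegrable _ _)).symm
  have h2 : (∫ x in π..2 * π, f x) = ∫ x in (0 : ℝ)..π, f x := by
    have h3 := intervalIntegral.integral_comp_sub_left (a := (0:ℝ)) (b := π) f (2 * π)
    rw [show 2 * π - π = π by ring, sub_zero] at h3
    rw [← h3]
    exact intervalIntegral.integral_congr fun x _ => hs x
  rw [h1, h2]
  ring

theorem Sf_refl (c : Fin K → ℝ) (x : ℝ) : Sf c (2 * π - x) = -Sf c x := by
  unfold Sf
  rw [← Finset.sum_neg_distrib]
  refine Finset.sum_congr rfl fun k _ => ?_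
  have h : ((k : ℕ) + 1 : ℝ) * (2 * π - x) = ((k : ℕ) + 1 : ℕ) * (2 * π) - ((k : ℕ) + 1 : ℝ) * x := by
    push_cast; ring
  rw [h, Real.sin_nat_mul_two_pi_sub]
  ring

theorem bT_eq (c : Fin K → ℝ) (m : ℕ) :
    bT c m = π⁻¹ * ∫ x in (0 : ℝ)..π, Real.cos (m * x + 2 * Sf c x) := by
  have hc := continuous_Sf c
  rw [bT, integral_mu_real, int_half (by fun_prop) fun x => ?_]
  · field_simp
  · rw [Sf_refl]
    have h : (m : ℝ) * (2 * π - x) + 2 * -Sf c x = (m : ℕ) * (2 * π) - (m * x + 2 * Sf c x) := by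
      ring
    rw [h, Real.cos_nat_mul_two_pi_sub]

theorem abs_sin_nat_mul_le (n : ℕ) (x : ℝ) : |Real.sin (n * x)| ≤ n * |Real.sin x| := by
  induction n with
  | zero => simp
  | succ n ih =>
    push_cast
    rw [add_mul, one_mul, Real.sin_add]
    have h1 := Real.abs_cos_le_one x
    have h2 := Real.abs_cos_le_one (n * x)
    calc |Real.sin (n * x) * Real.cos x + Real.cos (n * x) * Real.sin x| ≤
        |Real.sin (n * x) * Real.cos x| + |Real.cos (n * x) * Real.sin x| := abs_add_le _ _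
      _ = |Real.sin (n * x)| * |Real.cos x| + |Real.cos (n * x)| * |Real.sin x| := by
        rw [abs_mul, abs_mul]
      _ ≤ |Real.sin (n * x)| * 1 + 1 * |Real.sin x| := by gcongr
      _ ≤ _ := by linarith

theorem abs_Sf_le (c : Fin K → ℝ) (x : ℝ) :
    |Sf c x| ≤ (∑ k : Fin K, ((k : ℕ) + 1 : ℝ) * |c k|) * |Real.sin x| := by
  unfold Sf
  refine (Finset.abs_sum_le_sum_abs _ _).trans ?_
  rw [Finset.sum_mul]
  refine Finset.sum_le_sum fun k _ => ?_
  have h := abs_sin_nat_mul_le ((k : ℕ) + 1) x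
  push_cast at h
  rw [abs_mul]
  calc |c k| * |Real.sin (((k : ℕ) + 1 : ℝ) * x)| ≤ |c k| * (((k : ℕ) + 1 : ℝ) * |Real.sin x|) := by
        gcongr
    _ = _ := by ring

theorem abs_sin_Psi_le (n : ℕ) (c : Fin K → ℝ) (x : ℝ) :
    |Real.sin (Psi n c x)| ≤ BT n c * |Real.sin x| := by
  have h1 := abs_sin_nat_mul_le (2 * n + 1) x
  push_cast at h1
  have h2 := abs_Sf_le c x
  have h3 : |Real.sin (2 * Sf c x)| ≤ 2 * |Sf c x| := by
    refine Real.abs_sin_le_abs.trans (le_of_eq ?_)
    rw [abs_mul, abs_of_pos (by norm_num : (0:ℝ) < 2)]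
  unfold Psi BT
  rw [Real.sin_add]
  calc |Real.sin ((2 * n + 1) * x) * Real.cos (2 * Sf c x) +
        Real.cos ((2 * n + 1) * x) * Real.sin (2 * Sf c x)| ≤
      |Real.sin ((2 * n + 1) * x) * Real.cos (2 * Sf c x)| +
        |Real.cos ((2 * n + 1) * x) * Real.sin (2 * Sf c x)| := abs_add_le _ _
    _ = |Real.sin ((2 * n + 1) * x)| * |Real.cos (2 * Sf c x)| +
        |Real.cos ((2 * n + 1) * x)| * |Real.sin (2 * Sf c x)| := by rw [abs_mul, abs_mul]
    _ ≤ (2 * n + 1) * |Real.sin x| * 1 + 1 * (2 * |Sf c x|) := by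
      gcongr
      · exact Real.abs_cos_le_one _
      · exact Real.abs_cos_le_one _
    _ ≤ _ := by nlinarith

theorem BT_ge_one (n : ℕ) (c : Fin K → ℝ) : 1 ≤ BT n c := by
  unfold BT
  have : 0 ≤ ∑ k : Fin K, ((k : ℕ) + 1 : ℝ) * |c k| := Finset.sum_nonneg fun k _ => by positivity
  have : (0:ℝ) ≤ n := Nat.cast_nonneg n
  linarith

theorem quot_le {f : ℝ → ℝ} {B : ℝ} (hf : ∀ x, |f x| ≤ B * |Real.sin x|) (x : ℝ) :
    |f x / Real.sin x| ≤ B := by
  have hB : 0 ≤ B := by
    have := hf (π / 2)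
    rw [Real.sin_pi_div_two, abs_one, mul_one] at this
    exact (abs_nonneg _).trans this
  rw [abs_div]
  rcases eq_or_ne (Real.sin x) 0 with h | h
  · rw [h, abs_zero, div_zero]; exact hB
  · rw [div_le_iff₀ (abs_pos.2 h)]
    exact hf x

theorem quot_int {f : ℝ → ℝ} {B : ℝ} (hc : Continuous f) (hf : ∀ x, |f x| ≤ B * |Real.sin x|)
    (a b : ℝ) : IntervalIntegrable (fun x => f x / Real.sin x) volume a b := by
  have hm : Measurable fun x => f x / Real.sin x := hc.measurable.div Real.measurable_sin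
  refine (intervalIntegrable_const (c := B)).mono_fun' hm.aestronglyMeasurable
    (ae_of_all _ fun x => ?_)
  simp only [Real.norm_eq_abs]
  exact quot_le hf x

theorem congr_Ioo {f g : ℝ → ℝ} {a b : ℝ} (hab : a ≤ b) (h : ∀ x, a < x → x < b → f x = g x) :
    (∫ x in a..b, f x) = ∫ x in a..b, g x := by
  rw [intervalIntegral.integral_of_le hab, intervalIntegral.integral_of_le hab,
    integral_Ioc_eq_integral_Ioo, integral_Ioc_eq_integral_Ioo]
  exact setIntegral_congr_fun measurableSet_Ioo fun x hx => h x hx.1 hx.2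

theorem Psi_int (n : ℕ) (c : Fin K → ℝ) (a b : ℝ) :
    IntervalIntegrable (fun x => Real.sin (Psi n c x) / Real.sin x) volume a b :=
  quot_int (Real.continuous_sin.comp (continuous_Psi n c)) (abs_sin_Psi_le n c) a b

/-- one step -/
theorem bT_step (n : ℕ) (c : Fin K → ℝ) : bT c (2 * n + 2) = (2 * π)⁻¹ * (JT (n + 1) c - JT n c) := by
  have h0 : JT (n + 1) c - JT n c = ∫ x in (0 : ℝ)..π,
      (Real.sin (Psi (n + 1) c x) / Real.sin x - Real.sin (Psi n c x) / Real.sin x) := by
    unfold JT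
    rw [← intervalIntegral.integral_sub (Psi_int _ _ _ _) (Psi_int _ _ _ _)]
  have h1 : (∫ x in (0 : ℝ)..π,
      (Real.sin (Psi (n + 1) c x) / Real.sin x - Real.sin (Psi n c x) / Real.sin x)) =
      ∫ x in (0 : ℝ)..π, 2 * Real.cos (((2 * n + 2 : ℕ) : ℝ) * x + 2 * Sf c x) := by
    refine congr_Ioo Real.pi_pos.le fun x hx1 hx2 => ?_
    have hs : Real.sin x ≠ 0 := (Real.sin_pos_of_pos_of_lt_pi hx1 hx2).ne'
    rw [← sub_div, div_eq_iff hs]
    have e1 : Psi (n + 1) c x = (((2 * n + 2 : ℕ) : ℝ) * x + 2 * Sf c x) + x := by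
      unfold Psi; push_cast; ring
    have e2 : Psi n c x = (((2 * n + 2 : ℕ) : ℝ) * x + 2 * Sf c x) - x := by
      unfold Psi; push_cast; ring
    rw [e1, e2, Real.sin_add, Real.sin_sub]
    ring
  rw [h0, h1, bT_eq, intervalIntegral.integral_const_mul]
  field_simp

theorem bT_sum (n N : ℕ) (c : Fin K → ℝ) :
    ∑ j ∈ Finset.range N, bT c (2 * (n + j) + 2) = (2 * π)⁻¹ * (JT (n + N) c - JT n c) := by
  induction N with
  | zero => simp
  | succ N ih =>
    rw [Finset.sum_range_succ, ih, bT_step, ← add_assoc]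
    ring

/-! ## The limit -/

theorem Sf_zero (x : ℝ) : Sf (fun _ : Fin K => 0) x = 0 := by simp [Sf]

theorem bT_zero (n : ℕ) : bT (fun _ : Fin K => 0) (2 * n + 2) = 0 := by
  rw [bT_eq]
  simp only [Sf_zero, mul_zero, add_zero]
  have h : ((2 * n + 2 : ℕ) : ℝ) ≠ 0 := by positivity
  rw [intervalIntegral.integral_comp_mul_left (fun y => Real.cos y) h, integral_cos,
    Real.sin_nat_mul_pi, mul_zero, Real.sin_zero]
  simp

theorem JT_zero (n : ℕ) : JT n (fun _ : Fin K => 0) = π := by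
  induction n with
  | zero =>
    unfold JT Psi
    have h : (∫ x in (0 : ℝ)..π, Real.sin ((2 * ((0 : ℕ) : ℝ) + 1) * x +
        2 * Sf (fun _ : Fin K => 0) x) / Real.sin x) = ∫ x in (0 : ℝ)..π, (1 : ℝ) := by
      refine congr_Ioo Real.pi_pos.le fun x h1 h2 => ?_
      have hs : Real.sin x ≠ 0 := (Real.sin_pos_of_pos_of_lt_pi h1 h2).ne'
      rw [Sf_zero]
      simp [hs]
    rw [h]
    simp
  | succ n ih =>
    have h := bT_step n (fun _ : Fin K => 0)
    rw [bT_zero, ih] at h
    have hpi := Real.pi_pos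
    have h2 : (2 * π)⁻¹ ≠ 0 := by positivity
    have h3 := mul_eq_zero.1 h.symm
    rcases h3 with h3 | h3
    · exact absurd h3 h2
    · linarith

/-- the phase part -/
def GT (c : Fin K → ℝ) (x : ℝ) : ℂ := (Complex.exp (-(2 * Sf c x : ℝ) * Complex.I) - 1) / Real.sin x

theorem GT_int (c : Fin K → ℝ) : Integrable (indicator (Ioc 0 π) (GT c)) := by
  rw [integrable_indicator_iff measurableSet_Ioc]
  have hc := continuous_Sf c
  have hm : Measurable (GT c) := by
    unfold GT
    have h1 : Measurable fun x : ℝ => Complex.exp (-(2 * Sf c x : ℝ) * Complex.I) - 1 :=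
      (by fun_prop : Continuous fun x : ℝ => Complex.exp (-(2 * Sf c x : ℝ) * Complex.I) - 1).measurable
    have h2 : Measurable fun x : ℝ => ((Real.sin x : ℝ) : ℂ) :=
      (by fun_prop : Continuous fun x : ℝ => ((Real.sin x : ℝ) : ℂ)).measurable
    exact h1.div h2
  refine Measure.integrableOn_of_bounded (M := 2 * ∑ k : Fin K, ((k : ℕ) + 1 : ℝ) * |c k|)
    (by simp) hm.aestronglyMeasurable (ae_of_all _ fun x => ?_)
  have h1 := abs_Sf_le c x
  have h2 : ‖Complex.exp (-(2 * Sf c x : ℝ) * Complex.I) - 1‖ ≤ 2 * |Sf c x| := by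
    have h3 := Real.norm_exp_I_mul_ofReal_sub_one_le (x := -(2 * Sf c x))
    rw [show Complex.I * ((-(2 * Sf c x) : ℝ) : ℂ) = -(2 * Sf c x : ℝ) * Complex.I by
      push_cast; ring] at h3
    refine h3.trans (le_of_eq ?_)
    rw [Real.norm_eq_abs, abs_neg, abs_mul, abs_of_pos (by norm_num : (0:ℝ) < 2)]
  have hM : 0 ≤ ∑ k : Fin K, ((k : ℕ) + 1 : ℝ) * |c k| := Finset.sum_nonneg fun k _ => by positivity
  unfold GT
  rw [norm_div, Complex.norm_real, Real.norm_eq_abs]
  rcases eq_or_ne (Real.sin x) 0 with h | h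
  · rw [h, abs_zero, div_zero]; positivity
  · rw [div_le_iff₀ (abs_pos.2 h)]
    linarith

theorem JT_tendsto (c : Fin K → ℝ) : Tendsto (fun N => JT N c) atTop (𝓝 π) := by
  have hRL := Real.tendsto_integral_exp_smul_cocompact (indicator (Ioc 0 π) (GT c))
  have hw : Tendsto (fun N : ℕ => (2 * (N : ℝ) + 1) / (2 * π)) atTop (cocompact ℝ) := by
    refine Tendsto.mono_right ?_ atTop_le_cocompact
    refine Tendsto.atTop_div_const (by positivity) ?_
    exact tendsto_atTop_add_const_right _ _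
      ((tendsto_natCast_atTop_atTop).const_mul_atTop (by norm_num))
  have h1 := hRL.comp hw
  have h2 := (Complex.continuous_im.tendsto _).comp h1
  have key : ∀ N : ℕ, (Complex.im (∫ v : ℝ, Real.fourierChar (-(v * ((2 * (N : ℝ) + 1) / (2 * π)))) •
      indicator (Ioc 0 π) (GT c) v)) = π - JT N c := by
    intro N
    have e1 : (fun v : ℝ => Real.fourierChar (-(v * ((2 * (N : ℝ) + 1) / (2 * π)))) •
        indicator (Ioc 0 π) (GT c) v) = indicator (Ioc 0 π) fun v : ℝ =>
          Complex.exp (-((2 * N + 1) * v : ℝ) * Complex.I) * GT c v := by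
      funext v
      by_cases hv : v ∈ Ioc 0 π
      · rw [indicator_of_mem hv, indicator_of_mem hv, Circle.smul_def, Real.fourierChar_apply,
          smul_eq_mul]
        congr 2
        have hpi : (π : ℂ) ≠ 0 := by exact_mod_cast Real.pi_ne_zero
        push_cast
        field_simp
      · rw [indicator_of_notMem hv, indicator_of_notMem hv, smul_zero]
    rw [e1, MeasureTheory.integral_indicator measurableSet_Ioc]
    have hint : IntegrableOn (fun v : ℝ =>
        Complex.exp (-((2 * N + 1) * v : ℝ) * Complex.I) * GT c v) (Ioc 0 π) := by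
      have h3 := GT_int c
      rw [integrable_indicator_iff measurableSet_Ioc] at h3
      have h4 : Continuous fun v : ℝ => Complex.exp (-((2 * N + 1) * v : ℝ) * Complex.I) := by
        fun_prop
      refine h3.bdd_mul (c := 1) h4.aestronglyMeasurable (ae_of_all _ fun v => ?_)
      rw [show -(((2 * N + 1) * v : ℝ) : ℂ) * Complex.I = ((-((2 * N + 1) * v) : ℝ) : ℂ) * Complex.I by
        push_cast; ring, Complex.norm_exp_ofReal_mul_I]
    have e2 := integral_im hint
    simp only [RCLike.im_to_complex] at e2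
    rw [← e2, ← intervalIntegral.integral_of_le Real.pi_pos.le]
    have e3 : (∫ x in (0 : ℝ)..π, (Complex.exp (-((2 * N + 1) * x : ℝ) * Complex.I) * GT c x).im) =
        ∫ x in (0 : ℝ)..π, (Real.sin (Psi N (fun _ : Fin K => 0) x) / Real.sin x -
          Real.sin (Psi N c x) / Real.sin x) := by
      refine congr_Ioo Real.pi_pos.le fun x h1 h2 => ?_
      have hs : Real.sin x ≠ 0 := (Real.sin_pos_of_pos_of_lt_pi h1 h2).ne'
      have hs' : ((Real.sin x : ℝ) : ℂ) ≠ 0 := by exact_mod_cast hs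
      have e4 : Complex.exp (-((2 * N + 1) * x : ℝ) * Complex.I) * GT c x =
          (Complex.exp ((-(Psi N c x) : ℝ) * Complex.I) -
            Complex.exp ((-((2 * N + 1) * x) : ℝ) * Complex.I)) * ((Real.sin x)⁻¹ : ℝ) := by
        unfold GT Psi
        rw [← mul_div_assoc, mul_sub, ← Complex.exp_add, mul_one, div_eq_mul_inv]
        push_cast
        congr 3 <;> ring_nf
      rw [e4, Complex.im_mul_ofReal, Complex.sub_im, Complex.exp_ofReal_mul_I_im,
        Complex.exp_ofReal_mul_I_im, Real.sin_neg, Real.sin_neg]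
      unfold Psi
      rw [Sf_zero]
      field_simp
      ring_nf
    rw [e3, intervalIntegral.integral_sub (Psi_int _ _ _ _) (Psi_int _ _ _ _)]
    have := JT_zero (K := K) N
    unfold JT at this ⊢
    rw [this]
  have h3 : Tendsto (fun N : ℕ => π - JT N c) atTop (𝓝 0) := by
    refine (h2.congr fun N => ?_)
    exact key N
  have h4 := h3.const_sub π
  simpa using h4

/-- the trace of the tail -/
def TT (n : ℕ) (c : Fin K → ℝ) : ℝ := -(1 / 2) + (2 * π)⁻¹ * JT n c

theorem TT_eq (n : ℕ) (c : Fin K → ℝ)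
    (hs : Summable fun j : ℕ => bT c (2 * (n + j) + 2)) :
    -∑' j : ℕ, bT c (2 * (n + j) + 2) = TT n c := by
  have h1 := hs.hasSum.tendsto_sum_nat
  have h2 : Tendsto (fun N => ∑ j ∈ Finset.range N, bT c (2 * (n + j) + 2)) atTop
      (𝓝 ((2 * π)⁻¹ * (π - JT n c))) := by
    simp only [bT_sum]
    refine Tendsto.const_mul _ (Tendsto.sub_const ?_ _)
    exact (JT_tendsto c).comp (tendsto_atTop_mono (fun N => by omega : ∀ N : ℕ, N ≤ n + N) tendsto_id)
  have h3 := tendsto_nhds_unique h1 h2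
  rw [h3, TT]
  have := Real.pi_ne_zero
  field_simp
  ring

/-- limit of the partial sums, in the form of `FSz.Limit` -/
theorem tendsto_Ico (n : ℕ) (c : Fin K → ℝ) :
    Tendsto (fun N => ∑ j ∈ Finset.Ico n N, bT c (2 * j + 2)) atTop (𝓝 (-TT n c)) := by
  have h2 : Tendsto (fun N => (2 * π)⁻¹ * (JT N c - JT n c)) atTop
      (𝓝 ((2 * π)⁻¹ * (π - JT n c))) :=
    Tendsto.const_mul _ (Tendsto.sub_const (JT_tendsto c) _)
  have e : (2 * π)⁻¹ * (π - JT n c) = -TT n c := by
    unfold TT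
    have := Real.pi_ne_zero
    field_simp
    ring
  rw [← e]
  refine h2.congr' ?_
  filter_upwards [eventually_ge_atTop n] with N hN
  obtain ⟨M, rfl⟩ := Nat.exists_eq_add_of_le hN
  rw [← bT_sum, Finset.range_eq_Ico, Finset.sum_Ico_eq_sum_range, Finset.sum_Ico_eq_sum_range]
  simp

end

end Pool.Agent.FSz.Tau
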