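import Pool.Agent.FSz.TauN

/-!
# Good densities
-/

open MeasureTheory Set Filter Topology ProbabilityTheory
open scoped Real NNReal ENNReal

namespace Pool.Agent.FSz.Tau

noncomputable section

variable {K : ℕ}

theorem Psi1_flip (n : ℕ) (c : Fin K → ℝ) (x : ℝ) :
    Psi1 n (fun k => (-1) ^ ((k : ℕ) + 1) * c k) x = Psi1 n c (π - x) := by
  unfold Psi1
  congr 2
  refine Finset.sum_congr rfl fun k _ => ?_
  have h : ((k : ℕ) + 1 : ℝ) * (π - x) = ((k : ℕ) + 1 : ℕ) * π - ((k : ℕ) + 1 : ℝ) * x := by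
    push_cast; ring
  rw [h, Real.cos_nat_mul_pi_sub]
  ring

/-- the bound of the trace for a good density -/
def tG (P A R b b' B' : ℝ) : ℝ :=
  A / 4 + 1 + R / (4 * P ^ 2) * Real.log (1 + b * P) + 1 / 4 * Real.log (π / (2 * b)) +
    1 / 4 * Real.log (1 + b' * B') + 1 / 4 * Real.log (π / (2 * b'))

theorem sub_int {f : ℝ → ℝ} {a b c d : ℝ} (hf : IntervalIntegrable f volume a b) (hac : a ≤ c)
    (hcd : c ≤ d) (hdb : d ≤ b) : IntervalIntegrable f volume c d := by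
  refine hf.mono_set ?_
  rw [uIcc_of_le hcd, uIcc_of_le (by linarith)]
  exact Icc_subset_Icc hac hdb

theorem far_part (n : ℕ) (c : Fin K → ℝ) {b : ℝ} (hb0 : 0 < b) (hb : b ≤ π / 2) :
    (∫ x in b..(π / 2), Real.sin (Psi n c x) / Real.sin x) ≤ π / 2 * Real.log (π / (2 * b)) := by
  have h1 := log_part (g := fun x => Real.sin (Psi n c x) / Real.sin x) hb0 hb le_rfl
    (Psi_int n c b (π / 2)) fun x h1 h2 => by
      have hs := Real.sin_pos_of_pos_of_lt_pi (x := x) (by linarith) (by linarith [Real.pi_pos])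
      rw [abs_div, abs_of_pos hs, div_eq_mul_inv]
      exact mul_le_of_le_one_left (by positivity) (Real.abs_sin_le_one _)
  have h2 : π / (2 * b) = π / 2 / b := by field_simp
  rw [h2]
  refine le_trans ?_ h1
  exact int_le hb (Psi_int _ _ _ _) (Psi_int _ _ _ _).abs fun x _ _ => le_abs_self _

theorem TT_good (n : ℕ) (c : Fin K → ℝ) {P A R b b' B' : ℝ} (hP : 0 < P) (hb0 : 0 < b)
    (hb : b ≤ π / 2) (hb0' : 0 < b') (hb' : b' ≤ π / 2) (hR0 : 0 ≤ R) (hB' : 0 < B')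
    (hl : ∀ x, 0 ≤ x → x ≤ b → P ≤ Psi1 n c x) (hu : ∀ x, 0 ≤ x → x ≤ b → Psi1 n c x ≤ A * P)
    (hR : ∀ x, 0 ≤ x → x ≤ b → |Psi2 c x| ≤ R)
    (hf : ∀ x, 0 ≤ x → x ≤ b' → |Psi1 n c (π - x)| ≤ B') :
    TT n c ≤ tG P A R b b' B' := by
  have hpi := Real.pi_pos
  have h1 := good_zero (hasDerivAt_Psi n c) (hasDerivAt_Psi1 n c) (continuous_Psi2 c)
    (Psi_zero n c) hP hb0 hb hR0 hl hu hR (Psi_int n c 0 b)
  have h2 := far_part n c hb0 hb
  set d : Fin K → ℝ := fun k => (-1) ^ ((k : ℕ) + 1) * c k with hd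
  have h3 := far_part n d hb0' hb'
  have h4 : (∫ x in (0 : ℝ)..b', Real.sin (Psi n d x) / Real.sin x) ≤
      π / 2 + π / 2 * Real.log (1 + b' * B') := by
    have h5 := near_zero (f := fun x => Real.sin (Psi n d x)) (b := b') (B := B') hb0' hb' hB'
      (Psi_int n d 0 b') (fun x _ _ => Real.abs_sin_le_one _) fun x h6 h7 => by
        refine Real.abs_sin_le_abs.trans ?_
        have h8 : Psi n d x = ∫ y in (0 : ℝ)..x, Psi1 n d y := by
          have hc : Continuous (Psi1 n d) :=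
            continuous_iff_continuousAt.2 fun y => (hasDerivAt_Psi1 n d y).continuousAt
          rw [intervalIntegral.integral_eq_sub_of_hasDerivAt (fun y _ => hasDerivAt_Psi n d y)
            (hc.intervalIntegrable _ _), Psi_zero, sub_zero]
        rw [h8, ← Real.norm_eq_abs]
        have h9 := intervalIntegral.norm_integral_le_of_norm_le_const (a := 0) (b := x)
          (f := Psi1 n d) (C := B') fun y hy => by
            rw [uIoc_of_le h6.le] at hy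
            rw [Real.norm_eq_abs, hd, Psi1_flip]
            exact hf y hy.1.le (by linarith [hy.2])
        rwa [sub_zero, abs_of_pos h6] at h9
    refine le_trans ?_ h5
    exact int_le hb0'.le (Psi_int _ _ _ _) (Psi_int _ _ _ _).abs fun x _ _ => le_abs_self _
  have h5 : JT n c ≤ (π / 2 * A + π + π ^ 2 / 4 + π * R / (2 * P ^ 2) * Real.log (1 + b * P)) +
      π / 2 * Real.log (π / (2 * b)) + ((π / 2 + π / 2 * Real.log (1 + b' * B')) +
      π / 2 * Real.log (π / (2 * b'))) := by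
    rw [JT_split, ← intervalIntegral.integral_add_adjacent_intervals (Psi_int n c 0 b)
      (Psi_int n c b (π / 2)), ← intervalIntegral.integral_add_adjacent_intervals
      (Psi_int n d 0 b') (Psi_int n d b' (π / 2))]
    linarith
  unfold TT tG
  have h6 : (2 * π)⁻¹ * JT n c ≤ (2 * π)⁻¹ * ((π / 2 * A + π + π ^ 2 / 4 +
      π * R / (2 * P ^ 2) * Real.log (1 + b * P)) +
      π / 2 * Real.log (π / (2 * b)) + ((π / 2 + π / 2 * Real.log (1 + b' * B')) +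
      π / 2 * Real.log (π / (2 * b')))) := by gcongr
  have h7 : (2 * π)⁻¹ * ((π / 2 * A + π + π ^ 2 / 4 +
      π * R / (2 * P ^ 2) * Real.log (1 + b * P)) +
      π / 2 * Real.log (π / (2 * b)) + ((π / 2 + π / 2 * Real.log (1 + b' * B')) +
      π / 2 * Real.log (π / (2 * b')))) = A / 4 + 1 / 2 + π / 8 + 1 / 4 +
      R / (4 * P ^ 2) * Real.log (1 + b * P) + 1 / 4 * Real.log (π / (2 * b)) +
      1 / 4 * Real.log (1 + b' * B') + 1 / 4 * Real.log (π / (2 * b')) := by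
    field_simp
    ring
  have h8 : π < 3.15 := Real.pi_lt_d2
  linarith

theorem abs_Psi1_add (n : ℕ) (c d : Fin K → ℝ) (x : ℝ) :
    |Psi1 n (fun k => c k + d k) x - Psi1 n c x| ≤ 2 * ∑ k : Fin K, ((k : ℕ) + 1 : ℝ) ^ 2 * |d k| := by
  have e : Psi1 n (fun k => c k + d k) x - Psi1 n c x =
      2 * ∑ k : Fin K, ((k : ℕ) + 1 : ℝ) * d k * Real.cos (((k : ℕ) + 1 : ℝ) * x) := by
    unfold Psi1
    have h : ∑ k : Fin K, ((k : ℕ) + 1 : ℝ) * (c k + d k) * Real.cos (((k : ℕ) + 1 : ℝ) * x) =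
        ∑ k : Fin K, ((k : ℕ) + 1 : ℝ) * c k * Real.cos (((k : ℕ) + 1 : ℝ) * x) +
        ∑ k : Fin K, ((k : ℕ) + 1 : ℝ) * d k * Real.cos (((k : ℕ) + 1 : ℝ) * x) := by
      rw [← Finset.sum_add_distrib]
      exact Finset.sum_congr rfl fun k _ => by ring
    rw [h]
    ring
  rw [e, abs_mul, abs_of_pos (by norm_num : (0:ℝ) < 2)]
  gcongr
  refine (Finset.abs_sum_le_sum_abs _ _).trans (Finset.sum_le_sum fun k _ => ?_)
  have hk : (1 : ℝ) ≤ ((k : ℕ) + 1 : ℝ) := by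
    have : (0:ℝ) ≤ ((k : ℕ) : ℝ) := Nat.cast_nonneg _
    linarith
  have h1 := Real.abs_cos_le_one (((k : ℕ) + 1 : ℝ) * x)
  rw [abs_mul, abs_mul, abs_of_nonneg (by linarith : (0:ℝ) ≤ ((k : ℕ) + 1 : ℝ))]
  calc ((k : ℕ) + 1 : ℝ) * |d k| * |Real.cos (((k : ℕ) + 1 : ℝ) * x)| ≤
      ((k : ℕ) + 1 : ℝ) * |d k| * 1 := by gcongr
    _ ≤ ((k : ℕ) + 1 : ℝ) ^ 2 * |d k| := by
      have := abs_nonneg (d k)
      nlinarith [mul_nonneg this (by linarith : (0:ℝ) ≤ ((k : ℕ) : ℝ))]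

theorem abs_Psi2_add (c d : Fin K → ℝ) (x : ℝ) :
    |Psi2 (fun k => c k + d k) x - Psi2 c x| ≤ 2 * ∑ k : Fin K, ((k : ℕ) + 1 : ℝ) ^ 2 * |d k| := by
  have e : Psi2 (fun k => c k + d k) x - Psi2 c x =
      -(2 * ∑ k : Fin K, ((k : ℕ) + 1 : ℝ) ^ 2 * d k * Real.sin (((k : ℕ) + 1 : ℝ) * x)) := by
    unfold Psi2
    have h : ∑ k : Fin K, ((k : ℕ) + 1 : ℝ) ^ 2 * (c k + d k) * Real.sin (((k : ℕ) + 1 : ℝ) * x) =
        ∑ k : Fin K, ((k : ℕ) + 1 : ℝ) ^ 2 * c k * Real.sin (((k : ℕ) + 1 : ℝ) * x) +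
        ∑ k : Fin K, ((k : ℕ) + 1 : ℝ) ^ 2 * d k * Real.sin (((k : ℕ) + 1 : ℝ) * x) := by
      rw [← Finset.sum_add_distrib]
      exact Finset.sum_congr rfl fun k _ => by ring
    rw [h]
    ring
  rw [e, abs_neg, abs_mul, abs_of_pos (by norm_num : (0:ℝ) < 2)]
  gcongr
  refine (Finset.abs_sum_le_sum_abs _ _).trans (Finset.sum_le_sum fun k _ => ?_)
  have h1 := Real.abs_sin_le_one (((k : ℕ) + 1 : ℝ) * x)
  rw [abs_mul, abs_mul, abs_of_nonneg (by positivity : (0:ℝ) ≤ ((k : ℕ) + 1 : ℝ) ^ 2)]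
  exact mul_le_of_le_one_right (by positivity) h1

/-- good density plus a small smooth field -/
theorem TT_good_add (n : ℕ) (c d : Fin K → ℝ) {P A R b b' B' X : ℝ} (hP : 0 < P) (hb0 : 0 < b)
    (hb : b ≤ π / 2) (hb0' : 0 < b') (hb' : b' ≤ π / 2) (hR0 : 0 ≤ R) (hB' : 0 < B')
    (hl : ∀ x, 0 ≤ x → x ≤ b → P ≤ Psi1 n c x) (hu : ∀ x, 0 ≤ x → x ≤ b → Psi1 n c x ≤ A * P)
    (hR : ∀ x, 0 ≤ x → x ≤ b → |Psi2 c x| ≤ R)
    (hf : ∀ x, 0 ≤ x → x ≤ b' → |Psi1 n c (π - x)| ≤ B')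
    (hd : ∑ k : Fin K, ((k : ℕ) + 1 : ℝ) ^ 2 * |d k| ≤ X) (hX : 4 * X ≤ P) :
    TT n (fun k => c k + d k) ≤ tG (P / 2) (2 * A + 1) (R + 2 * X) b b' (B' + 2 * X) := by
  have hX0 : 0 ≤ X := (Finset.sum_nonneg fun k _ => by positivity).trans hd
  have h1 : ∀ x, |Psi1 n (fun k => c k + d k) x - Psi1 n c x| ≤ 2 * X := fun x =>
    (abs_Psi1_add n c d x).trans (by linarith)
  have h2 : ∀ x, |Psi2 (fun k => c k + d k) x - Psi2 c x| ≤ 2 * X := fun x =>
    (abs_Psi2_add c d x).trans (by linarith)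
  refine TT_good n _ (by positivity) hb0 hb hb0' hb' (by positivity) (by positivity)
    (fun x h3 h4 => ?_) (fun x h3 h4 => ?_) (fun x h3 h4 => ?_) fun x h3 h4 => ?_
  · have h5 := abs_le.1 (h1 x)
    have h6 := hl x h3 h4
    linarith [h5.1]
  · have h5 := abs_le.1 (h1 x)
    have h6 := hu x h3 h4
    nlinarith [h5.2]
  · have h5 := hR x h3 h4
    have h6 := h2 x
    have h7 := abs_sub_abs_le_abs_sub (Psi2 (fun k => c k + d k) x) (Psi2 c x)
    linarith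
  · have h5 := hf x h3 h4
    have h6 := h1 (π - x)
    have h7 := abs_sub_abs_le_abs_sub (Psi1 n (fun k => c k + d k) (π - x)) (Psi1 n c (π - x))
    linarith

end

end Pool.Agent.FSz.Tau
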