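import Pool.Agent.FSz.TauC

/-!
# Gaussian average of the tail trace
-/

open MeasureTheory Set Filter Topology ProbabilityTheory
open scoped Real NNReal ENNReal

namespace Pool.Agent.FSz.Tau

noncomputable section

variable {K : ℕ}

theorem Sf_smul_sum (d : Fin K → ℝ) (x : ℝ) :
    Sf d x = ∑ k : Fin K, Real.sin (((k : ℕ) + 1 : ℝ) * x) * d k :=
  Finset.sum_congr rfl fun k _ => by ring

/-- mass of the middle part -/
def Mq (q : ℝ) : ℝ := π⁻¹ * ∫ x in q..(π - q), (Real.sin x)⁻¹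

theorem sin_inv_cont {q : ℝ} (hq : 0 < q) : ContinuousOn (fun x => (Real.sin x)⁻¹) (Icc q (π - q)) := by
  refine Real.continuous_sin.continuousOn.inv₀ fun x hx => ?_
  exact (Real.sin_pos_of_pos_of_lt_pi (by linarith [hx.1]) (by linarith [hx.2])).ne'

theorem sin_inv_int {q a b : ℝ} (hq : 0 < q) (ha : q ≤ a) (hab : a ≤ b) (hb : b ≤ π - q) :
    IntervalIntegrable (fun x => (Real.sin x)⁻¹) volume a b := by
  refine ContinuousOn.intervalIntegrable ?_
  rw [uIcc_of_le hab]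
  exact (sin_inv_cont hq).mono (Icc_subset_Icc ha hb)

theorem Mq_pos {q : ℝ} (hq : 0 < q) (hq2 : q < π / 2) : 0 < Mq q := by
  have hpi := Real.pi_pos
  unfold Mq
  have h : 0 < ∫ x in q..(π - q), (Real.sin x)⁻¹ := by
    refine intervalIntegral.intervalIntegral_pos_of_pos_on
      (sin_inv_int hq le_rfl (by linarith) le_rfl) (fun x hx => ?_) (by linarith)
    exact inv_pos.2 (Real.sin_pos_of_pos_of_lt_pi (by linarith [hx.1]) (by linarith [hx.2]))
  positivity

theorem Mq_le {q : ℝ} (hq : 0 < q) (hq2 : q < π / 2) : Mq q ≤ Real.log (π / (2 * q)) := by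
  have hpi := Real.pi_pos
  have h1 : (∫ x in q..(π - q), (Real.sin x)⁻¹) = 2 * ∫ x in q..(π / 2), (Real.sin x)⁻¹ := by
    rw [← intervalIntegral.integral_add_adjacent_intervals
      (sin_inv_int hq le_rfl hq2.le (by linarith))
      (sin_inv_int (a := π / 2) hq hq2.le (by linarith) le_rfl)]
    have h := intervalIntegral.integral_comp_sub_left (a := q) (b := π / 2)
      (fun x => (Real.sin x)⁻¹) π
    rw [show π - π / 2 = π / 2 by ring] at h
    rw [← h]
    simp only [Real.sin_pi_sub]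
    ring
  have h2 : (∫ x in q..(π / 2), (Real.sin x)⁻¹) ≤ π / 2 * Real.log (π / 2 / q) := by
    have hi := sin_inv_int hq le_rfl hq2.le (by linarith)
    have h3 := log_part (g := fun x => (Real.sin x)⁻¹) hq hq2.le le_rfl hi fun x h4 h5 => by
        have hs := Real.sin_pos_of_pos_of_lt_pi (x := x) (by linarith) (by linarith)
        rw [abs_of_pos (inv_pos.2 hs)]
    refine le_trans ?_ h3
    exact int_le hq2.le hi hi.abs fun x _ _ => le_abs_self _
  unfold Mq
  rw [h1]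
  have h3 : π / (2 * q) = π / 2 / q := by field_simp
  rw [h3]
  calc π⁻¹ * (2 * ∫ x in q..(π / 2), (Real.sin x)⁻¹) ≤
      π⁻¹ * (2 * (π / 2 * Real.log (π / 2 / q))) := by gcongr
    _ = _ := by field_simp

/-- Jensen's inequality for the middle part -/
theorem jensen {φ : ℝ → ℝ} (hφ : Continuous φ) {q : ℝ} (hq : 0 < q) (hq2 : q < π / 2) :
    Real.exp (π⁻¹ * ∫ x in q..(π - q), φ x * (Real.sin x)⁻¹) ≤
      (Mq q)⁻¹ * (π⁻¹ * ∫ x in q..(π - q), Real.exp (Mq q * φ x) * (Real.sin x)⁻¹) := by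
  have hpi := Real.pi_pos
  have hM := Mq_pos hq hq2
  set M := Mq q with hMd
  set a := π⁻¹ * ∫ x in q..(π - q), φ x * (Real.sin x)⁻¹ with ha
  have hab : q ≤ π - q := by linarith
  have hci : ∀ f : ℝ → ℝ, Continuous f →
      IntervalIntegrable (fun x => f x * (Real.sin x)⁻¹) volume q (π - q) := by
    intro f hf
    refine ContinuousOn.intervalIntegrable ?_
    rw [uIcc_of_le hab]
    exact hf.continuousOn.mul (sin_inv_cont hq)
  have h1 : (∫ x in q..(π - q), Real.exp a * (1 + M * φ x - a) * (Real.sin x)⁻¹) ≤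
      ∫ x in q..(π - q), Real.exp (M * φ x) * (Real.sin x)⁻¹ := by
    refine int_le hab (hci _ (by fun_prop)) (hci _ (by fun_prop)) fun x h2 h3 => ?_
    have hs := Real.sin_pos_of_pos_of_lt_pi (x := x) (by linarith) (by linarith)
    have h4 : Real.exp a * (1 + M * φ x - a) ≤ Real.exp (M * φ x) := by
      have h5 := Real.add_one_le_exp (M * φ x - a)
      calc Real.exp a * (1 + M * φ x - a) ≤ Real.exp a * Real.exp (M * φ x - a) := by
            gcongr
            linarith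
        _ = _ := by rw [← Real.exp_add]; congr 1; ring
    have : 0 ≤ (Real.sin x)⁻¹ := (inv_pos.2 hs).le
    gcongr
  have h2 : (∫ x in q..(π - q), Real.exp a * (1 + M * φ x - a) * (Real.sin x)⁻¹) =
      Real.exp a * (1 - a) * (π * M) + Real.exp a * M * (π * a) := by
    have e : ∀ x, Real.exp a * (1 + M * φ x - a) * (Real.sin x)⁻¹ =
        Real.exp a * (1 - a) * (Real.sin x)⁻¹ + Real.exp a * M * (φ x * (Real.sin x)⁻¹) := by
      intro x; ring
    simp only [e]
    rw [intervalIntegral.integral_add ((sin_inv_int hq le_rfl hab le_rfl).const_mul _)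
      ((hci φ hφ).const_mul _), intervalIntegral.integral_const_mul,
      intervalIntegral.integral_const_mul]
    have e1 : (∫ x in q..(π - q), (Real.sin x)⁻¹) = π * M := by
      rw [hMd, Mq]
      field_simp
    have e2 : (∫ x in q..(π - q), φ x * (Real.sin x)⁻¹) = π * a := by
      rw [ha]
      field_simp
    rw [e1, e2]
  have h3 : Real.exp a * (1 - a) * (π * M) + Real.exp a * M * (π * a) = Real.exp a * (π * M) := by
    ring
  rw [h2, h3] at h1
  have h4 : Real.exp a = M⁻¹ * (π⁻¹ * (Real.exp a * (π * M))) := by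
    field_simp
  rw [h4]
  gcongr

theorem sum_inv_sq_le (p0 K : ℕ) (hp0 : 1 ≤ p0) :
    ∑ k ∈ Finset.range K, (if k < p0 then (0 : ℝ) else 1 / ((k : ℝ) + 1) ^ 2) ≤ 1 / p0 := by
  have hp : (0 : ℝ) < p0 := by exact_mod_cast (by omega : 0 < p0)
  have key : ∀ K : ℕ, ∑ k ∈ Finset.range K, (if k < p0 then (0 : ℝ) else 1 / ((k : ℝ) + 1) ^ 2) ≤
      1 / p0 - if K ≤ p0 then (1 / p0 : ℝ) else 1 / K := by
    intro K
    induction K with
    | zero => simp
    | succ K ih =>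
      rw [Finset.sum_range_succ]
      by_cases h : K < p0
      · rw [if_pos h, if_pos (by omega)]
        rw [if_pos (by omega)] at ih
        linarith
      · rw [if_neg h, if_neg (by omega)]
        push Not at h
        have hK : (0 : ℝ) < K := by exact_mod_cast (by omega : 0 < K)
        have h6 : (if K ≤ p0 then (1 / p0 : ℝ) else 1 / K) = 1 / K := by
          split_ifs with h7
          · rw [le_antisymm h7 h]
          · rfl
        rw [h6] at ih
        have h4 : 1 / ((K : ℝ) + 1) ^ 2 ≤ 1 / (K : ℝ) - 1 / ((K : ℝ) + 1) := by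
          rw [div_sub_div _ _ hK.ne' (by positivity), div_le_div_iff₀ (by positivity) (by positivity)]
          nlinarith
        push_cast
        linarith
  have h := key K
  have : 0 ≤ if K ≤ p0 then (1 / p0 : ℝ) else 1 / K := by split_ifs <;> positivity
  linarith

/-- the high modes -/
def hi (p0 : ℕ) (x : Fin K → ℝ) (k : Fin K) : ℝ := if (k : ℕ) < p0 then 0 else x k

/-- the low modes -/
def lo (p0 : ℕ) (x : Fin K → ℝ) (k : Fin K) : ℝ := if (k : ℕ) < p0 then x k else 0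

theorem lo_add_hi (p0 : ℕ) (x : Fin K → ℝ) (k : Fin K) : lo p0 x k + hi p0 x k = x k := by
  unfold lo hi
  split_ifs <;> ring

theorem abs_hi_le (p0 : ℕ) (x : Fin K → ℝ) (k : Fin K) : |hi p0 x k| ≤ |x k| := by
  unfold hi
  split_ifs
  · rw [abs_zero]; exact abs_nonneg _
  · exact le_rfl

/-- splitting of the size of a perturbation -/
theorem eT_le (d : Fin K → ℝ) {q : ℝ} (hq : 0 < q) (hq2 : q < π / 2) :
    eT d ≤ 2 * q / π * (∑ k : Fin K, ((k : ℕ) + 1 : ℝ) * |d k|) +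
      π⁻¹ * ∫ x in q..(π - q), |Sf d x| * (Real.sin x)⁻¹ := by
  have hpi := Real.pi_pos
  have hab : q ≤ π - q := by linarith
  set B := ∑ k : Fin K, ((k : ℕ) + 1 : ℝ) * |d k| with hB
  have h0 : (∫ x in (0 : ℝ)..π, |Sf d x / Real.sin x|) =
      (∫ x in (0 : ℝ)..q, |Sf d x / Real.sin x|) + (∫ x in q..(π - q), |Sf d x / Real.sin x|) +
      ∫ x in (π - q)..π, |Sf d x / Real.sin x| := by
    rw [intervalIntegral.integral_add_adjacent_intervals (Sf_int d _ _).abs (Sf_int d _ _).abs,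
      intervalIntegral.integral_add_adjacent_intervals (Sf_int d _ _).abs (Sf_int d _ _).abs]
  have h1 : (∫ x in (0 : ℝ)..q, |Sf d x / Real.sin x|) ≤ q * B := by
    have h := int_le hq.le (Sf_int d 0 q).abs (g := fun _ => B) (by simp)
      fun x _ _ => quot_le (abs_Sf_le d) x
    simpa using h
  have h2 : (∫ x in (π - q)..π, |Sf d x / Real.sin x|) ≤ q * B := by
    have h := int_le (a := π - q) (b := π) (by linarith) (Sf_int d _ _).abs (g := fun _ => B)
      (by simp) fun x _ _ => quot_le (abs_Sf_le d) x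
    simpa using h
  have h3 : (∫ x in q..(π - q), |Sf d x / Real.sin x|) =
      ∫ x in q..(π - q), |Sf d x| * (Real.sin x)⁻¹ := by
    refine congr_Ioo hab fun x h4 h5 => ?_
    have hs := Real.sin_pos_of_pos_of_lt_pi (x := x) (by linarith) (by linarith)
    rw [abs_div, abs_of_pos hs, div_eq_mul_inv]
  unfold eT
  rw [h0, h3]
  calc π⁻¹ * ((∫ x in (0 : ℝ)..q, |Sf d x / Real.sin x|) +
        (∫ x in q..(π - q), |Sf d x| * (Real.sin x)⁻¹) + ∫ x in (π - q)..π, |Sf d x / Real.sin x|) ≤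
      π⁻¹ * (q * B + (∫ x in q..(π - q), |Sf d x| * (Real.sin x)⁻¹) + q * B) := by gcongr
    _ = _ := by ring

/-- size of a deterministic perturbation -/
theorem eT_det (d : Fin K → ℝ) {q : ℝ} (hq : 0 < q) (hq2 : q < π / 2) :
    eT d ≤ 2 * q / π * (∑ k : Fin K, ((k : ℕ) + 1 : ℝ) * |d k|) +
      Real.log (π / (2 * q)) * ∑ k : Fin K, |d k| := by
  have hpi := Real.pi_pos
  have hab : q ≤ π - q := by linarith
  refine (eT_le d hq hq2).trans (add_le_add le_rfl ?_)
  have h1 : (∫ x in q..(π - q), |Sf d x| * (Real.sin x)⁻¹) ≤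
      ∫ x in q..(π - q), (∑ k : Fin K, |d k|) * (Real.sin x)⁻¹ := by
    refine int_le hab ?_ ((sin_inv_int hq le_rfl hab le_rfl).const_mul _) fun x h2 h3 => ?_
    · refine ContinuousOn.intervalIntegrable ?_
      rw [uIcc_of_le hab]
      exact (continuous_Sf d).abs.continuousOn.mul (sin_inv_cont hq)
    · have hs := Real.sin_pos_of_pos_of_lt_pi (x := x) (by linarith) (by linarith)
      have : 0 ≤ (Real.sin x)⁻¹ := (inv_pos.2 hs).le
      gcongr
      unfold Sf
      refine (Finset.abs_sum_le_sum_abs _ _).trans (Finset.sum_le_sum fun k _ => ?_)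
      rw [abs_mul]
      exact mul_le_of_le_one_right (abs_nonneg _) (Real.abs_sin_le_one _)
  rw [intervalIntegral.integral_const_mul] at h1
  have h2 := Mq_le hq hq2
  unfold Mq at h2
  have h3 : 0 ≤ ∑ k : Fin K, |d k| := Finset.sum_nonneg fun k _ => abs_nonneg _
  calc π⁻¹ * ∫ x in q..(π - q), |Sf d x| * (Real.sin x)⁻¹ ≤
      π⁻¹ * ((∑ k : Fin K, |d k|) * ∫ x in q..(π - q), (Real.sin x)⁻¹) := by gcongr
    _ = (π⁻¹ * ∫ x in q..(π - q), (Real.sin x)⁻¹) * ∑ k : Fin K, |d k| := by ring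
    _ ≤ _ := by gcongr

theorem continuous_Sf2 : Continuous fun z : (Fin K → ℝ) × ℝ => Sf z.1 z.2 := by
  unfold Sf
  fun_prop

theorem continuous_hi (p0 : ℕ) : Continuous (hi (K := K) p0) := by
  refine continuous_pi fun k => ?_
  unfold hi
  split_ifs <;> fun_prop

/-- middle part of the high modes -/
theorem hi_mid (v : ℕ → ℝ≥0) {D : ℝ} {p0 : ℕ} (hp0 : 1 ≤ p0)
    (hD : ∀ k, (v k : ℝ) ≤ D / ((k : ℝ) + 1) ^ 2) (K : ℕ) {q : ℝ} (hq : 0 < q) (hq2 : q < π / 2) :
    ∫⁻ x, ENNReal.ofReal (Real.exp (2 * (π⁻¹ * ∫ y in q..(π - q),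
      |Sf (hi p0 x) y| * (Real.sin y)⁻¹))) ∂(gam v K) ≤
      ENNReal.ofReal (2 * Real.exp (2 * (Real.log (π / (2 * q))) ^ 2 * D / p0)) := by
  have hpi := Real.pi_pos
  have hab : q ≤ π - q := by linarith
  have hM := Mq_pos hq hq2
  have hD0 : 0 ≤ D := by
    have := hD 0
    have h2 : (0 : ℝ) ≤ v 0 := (v 0).coe_nonneg
    simp only [Nat.cast_zero, zero_add, one_pow, div_one] at this
    linarith
  have hp0r : (0 : ℝ) < p0 := by exact_mod_cast (by omega : 0 < p0)
  set M := Mq q with hMd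
  -- pointwise Jensen
  have h1 : ∀ x : Fin K → ℝ, ENNReal.ofReal (Real.exp (2 * (π⁻¹ * ∫ y in q..(π - q),
      |Sf (hi p0 x) y| * (Real.sin y)⁻¹))) ≤
      ENNReal.ofReal (M⁻¹ * π⁻¹) * ∫⁻ y in Ioc q (π - q), ENNReal.ofReal
        (Real.exp |∑ k : Fin K, (2 * M * (if (k : ℕ) < p0 then 0 else
          Real.sin (((k : ℕ) + 1 : ℝ) * y))) * x k| * (Real.sin y)⁻¹) := by
    intro x
    have h2 := jensen (φ := fun y => 2 * |Sf (hi p0 x) y|)
      (by have := continuous_Sf (hi p0 x); fun_prop) hq hq2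
    have e1 : (∫ y in q..(π - q), 2 * |Sf (hi p0 x) y| * (Real.sin y)⁻¹) =
        2 * ∫ y in q..(π - q), |Sf (hi p0 x) y| * (Real.sin y)⁻¹ := by
      rw [← intervalIntegral.integral_const_mul]
      exact intervalIntegral.integral_congr fun y _ => by ring
    rw [e1, show π⁻¹ * (2 * ∫ y in q..(π - q), |Sf (hi p0 x) y| * (Real.sin y)⁻¹) =
      2 * (π⁻¹ * ∫ y in q..(π - q), |Sf (hi p0 x) y| * (Real.sin y)⁻¹) by ring] at h2
    have e2 : ∀ y : ℝ, Real.exp (Mq q * (2 * |Sf (hi p0 x) y|)) = Real.exp |∑ k : Fin K,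
        (2 * M * (if (k : ℕ) < p0 then 0 else Real.sin (((k : ℕ) + 1 : ℝ) * y))) * x k| := by
      intro y
      congr 1
      have e3 : ∑ k : Fin K, (2 * M * (if (k : ℕ) < p0 then 0 else
          Real.sin (((k : ℕ) + 1 : ℝ) * y))) * x k = 2 * M * Sf (hi p0 x) y := by
        unfold Sf hi
        rw [Finset.mul_sum]
        refine Finset.sum_congr rfl fun k _ => ?_
        split_ifs <;> ring
      rw [e3, abs_mul, abs_of_pos (by positivity : 0 < 2 * M)]
      ring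
    refine (ENNReal.ofReal_le_ofReal h2).trans (le_of_eq ?_)
    rw [← mul_assoc, ENNReal.ofReal_mul (by positivity), intervalIntegral.integral_of_le hab]
    congr 1
    rw [ofReal_integral_eq_lintegral_ofReal]
    · refine lintegral_congr fun y => ?_
      rw [e2]
    · have : ContinuousOn (fun y => Real.exp (Mq q * (2 * |Sf (hi p0 x) y|)) * (Real.sin y)⁻¹)
          (Icc q (π - q)) := by
        have hc := continuous_Sf (hi p0 x)
        exact (by fun_prop : Continuous fun y =>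
          Real.exp (Mq q * (2 * |Sf (hi p0 x) y|))).continuousOn.mul (sin_inv_cont hq)
      exact this.integrableOn_Icc.mono_set Ioc_subset_Icc_self
    · rw [Filter.EventuallyLE, ae_restrict_iff' measurableSet_Ioc]
      refine ae_of_all _ fun y hy => ?_
      have hs := Real.sin_pos_of_pos_of_lt_pi (x := y) (by linarith [hy.1]) (by linarith [hy.2])
      simp only [Pi.zero_apply]
      positivity
  refine (lintegral_mono h1).trans ?_
  have hmeas : Measurable fun z : (Fin K → ℝ) × ℝ => ENNReal.ofReal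
        (Real.exp |∑ k : Fin K, (2 * M * (if (k : ℕ) < p0 then 0 else
          Real.sin (((k : ℕ) + 1 : ℝ) * z.2))) * z.1 k| * (Real.sin z.2)⁻¹) := by
    refine ENNReal.measurable_ofReal.comp (Measurable.mul ?_ ?_)
    · have : Continuous fun z : (Fin K → ℝ) × ℝ => Real.exp |∑ k : Fin K,
          (2 * M * (if (k : ℕ) < p0 then 0 else Real.sin (((k : ℕ) + 1 : ℝ) * z.2))) * z.1 k| := by
        refine Real.continuous_exp.comp (continuous_abs.comp (continuous_finset_sum _ fun k _ => ?_))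
        split_ifs <;> fun_prop
      exact this.measurable
    · exact ((Real.measurable_sin.comp measurable_snd).inv)
  rw [lintegral_const_mul _ hmeas.lintegral_prod_right', lintegral_lintegral_swap hmeas.aemeasurable]
  -- the average at a fixed point
  have h2 : ∀ y, ∫⁻ x, ENNReal.ofReal (Real.exp |∑ k : Fin K, (2 * M * (if (k : ℕ) < p0 then 0 else
          Real.sin (((k : ℕ) + 1 : ℝ) * y))) * x k| * (Real.sin y)⁻¹) ∂(gam v K) ≤
      ENNReal.ofReal (2 * Real.exp (2 * (Real.log (π / (2 * q))) ^ 2 * D / p0)) *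
        ENNReal.ofReal ((Real.sin y)⁻¹) := by
    intro y
    have h3 : ∀ x : Fin K → ℝ, ENNReal.ofReal (Real.exp |∑ k : Fin K, (2 * M * (if (k : ℕ) < p0
        then 0 else Real.sin (((k : ℕ) + 1 : ℝ) * y))) * x k| * (Real.sin y)⁻¹) =
        ENNReal.ofReal (Real.exp |∑ k : Fin K, (2 * M * (if (k : ℕ) < p0
        then 0 else Real.sin (((k : ℕ) + 1 : ℝ) * y))) * x k|) * ENNReal.ofReal ((Real.sin y)⁻¹) :=
      fun x => ENNReal.ofReal_mul (Real.exp_pos _).le
    simp only [h3]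
    rw [lintegral_mul_const _ (by fun_prop)]
    gcongr
    refine (lint_abs_lin v _).trans (ENNReal.ofReal_le_ofReal
      (mul_le_mul_of_nonneg_left (Real.exp_le_exp.2 ?_) (by norm_num)))
    have h4 : ∑ k : Fin K, (2 * M * (if (k : ℕ) < p0 then 0 else
        Real.sin (((k : ℕ) + 1 : ℝ) * y))) ^ 2 * (v k : ℝ) ≤
        (2 * M) ^ 2 * D * ∑ k : Fin K, (if (k : ℕ) < p0 then (0 : ℝ) else 1 / (((k : ℕ) : ℝ) + 1) ^ 2) := by
      rw [Finset.mul_sum]
      refine Finset.sum_le_sum fun k _ => ?_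
      split_ifs with h5
      · simp
      · have h6 := hD k
        have h7 : Real.sin (((k : ℕ) + 1 : ℝ) * y) ^ 2 ≤ 1 := by
          have := Real.sin_sq_le_one (((k : ℕ) + 1 : ℝ) * y)
          exact this
        have h8 : (0 : ℝ) ≤ v k := (v k).coe_nonneg
        calc (2 * M * Real.sin (((k : ℕ) + 1 : ℝ) * y)) ^ 2 * (v k : ℝ) =
            (2 * M) ^ 2 * (Real.sin (((k : ℕ) + 1 : ℝ) * y) ^ 2 * (v k : ℝ)) := by ring
          _ ≤ (2 * M) ^ 2 * (1 * (D / (((k : ℕ) : ℝ) + 1) ^ 2)) := by gcongr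
          _ = _ := by ring
    have h5 : ∑ k : Fin K, (if (k : ℕ) < p0 then (0 : ℝ) else 1 / (((k : ℕ) : ℝ) + 1) ^ 2) ≤
        1 / p0 := by
      rw [Fin.sum_univ_eq_sum_range (fun k => if k < p0 then (0 : ℝ) else 1 / ((k : ℝ) + 1) ^ 2) K]
      exact sum_inv_sq_le p0 K hp0
    have h6 : M ^ 2 ≤ (Real.log (π / (2 * q))) ^ 2 := by
      have := Mq_le hq hq2
      gcongr
    calc (∑ k : Fin K, (2 * M * (if (k : ℕ) < p0 then 0 else
        Real.sin (((k : ℕ) + 1 : ℝ) * y))) ^ 2 * (v k : ℝ)) / 2 ≤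
        ((2 * M) ^ 2 * D * (1 / p0)) / 2 := by
          gcongr
          exact h4.trans (by gcongr)
      _ = 2 * M ^ 2 * D / p0 := by ring
      _ ≤ _ := by gcongr
  refine (mul_le_mul_right (lintegral_mono h2) _).trans ?_
  rw [lintegral_const_mul _ (by fun_prop)]
  have h3 : ∫⁻ y in Ioc q (π - q), ENNReal.ofReal ((Real.sin y)⁻¹) =
      ENNReal.ofReal (∫ y in q..(π - q), (Real.sin y)⁻¹) := by
    rw [intervalIntegral.integral_of_le hab, ofReal_integral_eq_lintegral_ofReal]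
    · exact (sin_inv_cont hq).integrableOn_Icc.mono_set Ioc_subset_Icc_self
    · rw [Filter.EventuallyLE, ae_restrict_iff' measurableSet_Ioc]
      refine ae_of_all _ fun y hy => ?_
      exact (inv_pos.2 (Real.sin_pos_of_pos_of_lt_pi (by linarith [hy.1]) (by linarith [hy.2]))).le
  rw [h3, mul_comm (ENNReal.ofReal (2 * _)), ← mul_assoc, ← ENNReal.ofReal_mul (by positivity)]
  have h4 : M⁻¹ * π⁻¹ * (∫ y in q..(π - q), (Real.sin y)⁻¹) = 1 := by
    have : π⁻¹ * (∫ y in q..(π - q), (Real.sin y)⁻¹) = M := rfl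
    rw [mul_assoc, this]
    exact inv_mul_cancel₀ hM.ne'
  rw [h4, ENNReal.ofReal_one, one_mul]

/-- ends of the high modes -/
theorem hi_ends (v : ℕ → ℝ≥0) {N : ℝ} (hN1 : 1 ≤ N) (K p0 : ℕ)
    (hN : ∑ k : Fin K, ((k : ℕ) + 1 : ℝ) * √(v k : ℝ) ≤ N) :
    ∫⁻ x, ENNReal.ofReal (Real.exp (2 * (2 * N⁻¹ / π *
      ∑ k : Fin K, ((k : ℕ) + 1 : ℝ) * |hi p0 x k|))) ∂(gam v K) ≤
      ENNReal.ofReal (Real.exp 3) := by
  have hpi := Real.pi_pos
  have hN0 : 0 < N := by linarith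
  have h1 : ∀ x : Fin K → ℝ, ENNReal.ofReal (Real.exp (2 * (2 * N⁻¹ / π *
      ∑ k : Fin K, ((k : ℕ) + 1 : ℝ) * |hi p0 x k|))) ≤
      ENNReal.ofReal (Real.exp (∑ k : Fin K, (4 * N⁻¹ / π * ((k : ℕ) + 1 : ℝ)) * |x k|)) := by
    intro x
    apply ENNReal.ofReal_le_ofReal
    apply Real.exp_le_exp.2
    have e : 2 * (2 * N⁻¹ / π * ∑ k : Fin K, ((k : ℕ) + 1 : ℝ) * |hi p0 x k|) =
        ∑ k : Fin K, (4 * N⁻¹ / π * ((k : ℕ) + 1 : ℝ)) * |hi p0 x k| := by
      rw [Finset.mul_sum, Finset.mul_sum]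
      exact Finset.sum_congr rfl fun k _ => by ring
    rw [e]
    refine Finset.sum_le_sum fun k _ => ?_
    have := abs_hi_le p0 x k
    gcongr
  refine (lintegral_mono h1).trans ((lint_abs_sum v _ fun k => by positivity).trans ?_)
  apply ENNReal.ofReal_le_ofReal
  apply Real.exp_le_exp.2
  set S := ∑ k : Fin K, ((k : ℕ) + 1 : ℝ) * √(v k : ℝ) with hS
  have hS0 : 0 ≤ S := Finset.sum_nonneg fun k _ => by positivity
  have e1 : ∑ k : Fin K, 4 * N⁻¹ / π * ((k : ℕ) + 1 : ℝ) * √(v k : ℝ) = 4 * N⁻¹ / π * S := by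
    rw [hS, Finset.mul_sum]
    exact Finset.sum_congr rfl fun k _ => by ring
  have e2 : ∑ k : Fin K, (4 * N⁻¹ / π * ((k : ℕ) + 1 : ℝ) * √(v k : ℝ)) ^ 2 ≤
      (4 * N⁻¹ / π * S) ^ 2 := by
    rw [← e1]
    exact Finset.sum_sq_le_sq_sum_of_nonneg fun k _ => by positivity
  have e3 : 4 * N⁻¹ / π * S ≤ 4 / π := by
    calc 4 * N⁻¹ / π * S ≤ 4 * N⁻¹ / π * N := by gcongr
      _ = _ := by field_simp
  have e4 : 4 / π ≤ 1.28 := by
    rw [div_le_iff₀ hpi]
    have := Real.pi_gt_d2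
    linarith
  have e5 : 0 ≤ 4 * N⁻¹ / π * S := by positivity
  have e6 : (4 * N⁻¹ / π * S) ^ 2 ≤ 1.28 ^ 2 := by
    gcongr
    linarith
  rw [e1]
  have e7 : (1.28 : ℝ) ^ 2 = 1.6384 := by norm_num
  linarith

/-- average over the high modes -/
theorem hi_avg (v : ℕ → ℝ≥0) {D N : ℝ} {p0 : ℕ} (hp0 : 1 ≤ p0) (hN1 : 1 ≤ N)
    (hD : ∀ k, (v k : ℝ) ≤ D / ((k : ℝ) + 1) ^ 2) (K : ℕ)
    (hN : ∑ k : Fin K, ((k : ℕ) + 1 : ℝ) * √(v k : ℝ) ≤ N) :
    ∫⁻ x, ENNReal.ofReal (Real.exp (eT (hi p0 x))) ∂(gam v K) ≤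
      ENNReal.ofReal (Real.exp (3 + 2 * (Real.log (π / 2 * N)) ^ 2 * D / p0)) := by
  have hpi := Real.pi_gt_three
  have hN0 : 0 < N := by linarith
  have hq : 0 < N⁻¹ := by positivity
  have hq2 : N⁻¹ < π / 2 := by
    have : N⁻¹ ≤ 1 := inv_le_one_of_one_le₀ hN1
    linarith
  have hD0 : 0 ≤ D := by
    have := hD 0
    have h2 : (0 : ℝ) ≤ v 0 := (v 0).coe_nonneg
    simp only [Nat.cast_zero, zero_add, one_pow, div_one] at this
    linarith
  have e0 : π / (2 * N⁻¹) = π / 2 * N := by field_simp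
  have h1 := hi_ends v hN1 K p0 hN
  have h2 := hi_mid v hp0 hD K hq hq2
  rw [e0] at h2
  have h3 : ∀ x : Fin K → ℝ, ENNReal.ofReal (Real.exp (eT (hi p0 x))) ≤
      ENNReal.ofReal (1 / 2) * (ENNReal.ofReal (Real.exp (2 * (2 * N⁻¹ / π *
      ∑ k : Fin K, ((k : ℕ) + 1 : ℝ) * |hi p0 x k|))) +
      ENNReal.ofReal (Real.exp (2 * (π⁻¹ * ∫ y in N⁻¹..(π - N⁻¹),
      |Sf (hi p0 x) y| * (Real.sin y)⁻¹)))) := by
    intro x
    rw [← ENNReal.ofReal_add (Real.exp_pos _).le (Real.exp_pos _).le,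
      ← ENNReal.ofReal_mul (by norm_num)]
    apply ENNReal.ofReal_le_ofReal
    have h4 := eT_le (hi p0 x) hq hq2
    set a := 2 * N⁻¹ / π * ∑ k : Fin K, ((k : ℕ) + 1 : ℝ) * |hi p0 x k| with ha
    set b := π⁻¹ * ∫ y in N⁻¹..(π - N⁻¹), |Sf (hi p0 x) y| * (Real.sin y)⁻¹ with hb
    calc Real.exp (eT (hi p0 x)) ≤ Real.exp (a + b) := Real.exp_le_exp.2 h4
      _ = Real.exp a * Real.exp b := Real.exp_add _ _
      _ ≤ 1 / 2 * (Real.exp (2 * a) + Real.exp (2 * b)) := by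
        have e1 : Real.exp (2 * a) = Real.exp a ^ 2 := by rw [← Real.exp_nat_mul]; norm_num
        have e2 : Real.exp (2 * b) = Real.exp b ^ 2 := by rw [← Real.exp_nat_mul]; norm_num
        rw [e1, e2]
        nlinarith [sq_nonneg (Real.exp a - Real.exp b)]
  refine (lintegral_mono h3).trans ?_
  have hm1 : Measurable fun x : Fin K → ℝ => ENNReal.ofReal (Real.exp (2 * (2 * N⁻¹ / π *
      ∑ k : Fin K, ((k : ℕ) + 1 : ℝ) * |hi p0 x k|))) := by
    have : Continuous fun x : Fin K → ℝ => 2 * (2 * N⁻¹ / π *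
      ∑ k : Fin K, ((k : ℕ) + 1 : ℝ) * |hi p0 x k|) := by
      have h4 : ∀ k : Fin K, Continuous fun x : Fin K → ℝ => hi p0 x k := fun k =>
        (continuous_apply k).comp (continuous_hi p0)
      fun_prop
    exact (Real.continuous_exp.comp this).measurable.ennreal_ofReal
  rw [lintegral_const_mul' _ _ ENNReal.ofReal_ne_top, lintegral_add_left hm1]
  refine (mul_le_mul_right (add_le_add h1 h2) _).trans ?_
  rw [← ENNReal.ofReal_add (Real.exp_pos _).le (by positivity), ← ENNReal.ofReal_mul (by norm_num)]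
  apply ENNReal.ofReal_le_ofReal
  set y := 2 * (Real.log (π / 2 * N)) ^ 2 * D / p0 with hy
  have hy0 : 0 ≤ y := by positivity
  have e1 : Real.exp (3 + y) = Real.exp 3 * Real.exp y := Real.exp_add _ _
  have e2 : 1 ≤ Real.exp y := Real.one_le_exp hy0
  have e3 : (2 : ℝ) ≤ Real.exp 3 := by
    have := Real.add_one_le_exp (3 : ℝ)
    linarith
  have e4 : 0 < Real.exp 3 := Real.exp_pos _
  rw [e1]
  nlinarith

/-- weights of the crude part -/
def gw (N : ℝ) (p0 : ℕ) (k : ℕ) : ℝ :=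
  π / N * ((k : ℝ) + 1) + if k < p0 then ((k : ℝ) + 1) ^ 2 else 0

theorem gw_nonneg {N : ℝ} (hN : 0 < N) (p0 k : ℕ) : 0 ≤ gw N p0 k := by
  unfold gw
  have := Real.pi_pos
  split_ifs <;> positivity

theorem sum_low (K p0 : ℕ) (r : ℕ) (hp : 1 ≤ r) :
    ∑ k : Fin K, (if (k : ℕ) < p0 then (((k : ℕ) : ℝ) + 1) ^ r else 0) ≤ (p0 : ℝ) ^ (r + 1) := by
  rw [Fin.sum_univ_eq_sum_range (fun k => if k < p0 then ((k : ℝ) + 1) ^ r else 0) K]
  have h1 : ∑ k ∈ Finset.range K, (if k < p0 then ((k : ℝ) + 1) ^ r else 0) ≤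
      ∑ k ∈ Finset.range K, (if k < p0 then (p0 : ℝ) ^ r else 0) := by
    refine Finset.sum_le_sum fun k _ => ?_
    split_ifs with h
    · have : (k : ℝ) + 1 ≤ p0 := by exact_mod_cast h
      gcongr
    · exact le_rfl
  refine h1.trans ?_
  rw [← Finset.sum_filter, Finset.sum_const, nsmul_eq_mul]
  have h2 : ((Finset.range K).filter (fun k => k < p0)).card ≤ p0 := by
    calc ((Finset.range K).filter (fun k => k < p0)).card ≤ (Finset.range p0).card := by
          apply Finset.card_le_card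
          intro k hk
          simp only [Finset.mem_filter, Finset.mem_range] at hk ⊢
          exact hk.2
      _ = p0 := Finset.card_range _
  have h3 : (((Finset.range K).filter (fun k => k < p0)).card : ℝ) ≤ p0 := by exact_mod_cast h2
  calc (((Finset.range K).filter (fun k => k < p0)).card : ℝ) * (p0 : ℝ) ^ r ≤ p0 * (p0 : ℝ) ^ r := by
        gcongr
    _ = _ := by ring

/-- average of the crude part -/
theorem gw_avg (v : ℕ → ℝ≥0) {D N : ℝ} (p0 : ℕ) (hN1 : 1 ≤ N)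
    (hD : ∀ k, (v k : ℝ) ≤ D / ((k : ℝ) + 1) ^ 2) (K : ℕ)
    (hN : ∑ k : Fin K, ((k : ℕ) + 1 : ℝ) * √(v k : ℝ) ≤ N) :
    ∫⁻ x, ENNReal.ofReal (Real.exp (∑ k : Fin K, gw N p0 k * |x k|)) ∂(gam v K) ≤
      ENNReal.ofReal (Real.exp (15 + 3 / 2 * √D * (p0 : ℝ) ^ 2 + D * (p0 : ℝ) ^ 3)) := by
  have hpi := Real.pi_pos
  have hN0 : 0 < N := by linarith
  have hD0 : 0 ≤ D := by
    have := hD 0
    have h2 : (0 : ℝ) ≤ v 0 := (v 0).coe_nonneg
    simp only [Nat.cast_zero, zero_add, one_pow, div_one] at this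
    linarith
  refine (lint_abs_sum v _ fun k => gw_nonneg hN0 p0 k).trans ?_
  apply ENNReal.ofReal_le_ofReal
  apply Real.exp_le_exp.2
  set S := ∑ k : Fin K, ((k : ℕ) + 1 : ℝ) * √(v k : ℝ) with hS
  have hS0 : 0 ≤ S := Finset.sum_nonneg fun k _ => by positivity
  have hsq : ∀ k : ℕ, √(v k : ℝ) ≤ √D / ((k : ℝ) + 1) := by
    intro k
    rw [Real.sqrt_le_left (by positivity), div_pow, Real.sq_sqrt hD0]
    exact hD k
  have e1 : ∑ k : Fin K, gw N p0 k * √(v k : ℝ) ≤ π + √D * (p0 : ℝ) ^ 2 := by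
    have h1 : ∀ k : Fin K, gw N p0 k * √(v k : ℝ) ≤ π / N * ((((k : ℕ) : ℝ) + 1) * √(v k : ℝ)) +
        √D * (if (k : ℕ) < p0 then (((k : ℕ) : ℝ) + 1) ^ 1 else 0) := by
      intro k
      unfold gw
      have h2 := hsq k
      split_ifs with h
      · have h3 : (((k : ℕ) : ℝ) + 1) ^ 2 * √(v k : ℝ) ≤ √D * (((k : ℕ) : ℝ) + 1) ^ 1 := by
          calc (((k : ℕ) : ℝ) + 1) ^ 2 * √(v k : ℝ) ≤
              (((k : ℕ) : ℝ) + 1) ^ 2 * (√D / (((k : ℕ) : ℝ) + 1)) := by gcongr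
            _ = _ := by field_simp
        linarith
      · linarith
    refine (Finset.sum_le_sum fun k _ => h1 k).trans ?_
    rw [Finset.sum_add_distrib, ← Finset.mul_sum, ← Finset.mul_sum]
    have h2 := sum_low K p0 1 le_rfl
    have h3 : π / N * S ≤ π := by
      calc π / N * S ≤ π / N * N := by gcongr
        _ = _ := by field_simp
    have h4 : √D * ∑ k : Fin K, (if (k : ℕ) < p0 then (((k : ℕ) : ℝ) + 1) ^ 1 else 0) ≤
        √D * (p0 : ℝ) ^ 2 := by gcongr
    linarith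
  have e2 : ∑ k : Fin K, (gw N p0 k * √(v k : ℝ)) ^ 2 ≤ 2 * π ^ 2 + 2 * (D * (p0 : ℝ) ^ 3) := by
    have h1 : ∀ k : Fin K, (gw N p0 k * √(v k : ℝ)) ^ 2 ≤
        2 * (π / N * ((((k : ℕ) : ℝ) + 1) * √(v k : ℝ))) ^ 2 +
        2 * (D * (if (k : ℕ) < p0 then (((k : ℕ) : ℝ) + 1) ^ 2 else 0)) := by
      intro k
      unfold gw
      split_ifs with h
      · have h2 : ((((k : ℕ) : ℝ) + 1) ^ 2 * √(v k : ℝ)) ^ 2 ≤ D * (((k : ℕ) : ℝ) + 1) ^ 2 := by
          have h3 := hsq k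
          calc ((((k : ℕ) : ℝ) + 1) ^ 2 * √(v k : ℝ)) ^ 2 ≤
              ((((k : ℕ) : ℝ) + 1) ^ 2 * (√D / (((k : ℕ) : ℝ) + 1))) ^ 2 := by gcongr
            _ = (√D) ^ 2 * (((k : ℕ) : ℝ) + 1) ^ 2 := by field_simp
            _ = _ := by rw [Real.sq_sqrt hD0]
        set a := π / N * ((((k : ℕ) : ℝ) + 1) * √(v k : ℝ))
        set b := (((k : ℕ) : ℝ) + 1) ^ 2 * √(v k : ℝ)
        have h3 : (π / N * (((k : ℕ) : ℝ) + 1) + (((k : ℕ) : ℝ) + 1) ^ 2) * √(v k : ℝ) = a + b := by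
          simp only [a, b]; ring
        rw [h3]
        nlinarith [sq_nonneg (a - b)]
      · have h3 : (π / N * (((k : ℕ) : ℝ) + 1) + 0) * √(v k : ℝ) =
            π / N * ((((k : ℕ) : ℝ) + 1) * √(v k : ℝ)) := by ring
        rw [h3]
        nlinarith [sq_nonneg (π / N * ((((k : ℕ) : ℝ) + 1) * √(v k : ℝ)))]
    refine (Finset.sum_le_sum fun k _ => h1 k).trans ?_
    rw [Finset.sum_add_distrib, ← Finset.mul_sum, ← Finset.mul_sum, ← Finset.mul_sum]
    have h2 := sum_low K p0 2 (by norm_num)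
    have h3 : ∑ k : Fin K, (π / N * ((((k : ℕ) : ℝ) + 1) * √(v k : ℝ))) ^ 2 ≤ π ^ 2 := by
      have h4 : ∑ k : Fin K, (π / N * ((((k : ℕ) : ℝ) + 1) * √(v k : ℝ))) ^ 2 ≤
          (∑ k : Fin K, π / N * ((((k : ℕ) : ℝ) + 1) * √(v k : ℝ))) ^ 2 :=
        Finset.sum_sq_le_sq_sum_of_nonneg fun k _ => by positivity
      rw [← Finset.mul_sum] at h4
      have h5 : π / N * S ≤ π := by
        calc π / N * S ≤ π / N * N := by gcongr
          _ = _ := by field_simp
      have h6 : 0 ≤ π / N * S := by positivity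
      exact h4.trans (by gcongr)
    have h4 : D * ∑ k : Fin K, (if (k : ℕ) < p0 then (((k : ℕ) : ℝ) + 1) ^ 2 else 0) ≤
        D * (p0 : ℝ) ^ 3 := by gcongr
    linarith
  have hpi2 : π < 3.15 := Real.pi_lt_d2
  have e3 : π ^ 2 ≤ 9.9225 := by nlinarith
  linarith

/-- crude pointwise bound -/
theorem crude_pt (n : ℕ) (c x : Fin K → ℝ) {N : ℝ} (hN1 : 1 ≤ N) :
    Real.exp (TT n (fun k => c k + x k)) ≤ (1 + π / 2 * BT n c) * N *
      Real.exp (∑ k : Fin K, π / N * ((k : ℕ) + 1 : ℝ) * |x k|) := by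
  have hpi := Real.pi_pos
  have hN0 : 0 < N := by linarith
  have hB := BT_ge_one n c
  have hBx := BT_ge_one n (fun k => c k + x k)
  set S := ∑ k : Fin K, ((k : ℕ) + 1 : ℝ) * |x k| with hS
  have hS0 : 0 ≤ S := Finset.sum_nonneg fun k _ => by positivity
  have h1 : BT n (fun k => c k + x k) ≤ BT n c + 2 * S := by
    unfold BT
    have h : ∑ k : Fin K, ((k : ℕ) + 1 : ℝ) * |c k + x k| ≤
        ∑ k : Fin K, ((k : ℕ) + 1 : ℝ) * |c k| + S := by
      rw [hS, ← Finset.sum_add_distrib]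
      refine Finset.sum_le_sum fun k _ => ?_
      rw [← mul_add]
      gcongr
      exact abs_add_le _ _
    linarith
  have h2 : Real.exp (TT n (fun k => c k + x k)) ≤ 1 + π / 2 * BT n (fun k => c k + x k) := by
    have h3 := TT_univ n (fun k => c k + x k)
    have h4 : 1 ≤ 1 + π / 2 * BT n (fun k => c k + x k) := by
      have : 0 ≤ π / 2 * BT n (fun k => c k + x k) := by positivity
      linarith
    have h5 : 0 ≤ Real.log (1 + π / 2 * BT n (fun k => c k + x k)) := Real.log_nonneg h4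
    calc Real.exp (TT n (fun k => c k + x k)) ≤
        Real.exp (Real.log (1 + π / 2 * BT n (fun k => c k + x k))) := by
          apply Real.exp_le_exp.2
          linarith
      _ = _ := Real.exp_log (by linarith)
  have h3 : ∑ k : Fin K, π / N * ((k : ℕ) + 1 : ℝ) * |x k| = π / N * S := by
    rw [hS, Finset.mul_sum]
    exact Finset.sum_congr rfl fun k _ => by ring
  rw [h3]
  have h4 : 1 + π * S ≤ N * Real.exp (π / N * S) := by
    have h5 := Real.add_one_le_exp (π / N * S)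
    calc 1 + π * S ≤ N + π * S := by linarith
      _ = N * (π / N * S + 1) := by field_simp; ring
      _ ≤ _ := by gcongr
  calc Real.exp (TT n (fun k => c k + x k)) ≤ 1 + π / 2 * (BT n c + 2 * S) := by
        refine h2.trans ?_
        gcongr
    _ ≤ (1 + π / 2 * BT n c) * (1 + π * S) := by
        have : 0 ≤ π / 2 * BT n c * (π * S) := by positivity
        nlinarith
    _ ≤ (1 + π / 2 * BT n c) * (N * Real.exp (π / N * S)) := by gcongr
    _ = _ := by ring

/-- **universal Gaussian average** -/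
theorem avg_univ (n : ℕ) (v : ℕ → ℝ≥0) {N : ℝ} (hN1 : 1 ≤ N) (c : Fin K → ℝ)
    (hN : ∑ k : Fin K, ((k : ℕ) + 1 : ℝ) * √(v k : ℝ) ≤ N) :
    ∫⁻ x, ENNReal.ofReal (Real.exp (TT n (fun k => c k + x k))) ∂(gam v K) ≤
      ENNReal.ofReal ((1 + π / 2 * BT n c) * N * Real.exp 15) := by
  have hpi := Real.pi_pos
  have hN0 : 0 < N := by linarith
  have hB := BT_ge_one n c
  have h1 : ∀ x : Fin K → ℝ, ENNReal.ofReal (Real.exp (TT n (fun k => c k + x k))) ≤
      ENNReal.ofReal ((1 + π / 2 * BT n c) * N) *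
      ENNReal.ofReal (Real.exp (∑ k : Fin K, π / N * ((k : ℕ) + 1 : ℝ) * |x k|)) := by
    intro x
    rw [← ENNReal.ofReal_mul (by positivity)]
    exact ENNReal.ofReal_le_ofReal (crude_pt n c x hN1)
  refine (lintegral_mono h1).trans ?_
  rw [lintegral_const_mul _ (by fun_prop), ENNReal.ofReal_mul (p := (1 + π / 2 * BT n c) * N)
    (q := Real.exp 15) (by positivity)]
  refine mul_le_mul_right ?_ _
  refine (lint_abs_sum v (fun k => π / N * ((k : ℕ) + 1 : ℝ)) fun k => by positivity).trans ?_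
  apply ENNReal.ofReal_le_ofReal
  apply Real.exp_le_exp.2
  set S := ∑ k : Fin K, ((k : ℕ) + 1 : ℝ) * √(v k : ℝ) with hS
  have hS0 : 0 ≤ S := Finset.sum_nonneg fun k _ => by positivity
  have e1 : ∑ k : Fin K, π / N * ((k : ℕ) + 1 : ℝ) * √(v k : ℝ) = π / N * S := by
    rw [hS, Finset.mul_sum]
    exact Finset.sum_congr rfl fun k _ => by ring
  have e2 : ∑ k : Fin K, (π / N * ((k : ℕ) + 1 : ℝ) * √(v k : ℝ)) ^ 2 ≤ (π / N * S) ^ 2 := by
    rw [← e1]
    exact Finset.sum_sq_le_sq_sum_of_nonneg fun k _ => by positivity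
  have e3 : π / N * S ≤ π := by
    calc π / N * S ≤ π / N * N := by gcongr
      _ = _ := by field_simp
  have e5 : 0 ≤ π / N * S := by positivity
  have hpi2 : π < 3.15 := Real.pi_lt_d2
  have e6 : (π / N * S) ^ 2 ≤ 9.9225 := by nlinarith
  rw [e1]
  linarith

/-- **Gaussian average at a good density** -/
theorem avg_good (n : ℕ) (v : ℕ → ℝ≥0) {D N : ℝ} {p0 : ℕ} (hp0 : 1 ≤ p0) (hN1 : 1 ≤ N)
    (hD : ∀ k, (v k : ℝ) ≤ D / ((k : ℝ) + 1) ^ 2)
    (hN : ∑ k : Fin K, ((k : ℕ) + 1 : ℝ) * √(v k : ℝ) ≤ N)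
    (c d : Fin K → ℝ) {P A R b b' B' X δ : ℝ} (hP : 0 < P) (hb0 : 0 < b)
    (hb : b ≤ π / 2) (hb0' : 0 < b') (hb' : b' ≤ π / 2) (hR0 : 0 ≤ R) (hB' : 0 < B')
    (hl : ∀ x, 0 ≤ x → x ≤ b → P ≤ Psi1 n c x) (hu : ∀ x, 0 ≤ x → x ≤ b → Psi1 n c x ≤ A * P)
    (hR : ∀ x, 0 ≤ x → x ≤ b → |Psi2 c x| ≤ R)
    (hf : ∀ x, 0 ≤ x → x ≤ b' → |Psi1 n c (π - x)| ≤ B')
    (hX : 4 * X ≤ P) (hδ : eT d ≤ δ) :
    ∫⁻ x, ENNReal.ofReal (Real.exp (TT n (fun k => c k + d k + x k))) ∂(gam v K) ≤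
      ENNReal.ofReal (Real.exp (tG (P / 2) (2 * A + 1) (R + 2 * X) b b' (B' + 2 * X) + δ + 3 +
        2 * (Real.log (π / 2 * N)) ^ 2 * D / p0) +
        (1 + π / 2 * BT n (fun k => c k + d k)) * N *
          Real.exp (15 + 3 / 2 * √D * (p0 : ℝ) ^ 2 + D * (p0 : ℝ) ^ 3 - X)) := by
  have hpi := Real.pi_pos
  have hN0 : 0 < N := by linarith
  have hB := BT_ge_one n (fun k => c k + d k)
  set τ1 := tG (P / 2) (2 * A + 1) (R + 2 * X) b b' (B' + 2 * X) with hτ1
  set C := (1 + π / 2 * BT n (fun k => c k + d k)) * N with hC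
  have hC0 : 0 ≤ C := by positivity
  have h1 : ∀ x : Fin K → ℝ, ENNReal.ofReal (Real.exp (TT n (fun k => c k + d k + x k))) ≤
      ENNReal.ofReal (Real.exp (τ1 + δ)) * ENNReal.ofReal (Real.exp (eT (hi p0 x))) +
      ENNReal.ofReal (C * Real.exp (-X)) *
        ENNReal.ofReal (Real.exp (∑ k : Fin K, gw N p0 k * |x k|)) := by
    intro x
    rcases le_total (∑ k : Fin K, ((k : ℕ) + 1 : ℝ) ^ 2 * |lo p0 x k|) X with h | h
    · refine le_trans ?_ le_self_add
      rw [← ENNReal.ofReal_mul (Real.exp_pos _).le, ← Real.exp_add]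
      apply ENNReal.ofReal_le_ofReal
      apply Real.exp_le_exp.2
      have h2 := TT_good_add n c (lo p0 x) hP hb0 hb hb0' hb' hR0 hB' hl hu hR hf h hX
      have h3 := TT_add n (fun k => c k + lo p0 x k) d
      have h4 := TT_add n (fun k => c k + lo p0 x k + d k) (hi p0 x)
      have e : (fun k => c k + lo p0 x k + d k + hi p0 x k) = fun k => c k + d k + x k := by
        funext k
        have := lo_add_hi p0 x k
        linarith
      rw [e] at h4
      linarith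
    · refine le_trans ?_ le_add_self
      rw [← ENNReal.ofReal_mul (by positivity)]
      apply ENNReal.ofReal_le_ofReal
      have h2 := crude_pt n (fun k => c k + d k) x hN1
      refine h2.trans ?_
      rw [← hC, mul_assoc C, ← Real.exp_add]
      gcongr
      have h3 : ∑ k : Fin K, gw N p0 k * |x k| =
          ∑ k : Fin K, π / N * ((k : ℕ) + 1 : ℝ) * |x k| +
          ∑ k : Fin K, ((k : ℕ) + 1 : ℝ) ^ 2 * |lo p0 x k| := by
        rw [← Finset.sum_add_distrib]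
        refine Finset.sum_congr rfl fun k _ => ?_
        unfold gw lo
        split_ifs
        · ring
        · simp
      rw [h3]
      linarith
  refine (lintegral_mono h1).trans ?_
  rw [lintegral_add_right _ (by fun_prop), lintegral_const_mul' _ _ ENNReal.ofReal_ne_top,
    lintegral_const_mul' _ _ ENNReal.ofReal_ne_top]
  have h2 := hi_avg v hp0 hN1 hD K hN
  have h3 := gw_avg v p0 hN1 hD K hN
  refine (add_le_add (mul_le_mul_right h2 _) (mul_le_mul_right h3 _)).trans ?_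
  rw [← ENNReal.ofReal_mul (Real.exp_pos _).le, ← ENNReal.ofReal_mul (by positivity),
    ← ENNReal.ofReal_add (by positivity) (by positivity)]
  apply ENNReal.ofReal_le_ofReal
  apply le_of_eq
  congr 1
  · rw [← Real.exp_add]
    congr 1
    ring
  · rw [mul_assoc, ← Real.exp_add]
    congr 2
    ring

end

end Pool.Agent.FSz.Tau
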