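import Pool.Agent.FSz.TauG

/-!
# Rough perturbations
-/

open MeasureTheory Set Filter Topology ProbabilityTheory
open scoped Real NNReal ENNReal

namespace Pool.Agent.FSz.Tau

noncomputable section

variable {K : ℕ}

theorem sum_min (K : ℕ) {x : ℝ} (hx0 : 0 < x) (hx1 : x ≤ 1) :
    ∑ k ∈ Finset.range K, min (x ^ 2) (1 / ((k : ℝ) + 1) ^ 2) ≤ 3 * x := by
  set p0 := ⌈x⁻¹⌉₊ with hp
  have hinv : 1 ≤ x⁻¹ := (one_le_inv₀ hx0).2 hx1
  have hp0 : 1 ≤ p0 := Nat.one_le_ceil_iff.2 (by positivity)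
  have hp1 : x⁻¹ ≤ p0 := Nat.le_ceil _
  have hp2 : (p0 : ℝ) < x⁻¹ + 1 := Nat.ceil_lt_add_one (by positivity)
  have h1 : ∀ k : ℕ, min (x ^ 2) (1 / ((k : ℝ) + 1) ^ 2) ≤ (if k < p0 then x ^ 2 else 0) +
      (if k < p0 then (0 : ℝ) else 1 / ((k : ℝ) + 1) ^ 2) := by
    intro k
    split_ifs
    · rw [add_zero]; exact min_le_left _ _
    · rw [zero_add]; exact min_le_right _ _
  refine (Finset.sum_le_sum fun k _ => h1 k).trans ?_
  rw [Finset.sum_add_distrib]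
  have h2 := sum_inv_sq_le p0 K hp0
  have h3 : ∑ k ∈ Finset.range K, (if k < p0 then x ^ 2 else 0) ≤ p0 * x ^ 2 := by
    rw [← Finset.sum_filter, Finset.sum_const, nsmul_eq_mul]
    have h4 : ((Finset.range K).filter (fun k => k < p0)).card ≤ p0 := by
      calc ((Finset.range K).filter (fun k => k < p0)).card ≤ (Finset.range p0).card := by
            apply Finset.card_le_card
            intro k hk
            simp only [Finset.mem_filter, Finset.mem_range] at hk ⊢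
            exact hk.2
        _ = p0 := Finset.card_range _
    have h5 : (((Finset.range K).filter (fun k => k < p0)).card : ℝ) ≤ p0 := by exact_mod_cast h4
    gcongr
  have h4 : (p0 : ℝ) * x ^ 2 ≤ 2 * x := by
    calc (p0 : ℝ) * x ^ 2 ≤ (x⁻¹ + 1) * x ^ 2 := by gcongr
      _ = x + x ^ 2 := by field_simp
      _ ≤ _ := by nlinarith
  have h5 : 1 / (p0 : ℝ) ≤ x := by
    rw [one_div]
    exact inv_le_of_inv_le₀ hx0 hp1
  linarith

/-- size in `H^1` -/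
def V2 (d : Fin K → ℝ) : ℝ := ∑ k : Fin K, (((k : ℕ) + 1 : ℝ) * d k) ^ 2

theorem V2_nonneg (d : Fin K → ℝ) : 0 ≤ V2 d := Finset.sum_nonneg fun k _ => sq_nonneg _

/-- Hölder bound at the wall -/
theorem abs_Sf_holder (d : Fin K → ℝ) {x : ℝ} (hx0 : 0 < x) (hx1 : x ≤ 1) :
    |Sf d x| ≤ √(3 * V2 d) * √x := by
  rw [← Real.sqrt_mul (by have := V2_nonneg d; positivity)]
  apply Real.abs_le_sqrt
  have h1 : Sf d x = ∑ k : Fin K, (((k : ℕ) + 1 : ℝ) * d k) *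
      (Real.sin (((k : ℕ) + 1 : ℝ) * x) / ((k : ℕ) + 1 : ℝ)) := by
    unfold Sf
    refine Finset.sum_congr rfl fun k _ => ?_
    have : ((k : ℕ) + 1 : ℝ) ≠ 0 := by positivity
    field_simp
  rw [h1]
  refine (Finset.sum_mul_sq_le_sq_mul_sq _ _ _).trans ?_
  have h2 : ∑ k : Fin K, (Real.sin (((k : ℕ) + 1 : ℝ) * x) / ((k : ℕ) + 1 : ℝ)) ^ 2 ≤ 3 * x := by
    refine le_trans ?_ (sum_min K hx0 hx1)
    rw [← Fin.sum_univ_eq_sum_range (fun k => min (x ^ 2) (1 / ((k : ℝ) + 1) ^ 2)) K]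
    refine Finset.sum_le_sum fun k _ => le_min ?_ ?_
    · have h3 := abs_sin_nat_mul_le ((k : ℕ) + 1) x
      push_cast at h3
      have h4 : |Real.sin x| ≤ x := by
        have := Real.abs_sin_le_abs (x := x)
        rwa [abs_of_pos hx0] at this
      have h5 : |Real.sin (((k : ℕ) + 1 : ℝ) * x) / ((k : ℕ) + 1 : ℝ)| ≤ x := by
        rw [abs_div, abs_of_pos (by positivity : (0:ℝ) < ((k : ℕ) + 1 : ℝ)),
          div_le_iff₀ (by positivity)]
        refine h3.trans ?_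
        rw [mul_comm x]
        gcongr
      calc (Real.sin (((k : ℕ) + 1 : ℝ) * x) / ((k : ℕ) + 1 : ℝ)) ^ 2 =
          |Real.sin (((k : ℕ) + 1 : ℝ) * x) / ((k : ℕ) + 1 : ℝ)| ^ 2 := (sq_abs _).symm
        _ ≤ _ := by gcongr
    · rw [div_pow]
      have := Real.sin_sq_le_one (((k : ℕ) + 1 : ℝ) * x)
      gcongr
  have h3 := V2_nonneg d
  unfold V2 at h3 ⊢
  calc (∑ k : Fin K, (((k : ℕ) + 1 : ℝ) * d k) ^ 2) *
      ∑ k : Fin K, (Real.sin (((k : ℕ) + 1 : ℝ) * x) / ((k : ℕ) + 1 : ℝ)) ^ 2 ≤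
      (∑ k : Fin K, (((k : ℕ) + 1 : ℝ) * d k) ^ 2) * (3 * x) := by gcongr
    _ = _ := by ring

theorem sqrt_intble {q : ℝ} (hq : 0 < q) :
    IntervalIntegrable (fun x : ℝ => x ^ (-(1 / 2) : ℝ)) volume 0 q :=
  intervalIntegral.intervalIntegrable_rpow' (by norm_num)

theorem sqrt_int {q : ℝ} (hq : 0 < q) : (∫ x in (0 : ℝ)..q, x ^ (-(1 / 2) : ℝ)) = 2 * √q := by
  rw [integral_rpow (Or.inl (by norm_num))]
  rw [Real.sqrt_eq_rpow]
  norm_num
  ring

/-- end part -/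
theorem end_part (d : Fin K → ℝ) {q : ℝ} (hq : 0 < q) (hq1 : q ≤ 1) :
    (∫ x in (0 : ℝ)..q, |Sf d x / Real.sin x|) ≤ π * (√(3 * V2 d) * √q) := by
  have hpi := Real.pi_gt_three
  have h1 : (∫ x in (0 : ℝ)..q, |Sf d x / Real.sin x|) ≤
      ∫ x in (0 : ℝ)..q, π / 2 * √(3 * V2 d) * x ^ (-(1 / 2) : ℝ) := by
    refine int_le hq.le (Sf_int d 0 q).abs ((sqrt_intble hq).const_mul _) fun x h1 h2 => ?_
    have hs := Real.sin_pos_of_pos_of_lt_pi (x := x) h1 (by linarith)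
    rw [abs_div, abs_of_pos hs, div_eq_mul_inv]
    have h3 := abs_Sf_holder d h1 (by linarith)
    have h4 := inv_sin_le h1 (by linarith)
    have h5 : √x * x⁻¹ = x ^ (-(1 / 2) : ℝ) := by
      rw [Real.sqrt_eq_rpow, ← Real.rpow_neg_one x, ← Real.rpow_add h1]
      norm_num
    calc |Sf d x| * (Real.sin x)⁻¹ ≤ (√(3 * V2 d) * √x) * (π / 2 * x⁻¹) := by
          have : 0 ≤ (Real.sin x)⁻¹ := (inv_pos.2 hs).le
          gcongr
      _ = π / 2 * √(3 * V2 d) * (√x * x⁻¹) := by ring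
      _ = _ := by rw [h5]
  refine h1.trans (le_of_eq ?_)
  rw [intervalIntegral.integral_const_mul, sqrt_int hq]
  ring

theorem V2_flip (d : Fin K → ℝ) : V2 (fun k => (-1) ^ ((k : ℕ) + 1) * d k) = V2 d := by
  unfold V2
  refine Finset.sum_congr rfl fun k _ => ?_
  have h : ((-1 : ℝ) ^ ((k : ℕ) + 1)) ^ 2 = 1 := by
    rw [← pow_mul, mul_comm, pow_mul]
    norm_num
  calc (((k : ℕ) + 1 : ℝ) * ((-1) ^ ((k : ℕ) + 1) * d k)) ^ 2 =
      ((-1 : ℝ) ^ ((k : ℕ) + 1)) ^ 2 * (((k : ℕ) + 1 : ℝ) * d k) ^ 2 := by ring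
    _ = _ := by rw [h, one_mul]

/-- **size of a rough perturbation** -/
theorem eT_rough (d : Fin K → ℝ) {q : ℝ} (hq : 0 < q) (hq1 : q ≤ 1) :
    eT d ≤ 2 * (√(3 * V2 d) * √q) + Real.log (π / (2 * q)) * ∑ k : Fin K, |d k| := by
  have hpi := Real.pi_gt_three
  have hq2 : q < π / 2 := by linarith
  have hab : q ≤ π - q := by linarith
  have h0 : (∫ x in (0 : ℝ)..π, |Sf d x / Real.sin x|) =
      (∫ x in (0 : ℝ)..q, |Sf d x / Real.sin x|) + (∫ x in q..(π - q), |Sf d x / Real.sin x|) +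
      ∫ x in (π - q)..π, |Sf d x / Real.sin x| := by
    rw [intervalIntegral.integral_add_adjacent_intervals (Sf_int d _ _).abs (Sf_int d _ _).abs,
      intervalIntegral.integral_add_adjacent_intervals (Sf_int d _ _).abs (Sf_int d _ _).abs]
  have h1 := end_part d hq hq1
  have h2 : (∫ x in (π - q)..π, |Sf d x / Real.sin x|) ≤ π * (√(3 * V2 d) * √q) := by
    have h3 := end_part (fun k => (-1) ^ ((k : ℕ) + 1) * d k) hq hq1
    rw [V2_flip] at h3
    refine le_trans (le_of_eq ?_) h3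
    have h := intervalIntegral.integral_comp_sub_left (a := 0) (b := q)
      (fun x => |Sf d x / Real.sin x|) π
    rw [sub_zero] at h
    rw [← h]
    refine intervalIntegral.integral_congr fun x _ => ?_
    beta_reduce
    rw [Sf_pi_sub, Real.sin_pi_sub, neg_div, abs_neg]
  have h3 : (∫ x in q..(π - q), |Sf d x / Real.sin x|) ≤
      ∫ x in q..(π - q), (∑ k : Fin K, |d k|) * (Real.sin x)⁻¹ := by
    refine int_le hab (Sf_int d _ _).abs ((sin_inv_int hq le_rfl hab le_rfl).const_mul _)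
      fun x h2 h3 => ?_
    have hs := Real.sin_pos_of_pos_of_lt_pi (x := x) (by linarith) (by linarith)
    rw [abs_div, abs_of_pos hs, div_eq_mul_inv]
    have : 0 ≤ (Real.sin x)⁻¹ := (inv_pos.2 hs).le
    gcongr
    unfold Sf
    refine (Finset.abs_sum_le_sum_abs _ _).trans (Finset.sum_le_sum fun k _ => ?_)
    rw [abs_mul]
    exact mul_le_of_le_one_right (abs_nonneg _) (Real.abs_sin_le_one _)
  rw [intervalIntegral.integral_const_mul] at h3
  have h4 := Mq_le hq hq2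
  unfold Mq at h4
  have h5 : 0 ≤ ∑ k : Fin K, |d k| := Finset.sum_nonneg fun k _ => abs_nonneg _
  unfold eT
  rw [h0]
  calc π⁻¹ * ((∫ x in (0 : ℝ)..q, |Sf d x / Real.sin x|) +
        (∫ x in q..(π - q), |Sf d x / Real.sin x|) + ∫ x in (π - q)..π, |Sf d x / Real.sin x|) ≤
      π⁻¹ * (π * (√(3 * V2 d) * √q) +
        (∑ k : Fin K, |d k|) * (∫ x in q..(π - q), (Real.sin x)⁻¹) + π * (√(3 * V2 d) * √q)) := by
        gcongr
    _ = 2 * (√(3 * V2 d) * √q) + (π⁻¹ * ∫ x in q..(π - q), (Real.sin x)⁻¹) *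
        ∑ k : Fin K, |d k| := by field_simp; ring
    _ ≤ _ := by gcongr

theorem sum_abs_le_V2 (d : Fin K → ℝ) (p1 : ℕ) (hp1 : 1 ≤ p1) (hd : ∀ k : Fin K, (k : ℕ) < p1 → d k = 0) :
    ∑ k : Fin K, |d k| ≤ √(V2 d / p1) := by
  apply Real.le_sqrt_of_sq_le
  have h1 : ∑ k : Fin K, |d k| = ∑ k : Fin K, (((k : ℕ) + 1 : ℝ) * |d k|) *
      (if (k : ℕ) < p1 then 0 else 1 / ((k : ℕ) + 1 : ℝ)) := by
    refine Finset.sum_congr rfl fun k _ => ?_
    split_ifs with h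
    · rw [hd k h]; simp
    · have : ((k : ℕ) + 1 : ℝ) ≠ 0 := by positivity
      field_simp
  rw [h1]
  refine (Finset.sum_mul_sq_le_sq_mul_sq _ _ _).trans ?_
  have h2 : ∑ k : Fin K, (if (k : ℕ) < p1 then (0 : ℝ) else 1 / ((k : ℕ) + 1 : ℝ)) ^ 2 ≤ 1 / p1 := by
    refine le_trans (le_of_eq ?_) (sum_inv_sq_le p1 K hp1)
    rw [← Fin.sum_univ_eq_sum_range (fun k => if k < p1 then (0 : ℝ) else 1 / ((k : ℝ) + 1) ^ 2) K]
    refine Finset.sum_congr rfl fun k _ => ?_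
    split_ifs
    · norm_num
    · rw [div_pow, one_pow]
  have h3 : ∑ k : Fin K, (((k : ℕ) + 1 : ℝ) * |d k|) ^ 2 = V2 d := by
    unfold V2
    refine Finset.sum_congr rfl fun k _ => ?_
    rw [mul_pow, mul_pow, sq_abs]
  rw [h3]
  have := V2_nonneg d
  calc V2 d * ∑ k : Fin K, (if (k : ℕ) < p1 then (0 : ℝ) else 1 / ((k : ℕ) + 1 : ℝ)) ^ 2 ≤
      V2 d * (1 / p1) := by gcongr
    _ = _ := by ring

theorem V2_mono {d e : Fin K → ℝ} (h : ∀ k, |d k| ≤ |e k|) : V2 d ≤ V2 e := by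
  unfold V2
  refine Finset.sum_le_sum fun k _ => ?_
  rw [mul_pow, mul_pow, ← sq_abs (d k), ← sq_abs (e k)]
  have := h k
  gcongr

/-- high modes of a rough field -/
theorem eT_hi (d : Fin K → ℝ) {p1 : ℕ} (hp1 : 1 ≤ p1) {q : ℝ} (hq : 0 < q) (hq1 : q ≤ 1) :
    eT (hi p1 d) ≤ 2 * (√(3 * V2 d) * √q) + Real.log (π / (2 * q)) * √(V2 d / p1) := by
  have hpi := Real.pi_gt_three
  have h1 := eT_rough (hi p1 d) hq hq1
  have h2 : V2 (hi p1 d) ≤ V2 d := V2_mono fun k => abs_hi_le p1 d k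
  have h3 := sum_abs_le_V2 (hi p1 d) p1 hp1 fun k hk => by simp [hi, hk]
  have h4 : 0 ≤ Real.log (π / (2 * q)) := by
    apply Real.log_nonneg
    rw [le_div_iff₀ (by positivity)]
    linarith
  have hp : (0:ℝ) < p1 := by exact_mod_cast (by omega : 0 < p1)
  refine h1.trans ?_
  gcongr
  exact h3.trans (Real.sqrt_le_sqrt (by gcongr))

/-- low modes of a rough field -/
theorem sum_lo (d : Fin K → ℝ) (p1 : ℕ) :
    ∑ k : Fin K, ((k : ℕ) + 1 : ℝ) ^ 2 * |lo p1 d k| ≤ √(V2 d * (p1 : ℝ) ^ 3) := by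
  apply Real.le_sqrt_of_sq_le
  have h1 : ∑ k : Fin K, ((k : ℕ) + 1 : ℝ) ^ 2 * |lo p1 d k| = ∑ k : Fin K,
      (((k : ℕ) + 1 : ℝ) * |d k|) * (if (k : ℕ) < p1 then ((k : ℕ) + 1 : ℝ) else 0) := by
    refine Finset.sum_congr rfl fun k _ => ?_
    unfold lo
    split_ifs with h
    · ring
    · simp
  rw [h1]
  refine (Finset.sum_mul_sq_le_sq_mul_sq _ _ _).trans ?_
  have h2 : ∑ k : Fin K, (if (k : ℕ) < p1 then ((k : ℕ) + 1 : ℝ) else 0) ^ 2 ≤ (p1 : ℝ) ^ 3 := by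
    refine le_trans (le_of_eq ?_) (sum_low K p1 2 (by norm_num))
    refine Finset.sum_congr rfl fun k _ => ?_
    split_ifs
    · rfl
    · norm_num
  have h3 : ∑ k : Fin K, (((k : ℕ) + 1 : ℝ) * |d k|) ^ 2 = V2 d := by
    unfold V2
    refine Finset.sum_congr rfl fun k _ => ?_
    rw [mul_pow, mul_pow, sq_abs]
  rw [h3]
  have := V2_nonneg d
  gcongr

/-- **universal Gaussian average, rough field** -/
theorem avg_univ2 (n : ℕ) (v : ℕ → ℝ≥0) {N : ℝ} (hN1 : 1 ≤ N) (c d : Fin K → ℝ)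
    (hN : ∑ k : Fin K, ((k : ℕ) + 1 : ℝ) * √(v k : ℝ) ≤ N) {δ : ℝ} (hδ : eT d ≤ δ) :
    ∫⁻ x, ENNReal.ofReal (Real.exp (TT n (fun k => c k + d k + x k))) ∂(gam v K) ≤
      ENNReal.ofReal ((1 + π / 2 * BT n c) * N * Real.exp (15 + δ)) := by
  have hpi := Real.pi_pos
  have hN0 : 0 < N := by linarith
  have hB := BT_ge_one n c
  have h1 : ∀ x : Fin K → ℝ, ENNReal.ofReal (Real.exp (TT n (fun k => c k + d k + x k))) ≤
      ENNReal.ofReal (Real.exp δ) *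
      ENNReal.ofReal (Real.exp (TT n (fun k => c k + x k))) := by
    intro x
    rw [← ENNReal.ofReal_mul (Real.exp_pos _).le, ← Real.exp_add]
    apply ENNReal.ofReal_le_ofReal
    apply Real.exp_le_exp.2
    have h2 := TT_add n (fun k => c k + x k) d
    have e : (fun k => c k + x k + d k) = fun k => c k + d k + x k := by
      funext k; ring
    rw [e] at h2
    linarith
  refine (lintegral_mono h1).trans ?_
  rw [lintegral_const_mul' _ _ ENNReal.ofReal_ne_top]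
  refine (mul_le_mul_right (avg_univ n v hN1 c hN) _).trans (le_of_eq ?_)
  rw [← ENNReal.ofReal_mul (Real.exp_pos _).le]
  congr 1
  rw [Real.exp_add]
  ring

/-- **Gaussian average at a good density, rough field** -/
theorem avg_good2 (n : ℕ) (v : ℕ → ℝ≥0) {D N : ℝ} {p0 : ℕ} (hp0 : 1 ≤ p0) (hN1 : 1 ≤ N)
    (hD : ∀ k, (v k : ℝ) ≤ D / ((k : ℝ) + 1) ^ 2)
    (hN : ∑ k : Fin K, ((k : ℕ) + 1 : ℝ) * √(v k : ℝ) ≤ N)
    (c d : Fin K → ℝ) {P A R b b' B' X δ : ℝ} (hP : 0 < P) (hb0 : 0 < b)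
    (hb : b ≤ π / 2) (hb0' : 0 < b') (hb' : b' ≤ π / 2) (hR0 : 0 ≤ R) (hB' : 0 < B')
    (hl : ∀ x, 0 ≤ x → x ≤ b → P ≤ Psi1 n c x) (hu : ∀ x, 0 ≤ x → x ≤ b → Psi1 n c x ≤ A * P)
    (hR : ∀ x, 0 ≤ x → x ≤ b → |Psi2 c x| ≤ R)
    (hf : ∀ x, 0 ≤ x → x ≤ b' → |Psi1 n c (π - x)| ≤ B')
    (hX : 4 * X ≤ P) (hδ : eT d ≤ δ) :
    ∫⁻ x, ENNReal.ofReal (Real.exp (TT n (fun k => c k + d k + x k))) ∂(gam v K) ≤
      ENNReal.ofReal (Real.exp δ * (Real.exp (tG (P / 2) (2 * A + 1) (R + 2 * X) b b' (B' + 2 * X) +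
        3 + 2 * (Real.log (π / 2 * N)) ^ 2 * D / p0) +
        (1 + π / 2 * BT n c) * N *
          Real.exp (15 + 3 / 2 * √D * (p0 : ℝ) ^ 2 + D * (p0 : ℝ) ^ 3 - X))) := by
  have hpi := Real.pi_pos
  have hN0 : 0 < N := by linarith
  have h0 := avg_good n v hp0 hN1 hD hN c (fun _ => 0) hP hb0 hb hb0' hb' hR0 hB' hl hu hR hf hX
    (δ := 0) (by
      have : eT (fun _ : Fin K => (0:ℝ)) = 0 := by
        unfold eT
        simp [Sf_zero]
      rw [this])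
  simp only [add_zero] at h0
  have h1 : ∀ x : Fin K → ℝ, ENNReal.ofReal (Real.exp (TT n (fun k => c k + d k + x k))) ≤
      ENNReal.ofReal (Real.exp δ) *
      ENNReal.ofReal (Real.exp (TT n (fun k => c k + x k))) := by
    intro x
    rw [← ENNReal.ofReal_mul (Real.exp_pos _).le, ← Real.exp_add]
    apply ENNReal.ofReal_le_ofReal
    apply Real.exp_le_exp.2
    have h2 := TT_add n (fun k => c k + x k) d
    have e : (fun k => c k + x k + d k) = fun k => c k + d k + x k := by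
      funext k; ring
    rw [e] at h2
    linarith
  refine (lintegral_mono h1).trans ?_
  rw [lintegral_const_mul' _ _ ENNReal.ofReal_ne_top]
  refine (mul_le_mul_right h0 _).trans (le_of_eq ?_)
  rw [← ENNReal.ofReal_mul (Real.exp_pos _).le]

end

end Pool.Agent.FSz.Tau
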