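import Pool.Agent.FSz.TauB
import Pool.Agent.Szego62.MixQ

/-!
# Exponential moments of independent Gaussian variables
-/

open MeasureTheory Set Filter Topology ProbabilityTheory
open scoped Real NNReal ENNReal

namespace Pool.Agent.FSz.Tau

noncomputable section

/-- the standard Gaussian measure scaled -/
theorem gauss_scale (v : ℝ≥0) : gaussianReal 0 v = (gaussianReal 0 1).map (fun y => √(v : ℝ) * y) := by
  have h := gaussianReal_map_const_mul (μ := 0) (v := 1) (√(v : ℝ))
  rw [h, mul_zero, mul_one]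
  congr 1
  ext
  simp

theorem lint_scale (v : ℝ≥0) {f : ℝ → ℝ≥0∞} (hf : Measurable f) :
    ∫⁻ y, f y ∂(gaussianReal 0 v) = ∫⁻ y, f (√(v : ℝ) * y) ∂(gaussianReal 0 1) := by
  rw [gauss_scale, lintegral_map hf (by fun_prop)]

/-- linear exponential moment -/
theorem lint_lin (v : ℝ≥0) (t : ℝ) :
    ∫⁻ y, ENNReal.ofReal (Real.exp (t * y)) ∂(gaussianReal 0 v) =
      ENNReal.ofReal (Real.exp (t ^ 2 * v / 2)) := by
  rw [lint_scale v (by fun_prop)]
  have h := Pool.Agent.Szego62.gauss_lin (t * √(v : ℝ))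
  have e : ∀ y : ℝ, t * (√(v : ℝ) * y) = y * (t * √(v : ℝ)) := fun y => by ring
  simp only [e, h]
  congr 3
  rw [mul_pow, Real.sq_sqrt v.coe_nonneg]

/-- exponential moment of the modulus, standard variable -/
theorem lint_abs1 {a : ℝ} (ha : 0 ≤ a) :
    ∫⁻ y, ENNReal.ofReal (Real.exp (a * |y|)) ∂(gaussianReal 0 1) ≤
      ENNReal.ofReal (Real.exp (3 / 2 * a + a ^ 2 / 2)) := by
  rcases le_total a (1 / 2) with h | h
  · have h1 : ∀ y : ℝ, ENNReal.ofReal (Real.exp (a * |y|)) ≤
        ENNReal.ofReal (Real.exp (a / 2)) * ENNReal.ofReal (Real.exp (0 * y + a * y ^ 2 / 2)) := by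
      intro y
      rw [← ENNReal.ofReal_mul (Real.exp_pos _).le, ← Real.exp_add]
      apply ENNReal.ofReal_le_ofReal
      apply Real.exp_le_exp.2
      have h2 : y ^ 2 = |y| ^ 2 := (sq_abs y).symm
      rw [h2]
      nlinarith [mul_nonneg ha (sq_nonneg (|y| - 1))]
    have h2 := Pool.Agent.Szego62.gauss_quad (κ := a) (by linarith) 0
    refine (lintegral_mono h1).trans ?_
    rw [lintegral_const_mul _ (by fun_prop)]
    have h3 : ∫⁻ y, ENNReal.ofReal (Real.exp (0 * y + a * y ^ 2 / 2)) ∂(gaussianReal 0 1) ≤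
        ENNReal.ofReal (Real.exp a) := by
      refine le_trans (le_of_eq ?_) (le_trans h2.le ?_)
      · refine lintegral_congr fun y => ?_
        first
          | rfl
          | (congr 2; ring)
      · apply ENNReal.ofReal_le_ofReal
        have h4 : (Real.exp a)⁻¹ ≤ √(1 - a) := by
          apply Real.le_sqrt_of_sq_le
          rw [inv_pow, ← Real.exp_nat_mul]
          have h5 : 1 + 2 * a ≤ Real.exp ((2 : ℕ) * a) := by
            have := Real.add_one_le_exp ((2 : ℕ) * a)
            push_cast at this ⊢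
            linarith
          rw [inv_le_comm₀ (Real.exp_pos _) (by linarith)]
          refine le_trans ?_ h5
          rw [inv_le_iff_one_le_mul₀ (by linarith)]
          nlinarith
        have h6 : (√(1 - a))⁻¹ ≤ Real.exp a := by
          rw [inv_le_comm₀ (Real.sqrt_pos.2 (by linarith)) (Real.exp_pos _)]
          exact h4
        simpa using h6
    calc ENNReal.ofReal (Real.exp (a / 2)) *
          ∫⁻ y, ENNReal.ofReal (Real.exp (0 * y + a * y ^ 2 / 2)) ∂(gaussianReal 0 1) ≤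
        ENNReal.ofReal (Real.exp (a / 2)) * ENNReal.ofReal (Real.exp a) := by gcongr
      _ = ENNReal.ofReal (Real.exp (3 / 2 * a)) := by
        rw [← ENNReal.ofReal_mul (Real.exp_pos _).le, ← Real.exp_add]
        congr 2
        ring
      _ ≤ _ := by
        apply ENNReal.ofReal_le_ofReal
        apply Real.exp_le_exp.2
        have : 0 ≤ a ^ 2 / 2 := by positivity
        linarith
  · have h1 : ∀ y : ℝ, ENNReal.ofReal (Real.exp (a * |y|)) ≤
        ENNReal.ofReal (Real.exp (a * y)) + ENNReal.ofReal (Real.exp (-a * y)) := by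
      intro y
      rw [← ENNReal.ofReal_add (Real.exp_pos _).le (Real.exp_pos _).le]
      apply ENNReal.ofReal_le_ofReal
      have h2 := Real.exp_pos (a * y)
      have h3 := Real.exp_pos (-a * y)
      rcases abs_cases y with ⟨h4, _⟩ | ⟨h4, _⟩
      · rw [h4]; linarith
      · rw [h4, show a * -y = -a * y by ring]; linarith
    refine (lintegral_mono h1).trans ?_
    rw [lintegral_add_left (by fun_prop), lint_lin, lint_lin]
    simp only [neg_sq, NNReal.coe_one, mul_one]
    rw [← ENNReal.ofReal_add (Real.exp_pos _).le (Real.exp_pos _).le]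
    apply ENNReal.ofReal_le_ofReal
    have h5 : (2 : ℝ) ≤ Real.exp (3 / 4) := by
      have h6 : Real.exp (3 / 4) ^ 4 = Real.exp 1 ^ 3 := by
        rw [← Real.exp_nat_mul, ← Real.exp_nat_mul]
        norm_num
      have h7 := Real.exp_one_gt_d9
      have h8 : (2.7 : ℝ) ^ 3 ≤ Real.exp 1 ^ 3 := pow_le_pow_left₀ (by norm_num) (by linarith) 3
      by_contra h9
      push Not at h9
      have h10 : Real.exp (3 / 4) ^ 4 < 2 ^ 4 :=
        pow_lt_pow_left₀ h9 (Real.exp_pos _).le (by norm_num)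
      rw [h6] at h10
      linarith [show (2.7 : ℝ) ^ 3 = 19.683 by norm_num, show (2 : ℝ) ^ 4 = 16 by norm_num]
    rw [← two_mul, Real.exp_add]
    gcongr
    refine h5.trans (Real.exp_le_exp.2 ?_)
    linarith

theorem lint_abs (v : ℝ≥0) {g : ℝ} (hg : 0 ≤ g) :
    ∫⁻ y, ENNReal.ofReal (Real.exp (g * |y|)) ∂(gaussianReal 0 v) ≤
      ENNReal.ofReal (Real.exp (3 / 2 * (g * √(v : ℝ)) + (g * √(v : ℝ)) ^ 2 / 2)) := by
  rw [lint_scale v (by fun_prop)]
  have h := lint_abs1 (a := g * √(v : ℝ)) (by positivity)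
  refine le_trans (le_of_eq ?_) h
  refine lintegral_congr fun y => ?_
  rw [abs_mul, abs_of_nonneg (Real.sqrt_nonneg _)]
  congr 2
  ring

variable {K : ℕ}

/-- the Gaussian product measure -/
def gam (v : ℕ → ℝ≥0) (K : ℕ) : Measure (Fin K → ℝ) := Measure.pi fun k : Fin K => gaussianReal 0 (v k)

instance (v : ℕ → ℝ≥0) (K : ℕ) : IsProbabilityMeasure (gam v K) := by
  unfold gam
  infer_instance

/-- product formula -/
theorem lint_prod (v : ℕ → ℝ≥0) (f : Fin K → ℝ → ℝ) (hf : ∀ k, Measurable (f k))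
    {B : Fin K → ℝ} (h : ∀ k : Fin K, ∫⁻ y, ENNReal.ofReal (Real.exp (f k y)) ∂(gaussianReal 0 (v k)) ≤
      ENNReal.ofReal (B k)) (hB : ∀ k, 0 ≤ B k) :
    ∫⁻ x, ENNReal.ofReal (Real.exp (∑ k, f k (x k))) ∂(gam v K) ≤ ENNReal.ofReal (∏ k, B k) := by
  have hi : ∀ k : Fin K, Integrable (fun y => Real.exp (f k y)) (gaussianReal 0 (v k)) := by
    intro k
    refine ⟨((hf k).exp).aestronglyMeasurable, ?_⟩
    rw [hasFiniteIntegral_iff_ofReal (ae_of_all _ fun y => (Real.exp_pos _).le)]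
    exact (h k).trans_lt ENNReal.ofReal_lt_top
  have hi2 : Integrable (fun x : Fin K → ℝ => ∏ k, Real.exp (f k (x k))) (gam v K) :=
    Integrable.fintype_prod hi
  have e1 : ∀ x : Fin K → ℝ, Real.exp (∑ k, f k (x k)) = ∏ k, Real.exp (f k (x k)) :=
    fun x => Real.exp_sum _ _
  simp only [e1]
  rw [← ofReal_integral_eq_lintegral_ofReal hi2
    (ae_of_all _ fun x => Finset.prod_nonneg fun k _ => (Real.exp_pos _).le)]
  apply ENNReal.ofReal_le_ofReal
  unfold gam
  rw [integral_fintype_prod_eq_prod (fun k y => Real.exp (f k y))]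
  refine Finset.prod_le_prod (fun k _ => integral_nonneg fun y => (Real.exp_pos _).le) fun k _ => ?_
  have h2 := h k
  rw [← ofReal_integral_eq_lintegral_ofReal (hi k) (ae_of_all _ fun y => (Real.exp_pos _).le)] at h2
  exact (ENNReal.ofReal_le_ofReal_iff (hB k)).1 h2

/-- moduli -/
theorem lint_abs_sum (v : ℕ → ℝ≥0) (g : Fin K → ℝ) (hg : ∀ k, 0 ≤ g k) :
    ∫⁻ x, ENNReal.ofReal (Real.exp (∑ k, g k * |x k|)) ∂(gam v K) ≤
      ENNReal.ofReal (Real.exp (3 / 2 * ∑ k, g k * √(v k : ℝ) +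
        (∑ k, (g k * √(v k : ℝ)) ^ 2) / 2)) := by
  have h := lint_prod v (fun (k : Fin K) y => g k * |y|) (fun k => by fun_prop)
    (fun k => lint_abs (v k) (hg k)) (fun k => (Real.exp_pos _).le)
  refine h.trans (le_of_eq ?_)
  rw [← Real.exp_sum, Finset.sum_add_distrib, ← Finset.mul_sum, ← Finset.sum_div]

/-- linear forms -/
theorem lint_lin_sum (v : ℕ → ℝ≥0) (a : Fin K → ℝ) :
    ∫⁻ x, ENNReal.ofReal (Real.exp (∑ k, a k * x k)) ∂(gam v K) ≤
      ENNReal.ofReal (Real.exp ((∑ k, a k ^ 2 * (v k : ℝ)) / 2)) := by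
  have h := lint_prod v (fun (k : Fin K) y => a k * y) (fun k => by fun_prop)
    (fun k => (lint_lin (v k) (a k)).le) (fun k => (Real.exp_pos _).le)
  refine h.trans (le_of_eq ?_)
  rw [← Real.exp_sum, ← Finset.sum_div]

/-- modulus of a linear form -/
theorem lint_abs_lin (v : ℕ → ℝ≥0) (a : Fin K → ℝ) :
    ∫⁻ x, ENNReal.ofReal (Real.exp |∑ k, a k * x k|) ∂(gam v K) ≤
      ENNReal.ofReal (2 * Real.exp ((∑ k, a k ^ 2 * (v k : ℝ)) / 2)) := by
  have h1 : ∀ x : Fin K → ℝ, ENNReal.ofReal (Real.exp |∑ k, a k * x k|) ≤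
      ENNReal.ofReal (Real.exp (∑ k, a k * x k)) +
        ENNReal.ofReal (Real.exp (∑ k, (-a k) * x k)) := by
    intro x
    rw [← ENNReal.ofReal_add (Real.exp_pos _).le (Real.exp_pos _).le]
    apply ENNReal.ofReal_le_ofReal
    have e : ∑ k, (-a k) * x k = -∑ k, a k * x k := by
      rw [← Finset.sum_neg_distrib]
      exact Finset.sum_congr rfl fun k _ => by ring
    rw [e]
    have h2 := Real.exp_pos (∑ k, a k * x k)
    have h3 := Real.exp_pos (-∑ k, a k * x k)
    rcases abs_cases (∑ k, a k * x k) with ⟨h4, _⟩ | ⟨h4, _⟩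
    · rw [h4]; linarith
    · rw [h4]; linarith
  refine (lintegral_mono h1).trans ?_
  rw [lintegral_add_left (by fun_prop)]
  have h4 := lint_lin_sum v a
  have h5 := lint_lin_sum v (fun k => -a k)
  simp only [neg_sq] at h5
  refine (add_le_add h4 h5).trans (le_of_eq ?_)
  rw [← ENNReal.ofReal_add (Real.exp_pos _).le (Real.exp_pos _).le, two_mul]

end

end Pool.Agent.FSz.Tau
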