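import Pool.Agent.FSz.TauH

/-!
# Good densities: polylogarithmic bound
-/

open MeasureTheory Set Filter Topology ProbabilityTheory
open scoped Real NNReal ENNReal

namespace Pool.Agent.FSz.Tau

noncomputable section

variable {K : ℕ}

theorem sum1_le_sum2 (d : Fin K → ℝ) :
    ∑ k : Fin K, ((k : ℕ) + 1 : ℝ) * |d k| ≤ ∑ k : Fin K, ((k : ℕ) + 1 : ℝ) ^ 2 * |d k| := by
  refine Finset.sum_le_sum fun k _ => ?_
  have hk : (0 : ℝ) ≤ ((k : ℕ) : ℝ) := Nat.cast_nonneg _
  gcongr
  nlinarith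

/-- **polylogarithmic bound at a good density** -/
theorem avgS (n : ℕ) (v : ℕ → ℝ≥0) {D N l : ℝ} (hl : 300 ≤ l) (hN1 : 1 ≤ N)
    (hD : ∀ k, (v k : ℝ) ≤ D / ((k : ℝ) + 1) ^ 2) (hDl : D ≤ 17 * l ^ 2)
    (hN : ∑ k : Fin K, ((k : ℕ) + 1 : ℝ) * √(v k : ℝ) ≤ N) (hNl : Real.log (π / 2 * N) ≤ l)
    (a d : Fin K → ℝ) (hV : V2 d ≤ l ^ 8) {P A R b b' B' : ℝ} (hP : 8 * l ^ 21 ≤ P)
    (hb0 : 1 / l ^ 4 ≤ b) (hb : b ≤ π / 2) (hb0' : 1 / l ^ 4 ≤ b') (hb' : b' ≤ π / 2)
    (hR0 : 0 ≤ R) (hRP : R * l ≤ P ^ 2) (hPl : Real.log (1 + P) ≤ l)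
    (hBT : Real.log (1 + π / 2 * BT n a) ≤ l) (hA : A ≤ 8) (hB0 : 0 < B') (hB' : B' ≤ l ^ 21)
    (h1 : ∀ x, 0 ≤ x → x ≤ b → P ≤ Psi1 n a x) (h2 : ∀ x, 0 ≤ x → x ≤ b → Psi1 n a x ≤ A * P)
    (h3 : ∀ x, 0 ≤ x → x ≤ b → |Psi2 a x| ≤ R)
    (h4 : ∀ x, 0 ≤ x → x ≤ b' → |Psi1 n a (π - x)| ≤ B') :
    ∫⁻ x, ENNReal.ofReal (Real.exp (TT n (fun k => a k + d k + x k))) ∂(gam v K) ≤
      ENNReal.ofReal (Real.exp (60 + 8 * Real.log l)) := by
  have hpi := Real.pi_gt_three
  have hpi2 : π < 3.15 := Real.pi_lt_d2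
  have hl0 : 0 < l := by linarith
  have hl1 : 1 ≤ l := by linarith
  have hN0 : 0 < N := by linarith
  have hD0 : 0 ≤ D := by
    have := hD 0
    have h2 : (0 : ℝ) ≤ v 0 := (v 0).coe_nonneg
    simp only [Nat.cast_zero, zero_add, one_pow, div_one] at this
    linarith
  have hll : Real.log l ≤ l := (Real.log_le_sub_one_of_pos hl0).trans (by linarith)
  have hlog0 : 0 ≤ Real.log l := Real.log_nonneg hl1
  -- powers of `l`
  have hpow : ∀ i j : ℕ, i ≤ j → l ^ i ≤ l ^ j := fun i j hij => pow_le_pow_right₀ hl1 hij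
  have hl21 : (1:ℝ) ≤ l ^ 21 := one_le_pow₀ hl1
  have hP0 : 0 < P := by linarith
  have hb00 : 0 < b := lt_of_lt_of_le (by positivity) hb0
  have hb00' : 0 < b' := lt_of_lt_of_le (by positivity) hb0'
  -- parameters
  set p0 := ⌈l ^ 4⌉₊ with hp0d
  set p1 := ⌈l ^ 11⌉₊ with hp1d
  have hp0a : l ^ 4 ≤ p0 := Nat.le_ceil _
  have hp0b : (p0 : ℝ) ≤ 1.01 * l ^ 4 := by
    have := Nat.ceil_lt_add_one (show 0 ≤ l ^ 4 by positivity)
    have h5 : (100 : ℝ) ≤ l ^ 4 := by
      calc (100 : ℝ) ≤ l ^ 1 := by linarith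
        _ ≤ l ^ 4 := hpow 1 4 (by norm_num)
    rw [← hp0d] at this
    linarith
  have hp1a : l ^ 11 ≤ p1 := Nat.le_ceil _
  have hp1b : (p1 : ℝ) ≤ 1.01 * l ^ 11 := by
    have := Nat.ceil_lt_add_one (show 0 ≤ l ^ 11 by positivity)
    have h5 : (100 : ℝ) ≤ l ^ 11 := by
      calc (100 : ℝ) ≤ l ^ 1 := by linarith
        _ ≤ l ^ 11 := hpow 1 11 (by norm_num)
    rw [← hp1d] at this
    linarith
  have hp0 : 1 ≤ p0 := Nat.one_le_ceil_iff.2 (by positivity)
  have hp1 : 1 ≤ p1 := Nat.one_le_ceil_iff.2 (by positivity)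
  -- low modes
  have hY : ∑ k : Fin K, ((k : ℕ) + 1 : ℝ) ^ 2 * |lo p1 d k| ≤ l ^ 21 := by
    refine (sum_lo d p1).trans ?_
    rw [Real.sqrt_le_left (by positivity)]
    have hV0 := V2_nonneg d
    calc V2 d * (p1 : ℝ) ^ 3 ≤ l ^ 8 * (1.01 * l ^ 11) ^ 3 := by gcongr
      _ = 1.01 ^ 3 * l ^ 41 := by ring
      _ ≤ l * l ^ 41 := by
        gcongr
        norm_num
        linarith
      _ = _ := by ring
  -- high modes
  have hδ : eT (hi p1 d) ≤ 5 := by
    have hq : (0:ℝ) < (l ^ 8)⁻¹ := by positivity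
    have hq1 : (l ^ 8)⁻¹ ≤ 1 := inv_le_one_of_one_le₀ (one_le_pow₀ hl1)
    have h5 := eT_hi d hp1 hq hq1
    have h6 : √(3 * V2 d) * √((l ^ 8)⁻¹) ≤ 1.75 := by
      rw [← Real.sqrt_mul (by have := V2_nonneg d; positivity)]
      rw [Real.sqrt_le_left (by norm_num)]
      have hV0 := V2_nonneg d
      calc 3 * V2 d * (l ^ 8)⁻¹ ≤ 3 * l ^ 8 * (l ^ 8)⁻¹ := by gcongr
        _ = 3 := by field_simp
        _ ≤ _ := by norm_num
    have h7 : Real.log (π / (2 * (l ^ 8)⁻¹)) ≤ 9 * l := by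
      have e : π / (2 * (l ^ 8)⁻¹) = π / 2 * l ^ 8 := by field_simp
      rw [e, Real.log_mul (by positivity) (by positivity), Real.log_pow]
      have h8 : Real.log (π / 2) ≤ 1 := by
        have := Real.log_le_sub_one_of_pos (show 0 < π / 2 by positivity)
        linarith
      push_cast
      linarith
    have h8 : √(V2 d / p1) ≤ 1 / (10 * l) := by
      rw [Real.sqrt_le_left (by positivity)]
      have hV0 := V2_nonneg d
      have hp1r : (0:ℝ) < p1 := by exact_mod_cast (by omega : 0 < p1)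
      calc V2 d / p1 ≤ l ^ 8 / l ^ 11 := by gcongr
        _ = 1 / l ^ 3 := by field_simp
        _ ≤ (1 / (10 * l)) ^ 2 := by
          rw [div_pow, one_pow]
          apply one_div_le_one_div_of_le (by positivity)
          calc (10 * l) ^ 2 = 100 * l ^ 2 := by ring
            _ ≤ l * l ^ 2 := by gcongr; linarith
            _ = _ := by ring
    have h9 : 0 ≤ Real.log (π / (2 * (l ^ 8)⁻¹)) := by
      apply Real.log_nonneg
      rw [le_div_iff₀ (by positivity)]
      linarith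
    have h10 : Real.log (π / (2 * (l ^ 8)⁻¹)) * √(V2 d / p1) ≤ 9 * l * (1 / (10 * l)) := by
      gcongr
    have h11 : 9 * l * (1 / (10 * l)) = 0.9 := by field_simp; norm_num
    linarith
  -- the density of the low part
  set c : Fin K → ℝ := fun k => a k + lo p1 d k with hc
  have e1 : ∀ x, |Psi1 n c x - Psi1 n a x| ≤ 2 * l ^ 21 := fun x =>
    (abs_Psi1_add n a (lo p1 d) x).trans (by linarith)
  have e2 : ∀ x, |Psi2 c x - Psi2 a x| ≤ 2 * l ^ 21 := fun x =>
    (abs_Psi2_add a (lo p1 d) x).trans (by linarith)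
  have hX1 : l ^ 15 ≤ l ^ 21 := hpow 15 21 (by norm_num)
  have key := avg_good2 n v hp0 hN1 hD hN c (hi p1 d) (P := P / 2) (A := 2 * A + 1)
    (R := R + 2 * l ^ 21) (b := b) (b' := b') (B' := B' + 2 * l ^ 21) (X := l ^ 15) (δ := 5)
    (by positivity) hb00 hb hb00' hb' (by positivity) (by positivity)
    (fun x h5 h6 => by
      have h7 := abs_le.1 (e1 x)
      have h8 := h1 x h5 h6
      linarith [h7.1])
    (fun x h5 h6 => by
      have h7 := abs_le.1 (e1 x)
      have h8 := h2 x h5 h6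
      linarith [h7.2])
    (fun x h5 h6 => by
      have h7 := h3 x h5 h6
      have h8 := e2 x
      have h9 := abs_sub_abs_le_abs_sub (Psi2 c x) (Psi2 a x)
      linarith)
    (fun x h5 h6 => by
      have h7 := h4 x h5 h6
      have h8 := e1 (π - x)
      have h9 := abs_sub_abs_le_abs_sub (Psi1 n c (π - x)) (Psi1 n a (π - x))
      linarith)
    (by linarith) hδ
  have ecd : ∀ x : Fin K → ℝ, (fun k => c k + hi p1 d k + x k) = fun k => a k + d k + x k := by
    intro x
    funext k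
    have := lo_add_hi p1 d k
    simp only [hc]
    linarith
  simp only [ecd] at key
  refine key.trans (ENNReal.ofReal_le_ofReal ?_)
  have hp0r : (0:ℝ) < p0 := by exact_mod_cast (by omega : 0 < p0)
  -- first exponent
  have hL0 : 0 ≤ Real.log (π / 2 * N) := Real.log_nonneg (by nlinarith)
  have f1 : 2 * (Real.log (π / 2 * N)) ^ 2 * D / p0 ≤ 34 := by
    rw [div_le_iff₀ hp0r]
    calc 2 * (Real.log (π / 2 * N)) ^ 2 * D ≤ 2 * l ^ 2 * (17 * l ^ 2) := by gcongr
      _ = 34 * l ^ 4 := by ring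
      _ ≤ _ := by gcongr
  have f2 : tG (P / 2 / 2) (2 * (2 * A + 1) + 1) (R + 2 * l ^ 21 + 2 * l ^ 15) b b'
      (B' + 2 * l ^ 21 + 2 * l ^ 15) ≤ 17 + 15 / 2 * Real.log l := by
    unfold tG
    have g1 : (R + 2 * l ^ 21 + 2 * l ^ 15) / (4 * (P / 2 / 2) ^ 2) *
        Real.log (1 + b * (P / 2 / 2)) ≤ 5 := by
      have g2 : Real.log (1 + b * (P / 2 / 2)) ≤ l := by
        refine le_trans (Real.log_le_log (by positivity) ?_) hPl
        nlinarith
      have g3 : 0 ≤ Real.log (1 + b * (P / 2 / 2)) := Real.log_nonneg (by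
        have : 0 ≤ b * (P / 2 / 2) := by positivity
        linarith)
      have g4 : R + 2 * l ^ 21 + 2 * l ^ 15 ≤ R + 4 * l ^ 21 := by linarith
      calc (R + 2 * l ^ 21 + 2 * l ^ 15) / (4 * (P / 2 / 2) ^ 2) * Real.log (1 + b * (P / 2 / 2)) ≤
          (R + 4 * l ^ 21) / (4 * (P / 2 / 2) ^ 2) * l := by gcongr
        _ = 4 * (R * l) / P ^ 2 + 16 * l ^ 22 / P ^ 2 := by field_simp; ring
        _ ≤ 4 + 1 := by
          apply add_le_add
          · rw [div_le_iff₀ (by positivity)]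
            linarith
          · rw [div_le_iff₀ (by positivity), one_mul]
            calc 16 * l ^ 22 ≤ (8 * l ^ 21) ^ 2 := by
                  have : l ^ 22 ≤ l ^ 42 := hpow 22 42 (by norm_num)
                  have h42 : 0 < l ^ 42 := by positivity
                  calc 16 * l ^ 22 ≤ 64 * l ^ 42 := by linarith
                    _ = _ := by ring
              _ ≤ P ^ 2 := by gcongr
        _ = 5 := by norm_num
    have gl : ∀ y : ℝ, 1 / l ^ 4 ≤ y → 1 / 4 * Real.log (π / (2 * y)) ≤ 1 + Real.log l := by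
      intro y hy
      have hy0 : 0 < y := lt_of_lt_of_le (by positivity) hy
      have g5 : π / (2 * y) ≤ π / 2 * l ^ 4 := by
        rw [div_le_iff₀ (by positivity)]
        have g6 : 1 ≤ l ^ 4 * y := by
          rw [div_le_iff₀ (by positivity)] at hy
          linarith
        calc π = π * 1 := by ring
          _ ≤ π * (l ^ 4 * y) := by gcongr
          _ = _ := by ring
      have g7 : Real.log (π / (2 * y)) ≤ Real.log (π / 2 * l ^ 4) :=
        Real.log_le_log (by positivity) g5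
      rw [Real.log_mul (by positivity) (by positivity), Real.log_pow] at g7
      have h8 : Real.log (π / 2) ≤ 1 := by
        have := Real.log_le_sub_one_of_pos (show 0 < π / 2 by positivity)
        linarith
      push_cast at g7
      linarith
    have g8 : 1 / 4 * Real.log (1 + b' * (B' + 2 * l ^ 21 + 2 * l ^ 15)) ≤ 11 / 2 * Real.log l := by
      have g9 : 1 + b' * (B' + 2 * l ^ 21 + 2 * l ^ 15) ≤ l ^ 22 := by
        calc 1 + b' * (B' + 2 * l ^ 21 + 2 * l ^ 15) ≤ l ^ 21 + π / 2 * (l ^ 21 + 2 * l ^ 21 + 2 * l ^ 21) := by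
              gcongr
          _ ≤ 10 * l ^ 21 := by nlinarith
          _ ≤ l * l ^ 21 := by gcongr; linarith
          _ = _ := by ring
      have g10 : Real.log (1 + b' * (B' + 2 * l ^ 21 + 2 * l ^ 15)) ≤ Real.log (l ^ 22) :=
        Real.log_le_log (by positivity) g9
      rw [Real.log_pow] at g10
      push_cast at g10
      linarith
    have g11 := gl b hb0
    have g12 := gl b' hb0'
    linarith
  -- second exponent
  have f3 : (1 + π / 2 * BT n c) * N ≤ Real.exp (4 * l) := by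
    have g1 : BT n c ≤ BT n a + 2 * l ^ 21 := by
      unfold BT
      have g2 : ∑ k : Fin K, ((k : ℕ) + 1 : ℝ) * |c k| ≤
          ∑ k : Fin K, ((k : ℕ) + 1 : ℝ) * |a k| + ∑ k : Fin K, ((k : ℕ) + 1 : ℝ) * |lo p1 d k| := by
        rw [← Finset.sum_add_distrib]
        refine Finset.sum_le_sum fun k _ => ?_
        rw [← mul_add]
        gcongr
        exact abs_add_le _ _
      have g3 := sum1_le_sum2 (lo p1 d)
      linarith
    have hBa := BT_ge_one n a
    have g2 : 1 + π / 2 * BT n a ≤ Real.exp l := by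
      rw [← Real.log_le_iff_le_exp (by positivity)]
      exact hBT
    have g3 : N ≤ Real.exp l := by
      have g4 : Real.log N ≤ l := by
        refine le_trans (Real.log_le_log hN0 ?_) hNl
        nlinarith
      rw [← Real.log_le_iff_le_exp hN0]
      exact g4
    have g5 : l ^ 21 ≤ Real.exp (21 * Real.log l) := by
      rw [← Real.log_rpow hl0, Real.exp_log (by positivity)]
      exact_mod_cast le_rfl
    have g6 : 1 + π * l ^ 21 ≤ Real.exp (2 * l) := by
      have g7 : 1 + π * l ^ 21 ≤ l ^ 22 := by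
        calc 1 + π * l ^ 21 ≤ l ^ 21 + 3.15 * l ^ 21 := by gcongr
          _ ≤ l * l ^ 21 := by nlinarith
          _ = _ := by ring
      have g8 : l ^ 22 ≤ Real.exp (2 * l) := by
        have g9 : Real.log (l ^ 22) ≤ 2 * l := by
          rw [Real.log_pow]
          push_cast
          -- log l <= sqrt-type bound: log l <= l / 11
          have g10 : Real.log l ≤ l / 11 := by
            have g11 : Real.log (l / 50) ≤ l / 50 - 1 :=
              Real.log_le_sub_one_of_pos (by positivity)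
            have g12 : Real.log l = Real.log (l / 50) + Real.log 50 := by
              rw [← Real.log_mul (by positivity) (by norm_num)]
              congr 1
              ring
            have g13 : Real.log 50 ≤ 6 := by
              have g14 : (50 : ℝ) ≤ Real.exp 6 := by
                have g15 : Real.exp 6 = Real.exp 1 ^ 6 := by rw [← Real.exp_nat_mul]; norm_num
                have g16 := Real.exp_one_gt_d9
                rw [g15]
                calc (50 : ℝ) ≤ 2.7 ^ 6 := by norm_num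
                  _ ≤ Real.exp 1 ^ 6 := pow_le_pow_left₀ (by norm_num) (by linarith) 6
              calc Real.log 50 ≤ Real.log (Real.exp 6) := Real.log_le_log (by norm_num) g14
                _ = 6 := Real.log_exp 6
            linarith
          linarith
        rw [← Real.log_le_iff_le_exp (by positivity)]
        exact g9
      exact g7.trans g8
    calc (1 + π / 2 * BT n c) * N ≤ (1 + π / 2 * (BT n a + 2 * l ^ 21)) * N := by gcongr
      _ ≤ ((1 + π / 2 * BT n a) * (1 + π * l ^ 21)) * N := by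
        gcongr
        have : 0 ≤ π / 2 * BT n a * (π * l ^ 21) := by positivity
        nlinarith
      _ ≤ (Real.exp l * Real.exp (2 * l)) * Real.exp l := by gcongr
      _ = _ := by
        rw [← Real.exp_add, ← Real.exp_add]
        congr 1
        ring
  have f4 : 15 + 3 / 2 * √D * (p0 : ℝ) ^ 2 + D * (p0 : ℝ) ^ 3 - l ^ 15 ≤ -(4 * l) := by
    have g1 : √D ≤ 5 * l := by
      rw [Real.sqrt_le_left (by positivity)]
      nlinarith
    have g2 : 3 / 2 * √D * (p0 : ℝ) ^ 2 ≤ 3 / 2 * (5 * l) * (1.01 * l ^ 4) ^ 2 := by gcongr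
    have g3 : D * (p0 : ℝ) ^ 3 ≤ 17 * l ^ 2 * (1.01 * l ^ 4) ^ 3 := by gcongr
    have g4 : 3 / 2 * (5 * l) * (1.01 * l ^ 4) ^ 2 = 7.65075 * l ^ 9 := by ring
    have g5 : 17 * l ^ 2 * (1.01 * l ^ 4) ^ 3 = 17.515117 * l ^ 14 := by ring
    have g6 : l ^ 9 ≤ l ^ 14 := hpow 9 14 (by norm_num)
    have g7 : l ≤ l ^ 14 := by
      calc l = l ^ 1 := by ring
        _ ≤ _ := hpow 1 14 (by norm_num)
    have g8 : (1:ℝ) ≤ l ^ 14 := one_le_pow₀ hl1
    have g9 : l ^ 15 = l * l ^ 14 := by ring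
    have g10 : 300 * l ^ 14 ≤ l * l ^ 14 := by gcongr
    rw [g9]
    linarith
  have f5 : (1 + π / 2 * BT n c) * N *
      Real.exp (15 + 3 / 2 * √D * (p0 : ℝ) ^ 2 + D * (p0 : ℝ) ^ 3 - l ^ 15) ≤ 1 := by
    have hBc := BT_ge_one n c
    calc (1 + π / 2 * BT n c) * N *
        Real.exp (15 + 3 / 2 * √D * (p0 : ℝ) ^ 2 + D * (p0 : ℝ) ^ 3 - l ^ 15) ≤
        Real.exp (4 * l) * Real.exp (-(4 * l)) := by gcongr
      _ = 1 := by rw [← Real.exp_add]; simp
  have f6 : Real.exp (tG (P / 2 / 2) (2 * (2 * A + 1) + 1) (R + 2 * l ^ 21 + 2 * l ^ 15) b b'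
      (B' + 2 * l ^ 21 + 2 * l ^ 15) + 3 + 2 * (Real.log (π / 2 * N)) ^ 2 * D / p0) ≤
      Real.exp (54 + 15 / 2 * Real.log l) := by
    apply Real.exp_le_exp.2
    linarith
  have f7 : (1:ℝ) ≤ Real.exp (54 + 15 / 2 * Real.log l) := Real.one_le_exp (by positivity)
  calc Real.exp 5 * (Real.exp (tG (P / 2 / 2) (2 * (2 * A + 1) + 1) (R + 2 * l ^ 21 + 2 * l ^ 15)
        b b' (B' + 2 * l ^ 21 + 2 * l ^ 15) + 3 + 2 * (Real.log (π / 2 * N)) ^ 2 * D / p0) +
        (1 + π / 2 * BT n c) * N *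
        Real.exp (15 + 3 / 2 * √D * (p0 : ℝ) ^ 2 + D * (p0 : ℝ) ^ 3 - l ^ 15)) ≤
      Real.exp 5 * (Real.exp (54 + 15 / 2 * Real.log l) + Real.exp (54 + 15 / 2 * Real.log l)) := by
        have := f5.trans f7
        gcongr
    _ = 2 * Real.exp (59 + 15 / 2 * Real.log l) := by
      rw [show 59 + 15 / 2 * Real.log l = 5 + (54 + 15 / 2 * Real.log l) by ring, Real.exp_add 5]
      ring
    _ ≤ Real.exp 1 * Real.exp (59 + 15 / 2 * Real.log l) := by
      gcongr
      have := Real.add_one_le_exp (1:ℝ)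
      linarith
    _ = Real.exp (60 + 15 / 2 * Real.log l) := by
      rw [← Real.exp_add]
      congr 1
      ring
    _ ≤ _ := by
      apply Real.exp_le_exp.2
      linarith

end

end Pool.Agent.FSz.Tau
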