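import Pool.Agent.FSz.TauG
import Pool.Agent.FSz.RUM

/-!
# The variances of the mixing fields
-/

open MeasureTheory Set Filter Topology ProbabilityTheory
open scoped Real NNReal ENNReal

namespace Pool.Agent.FSz.Tau

open NUMF NUC62 NUWC

noncomputable section

/-- exponential decay of `wc` -/
theorem wc_le {Λ : ℝ} (hΛ : 0 < Λ) (p : ℕ) :
    wc Λ p ≤ 4 / ((p : ℝ) + 1) * Real.exp (-(π ^ 2 / (4 * Λ) * ((p : ℝ) + 1))) := by
  have hpi := Real.pi_pos
  have hk := kp_pos hΛ p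
  have h1 := R_ge (y := π * kp Λ p / 8) (by positivity)
  have hy : π * kp Λ p / 8 = π ^ 2 / (4 * Λ) * ((p : ℝ) + 1) := by
    unfold kp
    field_simp
    ring
  rw [hy] at h1
  unfold wc
  rw [hy]
  set y := π ^ 2 / (4 * Λ) * ((p : ℝ) + 1) with hyd
  have h2 : 1 - Real.tanh (y / 2) ≤ 2 * Real.exp (-y) := by
    rw [Real.tanh_eq_sinh_div_cosh, Real.sinh_eq, Real.cosh_eq]
    have e1 : Real.exp (-(y / 2)) = (Real.exp (y / 2))⁻¹ := Real.exp_neg _
    have e2 : Real.exp (-y) = ((Real.exp (y / 2)) ^ 2)⁻¹ := by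
      rw [← Real.exp_nat_mul, ← Real.exp_neg]
      congr 1
      push_cast
      ring
    have hE := Real.exp_pos (y / 2)
    rw [e1, e2]
    set a := Real.exp (y / 2) with ha
    have h3 : 1 - (a - a⁻¹) / 2 / ((a + a⁻¹) / 2) = 2 / (a ^ 2 + 1) := by
      field_simp
      ring
    rw [h3, ← div_eq_mul_inv]
    apply div_le_div_of_nonneg_left (by norm_num) (by positivity)
    linarith
  have h3 : 1 - R y ≤ 2 * Real.exp (-y) := by linarith
  calc 2 / ((p : ℝ) + 1) * (1 - R y) ≤ 2 / ((p : ℝ) + 1) * (2 * Real.exp (-y)) := by gcongr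
    _ = _ := by ring

theorem exp_neg_le_inv {y : ℝ} (hy : 0 < y) : Real.exp (-y) ≤ 1 / y := by
  rw [Real.exp_neg, ← one_div]
  apply one_div_le_one_div_of_le hy
  linarith [Real.add_one_le_exp y]

/-- inverse of the loop factor -/
theorem inv_kap {G Λ : ℝ} (hG : 9 ≤ G) (hΛ : 0 < Λ) (K1 p : ℕ) :
    0 < 1 - kap (wK G Λ K1) p ∧
      (1 - kap (wK G Λ K1) p)⁻¹ ≤ 2 * Λ / ((p : ℝ) + 1) + 4 * π := by
  have hpi := Real.pi_pos
  have hk := kp_pos hΛ p
  have hp : (0 : ℝ) < (p : ℝ) + 1 := by positivity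
  have h1 := wK_half (G := G) (by linarith) hΛ K1 p
  have h2 := uh_ge hG hk
  have h3 := ratio_half hG hk
  have h4 := Vh_ge hk
  have h5 : 1 / 2 * (1 / (1 + kp Λ p)) ≤ uh G (kp Λ p) := by
    refine le_trans ?_ h2
    have h6 : 1 / 2 ≤ 1 - eG G / (1 + kp Λ p) := by linarith
    have h7 : 0 < 1 / (1 + kp Λ p) := by positivity
    gcongr
  have h6 : kp Λ p / (2 * π) * (1 / 2 * (1 / (1 + kp Λ p))) ≤ 1 - kap (wK G Λ K1) p := by
    unfold kap
    refine le_trans ?_ h1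
    gcongr
  have h7 : 0 < kp Λ p / (2 * π) * (1 / 2 * (1 / (1 + kp Λ p))) := by positivity
  refine ⟨lt_of_lt_of_le h7 h6, (inv_anti₀ h7 h6).trans (le_of_eq ?_)⟩
  unfold kp
  field_simp
  ring

/-- bound of the symbols -/
theorem wK_le' {G Λ : ℝ} (hG : 9 ≤ G) (hΛ : 0 < Λ) (K1 p : ℕ) :
    wK G Λ K1 p ≤ 4 / ((p : ℝ) + 1) * Real.exp (-(π ^ 2 / (4 * Λ) * ((p : ℝ) + 1))) +
      Λ / 128 / ((p : ℝ) + 1) ^ 2 := by
  have hpi := Real.pi_gt_three
  have h1 := wK_le (G := G) (by linarith) hΛ K1 p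
  have h2 := wc_le hΛ p
  have h3 : 2 / Λ * RGh G (kp Λ p) ≤ Λ / 128 / ((p : ℝ) + 1) ^ 2 := by
    have h4 := RGh_le' (k := kp Λ p) (show (1 : ℝ) ≤ G by linarith)
    have h5 := RGm_le' (show (1 : ℝ) ≤ G by linarith)
    have h6 := eG_half hG
    unfold eG at h6
    have h7 : RGm G ≤ 1 / 32 := by
      refine h5.trans ?_
      linarith
    calc 2 / Λ * RGh G (kp Λ p) ≤ 2 / Λ * (4 * (1 / 32) / (kp Λ p) ^ 2) := by
          gcongr
          exact h4.trans (by gcongr)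
      _ = Λ / (16 * π ^ 2) / ((p : ℝ) + 1) ^ 2 := by
        unfold kp
        field_simp
        ring
      _ ≤ _ := by
        have h8 : (128 : ℝ) ≤ 16 * π ^ 2 := by nlinarith
        gcongr
  unfold wG at h1
  linarith

theorem vT_eq {G Λ : ℝ} (hG : 9 ≤ G) (hΛ : 0 < Λ) (K1 p : ℕ) :
    (vT (wK G Λ K1) p : ℝ) = wK G Λ K1 p / 2 * (1 - kap (wK G Λ K1) p)⁻¹ := by
  have h1 := (inv_kap hG hΛ K1 p).1
  have h2 := wK_nonneg (G := G) (by linarith) hΛ K1 p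
  unfold vT
  rw [Real.coe_toNNReal _ (by positivity), div_eq_mul_inv]

/-- **variance** -/
theorem vT_le {G Λ : ℝ} (hG : 9 ≤ G) (hΛ : 0 < Λ) (K1 p : ℕ) :
    (vT (wK G Λ K1) p : ℝ) ≤ (16 * Λ + Λ ^ 2) / ((p : ℝ) + 1) ^ 2 := by
  have hpi := Real.pi_gt_three
  have hpi2 : π < 3.15 := Real.pi_lt_d2
  have hp : (0 : ℝ) < (p : ℝ) + 1 := by positivity
  have hp1 : (1 : ℝ) ≤ (p : ℝ) + 1 := by
    have : (0:ℝ) ≤ p := Nat.cast_nonneg p
    linarith
  obtain ⟨h1, h2⟩ := inv_kap hG hΛ K1 p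
  have h3 := wK_le' hG hΛ K1 p
  have h0 := wK_nonneg (G := G) (by linarith) hΛ K1 p
  have h4 := exp_neg_le_inv (y := π ^ 2 / (4 * Λ) * ((p : ℝ) + 1)) (by positivity)
  have h5 : Real.exp (-(π ^ 2 / (4 * Λ) * ((p : ℝ) + 1))) ≤ 1 := by
    rw [Real.exp_le_one_iff]
    have : 0 < π ^ 2 / (4 * Λ) * ((p : ℝ) + 1) := by positivity
    linarith
  have hE := Real.exp_pos (-(π ^ 2 / (4 * Λ) * ((p : ℝ) + 1)))
  rw [vT_eq hG hΛ]
  set E := Real.exp (-(π ^ 2 / (4 * Λ) * ((p : ℝ) + 1))) with hEd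
  have hinv : 0 ≤ (1 - kap (wK G Λ K1) p)⁻¹ := (inv_pos.2 h1).le
  have e1 : 4 / ((p : ℝ) + 1) * E * (2 * Λ / ((p : ℝ) + 1)) ≤ 8 * Λ / ((p : ℝ) + 1) ^ 2 := by
    calc 4 / ((p : ℝ) + 1) * E * (2 * Λ / ((p : ℝ) + 1)) ≤
        4 / ((p : ℝ) + 1) * 1 * (2 * Λ / ((p : ℝ) + 1)) := by gcongr
      _ = _ := by field_simp; ring
  have e2 : 4 / ((p : ℝ) + 1) * E * (4 * π) ≤ 64 / π * Λ / ((p : ℝ) + 1) ^ 2 := by
    calc 4 / ((p : ℝ) + 1) * E * (4 * π) ≤
        4 / ((p : ℝ) + 1) * (1 / (π ^ 2 / (4 * Λ) * ((p : ℝ) + 1))) * (4 * π) := by gcongr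
      _ = _ := by field_simp; ring
  have e3 : Λ / 128 / ((p : ℝ) + 1) ^ 2 * (2 * Λ / ((p : ℝ) + 1)) ≤
      Λ ^ 2 / 64 / ((p : ℝ) + 1) ^ 2 := by
    calc Λ / 128 / ((p : ℝ) + 1) ^ 2 * (2 * Λ / ((p : ℝ) + 1)) ≤
        Λ / 128 / ((p : ℝ) + 1) ^ 2 * (2 * Λ / 1) := by gcongr
      _ = _ := by ring
  have e4 : Λ / 128 / ((p : ℝ) + 1) ^ 2 * (4 * π) = π * Λ / 32 / ((p : ℝ) + 1) ^ 2 := by ring
  have e5 : (64 : ℝ) / π ≤ 22 := by
    rw [div_le_iff₀ (by positivity)]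
    linarith
  calc wK G Λ K1 p / 2 * (1 - kap (wK G Λ K1) p)⁻¹ ≤
      (4 / ((p : ℝ) + 1) * E + Λ / 128 / ((p : ℝ) + 1) ^ 2) / 2 *
        (2 * Λ / ((p : ℝ) + 1) + 4 * π) := by gcongr
    _ = (4 / ((p : ℝ) + 1) * E * (2 * Λ / ((p : ℝ) + 1)) + 4 / ((p : ℝ) + 1) * E * (4 * π) +
        (Λ / 128 / ((p : ℝ) + 1) ^ 2 * (2 * Λ / ((p : ℝ) + 1)) +
        Λ / 128 / ((p : ℝ) + 1) ^ 2 * (4 * π))) / 2 := by ring
    _ ≤ (8 * Λ / ((p : ℝ) + 1) ^ 2 + 64 / π * Λ / ((p : ℝ) + 1) ^ 2 +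
        (Λ ^ 2 / 64 / ((p : ℝ) + 1) ^ 2 + π * Λ / 32 / ((p : ℝ) + 1) ^ 2)) / 2 := by
        rw [e4]
        gcongr
    _ = ((8 + 64 / π + π / 32) / 2 * Λ + Λ ^ 2 / 128) / ((p : ℝ) + 1) ^ 2 := by ring
    _ ≤ _ := by
        have e6 : (8 + 64 / π + π / 32) / 2 ≤ 16 := by linarith
        have e7 : Λ ^ 2 / 128 ≤ Λ ^ 2 := by
          have := sq_nonneg Λ
          linarith
        gcongr

/-- the number in `avg_univ` and `avg_good` -/
def NW (Λ : ℝ) (K1 : ℕ) : ℝ := (K1 + 3 * Λ ^ 2) * (Λ ^ 2 + 16 * Λ + 26)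

theorem NW_ge {Λ : ℝ} (hΛ : 0 < Λ) {K1 : ℕ} (hK1 : 1 ≤ K1) : 1 ≤ NW Λ K1 := by
  unfold NW
  have h1 : (1 : ℝ) ≤ K1 := by exact_mod_cast hK1
  have h2 : (1 : ℝ) ≤ K1 + 3 * Λ ^ 2 := by nlinarith [sq_nonneg Λ]
  have h3 : (1 : ℝ) ≤ Λ ^ 2 + 16 * Λ + 26 := by nlinarith [sq_nonneg Λ]
  nlinarith

theorem sqrt_le_self {y z : ℝ} (hy : 1 ≤ z) (h : y ≤ z) : √y ≤ z := by
  rw [Real.sqrt_le_left (by linarith)]
  nlinarith

theorem geom_tail {a : ℝ} (ha : 0 < a) (K : ℕ) :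
    ∑ k ∈ Finset.range K, Real.exp (-(a * ((k : ℝ) + 1))) ≤ 1 / a := by
  have key : ∀ K : ℕ, a * ∑ k ∈ Finset.range K, Real.exp (-(a * ((k : ℝ) + 1))) ≤
      1 - Real.exp (-(a * K)) := by
    intro K
    induction K with
    | zero => simp
    | succ K ih =>
      rw [Finset.sum_range_succ, mul_add]
      have h1 : a * Real.exp (-(a * ((K : ℝ) + 1))) ≤
          Real.exp (-(a * K)) - Real.exp (-(a * ((K : ℝ) + 1))) := by
        have e : Real.exp (-(a * K)) = Real.exp (-(a * ((K : ℝ) + 1))) * Real.exp a := by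
          rw [← Real.exp_add]; congr 1; ring
        rw [e]
        have := Real.add_one_le_exp a
        have h2 := Real.exp_pos (-(a * ((K : ℝ) + 1)))
        nlinarith
      push_cast
      linarith
  rw [le_div_iff₀ ha, mul_comm]
  have := key K
  have := Real.exp_pos (-(a * K))
  linarith

/-- **first moments** -/
theorem vT_sum {G Λ : ℝ} (hG : 9 ≤ G) (hΛ : 0 < Λ) (K1 K : ℕ) :
    ∑ k : Fin K, ((k : ℕ) + 1 : ℝ) * √(vT (wK G Λ K1) k : ℝ) ≤ NW Λ K1 := by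
  have hpi := Real.pi_gt_three
  have hpi2 : π < 3.15 := Real.pi_lt_d2
  rw [Fin.sum_univ_eq_sum_range (fun k => ((k : ℝ) + 1) * √(vT (wK G Λ K1) k : ℝ)) K]
  set W := Λ ^ 2 + 16 * Λ + 26 with hW
  have hW1 : 1 ≤ W := by rw [hW]; nlinarith [sq_nonneg Λ]
  set a := π ^ 2 / (4 * Λ) with ha
  have ha0 : 0 < a := by positivity
  have h1 : ∀ k : ℕ, ((k : ℝ) + 1) * √(vT (wK G Λ K1) k : ℝ) ≤
      (if k < K1 then W else 0) + 4 / a * W * Real.exp (-(a / 4 * ((k : ℝ) + 1))) := by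
    intro k
    have hk : (0 : ℝ) < (k : ℝ) + 1 := by positivity
    have hE := Real.exp_pos (-(a / 4 * ((k : ℝ) + 1)))
    split_ifs with h
    · have h2 := vT_le hG hΛ K1 k
      have h3 : √(vT (wK G Λ K1) k : ℝ) ≤ √(16 * Λ + Λ ^ 2) / ((k : ℝ) + 1) := by
        rw [Real.sqrt_le_left (by positivity), div_pow, Real.sq_sqrt (by positivity)]
        exact h2
      have h4 : √(16 * Λ + Λ ^ 2) ≤ W := sqrt_le_self hW1 (by rw [hW]; linarith)
      have h5 : 0 ≤ 4 / a * W * Real.exp (-(a / 4 * ((k : ℝ) + 1))) := by positivity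
      calc ((k : ℝ) + 1) * √(vT (wK G Λ K1) k : ℝ) ≤
          ((k : ℝ) + 1) * (√(16 * Λ + Λ ^ 2) / ((k : ℝ) + 1)) := by gcongr
        _ = √(16 * Λ + Λ ^ 2) := by field_simp
        _ ≤ _ := by linarith
    · rw [zero_add]
      obtain ⟨h2, h3⟩ := inv_kap hG hΛ K1 k
      have h4 : wK G Λ K1 k ≤ 4 * Real.exp (-(a * ((k : ℝ) + 1))) := by
        rw [wK, if_neg h]
        refine (wc_le hΛ k).trans ?_
        have : 4 / ((k : ℝ) + 1) ≤ 4 := by
          apply div_le_self (by norm_num)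
          have : (0:ℝ) ≤ k := Nat.cast_nonneg k
          linarith
        gcongr
      have h5 : (1 - kap (wK G Λ K1) k)⁻¹ ≤ 2 * Λ + 4 * π := by
        refine h3.trans ?_
        have : 2 * Λ / ((k : ℝ) + 1) ≤ 2 * Λ := by
          apply div_le_self (by positivity)
          have : (0:ℝ) ≤ k := Nat.cast_nonneg k
          linarith
        linarith
      have h6 : (vT (wK G Λ K1) k : ℝ) ≤ Real.exp (-(a * ((k : ℝ) + 1))) * (4 * Λ + 8 * π) := by
        rw [vT_eq hG hΛ]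
        calc wK G Λ K1 k / 2 * (1 - kap (wK G Λ K1) k)⁻¹ ≤
            (4 * Real.exp (-(a * ((k : ℝ) + 1)))) / 2 * (2 * Λ + 4 * π) := by
              have := (inv_pos.2 h2).le
              gcongr
          _ = _ := by ring
      have h7 : √(vT (wK G Λ K1) k : ℝ) ≤ Real.exp (-(a / 2 * ((k : ℝ) + 1))) * W := by
        rw [Real.sqrt_le_left (by positivity), mul_pow, ← Real.exp_nat_mul]
        have e : ((2 : ℕ) : ℝ) * -(a / 2 * ((k : ℝ) + 1)) = -(a * ((k : ℝ) + 1)) := by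
          push_cast; ring
        rw [e]
        refine h6.trans ?_
        gcongr
        have h8 : 4 * Λ + 8 * π ≤ W := by rw [hW]; nlinarith [sq_nonneg Λ]
        nlinarith
      have h8 : ((k : ℝ) + 1) ≤ 4 / a * Real.exp (a / 4 * ((k : ℝ) + 1)) := by
        have h9 := Real.add_one_le_exp (a / 4 * ((k : ℝ) + 1))
        calc ((k : ℝ) + 1) = 4 / a * (a / 4 * ((k : ℝ) + 1)) := by field_simp
          _ ≤ 4 / a * Real.exp (a / 4 * ((k : ℝ) + 1)) := by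
            gcongr
            linarith
      calc ((k : ℝ) + 1) * √(vT (wK G Λ K1) k : ℝ) ≤
          (4 / a * Real.exp (a / 4 * ((k : ℝ) + 1))) *
            (Real.exp (-(a / 2 * ((k : ℝ) + 1))) * W) := by gcongr
        _ = 4 / a * W * (Real.exp (a / 4 * ((k : ℝ) + 1)) *
            Real.exp (-(a / 2 * ((k : ℝ) + 1)))) := by ring
        _ = _ := by
          rw [← Real.exp_add]
          congr 2
          ring
  refine (Finset.sum_le_sum fun k _ => h1 k).trans ?_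
  rw [Finset.sum_add_distrib, ← Finset.mul_sum]
  have h2 := geom_tail (a := a / 4) (by positivity) K
  have h3 : ∑ k ∈ Finset.range K, (if k < K1 then W else 0) ≤ K1 * W := by
    rw [← Finset.sum_filter, Finset.sum_const, nsmul_eq_mul]
    have h4 : ((Finset.range K).filter (fun k => k < K1)).card ≤ K1 := by
      calc ((Finset.range K).filter (fun k => k < K1)).card ≤ (Finset.range K1).card := by
            apply Finset.card_le_card
            intro k hk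
            simp only [Finset.mem_filter, Finset.mem_range] at hk ⊢
            exact hk.2
        _ = K1 := Finset.card_range _
    have h5 : (((Finset.range K).filter (fun k => k < K1)).card : ℝ) ≤ K1 := by exact_mod_cast h4
    gcongr
  have h4 : 4 / a * W * ∑ k ∈ Finset.range K, Real.exp (-(a / 4 * ((k : ℝ) + 1))) ≤
      3 * Λ ^ 2 * W := by
    calc 4 / a * W * ∑ k ∈ Finset.range K, Real.exp (-(a / 4 * ((k : ℝ) + 1))) ≤
        4 / a * W * (1 / (a / 4)) := by gcongr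
      _ = 256 / π ^ 4 * Λ ^ 2 * W := by
        rw [ha]
        field_simp
        ring
      _ ≤ 3 * Λ ^ 2 * W := by
        have h5 : 256 / π ^ 4 ≤ 3 := by
          rw [div_le_iff₀ (by positivity)]
          have h6 : 9.8 ≤ π ^ 2 := by
            have := Real.pi_gt_d2
            nlinarith
          have h7 : π ^ 4 = (π ^ 2) ^ 2 := by ring
          rw [h7]
          nlinarith
        gcongr
  unfold NW
  linarith

end

end Pool.Agent.FSz.Tau
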